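import Mathlib

/-!
# Reverse Minkowski with polynomial slack: definitions and module interface (helper5)

Paper proof: /team-store/MP_86f7a7_RM_PROOF.md
-/

set_option autoImplicit false

open MeasureTheory ProbabilityTheory Matrix
open scoped RealInnerProductSpace

namespace Pool.Agent.RevMink

/-- Euclidean space. -/
abbrev E (n : ℕ) := EuclideanSpace ℝ (Fin n)

/-! ## Part I : convex geometry (key proposition) -/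

/-- sign vector of a point of the discrete cube. -/
noncomputable def sv {n : ℕ} (w : Fin n → Bool) : E n :=
  WithLp.toLp 2 (fun i => if w i then (1 : ℝ) else -1)

/-- expectation on the cube. -/
noncomputable def cubeE {n : ℕ} (f : (Fin n → Bool) → ℝ) : ℝ := (∑ w, f w) / 2 ^ n

/-- support function of a set. -/
noncomputable def supp {n : ℕ} (K : Set (E n)) (z : E n) : ℝ :=
  sSup ((fun x : E n => ⟪x, z⟫) '' K)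

/-- the linear map `z ↦ E_w [⟪w,z⟫ F(w)]`. -/
noncomputable def Amap {n : ℕ} (F : (Fin n → Bool) → E n) (z : E n) : E n :=
  ((2 : ℝ) ^ n)⁻¹ • ∑ w, ⟪sv w, z⟫ • F w

/-- the standard Gaussian measure on `E n`. -/
noncomputable abbrev gam (n : ℕ) : Measure (E n) := stdGaussian (E n)

/-- polar body of a finite set. -/
def pol {n : ℕ} (N : Finset (E n)) : Set (E n) := {x | ∀ f ∈ N, ⟪f, x⟫ ≤ 1}

/-- KP1: K-convexity on the cube (Pisier's argument with polynomial slack; finite Walsh expansion). -/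
def Stmt_KP1 : Prop :=
  ∀ m : ℕ, 1 ≤ m → ∃ C : ℝ, 0 < C ∧ ∀ n : ℕ, 1 ≤ n → ∀ K : Set (E n), K.Nonempty →
    (∀ x ∈ K, -x ∈ K) → (∀ x ∈ K, ‖x‖ ≤ n) →
    ∀ F : (Fin n → Bool) → E n, (∀ w, ‖F w‖ ≤ 2) → (∀ w, ∀ x ∈ K, ⟪x, F w⟫ ≤ 1) →
      cubeE (fun w => supp K (Amap F (sv w))) ≤ C * (n : ℝ) ^ ((1 : ℝ) / (m + 1))

/-- KP2: contraction principle, Gaussian versus signs, with the loss `n^{1/q}`. -/
def Stmt_KP2 : Prop :=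
  ∀ q : ℕ, 1 ≤ q → ∃ C : ℝ, 0 < C ∧ ∀ n : ℕ, 1 ≤ n → ∀ h : Seminorm ℝ (E n),
    Integrable h (gam n) ∧
    ∫ z, h z ∂(gam n) ≤ C * (n : ℝ) ^ ((1 : ℝ) / q) * cubeE (fun w => h (sv w))

/-- KP3: dual Sudakov inequality. -/
def Stmt_KP3 : Prop :=
  ∀ (n : ℕ) (h : Seminorm ℝ (E n)) (W δ : ℝ), 0 < W → 0 < δ → ∫ z, h z ∂(gam n) ≤ W →
    ∀ S : Finset (E n), (∀ u ∈ S, ‖u‖ ≤ 1) → (∀ u ∈ S, ∀ v ∈ S, u ≠ v → δ ≤ h (u - v)) →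
      (S.card : ℝ) ≤ 2 * Real.exp (8 * W ^ 2 / δ ^ 2)

/-- KP4: Sudakov covering for a symmetric convex set inside the unit ball
(to be proved from `Stmt_KP3`, which may be taken as a hypothesis). -/
def Stmt_KP4 : Prop :=
  ∀ (n : ℕ) (T : Set (E n)) (W : ℝ), 1 ≤ W → Convex ℝ T → T.Nonempty → (∀ x ∈ T, -x ∈ T) →
    (∀ x ∈ T, ‖x‖ ≤ 1) → ∫ z, supp T z ∂(gam n) ≤ W →
    ∀ k : ℕ, ∃ S : Finset (E n), (∀ t ∈ S, t ∈ T) ∧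
      (S.card : ℝ) ≤ Real.exp (800 * W ^ 2 * 4 ^ k) ∧
      (k = 0 → S = {0}) ∧
      ∀ y ∈ T, ∃ t ∈ S, ‖y - t‖ ≤ ((2 : ℝ) ^ k)⁻¹

/-- KP5: chaining for a subgaussian vector. -/
def Stmt_KP5 : Prop :=
  ∃ C : ℝ, 0 < C ∧ ∀ (n : ℕ) (T : Set (E n)) (W : ℝ), 1 ≤ W → T.Nonempty → (∀ x ∈ T, ‖x‖ ≤ 1) →
    (∀ k : ℕ, ∃ S : Finset (E n), (∀ t ∈ S, t ∈ T) ∧
      (S.card : ℝ) ≤ Real.exp (800 * W ^ 2 * 4 ^ k) ∧
      (k = 0 → S = {0}) ∧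
      ∀ y ∈ T, ∃ t ∈ S, ‖y - t‖ ≤ ((2 : ℝ) ^ k)⁻¹) →
    ∀ (μ : Measure (E n)) [IsProbabilityMeasure μ] (σ B : ℝ), 0 < σ →
      Integrable (fun x => ‖x‖) μ → ∫ x, ‖x‖ ∂μ ≤ B →
      (∀ θ : E n, Integrable (fun x => Real.exp ⟪x, θ⟫) μ ∧
        ∫ x, Real.exp ⟪x, θ⟫ ∂μ ≤ Real.exp (σ ^ 2 * ‖θ‖ ^ 2 / 2)) →
      ∀ J : ℕ, ∫ x, supp T x ∂μ ≤ C * W * σ * J + ((2 : ℝ) ^ J)⁻¹ * B

/-- KP: key proposition. -/
def Stmt_KP : Prop :=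
  ∀ c' : ℝ, 0 < c' → ∃ C : ℝ, 0 < C ∧ ∀ n : ℕ, 1 ≤ n → ∀ N : Finset (E n), N.Nonempty →
    (∀ f ∈ N, -f ∈ N) → (∀ f ∈ N, ‖f‖ ≤ 2) → (∀ x ∈ pol N, ‖x‖ ≤ n) →
    gam n (pol N) ≤ 1 / 2 →
    ∀ (μ : Measure (E n)) [IsProbabilityMeasure μ], μ (pol N)ᶜ = 0 →
    ∀ c s : ℝ, 1 ≤ s → (∀ a b : E n, ∫ x, ⟪x, a⟫ * ⟪x, b⟫ ∂μ = c * ⟪a, b⟫) →
    (∀ θ : E n, ∫ x, Real.exp ⟪x, θ⟫ ∂μ ≤ Real.exp (s ^ 2 * ‖θ‖ ^ 2 / 2)) →
      c ≤ C * (n : ℝ) ^ c' * s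

/-! ## Part II : lattices, given by the Gram matrix `P` of the lattice `D ≅ ℤ^n` -/

/-- quadratic form of a matrix. -/
def qf {n : ℕ} (P : Matrix (Fin n) (Fin n) ℝ) (x : Fin n → ℝ) : ℝ := x ⬝ᵥ (P *ᵥ x)

/-- cast of an integer vector. -/
def zc {n : ℕ} (z : Fin n → ℤ) : Fin n → ℝ := fun i => (z i : ℝ)

/-- cast of an integer matrix. -/
def zm {n k : ℕ} (A : Matrix (Fin n) (Fin k) ℤ) : Matrix (Fin n) (Fin k) ℝ := A.map (Int.cast)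

/-- Gram matrix of the columns of `A`. -/
def gram {n k : ℕ} (P : Matrix (Fin n) (Fin n) ℝ) (A : Matrix (Fin n) (Fin k) ℤ) :
    Matrix (Fin k) (Fin k) ℝ := (zm A)ᵀ * P * zm A

/-- squared distance of `-u` to the lattice. -/
noncomputable def dsq {n : ℕ} (P : Matrix (Fin n) (Fin n) ℝ) (u : Fin n → ℝ) : ℝ :=
  ⨅ z : Fin n → ℤ, qf P (u + zc z)

/-- `E_U exp(-π dist(U,D)²)`, `U` uniform on the torus. -/
noncomputable def Zf {n : ℕ} (P : Matrix (Fin n) (Fin n) ℝ) : ℝ :=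
  ∫ u in Set.Icc (0 : Fin n → ℝ) 1, Real.exp (-Real.pi * dsq P u)

/-- the lattice is dense: all quotients have determinant at most one
(`det(D/M)² = det P / det (Aᵀ P A)`, `M` spanned by the columns of `A`; `k = 0` gives `det P ≤ 1`). -/
def Dense {n : ℕ} (P : Matrix (Fin n) (Fin n) ℝ) : Prop :=
  ∀ k : ℕ, k < n → ∀ A : Matrix (Fin n) (Fin k) ℤ, (gram P A).det = 0 ∨ P.det ≤ (gram P A).det

/-- sparse: all nonzero sublattices have determinant at least one. -/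
def Sparse {n : ℕ} (Q : Matrix (Fin n) (Fin n) ℝ) : Prop :=
  ∀ k : ℕ, 1 ≤ k → k ≤ n → ∀ A : Matrix (Fin n) (Fin k) ℤ, (gram Q A).det = 0 ∨ 1 ≤ (gram Q A).det

/-- integral change of basis. -/
def GLZ {n : ℕ} (U : Matrix (Fin n) (Fin n) ℤ) : Prop := IsUnit U.det

/-- LA1: reduction: a dense lattice has a basis with all squared norms `≤ n²`. -/
def Stmt_LA1 : Prop :=
  ∀ n : ℕ, ∀ P : Matrix (Fin n) (Fin n) ℝ, P.PosDef → Dense P →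
    ∃ U : Matrix (Fin n) (Fin n) ℤ, GLZ U ∧ ∀ i, gram P U i i ≤ (n : ℝ) ^ 2

/-- LA1b: covering radius of a dense lattice. -/
def Stmt_LA1b : Prop :=
  ∀ n : ℕ, ∀ P : Matrix (Fin n) (Fin n) ℝ, P.PosDef → Dense P →
    ∀ u : Fin n → ℝ, dsq P u ≤ (n : ℝ) ^ 2 / 4

/-- LA2: decomposition along a sublattice with quotient of determinant one. -/
def Stmt_LA2 : Prop :=
  ∀ n : ℕ, ∀ P : Matrix (Fin n) (Fin n) ℝ, P.PosDef → Dense P →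
    ∀ k : ℕ, 0 < k → k < n → ∀ A : Matrix (Fin n) (Fin k) ℤ, (gram P A).det = P.det →
    ∃ (P₁ : Matrix (Fin k) (Fin k) ℝ) (P₂ : Matrix (Fin (n - k)) (Fin (n - k)) ℝ),
      P₁.PosDef ∧ P₂.PosDef ∧ Dense P₁ ∧ Dense P₂ ∧
      ∀ t : ℝ, 0 < t → Zf (t • P₁) * Zf (t • P₂) ≤ Zf (t • P)

/-- LA3: openness of the conditions for `0 < k < n`. -/
def Stmt_LA3 : Prop :=
  ∀ n : ℕ, ∀ P₁ : Matrix (Fin n) (Fin n) ℝ, P₁.PosDef → Dense P₁ →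
    (∀ k : ℕ, 0 < k → k < n → ∀ A : Matrix (Fin n) (Fin k) ℤ, (gram P₁ A).det ≠ P₁.det) →
    ∃ δ : ℝ, 0 < δ ∧ ∀ P : Matrix (Fin n) (Fin n) ℝ, P.PosDef → (∀ i j, |P i j - P₁ i j| < δ) →
      ∀ k : ℕ, 0 < k → k < n → ∀ A : Matrix (Fin n) (Fin k) ℤ,
        (gram P A).det = 0 ∨ P.det ≤ (gram P A).det

/-- LA4: basic properties of `Zf`. -/
def Stmt_LA4 : Prop :=
  (∀ n : ℕ, ContinuousOn (fun P : Matrix (Fin n) (Fin n) ℝ => Zf P) {P | P.PosDef}) ∧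
  (∀ n : ℕ, ∀ P : Matrix (Fin n) (Fin n) ℝ, P.PosDef → 0 < Zf P ∧ Zf P ≤ 1) ∧
  (∀ n : ℕ, ∀ P : Matrix (Fin n) (Fin n) ℝ, P.PosDef → ∀ U : Matrix (Fin n) (Fin n) ℤ, GLZ U →
    Zf (gram P U) = Zf P ∧ (gram P U).PosDef ∧ (Dense P → Dense (gram P U)) ∧
    (gram P U).det = P.det) ∧
  (∀ n : ℕ, ∀ P : Matrix (Fin n) (Fin n) ℝ, P.PosDef → ∀ t : ℝ, 1 ≤ t → Zf (t • P) ≤ Zf P)

/-- nearest-point selection with a.e. uniqueness: `x u - u ∈ ℤ^n`, `qf P (x u) = dsq P u`. -/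
def IsSel {n : ℕ} (P : Matrix (Fin n) (Fin n) ℝ) (x : (Fin n → ℝ) → (Fin n → ℝ)) : Prop :=
  Measurable x ∧ (∀ u, ∃ z : Fin n → ℤ, x u = u + zc z) ∧ (∀ u, qf P (x u) = dsq P u)

/-- LA5: existence of a measurable selection and first variation of `Zf` (one sided at a minimum). -/
def Stmt_LA5 : Prop :=
  ∀ n : ℕ, ∀ P : Matrix (Fin n) (Fin n) ℝ, P.PosDef →
    ∃ x : (Fin n → ℝ) → (Fin n → ℝ), IsSel P x ∧
      (∃ R : ℝ, ∀ u, ∀ i, |x u i| ≤ R) ∧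
      ∀ H : Matrix (Fin n) (Fin n) ℝ, H.IsSymm →
        HasDerivAt (fun t : ℝ => Zf (P + t • H))
          (-Real.pi * ∫ u in Set.Icc (0 : Fin n → ℝ) 1, qf H (x u) * Real.exp (-Real.pi * qf P (x u))) 0

/-- LA6: the measure on the Voronoi cell. For `P` positive definite with `det P = 1`, `λ₁ ≥ 1`
and covering radius `≤ n/2`, a critical point (isotropic) has small covariance.
`P` here is the matrix of the lattice; the Gaussian is `exp(-π t |x|²)`, `t = 1/s²`. -/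
def Stmt_LA6 : Prop :=
  ∀ c' : ℝ, 0 < c' → ∃ C : ℝ, 0 < C ∧ ∀ n : ℕ, 1 ≤ n → ∀ P : Matrix (Fin n) (Fin n) ℝ, P.PosDef →
    P.det = 1 → (∀ z : Fin n → ℤ, z ≠ 0 → 1 ≤ qf P (zc z)) → (∀ u, dsq P u ≤ (n : ℝ) ^ 2 / 4) →
    ∀ x : (Fin n → ℝ) → (Fin n → ℝ), IsSel P x → ∀ s c : ℝ, 1 ≤ s →
    (∀ H : Matrix (Fin n) (Fin n) ℝ, H.IsSymm →
      ∫ u in Set.Icc (0 : Fin n → ℝ) 1, qf H (x u) * Real.exp (-Real.pi * qf P (x u) / s ^ 2)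
        = c * (P⁻¹ * H).trace *
          ∫ u in Set.Icc (0 : Fin n → ℝ) 1, Real.exp (-Real.pi * qf P (x u) / s ^ 2)) →
      c ≤ C * (n : ℝ) ^ c' * s

/-- LA7: the main theorem for dense lattices. -/
def Stmt_LA7 : Prop :=
  ∀ c' : ℝ, 0 < c' → ∃ C : ℝ, 0 < C ∧ ∀ n : ℕ, 1 ≤ n → ∀ P : Matrix (Fin n) (Fin n) ℝ, P.PosDef →
    Dense P → ∀ s : ℝ, 1 ≤ s → Real.exp (-(C * (n : ℝ) ^ (1 + c') / s)) ≤ Zf ((s ^ 2)⁻¹ • P)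

/-- LA8: duality sparse/dense. -/
def Stmt_LA8 : Prop :=
  ∀ n : ℕ, ∀ Q : Matrix (Fin n) (Fin n) ℝ, Q.PosDef → Sparse Q → Dense Q⁻¹

/-- LA9: Poisson summation consequence. -/
def Stmt_LA9 : Prop :=
  ∀ n : ℕ, ∀ Q : Matrix (Fin n) (Fin n) ℝ, Q.PosDef → ∀ s : ℝ, 0 < s →
    ∀ S : Finset (Fin n → ℤ),
      (∑ z ∈ S, Real.exp (-Real.pi * s ^ 2 * qf Q (zc z))) * Zf ((s ^ 2)⁻¹ • Q⁻¹) ≤ 1

/-- Final: reverse Minkowski with polynomial slack. -/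
def Stmt_RM : Prop :=
  ∀ c' : ℝ, 0 < c' → ∃ C : ℝ, 0 < C ∧ ∀ n : ℕ, 1 ≤ n → ∀ Q : Matrix (Fin n) (Fin n) ℝ, Q.PosDef →
    Sparse Q → ∀ s : ℝ, 1 ≤ s → ∀ r : ℝ, ∀ S : Finset (Fin n → ℤ), (∀ z ∈ S, qf Q (zc z) ≤ r ^ 2) →
      (S.card : ℝ) ≤ Real.exp (Real.pi * s ^ 2 * r ^ 2 + C * (n : ℝ) ^ (1 + c') / s)

end Pool.Agent.RevMink
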