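import Pool.Agent.RevMink.Defs

/-!
LA1: reduction of dense lattices (Minkowski's first theorem + induction).
-/

set_option autoImplicit false

open MeasureTheory Matrix

namespace Pool.Agent.RevMink

namespace LA1Aux

variable {n k : ℕ}

lemma qf_nonneg {P : Matrix (Fin n) (Fin n) ℝ} (hP : P.PosDef) (x : Fin n → ℝ) : 0 ≤ qf P x := by
  by_cases hx : x = 0
  · subst hx; simp [qf]
  · have := hP.dotProduct_mulVec_pos hx
    simpa [qf] using this.le

lemma qf_pos {P : Matrix (Fin n) (Fin n) ℝ} (hP : P.PosDef) {x : Fin n → ℝ} (hx : x ≠ 0) :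
    0 < qf P x := by
  have := hP.dotProduct_mulVec_pos hx
  simpa [qf] using this

lemma symm_apply {P : Matrix (Fin n) (Fin n) ℝ} (hP : P.PosDef) (i j : Fin n) :
    P i j = P j i := by
  have := hP.isHermitian.apply i j
  simpa using this.symm

lemma posDef_of {P : Matrix (Fin n) (Fin n) ℝ} (h1 : ∀ i j, P i j = P j i)
    (h2 : ∀ x : Fin n → ℝ, x ≠ 0 → 0 < qf P x) : P.PosDef := by
  refine PosDef.of_dotProduct_mulVec_pos ?_ ?_
  · ext i j
    simp [h1 i j]
  · intro x hx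
    simpa [qf] using h2 x hx

lemma zm_mul {l : ℕ} (A : Matrix (Fin n) (Fin k) ℤ) (B : Matrix (Fin k) (Fin l) ℤ) :
    zm (A * B) = zm A * zm B := by
  unfold zm
  exact Matrix.map_mul (f := Int.castRingHom ℝ)

lemma gram_mul {l : ℕ} (P : Matrix (Fin n) (Fin n) ℝ) (A : Matrix (Fin n) (Fin k) ℤ)
    (B : Matrix (Fin k) (Fin l) ℤ) : gram (gram P A) B = gram P (A * B) := by
  unfold gram
  rw [zm_mul, Matrix.transpose_mul]
  simp only [Matrix.mul_assoc]

lemma qf_gram (P : Matrix (Fin n) (Fin n) ℝ) (A : Matrix (Fin n) (Fin k) ℤ) (x : Fin k → ℝ) :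
    qf (gram P A) x = qf P (zm A *ᵥ x) := by
  unfold qf gram
  rw [← Matrix.mulVec_mulVec, ← Matrix.mulVec_mulVec, Matrix.dotProduct_mulVec,
    Matrix.vecMul_transpose]

lemma gram_diag (P : Matrix (Fin n) (Fin n) ℝ) (A : Matrix (Fin n) (Fin k) ℤ) (i : Fin k) :
    gram P A i i = qf P (fun l => (A l i : ℝ)) := by
  unfold gram qf
  rw [Matrix.mul_assoc, Matrix.mul_apply']
  rfl

lemma det_zm (U : Matrix (Fin n) (Fin n) ℤ) : (zm U).det = (U.det : ℝ) := by
  unfold zm
  exact (Int.cast_det U).symm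

lemma glz_sq {U : Matrix (Fin n) (Fin n) ℤ} (hU : GLZ U) : ((U.det : ℝ)) ^ 2 = 1 := by
  rcases Int.isUnit_iff.mp hU with h | h <;> rw [h] <;> norm_num

lemma det_gram (P : Matrix (Fin n) (Fin n) ℝ) {U : Matrix (Fin n) (Fin n) ℤ} (hU : GLZ U) :
    (gram P U).det = P.det := by
  unfold gram
  rw [Matrix.det_mul, Matrix.det_mul, Matrix.det_transpose, det_zm]
  have := glz_sq hU
  linear_combination P.det * this

lemma zm_mulVec_ne {U : Matrix (Fin n) (Fin n) ℤ} (hU : GLZ U) {x : Fin n → ℝ} (hx : x ≠ 0) :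
    zm U *ᵥ x ≠ 0 := by
  intro h
  apply hx
  have hdet : IsUnit (zm U).det := by
    rw [det_zm]
    exact hU.map (Int.castRingHom ℝ)
  have h1 : (zm U)⁻¹ *ᵥ (zm U *ᵥ x) = 0 := by rw [h]; simp
  rw [Matrix.mulVec_mulVec, Matrix.nonsing_inv_mul _ hdet, Matrix.one_mulVec] at h1
  exact h1

lemma posDef_gram {P : Matrix (Fin n) (Fin n) ℝ} (hP : P.PosDef) {U : Matrix (Fin n) (Fin n) ℤ}
    (hU : GLZ U) : (gram P U).PosDef := by
  refine posDef_of (fun i j => ?_) (fun x hx => ?_)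
  · have h : (gram P U)ᵀ = gram P U := by
      unfold gram
      rw [Matrix.transpose_mul, Matrix.transpose_mul, Matrix.transpose_transpose]
      have hPt : Pᵀ = P := by
        ext i j; exact symm_apply hP j i
      rw [hPt, Matrix.mul_assoc]
    exact congrFun (congrFun h.symm i) j
  · rw [qf_gram]
    exact qf_pos hP (zm_mulVec_ne hU hx)

lemma dense_gram {P : Matrix (Fin n) (Fin n) ℝ} (hD : Dense P) {U : Matrix (Fin n) (Fin n) ℤ}
    (hU : GLZ U) : Dense (gram P U) := by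
  intro k hk A
  rw [gram_mul, det_gram P hU]
  exact hD k hk _

/-! ### Schur complement with respect to the first coordinate -/

/-- Schur complement. -/
noncomputable def schur (P : Matrix (Fin (n + 1)) (Fin (n + 1)) ℝ) : Matrix (Fin n) (Fin n) ℝ :=
  fun i j => P i.succ j.succ - P i.succ 0 * P 0 j.succ / P 0 0

lemma det_schur (P : Matrix (Fin (n + 1)) (Fin (n + 1)) ℝ) (h : P 0 0 ≠ 0) :
    P.det = P 0 0 * (schur P).det := by
  -- subtract multiples of the first row
  let B : Matrix (Fin (n + 1)) (Fin (n + 1)) ℝ :=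
    Matrix.of fun i j => P i j - (if i = 0 then 0 else P i 0 / P 0 0) * P 0 j
  have h1 : P.det = B.det := by
    refine Matrix.det_eq_of_forall_row_eq_smul_add_const
      (fun i => if i = 0 then 0 else P i 0 / P 0 0) 0 (by simp) ?_
    intro i j
    simp [B]
  rw [h1, Matrix.det_succ_column_zero, Fin.sum_univ_succ]
  have h2 : ∀ i : Fin n, B i.succ 0 = 0 := by
    intro i
    simp only [B, Matrix.of_apply, Fin.succ_ne_zero, if_false]
    field_simp
    ring
  have h3 : B 0 0 = P 0 0 := by simp [B]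
  simp only [h2, mul_zero, zero_mul, Finset.sum_const_zero, add_zero, Fin.val_zero, pow_zero,
    one_mul, h3]
  congr 2
  ext i j
  simp only [B, Matrix.submatrix_apply, Fin.succAbove_zero, Matrix.of_apply, Fin.succ_ne_zero,
    if_false, schur]
  ring

lemma qf_cons {P : Matrix (Fin (n + 1)) (Fin (n + 1)) ℝ} (hs : ∀ i j, P i j = P j i)
    (h : P 0 0 ≠ 0) (x : ℝ) (y : Fin n → ℝ) :
    qf P (Fin.cons x y) =
      P 0 0 * (x + (∑ j, P 0 j.succ * y j) / P 0 0) ^ 2 + qf (schur P) y := by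
  have e1 : qf P (Fin.cons x y) = x * (P 0 0 * x + ∑ j, P 0 j.succ * y j) +
      ∑ i, y i * (P i.succ 0 * x + ∑ j, P i.succ j.succ * y j) := by
    unfold qf
    simp only [dotProduct, mulVec, Fin.sum_univ_succ, Fin.cons_zero, Fin.cons_succ]
  have e2 : qf (schur P) y = ∑ i, y i * ((∑ j, P i.succ j.succ * y j) -
      P i.succ 0 / P 0 0 * ∑ j, P 0 j.succ * y j) := by
    unfold qf schur
    simp only [dotProduct, mulVec]
    refine Finset.sum_congr rfl fun i _ => ?_
    congr 1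
    rw [Finset.mul_sum, ← Finset.sum_sub_distrib]
    refine Finset.sum_congr rfl fun j _ => ?_
    ring
  set s := ∑ j, P 0 j.succ * y j with hsdef
  have e3 : ∑ i, y i * (P i.succ 0 * x) = x * s := by
    rw [hsdef, Finset.mul_sum]
    refine Finset.sum_congr rfl fun i _ => ?_
    rw [hs i.succ 0]; ring
  have e4 : ∑ i, y i * (P i.succ 0 / P 0 0 * s) = s * s / P 0 0 := by
    rw [hsdef]
    rw [show (∑ j, P 0 j.succ * y j) * (∑ j, P 0 j.succ * y j) / P 0 0 =
      ∑ j, (P 0 j.succ * y j) * ((∑ j, P 0 j.succ * y j) / P 0 0) by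
        rw [← Finset.sum_mul]; ring]
    refine Finset.sum_congr rfl fun i _ => ?_
    rw [hs i.succ 0]; ring
  rw [e1, e2]
  simp only [mul_add, mul_sub, Finset.sum_add_distrib, Finset.sum_sub_distrib]
  rw [e3, e4]
  field_simp
  ring

lemma posDef_schur {P : Matrix (Fin (n + 1)) (Fin (n + 1)) ℝ} (hP : P.PosDef) :
    (schur P).PosDef := by
  have h0 : 0 < P 0 0 := by
    have := qf_pos hP (x := Pi.single 0 1) (by
      intro h; have := congrFun h 0; simp at this)
    simpa [qf] using this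
  refine posDef_of (fun i j => ?_) (fun y hy => ?_)
  · unfold schur
    rw [symm_apply hP i.succ j.succ, symm_apply hP i.succ 0, symm_apply hP 0 j.succ]
    ring
  · have h1 := qf_cons (symm_apply hP) h0.ne' (-((∑ j, P 0 j.succ * y j) / P 0 0)) y
    have h2 : (0 : ℝ) < qf P (Fin.cons (-((∑ j, P 0 j.succ * y j) / P 0 0)) y) := by
      apply qf_pos hP
      intro h
      apply hy
      funext i
      have := congrFun h i.succ
      simpa using this
    rw [h1] at h2
    have h3 : -((∑ j, P 0 j.succ * y j) / P 0 0) + (∑ j, P 0 j.succ * y j) / P 0 0 = 0 := by ring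
    rw [h3] at h2
    simpa using h2

/-- `[[1,0],[0,A]]` -/
def ext1 (A : Matrix (Fin n) (Fin k) ℤ) : Matrix (Fin (n + 1)) (Fin (k + 1)) ℤ :=
  fun i j => Fin.cases (Fin.cases 1 (fun _ => 0) j) (fun i' => Fin.cases 0 (fun j' => A i' j') j) i

@[simp] lemma ext1_00 (A : Matrix (Fin n) (Fin k) ℤ) : ext1 A 0 0 = 1 := rfl
@[simp] lemma ext1_0s (A : Matrix (Fin n) (Fin k) ℤ) (j : Fin k) : ext1 A 0 j.succ = 0 := rfl
@[simp] lemma ext1_s0 (A : Matrix (Fin n) (Fin k) ℤ) (i : Fin n) : ext1 A i.succ 0 = 0 := rfl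
@[simp] lemma ext1_ss (A : Matrix (Fin n) (Fin k) ℤ) (i : Fin n) (j : Fin k) :
    ext1 A i.succ j.succ = A i j := rfl

lemma gram_ext1 (P : Matrix (Fin (n + 1)) (Fin (n + 1)) ℝ) (A : Matrix (Fin n) (Fin k) ℤ) :
    (gram P (ext1 A)) 0 0 = P 0 0 ∧
    (∀ j : Fin k, (gram P (ext1 A)) 0 j.succ = ∑ l, P 0 l.succ * (A l j : ℝ)) ∧
    (∀ i : Fin k, (gram P (ext1 A)) i.succ 0 = ∑ l, (A l i : ℝ) * P l.succ 0) ∧
    (∀ i j : Fin k, (gram P (ext1 A)) i.succ j.succ =
      ∑ m, (∑ l, (A l i : ℝ) * P l.succ m.succ) * (A m j : ℝ)) := by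
  unfold gram zm
  refine ⟨?_, fun j => ?_, fun i => ?_, fun i j => ?_⟩ <;>
  simp [Matrix.mul_apply, Fin.sum_univ_succ]

lemma schur_gram_ext1 (P : Matrix (Fin (n + 1)) (Fin (n + 1)) ℝ) (A : Matrix (Fin n) (Fin k) ℤ) :
    schur (gram P (ext1 A)) = gram (schur P) A := by
  obtain ⟨h1, h2, h3, h4⟩ := gram_ext1 P A
  ext i j
  unfold schur
  rw [h1, h2, h3, h4]
  unfold gram zm
  simp only [Matrix.mul_apply, Matrix.map_apply]
  have e : (∑ l, (A l i : ℝ) * P l.succ 0) * (∑ l, P 0 l.succ * (A l j : ℝ)) / P 0 0 =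
      ∑ m, (∑ l, (A l i : ℝ) * (P l.succ 0 * P 0 m.succ / P 0 0)) * (A m j : ℝ) := by
    rw [Finset.mul_sum, Finset.sum_div]
    refine Finset.sum_congr rfl fun m _ => ?_
    rw [Finset.sum_mul, Finset.sum_div, Finset.sum_mul]
    refine Finset.sum_congr rfl fun l _ => ?_
    ring
  rw [e, ← Finset.sum_sub_distrib]
  refine Finset.sum_congr rfl fun m _ => ?_
  rw [← sub_mul, ← Finset.sum_sub_distrib]
  congr 1
  refine Finset.sum_congr rfl fun l _ => ?_
  change _ = (A l i : ℝ) * (P l.succ m.succ - P l.succ 0 * P 0 m.succ / P 0 0)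
  ring

lemma dense_schur {P : Matrix (Fin (n + 1)) (Fin (n + 1)) ℝ} (hP : P.PosDef) (hD : Dense P) :
    Dense (schur P) := by
  have h0 : 0 < P 0 0 := by
    have := qf_pos hP (x := Pi.single 0 1) (by
      intro h; have := congrFun h 0; simp at this)
    simpa [qf] using this
  intro k hk A
  have h1 := hD (k + 1) (by omega) (ext1 A)
  have h2 := (gram_ext1 P A).1
  rw [det_schur _ (by rw [h2]; exact h0.ne'), h2, schur_gram_ext1, det_schur P h0.ne'] at h1
  rcases h1 with h1 | h1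
  · left
    rcases mul_eq_zero.mp h1 with h | h
    · exact absurd h h0.ne'
    · exact h
  · right
    exact le_of_mul_le_mul_left h1 h0

open scoped MatrixOrder in
lemma exists_factor {m : ℕ} {P : Matrix (Fin m) (Fin m) ℝ} (hP : P.PosDef) :
    ∃ B : Matrix (Fin m) (Fin m) ℝ, P = Bᵀ * B := by
  obtain ⟨B, hB⟩ := CStarAlgebra.nonneg_iff_eq_star_mul_self.mp hP.posSemidef.nonneg
  refine ⟨B, ?_⟩
  rw [hB, star_eq_conjTranspose]
  rfl

lemma qf_factor {m : ℕ} (B : Matrix (Fin m) (Fin m) ℝ) (x : Fin m → ℝ) :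
    qf (Bᵀ * B) x = ∑ i, ((B *ᵥ x) i) ^ 2 := by
  unfold qf
  rw [← Matrix.mulVec_mulVec, Matrix.dotProduct_mulVec, Matrix.vecMul_transpose]
  simp [dotProduct, sq]

lemma minkowski {m : ℕ} {P : Matrix (Fin (m + 1)) (Fin (m + 1)) ℝ} (hP : P.PosDef)
    (hdet : P.det ≤ 1) :
    ∃ z : Fin (m + 1) → ℤ, z ≠ 0 ∧ qf P (zc z) ≤ (m + 1 : ℝ) := by
  obtain ⟨B, hB⟩ := exists_factor hP
  have hBdet : B.det * B.det = P.det := by rw [hB, det_mul, det_transpose]
  have hBne : B.det ≠ 0 := by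
    intro h
    rw [h] at hBdet
    have := hP.det_pos
    simp at hBdet
    linarith
  have hBabs : |B.det| ≤ 1 := by
    rw [← hBdet] at hdet
    exact abs_le_one_iff_mul_self_le_one.mpr hdet
  let f : (Fin (m + 1) → ℝ) →ₗ[ℝ] (Fin (m + 1) → ℝ) := Matrix.toLin' B
  have hf : LinearMap.det f = B.det := LinearMap.det_toLin' B
  have hfne : LinearMap.det f ≠ 0 := by rw [hf]; exact hBne
  have hfc : Continuous f := LinearMap.continuous_of_finiteDimensional f
  let s : Set (Fin (m + 1) → ℝ) := f ⁻¹' (Metric.closedBall 0 1)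
  have hs_conv : Convex ℝ s := (convex_closedBall 0 1).linear_preimage f
  have hs_symm : ∀ x ∈ s, -x ∈ s := by
    intro x hx
    simp only [s, Set.mem_preimage, mem_closedBall_zero_iff, map_neg, norm_neg] at hx ⊢
    exact hx
  have hs_cpt : IsCompact s := by
    have h1 : s = (f.equivOfDetNeZero hfne).symm '' (Metric.closedBall 0 1) := by
      rw [LinearEquiv.image_symm_eq_preimage]
      rfl
    rw [h1]
    refine (isCompact_closedBall _ _).image ?_
    exact LinearMap.continuous_of_finiteDimensional (f.equivOfDetNeZero hfne).symm.toLinearMap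
  have hvol : volume (ZSpan.fundamentalDomain (Pi.basisFun ℝ (Fin (m + 1)))) *
      2 ^ Module.finrank ℝ (Fin (m + 1) → ℝ) ≤ volume s := by
    rw [ZSpan.fundamentalDomain_pi_basisFun, Measure.addHaar_preimage_linearMap volume hfne,
      Real.volume_pi_closedBall _ zero_le_one, volume_pi, Measure.pi_pi]
    simp only [Real.volume_Ico, sub_zero, ENNReal.ofReal_one, Finset.prod_const_one, one_mul,
      Module.finrank_fin_fun, mul_one, Fintype.card_fin]
    rw [ENNReal.ofReal_pow (by norm_num : (0:ℝ) ≤ 2)]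
    have h2 : (1 : ENNReal) ≤ ENNReal.ofReal |(LinearMap.det f)⁻¹| := by
      rw [hf, abs_inv]
      rw [← ENNReal.ofReal_one]
      apply ENNReal.ofReal_le_ofReal
      exact (one_le_inv₀ (abs_pos.mpr hBne)).mpr hBabs
    calc (2 : ENNReal) ^ (m + 1) = 1 * 2 ^ (m + 1) := by ring
      _ ≤ _ := by
        gcongr
        simp
  have : Countable (Submodule.span ℤ (Set.range (Pi.basisFun ℝ (Fin (m + 1))))).toAddSubgroup :=
    inferInstanceAs (Countable (Submodule.span ℤ (Set.range (Pi.basisFun ℝ (Fin (m + 1))))))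
  obtain ⟨x, hx0, hxs⟩ := exists_ne_zero_mem_lattice_of_measure_mul_two_pow_le_measure
    (ZSpan.isAddFundamentalDomain' (Pi.basisFun ℝ (Fin (m + 1))) volume) hs_symm hs_conv hs_cpt hvol
  have hx := ((Pi.basisFun ℝ (Fin (m + 1))).mem_span_iff_repr_mem ℤ (x : Fin (m + 1) → ℝ)).mp x.2
  choose z hz using hx
  have hzx : zc z = (x : Fin (m + 1) → ℝ) := by
    funext i
    have := hz i
    simpa [zc] using this
  refine ⟨z, ?_, ?_⟩
  · rintro rfl
    apply hx0
    apply Subtype.ext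
    rw [← hzx]
    funext i
    simp [zc]
  · rw [hzx, hB, qf_factor]
    have h3 : ∀ i, (B *ᵥ (x : Fin (m + 1) → ℝ)) i ^ 2 ≤ 1 := by
      intro i
      have h4 : ‖f (x : Fin (m + 1) → ℝ)‖ ≤ 1 := by
        simpa [s] using hxs
      have h5 := (norm_le_pi_norm (f (x : Fin (m + 1) → ℝ)) i).trans h4
      rw [Real.norm_eq_abs] at h5
      have h6 : f (x : Fin (m + 1) → ℝ) i = (B *ᵥ (x : Fin (m + 1) → ℝ)) i := by
        simp [f, Matrix.toLin'_apply]
      rw [h6] at h5
      exact (sq_le_one_iff_abs_le_one _).mpr h5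
    calc _ ≤ ∑ i : Fin (m + 1), (1 : ℝ) := Finset.sum_le_sum fun i _ => h3 i
      _ = m + 1 := by simp

lemma primitive {m : ℕ} (z : Fin (m + 1) → ℤ) (hz : z ≠ 0) :
    ∃ (U : Matrix (Fin (m + 1)) (Fin (m + 1)) ℤ) (d : ℤ), GLZ U ∧ d ≠ 0 ∧ ∀ i, z i = d * U i 0 := by
  classical
  let N : Submodule ℤ (Fin (m + 1) → ℤ) := Submodule.span ℤ {z}
  obtain ⟨r, snf⟩ := Submodule.smithNormalForm (Pi.basisFun ℤ (Fin (m + 1))) N
  have hr : Module.finrank ℤ N = r := by
    rw [Module.finrank_eq_card_basis snf.bN, Fintype.card_fin]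
  have hr1 : r ≤ 1 := by
    rw [← hr]
    refine (finrank_span_le_card ({z} : Set (Fin (m + 1) → ℤ))).trans ?_
    simp
  have hzN : z ∈ N := Submodule.mem_span_singleton_self z
  have hr0 : r ≠ 0 := by
    rintro rfl
    have : (⟨z, hzN⟩ : N) = 0 := by
      have h := snf.bN.sum_repr ⟨z, hzN⟩
      rw [← h]; simp
    apply hz
    have := congrArg Subtype.val this
    simpa using this
  obtain rfl : r = 1 := by omega
  let σ : Fin (m + 1) ≃ Fin (m + 1) := Equiv.swap (snf.f 0) 0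
  let b := snf.bM.reindex σ
  let U : Matrix (Fin (m + 1)) (Fin (m + 1)) ℤ := (Pi.basisFun ℤ (Fin (m + 1))).toMatrix b
  have hU : ∀ i j, U i j = b j i := by
    intro i j
    simp [U, Module.Basis.toMatrix_apply]
  have hb0 : b 0 = snf.bM (snf.f 0) := by
    simp [b, σ]
  have hzb : z = (snf.bN.repr ⟨z, hzN⟩ 0 * snf.a 0) • b 0 := by
    have h := congrArg Subtype.val (snf.bN.sum_repr ⟨z, hzN⟩)
    simp only [Fin.sum_univ_one, Submodule.coe_smul, snf.snf] at h
    rw [hb0, mul_smul]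
    exact h.symm
  refine ⟨U, snf.bN.repr ⟨z, hzN⟩ 0 * snf.a 0, ?_, ?_, ?_⟩
  · have := (Pi.basisFun ℤ (Fin (m + 1))).isUnit_det b
    rwa [Module.Basis.det_apply] at this
  · intro h0
    apply hz
    rw [hzb, h0, zero_smul]
  · intro i
    rw [hU]
    have := congrFun hzb i
    simpa using this

/-! ### the reduction step -/

lemma det_le_one {P : Matrix (Fin (n + 1)) (Fin (n + 1)) ℝ} (hD : Dense P) : P.det ≤ 1 := by
  have h := hD 0 (by omega) (Matrix.of fun _ j => j.elim0)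
  rw [Matrix.det_isEmpty] at h
  rcases h with h | h
  · norm_num at h
  · exact h

lemma reduce {P : Matrix (Fin (n + 1)) (Fin (n + 1)) ℝ} (hP : P.PosDef) (hD : Dense P) :
    ∃ U : Matrix (Fin (n + 1)) (Fin (n + 1)) ℤ, GLZ U ∧ gram P U 0 0 ≤ (n : ℝ) + 1 := by
  obtain ⟨z, hz, hq⟩ := minkowski hP (det_le_one hD)
  obtain ⟨U, d, hU, hd, hzU⟩ := primitive z hz
  refine ⟨U, hU, ?_⟩
  rw [gram_diag]
  have h1 : zc z = (d : ℝ) • (fun l => (U l 0 : ℝ)) := by
    funext i
    simp [zc, hzU i]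
  have h2 : qf P (zc z) = (d : ℝ) ^ 2 * qf P (fun l => (U l 0 : ℝ)) := by
    rw [h1]
    unfold qf
    rw [Matrix.mulVec_smul, smul_dotProduct, dotProduct_smul, smul_eq_mul, smul_eq_mul]
    ring
  have h3 : (1 : ℝ) ≤ (d : ℝ) ^ 2 := by
    have : (1 : ℤ) ≤ d ^ 2 := by
      have := pow_pos (abs_pos.mpr hd) 2
      rw [sq_abs] at this
      omega
    exact_mod_cast this
  have h4 := qf_nonneg hP (fun l => (U l 0 : ℝ))
  nlinarith

lemma zz_pos {P : Matrix (Fin (n + 1)) (Fin (n + 1)) ℝ} (hP : P.PosDef) : 0 < P 0 0 := by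
  have := qf_pos hP (x := Pi.single 0 1) (by
    intro h; have := congrFun h 0; simp at this)
  simpa [qf] using this

lemma det_ext1 (A : Matrix (Fin n) (Fin n) ℤ) : (ext1 A).det = A.det := by
  rw [Matrix.det_succ_column_zero, Fin.sum_univ_succ]
  simp only [ext1_00, ext1_s0, mul_zero, zero_mul, Finset.sum_const_zero, add_zero, Fin.val_zero,
    pow_zero, one_mul]
  congr 1

/-- `[[1,m],[0,I]]` -/
def shear (m : Fin n → ℤ) : Matrix (Fin (n + 1)) (Fin (n + 1)) ℤ :=
  fun i j => Fin.cases (Fin.cases 1 (fun j' => m j') j)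
    (fun i' => Fin.cases 0 (fun j' => if i' = j' then 1 else 0) j) i

@[simp] lemma shear_00 (m : Fin n → ℤ) : shear m 0 0 = 1 := rfl
@[simp] lemma shear_0s (m : Fin n → ℤ) (j : Fin n) : shear m 0 j.succ = m j := rfl
@[simp] lemma shear_s0 (m : Fin n → ℤ) (i : Fin n) : shear m i.succ 0 = 0 := rfl
@[simp] lemma shear_ss (m : Fin n → ℤ) (i j : Fin n) :
    shear m i.succ j.succ = if i = j then 1 else 0 := rfl

lemma det_shear (m : Fin n → ℤ) : (shear m).det = 1 := by
  rw [Matrix.det_succ_column_zero, Fin.sum_univ_succ]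
  simp only [shear_00, shear_s0, mul_zero, zero_mul, Finset.sum_const_zero, add_zero, Fin.val_zero,
    pow_zero, one_mul]
  have : (shear m).submatrix (Fin.succAbove 0) Fin.succ = 1 := by
    ext i j
    simp [Matrix.one_apply]
  rw [this, Matrix.det_one]

lemma glz_mul {U V : Matrix (Fin n) (Fin n) ℤ} (hU : GLZ U) (hV : GLZ V) : GLZ (U * V) := by
  unfold GLZ at *
  rw [Matrix.det_mul]
  exact hU.mul hV

lemma round_sq (x : ℝ) : ((-(round x) : ℤ) + x) ^ 2 ≤ 1 / 4 := by
  have h := abs_sub_round x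
  have h2 : |x - round x| ^ 2 ≤ (1 / 2 : ℝ) ^ 2 := by
    gcongr
  rw [sq_abs] at h2
  push_cast
  nlinarith

lemma la1_aux : ∀ n : ℕ, ∀ P : Matrix (Fin n) (Fin n) ℝ, P.PosDef → Dense P →
    ∃ U : Matrix (Fin n) (Fin n) ℤ, GLZ U ∧ ∀ i, gram P U i i ≤ (n : ℝ) ^ 2 := by
  intro n
  induction n with
  | zero =>
    intro P _ _
    exact ⟨1, by simp [GLZ], fun i => i.elim0⟩
  | succ n ih =>
    intro P hP hD
    obtain ⟨U₁, hU₁, h00⟩ := reduce hP hD
    have hP' := posDef_gram hP hU₁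
    have hD' := dense_gram hD hU₁
    obtain ⟨U₂, hU₂, h22⟩ := ih (schur (gram P U₁)) (posDef_schur hP') (dense_schur hP' hD')
    have hE : GLZ (ext1 U₂) := by
      unfold GLZ; rw [det_ext1]; exact hU₂
    set T := gram (gram P U₁) (ext1 U₂) with hT
    have hTP : T.PosDef := posDef_gram hP' hE
    have hT00 : T 0 0 = gram P U₁ 0 0 := (gram_ext1 _ _).1
    have hTpos : 0 < T 0 0 := zz_pos hTP
    let m : Fin n → ℤ := fun j => -(round (T 0 j.succ / T 0 0))
    have hS : GLZ (shear m) := by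
      unfold GLZ; rw [det_shear]; exact isUnit_one
    refine ⟨U₁ * ext1 U₂ * shear m, glz_mul (glz_mul hU₁ hE) hS, ?_⟩
    intro i
    rw [← gram_mul, ← gram_mul, ← hT, gram_diag]
    push_cast
    refine Fin.cases ?_ (fun j => ?_) i
    · have e : (fun l => ((shear m) l 0 : ℝ)) = Fin.cons 1 0 := by
        funext l
        refine Fin.cases ?_ (fun l' => ?_) l <;> simp
      rw [e, qf_cons (symm_apply hTP) hTpos.ne']
      simp only [Pi.zero_apply, mul_zero, Finset.sum_const_zero, zero_div, add_zero, one_pow,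
        mul_one]
      have : qf (schur T) 0 = 0 := by simp [qf]
      rw [this, hT00]
      nlinarith [(Nat.cast_nonneg n : (0 : ℝ) ≤ n)]
    · have e : (fun l => ((shear m) l j.succ : ℝ)) = Fin.cons (m j : ℝ) (Pi.single j 1) := by
        funext l
        refine Fin.cases ?_ (fun l' => ?_) l
        · simp
        · simp [Pi.single_apply]
      rw [e, qf_cons (symm_apply hTP) hTpos.ne']
      have e2 : ∑ j', T 0 j'.succ * (Pi.single j (1 : ℝ) : Fin n → ℝ) j' = T 0 j.succ := by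
        rw [Finset.sum_eq_single j]
        · simp
        · intro b _ hb; simp [hb]
        · intro h; exact absurd (Finset.mem_univ _) h
      have e3 : qf (schur T) (Pi.single j 1) = schur T j j := by
        simp [qf]
      rw [e2, e3, hT, schur_gram_ext1, ← hT]
      have h5 := h22 j
      have h6 := round_sq (T 0 j.succ / T 0 0)
      have h7 : T 0 0 * ((m j : ℝ) + T 0 j.succ / T 0 0) ^ 2 ≤ ((n : ℝ) + 1) * (1 / 4) := by
        have : ((m j : ℝ) + T 0 j.succ / T 0 0) ^ 2 ≤ 1 / 4 := h6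
        rw [← hT00] at h00
        gcongr
      nlinarith [(Nat.cast_nonneg n : (0 : ℝ) ≤ n)]

lemma la1b_aux : ∀ n : ℕ, ∀ P : Matrix (Fin n) (Fin n) ℝ, P.PosDef → Dense P →
    ∀ u : Fin n → ℝ, ∃ z : Fin n → ℤ, qf P (u + zc z) ≤ (n : ℝ) ^ 2 / 4 := by
  intro n
  induction n with
  | zero =>
    intro P _ _ u
    exact ⟨0, by simp [qf]⟩
  | succ n ih =>
    intro P hP hD u
    obtain ⟨U₁, hU₁, h00⟩ := reduce hP hD
    have hP' := posDef_gram hP hU₁
    have hD' := dense_gram hD hU₁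
    have hpos := zz_pos hP'
    have hdet : IsUnit (zm U₁).det := by
      rw [det_zm]
      exact hU₁.map (Int.castRingHom ℝ)
    set v := (zm U₁)⁻¹ *ᵥ u with hv
    have hu : zm U₁ *ᵥ v = u := by
      rw [hv, Matrix.mulVec_mulVec, Matrix.mul_nonsing_inv _ hdet, Matrix.one_mulVec]
    obtain ⟨z₂, hz₂⟩ := ih (schur (gram P U₁)) (posDef_schur hP') (dense_schur hP' hD')
      (fun i => v i.succ)
    let t : ℝ := v 0 + (∑ j : Fin n, gram P U₁ 0 j.succ * ((fun i : Fin n => v i.succ) + zc z₂) j) / gram P U₁ 0 0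
    let w : Fin (n + 1) → ℤ := Fin.cons (-(round t)) z₂
    refine ⟨U₁ *ᵥ w, ?_⟩
    have e1 : u + zc (U₁ *ᵥ w) = zm U₁ *ᵥ (v + zc w) := by
      rw [Matrix.mulVec_add, hu]
      congr 1
      funext i
      simp [zc, zm, Matrix.mulVec, dotProduct]
    have e2 : v + zc w = Fin.cons (v 0 + (-(round t) : ℤ)) ((fun i => v i.succ) + zc z₂) := by
      funext i
      refine Fin.cases ?_ (fun i' => ?_) i
      · simp [w, zc]
      · simp [w, zc]
    rw [e1, ← qf_gram, e2, qf_cons (symm_apply hP') hpos.ne']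
    have h6 := round_sq t
    have h7 : gram P U₁ 0 0 * (v 0 + ((-(round t) : ℤ) : ℝ) +
        (∑ j : Fin n, gram P U₁ 0 j.succ * ((fun i : Fin n => v i.succ) + zc z₂) j) / gram P U₁ 0 0) ^ 2 ≤
        ((n : ℝ) + 1) * (1 / 4) := by
      have h8 : (v 0 + ((-(round t) : ℤ) : ℝ) +
        (∑ j : Fin n, gram P U₁ 0 j.succ * ((fun i : Fin n => v i.succ) + zc z₂) j) / gram P U₁ 0 0) =
        (((-(round t) : ℤ) : ℝ) + t) := by
        simp only [t]; ring
      rw [h8]
      gcongr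
    push_cast at *
    nlinarith [(Nat.cast_nonneg n : (0 : ℝ) ≤ n)]

end LA1Aux

theorem la1 : Stmt_LA1 := LA1Aux.la1_aux

theorem la1b : Stmt_LA1b := by
  intro n P hP hD u
  obtain ⟨z, hz⟩ := LA1Aux.la1b_aux n P hP hD u
  refine (ciInf_le ⟨0, ?_⟩ z).trans hz
  rintro _ ⟨y, rfl⟩
  exact LA1Aux.qf_nonneg hP _

end Pool.Agent.RevMink
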