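import Pool.Agent.RevMink.Defs

/-!
# Contraction principle: Gaussian averages versus sign averages (step 2e)
-/

open MeasureTheory ProbabilityTheory Finset
open scoped RealInnerProductSpace

namespace Pool.Agent.RevMink.KP2Aux

variable {n : ℕ}

/-- sign of a bit -/
noncomputable def sg (b : Bool) : ℝ := if b then 1 else -1

lemma sum_prod (f : Fin n → Bool → ℝ) :
    ∑ w : Fin n → Bool, ∏ j, f j (w j) = ∏ j, (f j true + f j false) := by
  have := (Finset.prod_univ_sum (fun _ : Fin n => (Finset.univ : Finset Bool))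
    (fun j b => f j b)).symm
  simp only [Fintype.piFinset_univ, Fintype.sum_bool] at this
  exact this

/-- vector with coordinates `a i * w i` -/
noncomputable def sa (a : Fin n → ℝ) (w : Fin n → Bool) : E n :=
  WithLp.toLp 2 (fun i => a i * sg (w i))

lemma sv_eq (w : Fin n → Bool) : sv w = sa (fun _ => 1) w := by
  unfold sv sa sg
  simp

/-- weights -/
noncomputable def wt (a : Fin n → ℝ) (v : Fin n → Bool) : ℝ := ∏ j, (1 + a j * sg (v j)) / 2

lemma wt_sum (a : Fin n → ℝ) : ∑ v : Fin n → Bool, wt a v = 1 := by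
  unfold wt
  rw [sum_prod (fun j b => (1 + a j * sg b) / 2)]
  apply Finset.prod_eq_one
  intro j _
  simp [sg]
  ring

lemma wt_nonneg (a : Fin n → ℝ) (ha : ∀ i, |a i| ≤ 1) (v : Fin n → Bool) : 0 ≤ wt a v := by
  unfold wt
  apply Finset.prod_nonneg
  intro j _
  have h1 := abs_le.mp (ha j)
  cases v j <;> simp [sg] <;> linarith

lemma wt_mul (a : Fin n → ℝ) (i : Fin n) : ∑ v : Fin n → Bool, wt a v * sg (v i) = a i := by
  classical
  have h1 : ∀ v : Fin n → Bool, wt a v * sg (v i) =
      ∏ j, ((1 + a j * sg (v j)) / 2 * (if j = i then sg (v j) else 1)) := by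
    intro v
    unfold wt
    rw [Finset.prod_mul_distrib]
    congr 1
    rw [Finset.prod_ite_eq' Finset.univ i (fun j => sg (v j))]
    simp
  simp only [h1]
  rw [sum_prod (fun j b => (1 + a j * sg b) / 2 * (if j = i then sg b else 1))]
  rw [Finset.prod_eq_single i]
  · simp [sg]; ring
  · intro j _ hj
    simp [sg, hj]
    ring
  · simp

/-- flipping of signs -/
def fl (v w : Fin n → Bool) : Fin n → Bool := fun i => !(xor (v i) (w i))

lemma sg_fl (v w : Fin n → Bool) (i : Fin n) : sg (fl v w i) = sg (v i) * sg (w i) := by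
  unfold fl sg
  cases v i <;> cases w i <;> simp

lemma fl_invol (v w : Fin n → Bool) : fl v (fl v w) = w := by
  funext i
  unfold fl
  cases v i <;> cases w i <;> simp

lemma cubeE_fl (f : (Fin n → Bool) → ℝ) (v : Fin n → Bool) :
    cubeE (fun w => f (fl v w)) = cubeE f := by
  unfold cubeE
  congr 1
  exact Function.Bijective.sum_comp (Function.Involutive.bijective (fl_invol v)) f

lemma contraction_one (h : Seminorm ℝ (E n)) (a : Fin n → ℝ) (ha : ∀ i, |a i| ≤ 1) :
    cubeE (fun w => h (sa a w)) ≤ cubeE (fun w => h (sv w)) := by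
  have h1 : ∀ w, h (sa a w) ≤ ∑ v : Fin n → Bool, wt a v * h (sv (fl v w)) := by
    intro w
    have e : sa a w = ∑ v : Fin n → Bool, wt a v • sv (fl v w) := by
      ext i
      simp only [sa, sv_eq, WithLp.ofLp_sum, WithLp.ofLp_smul, Finset.sum_apply, Pi.smul_apply,
        smul_eq_mul, one_mul, sg_fl]
      have hw := wt_mul a i
      rw [← hw, Finset.sum_mul]
      apply Finset.sum_congr rfl
      intro v _
      ring
    rw [e]
    refine (Finset.le_sum_of_subadditive h (map_zero h).le (map_add_le_add h) _ _).trans ?_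
    apply Finset.sum_le_sum
    intro v _
    rw [map_smul_eq_mul, Real.norm_eq_abs, abs_of_nonneg (wt_nonneg a ha v)]
  have h2 : cubeE (fun w => h (sa a w)) ≤
      ∑ v : Fin n → Bool, wt a v * cubeE (fun w => h (sv (fl v w))) := by
    unfold cubeE
    have e : ∑ v : Fin n → Bool, wt a v * ((∑ w, h (sv (fl v w))) / 2 ^ n) =
        (∑ w, ∑ v : Fin n → Bool, wt a v * h (sv (fl v w))) / 2 ^ n := by
      rw [Finset.sum_comm, Finset.sum_div]
      apply Finset.sum_congr rfl
      intro v _
      rw [← Finset.mul_sum]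
      ring
    rw [e]
    gcongr with w
    exact h1 w
  refine h2.trans (le_of_eq ?_)
  have h3 : ∀ v : Fin n → Bool, cubeE (fun w => h (sv (fl v w))) = cubeE (fun w => h (sv w)) :=
    fun v => cubeE_fl (fun w => h (sv w)) v
  simp only [h3]
  rw [← Finset.sum_mul, wt_sum, one_mul]

lemma contraction (h : Seminorm ℝ (E n)) (x : Fin n → ℝ) (a : ℝ) (ha : 0 < a)
    (hx : ∀ i, |x i| ≤ a) :
    cubeE (fun w => h (sa x w)) ≤ a * cubeE (fun w => h (sv w)) := by
  have h1 := contraction_one h (fun i => x i / a) (by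
    intro i
    rw [abs_div, abs_of_pos ha, div_le_one ha]
    exact hx i)
  have h2 : ∀ w, h (sa x w) = a * h (sa (fun i => x i / a) w) := by
    intro w
    have e : sa x w = a • sa (fun i => x i / a) w := by
      ext i
      simp only [sa, WithLp.ofLp_smul, Pi.smul_apply, smul_eq_mul]
      field_simp
    rw [e, map_smul_eq_mul, Real.norm_eq_abs, abs_of_pos ha]
  have h3 : cubeE (fun w => h (sa x w)) = a * cubeE (fun w => h (sa (fun i => x i / a) w)) := by
    unfold cubeE
    simp only [h2]
    rw [← Finset.mul_sum]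
    ring
  rw [h3]
  gcongr

lemma young (q : ℕ) (hq : 1 ≤ q) (t l : ℝ) (ht : 0 ≤ t) (hl : 0 < l) :
    t ≤ t ^ q / l ^ (q - 1) + l := by
  rcases le_total t l with h | h
  · have : 0 ≤ t ^ q / l ^ (q - 1) := by positivity
    linarith
  · have h1 : t ≤ t ^ q / l ^ (q - 1) := by
      rw [le_div_iff₀ (by positivity)]
      have e : t ^ q = t * t ^ (q - 1) := by
        rw [← pow_succ']; congr 1; omega
      rw [e]
      gcongr
    linarith

lemma seminorm_le (h : Seminorm ℝ (E n)) (z : E n) :
    h z ≤ (∑ i, h (EuclideanSpace.single i (1 : ℝ))) * ‖z‖ := by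
  have e : z = ∑ i, z i • EuclideanSpace.single i (1 : ℝ) := by
    ext j
    simp [Finset.sum_apply, Pi.single_apply]
  calc h z = h (∑ i, z i • EuclideanSpace.single i (1 : ℝ)) := by rw [← e]
    _ ≤ ∑ i, h (z i • EuclideanSpace.single i (1 : ℝ)) :=
      Finset.le_sum_of_subadditive h (map_zero h).le (map_add_le_add h) _ _
    _ = ∑ i, |z i| * h (EuclideanSpace.single i (1 : ℝ)) := by
      apply Finset.sum_congr rfl
      intro i _
      rw [map_smul_eq_mul, Real.norm_eq_abs]
    _ ≤ ∑ i, ‖z‖ * h (EuclideanSpace.single i (1 : ℝ)) := by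
      apply Finset.sum_le_sum
      intro i _
      have : |z i| ≤ ‖z‖ := by
        have := EuclideanSpace.norm_eq z
        rw [this]
        apply Real.abs_le_sqrt
        have h2 : z i ^ 2 = ‖z i‖ ^ 2 := by rw [Real.norm_eq_abs, sq_abs]
        rw [h2]
        exact Finset.single_le_sum (f := fun i => ‖z i‖ ^ 2) (fun i _ => by positivity)
          (Finset.mem_univ i)
      gcongr
    _ = _ := by rw [← Finset.mul_sum, mul_comm]

lemma seminorm_continuous (h : Seminorm ℝ (E n)) : Continuous h := by
  have h1 : LipschitzWith ⟨∑ i, h (EuclideanSpace.single i (1 : ℝ)),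
      Finset.sum_nonneg fun i _ => apply_nonneg h _⟩ h := by
    apply LipschitzWith.of_dist_le_mul
    intro x y
    rw [Real.dist_eq, dist_eq_norm]
    refine (abs_sub_map_le_sub h x y).trans ?_
    exact seminorm_le h (x - y)
  exact h1.continuous

lemma flip_law (w : Fin n → Bool) :
    (Measure.pi (fun _ : Fin n => gaussianReal 0 1)).map (fun x i => x i * sg (w i)) =
      Measure.pi (fun _ : Fin n => gaussianReal 0 1) := by
  rw [Measure.pi_map_pi (μ := fun _ : Fin n => gaussianReal 0 1)
    (f := fun i (y : ℝ) => y * sg (w i)) (fun i => by fun_prop)]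
  congr 1
  funext i
  unfold sg
  cases w i
  · simp only [Bool.false_eq_true, if_false, mul_neg, mul_one]
    rw [gaussianReal_map_neg]
    simp
  · simp

end Pool.Agent.RevMink.KP2Aux

namespace Pool.Agent.RevMink

open KP2Aux

theorem kp2 : Stmt_KP2 := by
  intro q hq
  set M : ℝ := ∫ y, |y| ^ q ∂(gaussianReal 0 1) with hM
  have hM0 : 0 ≤ M := integral_nonneg fun y => by positivity
  have hMint : Integrable (fun y : ℝ => |y| ^ q) (gaussianReal 0 1) := by
    have h1 := memLp_id_gaussianReal (μ := 0) (v := 1) (p := (q : NNReal))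
    have h2 := h1.integrable_norm_pow (by
      simpa using (by omega : q ≠ 0))
    simpa using h2
  refine ⟨M + 1, by positivity, ?_⟩
  intro n hn h
  have hcont := seminorm_continuous h
  have hint : Integrable h (gam n) := by
    have h1 : Integrable (fun z : E n => ‖z‖) (gam n) :=
      (IsGaussian.integrable_id (μ := gam n)).norm
    refine Integrable.mono' (h1.const_mul (∑ i, h (EuclideanSpace.single i (1 : ℝ))))
      hcont.aestronglyMeasurable ?_
    filter_upwards with z
    rw [Real.norm_eq_abs, abs_of_nonneg (apply_nonneg h z)]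
    exact seminorm_le h z
  refine ⟨hint, ?_⟩
  set ν := Measure.pi (fun _ : Fin n => gaussianReal 0 1) with hν
  have hγ : gam n = ν.map (WithLp.toLp 2) := map_pi_eq_stdGaussian.symm
  have hmeas : Measurable (fun x : Fin n → ℝ => (WithLp.toLp 2 x : E n)) := by fun_prop
  have hint2 : Integrable (fun x : Fin n → ℝ => h (WithLp.toLp 2 x)) ν := by
    rw [hγ] at hint
    exact hint.comp_measurable hmeas
  have e1 : ∫ z, h z ∂(gam n) = ∫ x : Fin n → ℝ, h (WithLp.toLp 2 x) ∂ν := by
    rw [hγ, integral_map hmeas.aemeasurable hcont.aestronglyMeasurable]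
  have hflm : ∀ w : Fin n → Bool, Measurable (fun (x : Fin n → ℝ) i => x i * sg (w i)) := by
    intro w; fun_prop
  have e2 : ∀ w : Fin n → Bool, ∫ x : Fin n → ℝ, h (sa x w) ∂ν = ∫ x : Fin n → ℝ, h (WithLp.toLp 2 x) ∂ν := by
    intro w
    conv_rhs => rw [hν, ← flip_law w]
    rw [integral_map (hflm w).aemeasurable]
    · rfl
    · exact (hcont.comp (by fun_prop)).aestronglyMeasurable
  have hsaint : ∀ w : Fin n → Bool, Integrable (fun x : Fin n → ℝ => h (sa x w)) ν := by
    intro w
    have h1 : Integrable (fun x : Fin n → ℝ => h (WithLp.toLp 2 x))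
        (ν.map (fun x i => x i * sg (w i))) := by
      rw [hν, flip_law w]; exact hint2
    exact h1.comp_measurable (hflm w)
  have e3 : ∫ z, h z ∂(gam n) = ∫ x : Fin n → ℝ, cubeE (fun w => h (sa x w)) ∂ν := by
    unfold cubeE
    rw [integral_div, integral_finsetSum _ (fun w _ => hsaint w)]
    simp only [e2]
    rw [e1, Finset.sum_const, Finset.card_univ]
    simp
  set H := cubeE (fun w => h (sv w)) with hH
  have hH0 : 0 ≤ H := by
    unfold H cubeE
    apply div_nonneg (Finset.sum_nonneg fun w _ => apply_nonneg h _) (by positivity)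
  set l : ℝ := (n : ℝ) ^ ((1 : ℝ) / q) with hl
  have hn0 : (0 : ℝ) < n := by exact_mod_cast hn
  have hl0 : 0 < l := Real.rpow_pos_of_pos hn0 _
  have hlq : l ^ q = n := by
    rw [hl, ← Real.rpow_natCast, ← Real.rpow_mul hn0.le]
    have : (1 : ℝ) / q * (q : ℕ) = 1 := by
      have : (q : ℝ) ≠ 0 := by exact_mod_cast (by omega : q ≠ 0)
      field_simp
    rw [this, Real.rpow_one]
  have hcoord : ∀ i : Fin n, Integrable (fun x : Fin n → ℝ => |x i| ^ q) ν := by
    intro i
    exact integrable_comp_eval (μ := fun _ : Fin n => gaussianReal 0 1) (i := i)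
      (f := fun y : ℝ => |y| ^ q) hMint
  have hcoordI : ∀ i : Fin n, ∫ x : Fin n → ℝ, |x i| ^ q ∂ν = M := by
    intro i
    have := integral_comp_eval (μ := fun _ : Fin n => gaussianReal 0 1) (i := i)
      (f := fun y : ℝ => |y| ^ q) hMint.aestronglyMeasurable
    exact this
  have hbd : ∀ x : Fin n → ℝ, cubeE (fun w => h (sa x w)) ≤
      ((∑ i, |x i| ^ q) / l ^ (q - 1) + l) * H := by
    intro x
    apply contraction h x _ (by positivity)
    intro i
    refine (young q hq |x i| l (abs_nonneg _) hl0).trans ?_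
    have : |x i| ^ q ≤ ∑ i, |x i| ^ q :=
      Finset.single_le_sum (f := fun i => |x i| ^ q) (fun i _ => by positivity) (Finset.mem_univ i)
    gcongr
  have hsumint : Integrable (fun x : Fin n → ℝ => ∑ i, |x i| ^ q) ν :=
    integrable_finsetSum _ fun i _ => hcoord i
  have e4 : ∫ x : Fin n → ℝ, cubeE (fun w => h (sa x w)) ∂ν ≤
      ∫ x : Fin n → ℝ, ((∑ i, |x i| ^ q) / l ^ (q - 1) + l) * H ∂ν := by
    apply integral_mono
    · unfold cubeE
      exact (integrable_finsetSum _ fun w _ => hsaint w).div_const _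
    · exact ((hsumint.div_const _).add (integrable_const _)).mul_const _
    · exact hbd
  rw [e3]
  refine e4.trans (le_of_eq ?_)
  rw [integral_mul_const, integral_add (hsumint.div_const _) (integrable_const _), integral_div,
    integral_finsetSum _ (fun i _ => hcoord i)]
  simp only [hcoordI, Finset.sum_const, Finset.card_univ, Fintype.card_fin, nsmul_eq_mul,
    integral_const, probReal_univ, smul_eq_mul, one_mul]
  have e5 : (n : ℝ) * M / l ^ (q - 1) = l * M := by
    rw [div_eq_iff (by positivity), ← hlq]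
    have : l ^ q = l * l ^ (q - 1) := by
      rw [← pow_succ']; congr 1; omega
    rw [this]; ring
  rw [e5]; ring

end Pool.Agent.RevMink
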