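import Pool.Agent.RevMink.Defs

/-!
# Chaining for a subgaussian vector (step 2k)
-/

open MeasureTheory ProbabilityTheory Finset
open scoped RealInnerProductSpace

namespace Pool.Agent.RevMink

theorem kp5 : Stmt_KP5 := by
  classical
  refine ⟨1005, by norm_num, ?_⟩
  intro n T W hW hTne hT1 hS μ _ σ B hσ hint hB hexp J
  choose S hST hScard hS0 hScov using hS
  have hW0 : 0 < W := by linarith
  have h0T : (0 : E n) ∈ T := by
    apply hST 0
    rw [hS0 0 rfl]; simp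
  -- the pairs
  set a : ℕ → ℝ := fun k => 3 * ((2 : ℝ) ^ (k + 1))⁻¹ with ha
  set P : ℕ → Finset (E n × E n) := fun k =>
    ((S (k + 1)) ×ˢ (S k)).filter (fun p => ‖p.1 - p.2‖ ≤ a k) with hP
  set lam : ℕ → ℝ := fun k => W * 4 ^ (k + 1) / σ with hlam
  have hlam0 : ∀ k, 0 < lam k := fun k => by rw [hlam]; positivity
  set LA : ℕ → ℝ := fun k => 1000 * W ^ 2 * 4 ^ (k + 1) + 9 / 2 * W ^ 2 * 4 ^ (k + 1) with hLA
  set Sg : ℕ → E n → ℝ := fun k x => ∑ p ∈ P k, Real.exp ⟪x, lam k • (p.1 - p.2)⟫ with hSg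
  set G : ℕ → E n → ℝ := fun k x => (LA k + Sg k x / Real.exp (LA k) - 1) / lam k with hG
  have hSgint : ∀ k, Integrable (Sg k) μ := fun k =>
    integrable_finsetSum _ fun p _ => (hexp _).1
  have hGint : ∀ k, Integrable (G k) μ := fun k =>
    ((((integrable_const _).add ((hSgint k).div_const _)).sub (integrable_const _)).div_const _)
  have hcard : ∀ k, ((P k).card : ℝ) ≤ Real.exp (1000 * W ^ 2 * 4 ^ (k + 1)) := by
    intro k
    have h1 : ((P k).card : ℝ) ≤ (S (k + 1)).card * (S k).card := by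
      have : (P k).card ≤ ((S (k + 1)) ×ˢ (S k)).card := Finset.card_filter_le _ _
      rw [Finset.card_product] at this
      exact_mod_cast this
    have h2 : ((S (k + 1)).card : ℝ) * (S k).card ≤
        Real.exp (800 * W ^ 2 * 4 ^ (k + 1)) * Real.exp (800 * W ^ 2 * 4 ^ k) :=
      mul_le_mul (hScard _) (hScard _) (by positivity) (by positivity)
    rw [← Real.exp_add] at h2
    refine h1.trans (h2.trans (le_of_eq ?_))
    congr 1
    rw [pow_succ]; ring
  have hSgI : ∀ k, ∫ x, Sg k x ∂μ ≤ Real.exp (LA k) := by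
    intro k
    rw [hSg]
    simp only
    rw [integral_finsetSum _ (fun p _ => (hexp _).1)]
    have h1 : ∀ p ∈ P k, ∫ x, Real.exp ⟪x, lam k • (p.1 - p.2)⟫ ∂μ ≤
        Real.exp (9 / 2 * W ^ 2 * 4 ^ (k + 1)) := by
      intro p hp
      refine (hexp _).2.trans ?_
      rw [Real.exp_le_exp, norm_smul, Real.norm_eq_abs, abs_of_pos (hlam0 k)]
      have h2 : ‖p.1 - p.2‖ ≤ a k := by
        rw [hP] at hp
        exact (Finset.mem_filter.mp hp).2
      have h3 : (lam k * ‖p.1 - p.2‖) ^ 2 ≤ (lam k * a k) ^ 2 := by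
        have := hlam0 k
        gcongr
      calc σ ^ 2 * (lam k * ‖p.1 - p.2‖) ^ 2 / 2 ≤ σ ^ 2 * (lam k * a k) ^ 2 / 2 := by gcongr
        _ = 9 / 2 * W ^ 2 * 4 ^ (k + 1) := by
          rw [hlam, ha]
          simp only
          have h4 : (4 : ℝ) ^ (k + 1) = 2 ^ (k + 1) * 2 ^ (k + 1) := by
            rw [← mul_pow]; norm_num
          rw [h4]
          field_simp
          ring
    calc ∑ p ∈ P k, ∫ x, Real.exp ⟪x, lam k • (p.1 - p.2)⟫ ∂μ
        ≤ ∑ p ∈ P k, Real.exp (9 / 2 * W ^ 2 * 4 ^ (k + 1)) := Finset.sum_le_sum h1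
      _ = (P k).card * Real.exp (9 / 2 * W ^ 2 * 4 ^ (k + 1)) := by
        rw [Finset.sum_const, nsmul_eq_mul]
      _ ≤ Real.exp (1000 * W ^ 2 * 4 ^ (k + 1)) * Real.exp (9 / 2 * W ^ 2 * 4 ^ (k + 1)) := by
        gcongr
        exact hcard k
      _ = Real.exp (LA k) := by rw [← Real.exp_add]
  have hGI : ∀ k, ∫ x, G k x ∂μ ≤ 1005 * W * σ := by
    intro k
    have e : ∫ x, G k x ∂μ = (LA k + (∫ x, Sg k x ∂μ) / Real.exp (LA k) - 1) / lam k := by
      rw [hG]
      simp only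
      have i1 : Integrable (fun x => Sg k x / Real.exp (LA k)) μ := (hSgint k).div_const _
      have i2 : Integrable (fun x => LA k + Sg k x / Real.exp (LA k)) μ := (integrable_const _).add i1
      rw [integral_div, integral_sub i2 (integrable_const _),
        integral_add (integrable_const _) i1, integral_div]
      simp
    have h1 : (∫ x, Sg k x ∂μ) / Real.exp (LA k) ≤ 1 := by
      rw [div_le_one (Real.exp_pos _)]; exact hSgI k
    rw [e, div_le_iff₀ (hlam0 k)]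
    have h2 : 1005 * W * σ * lam k = 1005 * W ^ 2 * 4 ^ (k + 1) := by
      rw [hlam]; field_simp
    rw [h2]
    have h3 : LA k = 1004.5 * W ^ 2 * 4 ^ (k + 1) := by
      rw [hLA]; ring
    have h4 : 0 ≤ W ^ 2 * (4 : ℝ) ^ (k + 1) := by positivity
    linarith
  have hpair : ∀ k, ∀ p ∈ P k, ∀ x : E n, ⟪x, p.1 - p.2⟫ ≤ G k x := by
    intro k p hp x
    rw [hG]
    simp only
    rw [le_div_iff₀ (hlam0 k)]
    have h1 : Real.exp ⟪x, lam k • (p.1 - p.2)⟫ ≤ Sg k x :=
      Finset.single_le_sum (f := fun p : E n × E n => Real.exp ⟪x, lam k • (p.1 - p.2)⟫)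
        (fun _ _ => (Real.exp_pos _).le) hp
    have h2 : 0 < Sg k x := lt_of_lt_of_le (Real.exp_pos _) h1
    have h3 : ⟪x, lam k • (p.1 - p.2)⟫ ≤ Real.log (Sg k x) := by
      rw [Real.le_log_iff_exp_le h2]; exact h1
    have h4 := Real.log_le_sub_one_of_pos (x := Sg k x / Real.exp (LA k)) (by positivity)
    rw [Real.log_div h2.ne' (Real.exp_pos _).ne', Real.log_exp] at h4
    have h5 : ⟪x, p.1 - p.2⟫ * lam k = ⟪x, lam k • (p.1 - p.2)⟫ := by
      rw [real_inner_smul_right]; ring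
    rw [h5]
    linarith
  -- projections
  have hproj : ∀ k, ∀ y : E n, ∃ t : E n, y ∈ T → (t ∈ S k ∧ ‖y - t‖ ≤ ((2 : ℝ) ^ k)⁻¹) := by
    intro k y
    by_cases hy : y ∈ T
    · obtain ⟨t, ht, ht2⟩ := hScov k y hy
      exact ⟨t, fun _ => ⟨ht, ht2⟩⟩
    · exact ⟨0, fun h => absurd h hy⟩
  choose π hπ using hproj
  have hmain : ∀ x : E n, supp T x ≤ ((2 : ℝ) ^ J)⁻¹ * ‖x‖ + ∑ k ∈ Finset.range J, G k x := by
    intro x
    unfold supp
    apply csSup_le (hTne.image _)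
    rintro _ ⟨y, hy, rfl⟩
    show ⟪y, x⟫ ≤ _
    have h0 : π 0 y = 0 := by
      have := (hπ 0 y hy).1
      rw [hS0 0 rfl] at this
      simpa using this
    have h1 : ∀ k, ⟪x, π (k + 1) y - π k y⟫ ≤ G k x := by
      intro k
      apply hpair k (π (k + 1) y, π k y) _ x
      rw [hP, Finset.mem_filter, Finset.mem_product]
      refine ⟨⟨(hπ (k + 1) y hy).1, (hπ k y hy).1⟩, ?_⟩
      show ‖π (k + 1) y - π k y‖ ≤ a k
      have e : π (k + 1) y - π k y = (y - π k y) - (y - π (k + 1) y) := by abel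
      rw [e]
      refine (norm_sub_le _ _).trans ?_
      have h2 := (hπ (k + 1) y hy).2
      have h3 := (hπ k y hy).2
      have h4 : ((2 : ℝ) ^ k)⁻¹ = 2 * ((2 : ℝ) ^ (k + 1))⁻¹ := by
        rw [pow_succ]; field_simp
      rw [ha]
      simp only
      linarith
    have h2 : ∑ k ∈ Finset.range J, ⟪x, π (k + 1) y - π k y⟫ = ⟪x, π J y⟫ := by
      rw [← inner_sum, Finset.sum_range_sub (fun k => π k y), h0, sub_zero]
    have h3 : ⟪y, x⟫ = ⟪x, y - π J y⟫ + ⟪x, π J y⟫ := by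
      rw [← inner_add_right, sub_add_cancel, real_inner_comm]
    have h4 : ⟪x, y - π J y⟫ ≤ ((2 : ℝ) ^ J)⁻¹ * ‖x‖ := by
      refine (real_inner_le_norm _ _).trans ?_
      rw [mul_comm]
      gcongr
      exact (hπ J y hy).2
    rw [h3, ← h2]
    exact add_le_add h4 (Finset.sum_le_sum fun k _ => h1 k)
  have hnonneg : ∀ x : E n, 0 ≤ supp T x := by
    intro x
    unfold supp
    apply le_csSup
    · refine ⟨‖x‖, ?_⟩
      rintro _ ⟨y, hy, rfl⟩
      show ⟪y, x⟫ ≤ ‖x‖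
      refine (real_inner_le_norm _ _).trans ?_
      have := hT1 y hy
      nlinarith [norm_nonneg x]
    · exact ⟨0, h0T, by simp⟩
  have hint2 : Integrable (fun x => ((2 : ℝ) ^ J)⁻¹ * ‖x‖ + ∑ k ∈ Finset.range J, G k x) μ :=
    (hint.const_mul _).add (integrable_finsetSum _ fun k _ => hGint k)
  have h1 : ∫ x, supp T x ∂μ ≤ ∫ x, (((2 : ℝ) ^ J)⁻¹ * ‖x‖ + ∑ k ∈ Finset.range J, G k x) ∂μ :=
    integral_mono_of_nonneg (Filter.Eventually.of_forall hnonneg) hint2
      (Filter.Eventually.of_forall hmain)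
  rw [integral_add (hint.const_mul _) (integrable_finsetSum _ fun k _ => hGint k),
    integral_const_mul, integral_finsetSum _ (fun k _ => hGint k)] at h1
  have h2 : ∑ k ∈ Finset.range J, ∫ x, G k x ∂μ ≤ J * (1005 * W * σ) := by
    calc ∑ k ∈ Finset.range J, ∫ x, G k x ∂μ ≤ ∑ k ∈ Finset.range J, (1005 * W * σ) :=
          Finset.sum_le_sum fun k _ => hGI k
      _ = _ := by rw [Finset.sum_const, Finset.card_range, nsmul_eq_mul]
  have h3 : ((2 : ℝ) ^ J)⁻¹ * ∫ x, ‖x‖ ∂μ ≤ ((2 : ℝ) ^ J)⁻¹ * B := by gcongr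
  linarith

end Pool.Agent.RevMink
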