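import Pool.Agent.RevMink.LA5

/-!
# Decomposition of a dense lattice along a sublattice with quotient of determinant one (step 1d)
-/

open MeasureTheory Matrix
open Pool.Agent.RevMink.LA5Aux
open scoped Pointwise

namespace Pool.Agent.RevMink.LA2Aux

lemma exists_U (k m : ℕ) (A : Matrix (Fin (k + m)) (Fin k) ℤ) (hA : Function.Injective A.mulVec) :
    ∃ U : Matrix (Fin (k + m)) (Fin (k + m)) ℤ, IsUnit U.det ∧
      ∃ T : Matrix (Fin k) (Fin k) ℤ, A = (U.submatrix id (Fin.castAdd m)) * T := by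
  obtain ⟨n, o, hno, bO, bN, a, h⟩ := Submodule.exists_smith_normal_form_of_le
    (Pi.basisFun ℤ (Fin (k + m))) (LinearMap.range A.mulVecLin) ⊤ le_top
  have ho : o = k + m := by
    have h1 := Module.finrank_eq_card_basis bO
    rw [finrank_top] at h1
    simpa using h1.symm
  have hinj : Function.Injective A.mulVecLin := hA
  have hn : n = k := by
    have h1 := Module.finrank_eq_card_basis bN
    have h2 := (LinearEquiv.ofInjective A.mulVecLin hinj).finrank_eq
    rw [h1] at h2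
    simpa using h2.symm
  subst ho
  subst hn
  set B : Module.Basis (Fin (n + m)) ℤ (Fin (n + m) → ℤ) := bO.map (LinearEquiv.ofTop ⊤ rfl) with hB
  refine ⟨Matrix.of (fun i j => B j i), ?_, ?_⟩
  · have h1 := (Pi.basisFun ℤ (Fin (n + m))).isUnit_det B
    rw [Module.Basis.det_apply] at h1
    have e : (Pi.basisFun ℤ (Fin (n + m))).toMatrix ⇑B = Matrix.of (fun i j => B j i) := by
      ext i j
      simp [Module.Basis.toMatrix_apply]
    rw [e] at h1
    exact h1
  · set v : Fin n → LinearMap.range A.mulVecLin :=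
      fun j => ⟨A.mulVecLin (Pi.single j 1), LinearMap.mem_range_self _ _⟩ with hv
    refine ⟨Matrix.of (fun i j => bN.repr (v j) i * a i), ?_⟩
    ext x j
    have h1 : ∑ i, bN.repr (v j) i • bN i = v j := bN.sum_repr (v j)
    have h2 : (v j : Fin (n + m) → ℤ) x = A x j := by
      rw [hv]; simp
    have h3 : (v j : Fin (n + m) → ℤ) x = ∑ i, bN.repr (v j) i * (a i * B (Fin.castAdd m i) x) := by
      conv_lhs => rw [← h1]
      rw [Submodule.coe_sum, Finset.sum_apply]
      apply Finset.sum_congr rfl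
      intro i _
      rw [Submodule.coe_smul, h i, Pi.smul_apply, Pi.smul_apply, smul_eq_mul, smul_eq_mul]
      rfl
    rw [← h2, h3, Matrix.mul_apply]
    apply Finset.sum_congr rfl
    intro i _
    simp only [Matrix.submatrix_apply, id, Matrix.of_apply]
    ring

/-! ### translation invariance on the torus -/

lemma zspan_mem {k : ℕ} (v : Fin k → ℝ) (hv : v ∈ Submodule.span ℤ (Set.range (Pi.basisFun ℝ (Fin k)))) :
    ∃ z : Fin k → ℤ, v = zc z := by
  have h := (Pi.basisFun ℝ (Fin k)).mem_span_iff_repr_mem ℤ v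
  have h1 := h.mp hv
  have h2 : ∀ i, ∃ z : ℤ, (z : ℝ) = v i := by
    intro i
    have := h1 i
    simpa using this
  choose z hz using h2
  exact ⟨z, by funext i; simp [zc, hz]⟩

lemma setIntegral_translate {k : ℕ} (f : (Fin k → ℝ) → ℝ)
    (hf : ∀ (x : Fin k → ℝ) (z : Fin k → ℤ), f (x + zc z) = f x) (c : Fin k → ℝ) :
    ∫ u in Set.Icc (0 : Fin k → ℝ) 1, f (u + c) = ∫ u in Set.Icc (0 : Fin k → ℝ) 1, f u := by
  set b := Pi.basisFun ℝ (Fin k) with hb
  set L := (Submodule.span ℤ (Set.range b)) with hL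
  have hD : IsAddFundamentalDomain L (ZSpan.fundamentalDomain b) volume :=
    ZSpan.isAddFundamentalDomain b volume
  have hD2 : IsAddFundamentalDomain L (c +ᵥ ZSpan.fundamentalDomain b) volume :=
    hD.vadd_of_comm c
  have hper : ∀ (g : L) (x : Fin k → ℝ), f (g +ᵥ x) = f x := by
    intro g x
    obtain ⟨z, hz⟩ := zspan_mem (g : Fin k → ℝ) g.2
    have : g +ᵥ x = x + zc z := by
      rw [← hz]
      show (g : Fin k → ℝ) + x = x + g
      abel
    rw [this, hf]
  have : VAddInvariantMeasure L (Fin k → ℝ) volume :=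
    ⟨fun g s _ => measure_preimage_add volume (g : Fin k → ℝ) s⟩
  have h1 : ∫ x in c +ᵥ ZSpan.fundamentalDomain b, f x = ∫ x in ZSpan.fundamentalDomain b, f x :=
    hD2.setIntegral_eq hD hper
  have hae : (Set.Icc (0 : Fin k → ℝ) 1 : Set (Fin k → ℝ)) =ᵐ[volume] ZSpan.fundamentalDomain b := by
    rw [hb, ZSpan.fundamentalDomain_pi_basisFun]
    have := (Measure.univ_pi_Ico_ae_eq_Icc (μ := fun _ : Fin k => (volume : Measure ℝ))
      (f := fun _ => (0 : ℝ)) (g := fun _ => (1 : ℝ))).symm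
    exact this
  rw [setIntegral_congr_set hae, setIntegral_congr_set hae, ← h1]
  have h2 : (fun u : Fin k → ℝ => u + c) ⁻¹' (c +ᵥ ZSpan.fundamentalDomain b) =
      ZSpan.fundamentalDomain b := by
    ext u
    constructor
    · rintro ⟨y, hy, hyu⟩
      have : c + y = u + c := hyu
      have : y = u := by
        have h3 := congrArg (fun t => t - c) this
        simpa [add_comm, add_sub_cancel_left] using h3
      rw [← this]; exact hy
    · intro hu
      exact ⟨u, hu, by show c + u = u + c; abel⟩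
  have h3 := (measurePreserving_add_right (volume : Measure (Fin k → ℝ)) c).setIntegral_preimage_emb
    (measurableEmbedding_addRight c) f (c +ᵥ ZSpan.fundamentalDomain b)
  rw [h2] at h3
  exact h3

lemma zc_add {k : ℕ} (a b : Fin k → ℤ) : zc (a + b) = zc a + zc b := by
  funext i; simp [zc]

lemma dsq_periodic {k : ℕ} (P : Matrix (Fin k) (Fin k) ℝ) (x : Fin k → ℝ) (z : Fin k → ℤ) :
    dsq P (x + zc z) = dsq P x := by
  unfold dsq
  have h := (Equiv.addLeft z).iInf_comp (g := fun z' : Fin k → ℤ => qf P (x + zc z'))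
  rw [← h]
  congr 1
  funext z'
  simp only [Equiv.coe_addLeft, zc_add, add_assoc]

lemma Zf_translate {k : ℕ} (P : Matrix (Fin k) (Fin k) ℝ) (c : Fin k → ℝ) :
    ∫ u in Set.Icc (0 : Fin k → ℝ) 1, Real.exp (-Real.pi * dsq P (u + c)) = Zf P := by
  unfold Zf
  exact setIntegral_translate (fun u => Real.exp (-Real.pi * dsq P u))
    (fun x z => by rw [dsq_periodic]) c

/-! ### splitting of the integral -/

/-- concatenation -/
noncomputable def cat (k m : ℕ) : ((Fin k → ℝ) × (Fin m → ℝ)) ≃ᵐ (Fin (k + m) → ℝ) :=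
  (MeasurableEquiv.sumPiEquivProdPi (fun _ : Fin k ⊕ Fin m => ℝ)).symm.trans
    (MeasurableEquiv.piCongrLeft (fun _ => ℝ) finSumFinEquiv)

lemma cat_apply (k m : ℕ) (x : Fin k → ℝ) (y : Fin m → ℝ) :
    cat k m (x, y) = (Sum.elim x y) ∘ finSumFinEquiv.symm := by
  funext i
  obtain ⟨j, rfl⟩ := finSumFinEquiv.surjective i
  unfold cat
  rw [MeasurableEquiv.trans_apply, MeasurableEquiv.piCongrLeft_apply_apply]
  cases j <;> simp [MeasurableEquiv.sumPiEquivProdPi, Equiv.sumPiEquivProdPi]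

lemma cat_mp (k m : ℕ) : MeasurePreserving (cat k m)
    ((volume : Measure (Fin k → ℝ)).prod (volume : Measure (Fin m → ℝ))) volume := by
  unfold cat
  exact (volume_measurePreserving_piCongrLeft (fun _ : Fin (k + m) => ℝ) finSumFinEquiv).comp
    (volume_measurePreserving_sumPiEquivProdPi_symm (fun _ : Fin k ⊕ Fin m => ℝ))

lemma cat_preimage (k m : ℕ) : (cat k m) ⁻¹' (Set.Icc (0 : Fin (k + m) → ℝ) 1) =
    (Set.Icc (0 : Fin k → ℝ) 1) ×ˢ (Set.Icc (0 : Fin m → ℝ) 1) := by
  ext ⟨x, y⟩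
  simp only [Set.mem_preimage, cat_apply, Set.mem_Icc, Set.mem_prod, Pi.le_def]
  constructor
  · rintro ⟨h1, h2⟩
    refine ⟨⟨fun i => ?_, fun i => ?_⟩, ⟨fun i => ?_, fun i => ?_⟩⟩
    · simpa using h1 (finSumFinEquiv (Sum.inl i))
    · simpa using h2 (finSumFinEquiv (Sum.inl i))
    · simpa using h1 (finSumFinEquiv (Sum.inr i))
    · simpa using h2 (finSumFinEquiv (Sum.inr i))
  · rintro ⟨⟨h1, h2⟩, ⟨h3, h4⟩⟩
    refine ⟨fun i => ?_, fun i => ?_⟩
    · obtain ⟨j, rfl⟩ := finSumFinEquiv.surjective i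
      cases j
      · simpa using h1 _
      · simpa using h3 _
    · obtain ⟨j, rfl⟩ := finSumFinEquiv.surjective i
      cases j
      · simpa using h2 _
      · simpa using h4 _

lemma split_integral (k m : ℕ) (f : (Fin (k + m) → ℝ) → ℝ)
    (hf : IntegrableOn f (Set.Icc (0 : Fin (k + m) → ℝ) 1)) :
    ∫ u in Set.Icc (0 : Fin (k + m) → ℝ) 1, f u =
      ∫ y in Set.Icc (0 : Fin m → ℝ) 1, ∫ x in Set.Icc (0 : Fin k → ℝ) 1, f (cat k m (x, y)) := by
  rw [← (cat_mp k m).setIntegral_preimage_emb (cat k m).measurableEmbedding f, cat_preimage,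
    ← Measure.prod_restrict]
  apply integral_prod_symm (fun p : (Fin k → ℝ) × (Fin m → ℝ) => f (cat k m p))
  have h1 := (cat_mp k m).integrableOn_comp_preimage (cat k m).measurableEmbedding (f := f)
    (s := Set.Icc (0 : Fin (k + m) → ℝ) 1)
  rw [cat_preimage] at h1
  have h2 := h1.mpr hf
  rw [IntegrableOn, ← Measure.prod_restrict] at h2
  exact h2

lemma split_integrable (k m : ℕ) (f : (Fin (k + m) → ℝ) → ℝ)
    (hf : IntegrableOn f (Set.Icc (0 : Fin (k + m) → ℝ) 1)) :
    IntegrableOn (fun y => ∫ x in Set.Icc (0 : Fin k → ℝ) 1, f (cat k m (x, y)))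
      (Set.Icc (0 : Fin m → ℝ) 1) := by
  have h1 := (cat_mp k m).integrableOn_comp_preimage (cat k m).measurableEmbedding (f := f)
    (s := Set.Icc (0 : Fin (k + m) → ℝ) 1)
  rw [cat_preimage] at h1
  have h2 := h1.mpr hf
  rw [IntegrableOn, ← Measure.prod_restrict] at h2
  exact h2.integral_prod_right

lemma exp_dsq_le_one {n : ℕ} {Q : Matrix (Fin n) (Fin n) ℝ} {c : ℝ} (hc : 0 < c)
    (hQ : ∀ x : Fin n → ℝ, c * ‖x‖ ^ 2 ≤ qf Q x) (u : Fin n → ℝ) :
    Real.exp (-Real.pi * dsq Q u) ≤ 1 := by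
  rw [Real.exp_le_one_iff]
  have := dsq_nonneg hc hQ u
  have := Real.pi_pos
  nlinarith

lemma exp_dsq_integrable {n : ℕ} {Q : Matrix (Fin n) (Fin n) ℝ} {c : ℝ} (hc : 0 < c)
    (hQ : ∀ x : Fin n → ℝ, c * ‖x‖ ^ 2 ≤ qf Q x) (f : (Fin n → ℝ) → (Fin n → ℝ)) (hf : Measurable f) :
    IntegrableOn (fun u => Real.exp (-Real.pi * dsq Q (f u))) (Set.Icc (0 : Fin n → ℝ) 1) := by
  have hfin : IsFiniteMeasure (volume.restrict (Set.Icc (0 : Fin n → ℝ) 1)) :=
    ⟨by rw [Measure.restrict_apply_univ]; exact isCompact_Icc.measure_lt_top⟩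
  refine Integrable.of_bound (C := 1) ?_ ?_
  · apply Measurable.aestronglyMeasurable
    have := dsq_measurable Q
    fun_prop
  · filter_upwards with u
    rw [Real.norm_eq_abs, abs_of_pos (Real.exp_pos _)]
    exact exp_dsq_le_one hc hQ _

lemma Zineq (k m : ℕ) (P : Matrix (Fin (k + m)) (Fin (k + m)) ℝ) (P₁ : Matrix (Fin k) (Fin k) ℝ)
    (P₂ : Matrix (Fin m) (Fin m) ℝ) (hP : P.PosDef) (hP₁ : P₁.PosDef) (hP₂ : P₂.PosDef)
    (c : (Fin m → ℝ) → (Fin k → ℝ))
    (H : ∀ x y, qf P (cat k m (x, y)) = qf P₁ (x + c y) + qf P₂ y) :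
    Zf P₁ * Zf P₂ ≤ Zf P := by
  obtain ⟨m0, hm0, hLB⟩ := exists_LB hP
  obtain ⟨m1, hm1, hLB1⟩ := exists_LB hP₁
  obtain ⟨m2, hm2, hLB2⟩ := exists_LB hP₂
  have hint : IntegrableOn (fun u => Real.exp (-Real.pi * dsq P u)) (Set.Icc (0 : Fin (k + m) → ℝ) 1) :=
    exp_dsq_integrable hm0 hLB id measurable_id
  have e1 : Zf P = ∫ y in Set.Icc (0 : Fin m → ℝ) 1, ∫ x in Set.Icc (0 : Fin k → ℝ) 1,
      Real.exp (-Real.pi * dsq P (cat k m (x, y))) := split_integral k m _ hint
  have e2 := split_integrable k m _ hint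
  rw [e1]
  have e3 : Zf P₁ * Zf P₂ = ∫ y in Set.Icc (0 : Fin m → ℝ) 1, Zf P₁ * Real.exp (-Real.pi * dsq P₂ y) := by
    rw [integral_const_mul]; rfl
  rw [e3]
  apply integral_mono
  · exact (exp_dsq_integrable hm2 hLB2 id measurable_id).const_mul _
  · exact e2
  · intro y
    show Zf P₁ * Real.exp (-Real.pi * dsq P₂ y) ≤ ∫ x in Set.Icc (0 : Fin k → ℝ) 1,
      Real.exp (-Real.pi * dsq P (cat k m (x, y)))
    obtain ⟨z2, hz2⟩ := exists_min hm2 hLB2 y
    have hd2 := dsq_eq hm2 hLB2 hz2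
    have key : ∀ x, dsq P (cat k m (x, y)) ≤ dsq P₁ (x + c (y + zc z2)) + dsq P₂ y := by
      intro x
      rw [← sub_le_iff_le_add]
      apply le_ciInf
      intro z1
      rw [sub_le_iff_le_add, hd2]
      set z : Fin (k + m) → ℤ := (Sum.elim z1 z2) ∘ finSumFinEquiv.symm with hz
      have hcat : cat k m (x, y) + zc z = cat k m (x + zc z1, y + zc z2) := by
        rw [cat_apply, cat_apply]
        funext i
        obtain ⟨j, rfl⟩ := finSumFinEquiv.surjective i
        cases j <;> simp [zc, hz]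
      refine (dsq_le hm0 hLB (cat k m (x, y)) z).trans (le_of_eq ?_)
      rw [hcat, H]
      congr 2
      abel
    rw [← Zf_translate P₁ (c (y + zc z2)), ← integral_mul_const]
    apply integral_mono
    · exact (exp_dsq_integrable hm1 hLB1 (fun u => u + c (y + zc z2)) (by fun_prop)).mul_const _
    · -- integrability in x
      have hfin : IsFiniteMeasure (volume.restrict (Set.Icc (0 : Fin k → ℝ) 1)) :=
        ⟨by rw [Measure.restrict_apply_univ]; exact isCompact_Icc.measure_lt_top⟩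
      refine Integrable.of_bound (C := 1) ?_ ?_
      · apply Measurable.aestronglyMeasurable
        have h1 := dsq_measurable P
        have h2 : Measurable (fun x : Fin k → ℝ => cat k m (x, y)) :=
          (cat k m).measurable.comp (by fun_prop)
        exact (((h1.comp h2).const_mul (-Real.pi))).exp
      · filter_upwards with u
        rw [Real.norm_eq_abs, abs_of_pos (Real.exp_pos _)]
        exact exp_dsq_le_one hm0 hLB _
    · intro x
      show Real.exp (-Real.pi * dsq P₁ (x + c (y + zc z2))) * Real.exp (-Real.pi * dsq P₂ y) ≤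
        Real.exp (-Real.pi * dsq P (cat k m (x, y)))
      rw [← Real.exp_add, Real.exp_le_exp]
      have := key x
      have := Real.pi_pos
      nlinarith

/-! ### linear algebra -/

/-- reindexed matrix -/
def bl {k m : ℕ} (P : Matrix (Fin (k + m)) (Fin (k + m)) ℝ) : Matrix (Fin k ⊕ Fin m) (Fin k ⊕ Fin m) ℝ :=
  P.submatrix finSumFinEquiv finSumFinEquiv

/-- top left block -/
def P1 {k m : ℕ} (P : Matrix (Fin (k + m)) (Fin (k + m)) ℝ) : Matrix (Fin k) (Fin k) ℝ :=
  (bl P).toBlocks₁₁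

/-- Schur complement -/
noncomputable def P2 {k m : ℕ} (P : Matrix (Fin (k + m)) (Fin (k + m)) ℝ) : Matrix (Fin m) (Fin m) ℝ :=
  (bl P).toBlocks₂₂ - (bl P).toBlocks₁₂ᴴ * (P1 P)⁻¹ * (bl P).toBlocks₁₂

lemma bl_posDef {k m : ℕ} {P : Matrix (Fin (k + m)) (Fin (k + m)) ℝ} (hP : P.PosDef) :
    (bl P).PosDef := hP.submatrix finSumFinEquiv.injective

lemma P1_posDef {k m : ℕ} {P : Matrix (Fin (k + m)) (Fin (k + m)) ℝ} (hP : P.PosDef) :
    (P1 P).PosDef :=
  (bl_posDef hP).submatrix (e := Sum.inl) Sum.inl_injective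

lemma bl_eq {k m : ℕ} {P : Matrix (Fin (k + m)) (Fin (k + m)) ℝ} (hP : P.PosDef) :
    bl P = fromBlocks (P1 P) (bl P).toBlocks₁₂ (bl P).toBlocks₁₂ᴴ (bl P).toBlocks₂₂ := by
  conv_lhs => rw [← fromBlocks_toBlocks (bl P)]
  congr 1
  have h := (bl_posDef hP).1
  ext i j
  have h2 := congrFun (congrFun h (Sum.inr i)) (Sum.inl j)
  simp only [conjTranspose_apply] at h2
  simp only [toBlocks₂₁, toBlocks₁₂, conjTranspose_apply, of_apply]
  exact h2.symm

lemma qf_cat {k m : ℕ} (P : Matrix (Fin (k + m)) (Fin (k + m)) ℝ) (x : Fin k → ℝ) (y : Fin m → ℝ) :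
    qf P (cat k m (x, y)) = (Sum.elim x y) ⬝ᵥ (bl P *ᵥ (Sum.elim x y)) := by
  have h1 : P = (bl P).submatrix finSumFinEquiv.symm finSumFinEquiv.symm := by
    unfold bl; ext i j; simp
  unfold qf
  rw [cat_apply]
  conv_lhs => rw [h1]
  rw [submatrix_mulVec_equiv]
  have h2 : (Sum.elim x y ∘ ⇑finSumFinEquiv.symm) ∘ ⇑(finSumFinEquiv (m := k) (n := m)).symm.symm =
      Sum.elim x y := by
    funext i; simp
  rw [h2, comp_equiv_dotProduct_comp_equiv]

lemma qf_decomp {k m : ℕ} {P : Matrix (Fin (k + m)) (Fin (k + m)) ℝ} (hP : P.PosDef)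
    (x : Fin k → ℝ) (y : Fin m → ℝ) :
    qf P (cat k m (x, y)) = qf (P1 P) (x + ((P1 P)⁻¹ * (bl P).toBlocks₁₂) *ᵥ y) + qf (P2 P) y := by
  have hu : IsUnit (P1 P) := (P1_posDef hP).isUnit
  let _ := hu.invertible
  have h := schur_complement_eq₁₁ (A := P1 P) (bl P).toBlocks₁₂ (bl P).toBlocks₂₂ x y (P1_posDef hP).1
  rw [← bl_eq hP] at h
  rw [qf_cat]
  unfold qf P2
  simp only [star_trivial] at h
  rw [dotProduct_mulVec, dotProduct_mulVec, dotProduct_mulVec]
  exact h

lemma P2_posDef {k m : ℕ} {P : Matrix (Fin (k + m)) (Fin (k + m)) ℝ} (hP : P.PosDef) :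
    (P2 P).PosDef := by
  have hh : (P2 P).IsHermitian := by
    unfold P2
    apply IsHermitian.sub
    · exact ((bl_posDef hP).submatrix (e := Sum.inr) Sum.inr_injective).1
    · exact isHermitian_conjTranspose_mul_mul _ (P1_posDef hP).inv.1
  apply PosDef.of_dotProduct_mulVec_pos hh
  intro y hy
  have h1 := qf_decomp hP (-(((P1 P)⁻¹ * (bl P).toBlocks₁₂) *ᵥ y)) y
  have h2 : qf (P1 P) (-(((P1 P)⁻¹ * (bl P).toBlocks₁₂) *ᵥ y) + ((P1 P)⁻¹ * (bl P).toBlocks₁₂) *ᵥ y) = 0 := by
    rw [neg_add_cancel]; simp [qf]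
  rw [h2, zero_add] at h1
  rw [star_trivial]
  show 0 < qf (P2 P) y
  rw [← h1, qf_cat]
  have h3 := (bl_posDef hP).dotProduct_mulVec_pos
    (x := Sum.elim (-(((P1 P)⁻¹ * (bl P).toBlocks₁₂) *ᵥ y)) y) (by
      intro h0
      apply hy
      funext i
      exact congrFun h0 (Sum.inr i))
  rw [star_trivial] at h3
  exact h3

/-- Gram matrix for general index types -/
def gramG {ι κ : Type} [Fintype ι] (Q : Matrix ι ι ℝ) (B : Matrix ι κ ℤ) : Matrix κ κ ℝ :=
  (B.map (Int.cast : ℤ → ℝ))ᵀ * Q * B.map (Int.cast : ℤ → ℝ)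

lemma gram_reindex {k m : ℕ} {κ : Type} {j : ℕ} (P : Matrix (Fin (k + m)) (Fin (k + m)) ℝ)
    (B : Matrix (Fin k ⊕ Fin m) κ ℤ) (g : Fin j → κ) :
    gram P (B.submatrix finSumFinEquiv.symm g) = (gramG (bl P) B).submatrix g g := by
  have h1 : P = (bl P).submatrix finSumFinEquiv.symm finSumFinEquiv.symm := by
    unfold bl; ext i j; simp
  unfold gram gramG zm
  conv_lhs => rw [h1]
  rw [← submatrix_map, transpose_submatrix, submatrix_mul_equiv, submatrix_mul_equiv]

lemma det_gram_block {k m j : ℕ} {P : Matrix (Fin (k + m)) (Fin (k + m)) ℝ} (hP : P.PosDef)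
    (A' : Matrix (Fin m) (Fin j) ℤ) :
    (gram P ((fromBlocks (1 : Matrix (Fin k) (Fin k) ℤ) 0 0 A').submatrix finSumFinEquiv.symm
      (finSumFinEquiv (m := k) (n := j)).symm)).det = (P1 P).det * (gram (P2 P) A').det := by
  have hu : IsUnit (P1 P) := (P1_posDef hP).isUnit
  let _ := hu.invertible
  rw [gram_reindex, det_submatrix_equiv_self]
  unfold gramG
  rw [bl_eq hP, fromBlocks_map, fromBlocks_transpose, fromBlocks_multiply, fromBlocks_multiply]
  have e1 : (1 : Matrix (Fin k) (Fin k) ℤ).map (Int.cast : ℤ → ℝ) = 1 := by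
    ext i j; simp [Matrix.map_apply, Matrix.one_apply]
  have e2 : (0 : Matrix (Fin m) (Fin k) ℤ).map (Int.cast : ℤ → ℝ) = 0 := by
    ext i j; simp
  have e3 : (0 : Matrix (Fin k) (Fin j) ℤ).map (Int.cast : ℤ → ℝ) = 0 := by
    ext i j; simp
  rw [e1, e2, e3]
  simp only [transpose_one, transpose_zero, Matrix.one_mul, Matrix.zero_mul, Matrix.mul_zero,
    Matrix.mul_one, add_zero, zero_add]
  rw [det_fromBlocks₁₁]
  congr 2
  unfold gram zm P2
  rw [invOf_eq_nonsing_inv, Matrix.mul_sub, Matrix.sub_mul]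
  simp only [Matrix.mul_assoc]

lemma det_P {k m : ℕ} {P : Matrix (Fin (k + m)) (Fin (k + m)) ℝ} (hP : P.PosDef) :
    P.det = (P1 P).det * (P2 P).det := by
  have hu : IsUnit (P1 P) := (P1_posDef hP).isUnit
  let _ := hu.invertible
  have h1 : P.det = (bl P).det := by
    unfold bl; rw [det_submatrix_equiv_self]
  rw [h1]
  conv_lhs => rw [bl_eq hP]
  rw [det_fromBlocks₁₁, invOf_eq_nonsing_inv]
  rfl

lemma gram_top {k m j : ℕ} {P : Matrix (Fin (k + m)) (Fin (k + m)) ℝ} (hP : P.PosDef)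
    (A' : Matrix (Fin k) (Fin j) ℤ) :
    gram P ((fromRows A' (0 : Matrix (Fin m) (Fin j) ℤ)).submatrix finSumFinEquiv.symm id) =
      gram (P1 P) A' := by
  rw [gram_reindex, submatrix_id_id]
  unfold gramG gram zm
  rw [bl_eq hP]
  have e1 : (fromRows A' (0 : Matrix (Fin m) (Fin j) ℤ)).map (Int.cast : ℤ → ℝ) =
      fromRows (A'.map (Int.cast : ℤ → ℝ)) 0 := by
    ext i j; cases i <;> simp
  rw [e1, transpose_fromRows, transpose_zero, fromCols_mul_fromBlocks, fromCols_mul_fromRows]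
  simp

lemma dense_blocks {k m : ℕ} (hm : 0 < m) {P : Matrix (Fin (k + m)) (Fin (k + m)) ℝ} (hP : P.PosDef)
    (hD : Dense P) (hdet : (P1 P).det = P.det) : Dense (P1 P) ∧ Dense (P2 P) := by
  have hpos1 := (P1_posDef hP).det_pos
  have hpos := hP.det_pos
  have hdet2 : (P2 P).det = 1 := by
    have h1 := det_P hP
    rw [hdet] at h1
    have h2 : P.det * 1 = P.det * (P2 P).det := by rw [mul_one]; exact h1
    exact (mul_left_cancel₀ hpos.ne' h2).symm
  constructor
  · intro j hj A'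
    have h1 := hD j (by omega) ((fromRows A' (0 : Matrix (Fin m) (Fin j) ℤ)).submatrix finSumFinEquiv.symm id)
    rw [gram_top hP, ← hdet] at h1
    exact h1
  · intro j hj A'
    have h1 := hD (k + j) (by omega) ((fromBlocks (1 : Matrix (Fin k) (Fin k) ℤ) 0 0 A').submatrix
      finSumFinEquiv.symm (finSumFinEquiv (m := k) (n := j)).symm)
    rw [det_gram_block hP, hdet] at h1
    rw [hdet2]
    rcases h1 with h1 | h1
    · left
      exact (mul_eq_zero.mp h1).resolve_left hpos.ne'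
    · right
      by_contra hc
      push Not at hc
      have : P.det * (gram (P2 P) A').det < P.det * 1 := by
        exact mul_lt_mul_of_pos_left hc hpos
      linarith

end Pool.Agent.RevMink.LA2Aux

namespace Pool.Agent.RevMink

open LA2Aux

lemma qf_smul_mat {n : ℕ} (P : Matrix (Fin n) (Fin n) ℝ) (t : ℝ) (x : Fin n → ℝ) :
    qf (t • P) x = t * qf P x := by
  unfold qf
  rw [smul_mulVec, dotProduct_smul, smul_eq_mul]

theorem la2 (h4 : Stmt_LA4) : Stmt_LA2 := by
  intro n P hP hD k hk hkn A hA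
  obtain ⟨m, rfl⟩ : ∃ m, n = k + m := ⟨n - k, by omega⟩
  have hm : 0 < m := by omega
  rw [Nat.add_sub_cancel_left]
  have hinj : Function.Injective A.mulVec := by
    -- otherwise the Gram determinant vanishes
    have hne : (gram P A).det ≠ 0 := by rw [hA]; exact hP.det_pos.ne'
    have hz : ∀ v : Fin k → ℤ, A *ᵥ v = 0 → v = 0 := by
      intro v hv
      by_contra hv0
      apply hne
      apply Matrix.exists_mulVec_eq_zero_iff.mp
      refine ⟨fun i => (v i : ℝ), ?_, ?_⟩
      · intro h0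
        apply hv0
        funext i
        have := congrFun h0 i
        simpa using this
      · unfold gram
        rw [← mulVec_mulVec]
        have : zm A *ᵥ (fun i => (v i : ℝ)) = 0 := by
          funext i
          have h1 := congrFun hv i
          simp only [mulVec, dotProduct, zm, Matrix.map_apply, Pi.zero_apply] at h1 ⊢
          exact_mod_cast h1
        rw [this, mulVec_zero]
    intro v w hvw
    have : A *ᵥ (v - w) = 0 := by
      rw [mulVec_sub, sub_eq_zero]; exact hvw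
    exact sub_eq_zero.mp (hz _ this)
  obtain ⟨U, hU, T, hT⟩ := exists_U k m A hinj
  obtain ⟨hZ, hP', hD', hdet'⟩ := h4.2.2.1 (k + m) P hP U hU
  have hD'' := hD' hD
  set P' := gram P U with hP'def
  have hgT : gram P A = (zm T)ᵀ * P1 P' * zm T := by
    have e1 : zm A = zm (U.submatrix id (Fin.castAdd m)) * zm T := by
      rw [hT]
      unfold zm
      ext i j
      simp only [Matrix.map_apply, Matrix.mul_apply]
      push_cast
      rfl
    have e2 : P1 P' = (zm (U.submatrix id (Fin.castAdd m)))ᵀ * P * zm (U.submatrix id (Fin.castAdd m)) := by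
      ext i j
      rfl
    unfold gram
    rw [e1, e2, transpose_mul]
    simp only [Matrix.mul_assoc]
  have hdetT : P.det = ((T.det : ℤ) : ℝ) ^ 2 * (P1 P').det := by
    rw [← hA, hgT, det_mul, det_mul, det_transpose]
    have : (zm T).det = ((T.det : ℤ) : ℝ) := by
      unfold zm
      rw [Int.cast_det]
    rw [this]; ring
  have hpos := hP.det_pos
  have hpos1 := (P1_posDef hP').det_pos
  have hge : P.det ≤ (P1 P').det := by
    have h1 := hD'' k (by omega)
      ((fromRows (1 : Matrix (Fin k) (Fin k) ℤ) (0 : Matrix (Fin m) (Fin k) ℤ)).submatrix finSumFinEquiv.symm id)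
    rw [gram_top hP'] at h1
    have e : gram (P1 P') (1 : Matrix (Fin k) (Fin k) ℤ) = P1 P' := by
      unfold gram zm
      have : (1 : Matrix (Fin k) (Fin k) ℤ).map (Int.cast : ℤ → ℝ) = 1 := by
        ext i j; simp [Matrix.map_apply, Matrix.one_apply]
      rw [this]; simp
    rw [e, hdet'] at h1
    exact h1.resolve_left hpos1.ne'
  have hT2 : ((T.det : ℤ) : ℝ) ^ 2 = 1 := by
    have h0 : T.det ≠ 0 := by
      intro h0
      rw [h0] at hdetT
      simp at hdetT
      exact hpos.ne' hdetT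
    have h1 : (1 : ℝ) ≤ ((T.det : ℤ) : ℝ) ^ 2 := by
      have h2 : (0 : ℤ) < T.det ^ 2 := by positivity
      have h3 : (1 : ℤ) ≤ T.det ^ 2 := h2
      exact_mod_cast h3
    by_contra hc
    have h2 : 1 < ((T.det : ℤ) : ℝ) ^ 2 := lt_of_le_of_ne h1 (Ne.symm hc)
    nlinarith
  have hdet1 : (P1 P').det = P'.det := by
    rw [hdet', hdetT, hT2, one_mul]
  obtain ⟨hd1, hd2⟩ := dense_blocks hm hP' hD'' hdet1
  refine ⟨P1 P', P2 P', P1_posDef hP', P2_posDef hP', hd1, hd2, ?_⟩
  intro t ht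
  have hZt := (h4.2.2.1 (k + m) (t • P) (hP.smul ht) U hU).1
  rw [← hZt]
  have e : gram (t • P) U = t • P' := by
    rw [hP'def]
    unfold gram
    rw [Matrix.mul_smul, Matrix.smul_mul]
  rw [e]
  apply Zineq k m (t • P') (t • P1 P') (t • P2 P') (hP'.smul ht) ((P1_posDef hP').smul ht)
    ((P2_posDef hP').smul ht) (fun y => ((P1 P')⁻¹ * (bl P').toBlocks₁₂) *ᵥ y)
  intro x y
  rw [qf_smul_mat, qf_smul_mat, qf_smul_mat, qf_decomp hP']
  ring

end Pool.Agent.RevMink
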