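import Pool.Agent.RevMink.Defs

/-!
# LA3: openness of the density conditions (helper74)
-/

set_option autoImplicit false

open Matrix

namespace Pool.Agent.RevMink

namespace LA3Aux

open scoped MatrixOrder in
theorem det_one_add_ge {m : Type*} [Fintype m] [DecidableEq m] {W : Matrix m m ℝ}
    (hW : W.PosSemidef) : 1 ≤ (1 + W).det := by
  have hH : (1 + W).IsHermitian := Matrix.isHermitian_one.add hW.isHermitian
  rw [hH.det_eq_prod_eigenvalues]
  have h : ∀ i, 1 ≤ hH.eigenvalues i := by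
    intro i
    have h1 := hH.mulVec_eigenvectorBasis i
    set v : m → ℝ := (hH.eigenvectorBasis i).ofLp with hv
    have h2 : (v ⬝ᵥ v) = 1 := by
      have h3 := hH.eigenvectorBasis.orthonormal.1 i
      have h4 : ‖hH.eigenvectorBasis i‖ ^ 2 = 1 := by rw [h3]; norm_num
      rw [EuclideanSpace.norm_sq_eq] at h4
      simpa [dotProduct, hv, sq] using h4
    have h5 : v ⬝ᵥ (W *ᵥ v) = hH.eigenvalues i - 1 := by
      have h6 : (1 + W) *ᵥ v = v + W *ᵥ v := by rw [add_mulVec, one_mulVec]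
      rw [h6] at h1
      have h7 : W *ᵥ v = hH.eigenvalues i • v - v := by rw [← h1]; abel
      rw [h7, dotProduct_sub, dotProduct_smul, h2]
      simp
    have h8 := hW.dotProduct_mulVec_nonneg v
    rw [star_trivial, h5] at h8
    linarith
  simp only [RCLike.ofReal_real_eq_id, id_eq]
  calc (1 : ℝ) = ∏ _i : m, (1 : ℝ) := by simp
    _ ≤ ∏ i, hH.eigenvalues i := Finset.prod_le_prod (fun _ _ => zero_le_one) (fun i _ => h i)

open scoped MatrixOrder in
theorem det_mono {m : Type*} [Fintype m] [DecidableEq m] {X Y : Matrix m m ℝ}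
    (hX : X.PosDef) (h : (Y - X).PosSemidef) : X.det ≤ Y.det := by
  obtain ⟨B, hB⟩ := CStarAlgebra.nonneg_iff_eq_star_mul_self.mp hX.posSemidef.nonneg
  rw [star_eq_conjTranspose] at hB
  have hXdet := hX.det_pos
  have hBdet : IsUnit B.det := by
    rw [hB, det_mul] at hXdet
    exact (right_ne_zero_of_mul hXdet.ne').isUnit
  have hBB : B⁻¹ * B = 1 := nonsing_inv_mul B hBdet
  have hBB' : B * B⁻¹ = 1 := mul_nonsing_inv B hBdet
  set W : Matrix m m ℝ := (B⁻¹)ᴴ * (Y - X) * B⁻¹ with hW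
  have hWp : W.PosSemidef := h.conjTranspose_mul_mul_same B⁻¹
  have hY : Y = Bᴴ * (1 + W) * B := by
    rw [Matrix.mul_add, Matrix.add_mul, Matrix.mul_one, ← hB, hW]
    have : Bᴴ * ((B⁻¹)ᴴ * (Y - X) * B⁻¹) * B = (B⁻¹ * B)ᴴ * (Y - X) * (B⁻¹ * B) := by
      rw [conjTranspose_mul]; simp only [Matrix.mul_assoc]
    rw [this, hBB]
    simp
  have h1 := det_one_add_ge hWp
  calc X.det = X.det * 1 := by ring
    _ ≤ X.det * (1 + W).det := mul_le_mul_of_nonneg_left h1 hXdet.le
    _ = Y.det := by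
      conv_rhs => rw [hY]
      rw [det_mul, det_mul]
      conv_lhs => rw [hB, det_mul]
      ring

theorem zm_mul {n k l : ℕ} (A : Matrix (Fin n) (Fin k) ℤ) (B : Matrix (Fin k) (Fin l) ℤ) :
    zm (A * B) = zm A * zm B := by
  unfold zm
  exact (Matrix.map_mul (f := Int.castRingHom ℝ))

theorem zm_mulVec {n k : ℕ} (A : Matrix (Fin n) (Fin k) ℤ) (v : Fin k → ℤ) :
    zm A *ᵥ zc v = zc (A *ᵥ v) := by
  funext i
  simp [zm, zc, mulVec, dotProduct]

theorem gram_gram {n k l : ℕ} (P : Matrix (Fin n) (Fin n) ℝ) (A : Matrix (Fin n) (Fin k) ℤ)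
    (B : Matrix (Fin k) (Fin l) ℤ) : gram (gram P A) B = gram P (A * B) := by
  unfold gram
  rw [zm_mul, transpose_mul]
  simp only [Matrix.mul_assoc]

theorem gram_smul {n k : ℕ} (c : ℝ) (P : Matrix (Fin n) (Fin n) ℝ) (A : Matrix (Fin n) (Fin k) ℤ) :
    gram (c • P) A = c • gram P A := by
  unfold gram
  simp

theorem gram_sub {n k : ℕ} (P Q : Matrix (Fin n) (Fin n) ℝ) (A : Matrix (Fin n) (Fin k) ℤ) :
    gram (P - Q) A = gram P A - gram Q A := by
  unfold gram
  rw [Matrix.mul_sub, Matrix.sub_mul]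

theorem gram_diag {n k : ℕ} (P : Matrix (Fin n) (Fin n) ℝ) (A : Matrix (Fin n) (Fin k) ℤ)
    (i : Fin k) : gram P A i i = qf P (zc (fun j => A j i)) := by
  unfold gram qf
  rw [Matrix.mul_assoc, Matrix.mul_apply]
  simp only [dotProduct, transpose_apply, zm, map_apply, zc]
  rfl

/-- a nonzero Gram determinant means the cast matrix is injective. -/
theorem inj_of_det {n k : ℕ} {P : Matrix (Fin n) (Fin n) ℝ} {A : Matrix (Fin n) (Fin k) ℤ}
    (h : (gram P A).det ≠ 0) : Function.Injective (mulVec (zm A)) := by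
  intro v w hvw
  have h1 : gram P A *ᵥ (v - w) = 0 := by
    unfold gram
    rw [← mulVec_mulVec, mulVec_sub, hvw, sub_self, mulVec_zero]
  have := Matrix.eq_zero_of_mulVec_eq_zero h h1
  exact sub_eq_zero.1 this

theorem gram_posDef {n k : ℕ} {P : Matrix (Fin n) (Fin n) ℝ} (hP : P.PosDef)
    {A : Matrix (Fin n) (Fin k) ℤ} (h : Function.Injective (mulVec (zm A))) :
    (gram P A).PosDef := by
  have := hP.conjTranspose_mul_mul_same h
  simpa [gram] using this

theorem det_gram_unit {k : ℕ} (G : Matrix (Fin k) (Fin k) ℝ) {U : Matrix (Fin k) (Fin k) ℤ}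
    (hU : GLZ U) : (gram G U).det = G.det := by
  have h1 : (U.det : ℝ) ^ 2 = 1 := by
    rcases Int.isUnit_iff.1 hU with h | h <;> rw [h] <;> norm_num
  have h3 : (zm U).det = (U.det : ℝ) := by
    have := (Int.castRingHom ℝ).map_det U
    simpa [zm] using this.symm
  unfold gram
  rw [det_mul, det_mul, det_transpose, h3]
  calc (U.det : ℝ) * G.det * (U.det : ℝ) = (U.det : ℝ) ^ 2 * G.det := by ring
    _ = G.det := by rw [h1, one_mul]

open scoped MatrixOrder in
/-- quantitative positivity -/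
theorem qf_lower {n : ℕ} {P : Matrix (Fin n) (Fin n) ℝ} (hP : P.PosDef) :
    ∃ l : ℝ, 0 < l ∧ ∀ x : Fin n → ℝ, l * ∑ i, x i ^ 2 ≤ qf P x := by
  obtain ⟨B, hB⟩ := CStarAlgebra.nonneg_iff_eq_star_mul_self.mp hP.posSemidef.nonneg
  rw [star_eq_conjTranspose] at hB
  have hPdet := hP.det_pos
  have hBdet : IsUnit B.det := by
    rw [hB, det_mul] at hPdet
    exact (right_ne_zero_of_mul hPdet.ne').isUnit
  have hBB : B⁻¹ * B = 1 := nonsing_inv_mul B hBdet
  set S : ℝ := ∑ i, ∑ j, (B⁻¹ i j) ^ 2 with hS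
  have hS0 : 0 ≤ S := Finset.sum_nonneg fun i _ => Finset.sum_nonneg fun j _ => sq_nonneg _
  refine ⟨1 / (S + 1), by positivity, fun x => ?_⟩
  set y : Fin n → ℝ := B *ᵥ x with hy
  have hq : qf P x = ∑ j, y j ^ 2 := by
    unfold qf
    rw [hB, ← mulVec_mulVec, dotProduct_mulVec, vecMul_conjTranspose]
    simp [dotProduct, sq, hy]
  have hx : x = B⁻¹ *ᵥ y := by rw [hy, mulVec_mulVec, hBB, one_mulVec]
  have hY0 : 0 ≤ ∑ j, y j ^ 2 := Finset.sum_nonneg fun i _ => sq_nonneg _
  have h1 : ∑ i, x i ^ 2 ≤ S * ∑ j, y j ^ 2 := by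
    rw [hS, Finset.sum_mul]
    refine Finset.sum_le_sum fun i _ => ?_
    have h2 : x i = ∑ j, B⁻¹ i j * y j := by
      conv_lhs => rw [hx]
      rfl
    rw [h2]
    exact Finset.sum_mul_sq_le_sq_mul_sq _ _ _
  rw [hq, div_mul_eq_mul_div, one_mul, div_le_iff₀ (by positivity)]
  nlinarith

theorem finite_qf {n : ℕ} {P : Matrix (Fin n) (Fin n) ℝ} (hP : P.PosDef) (R : ℝ) :
    {z : Fin n → ℤ | qf P (zc z) ≤ R}.Finite := by
  obtain ⟨l, hl, h⟩ := qf_lower hP
  set K : ℤ := ⌈R / l⌉ with hK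
  refine (Set.finite_Icc (fun _ => -K : Fin n → ℤ) (fun _ => K)).subset ?_
  intro z hz
  have hz' : qf P (zc z) ≤ R := hz
  have h1 := (h (zc z)).trans hz'
  have h2 : ∑ i, zc z i ^ 2 ≤ R / l := by
    rw [le_div_iff₀ hl]; linarith
  have h3 : ∀ i, (z i) ^ 2 ≤ K := by
    intro i
    have h4 : zc z i ^ 2 ≤ ∑ i, zc z i ^ 2 :=
      Finset.single_le_sum (f := fun i => zc z i ^ 2) (fun _ _ => sq_nonneg _) (Finset.mem_univ i)
    have h5 : ((z i : ℝ)) ^ 2 ≤ (K : ℝ) := by
      calc ((z i : ℝ)) ^ 2 = zc z i ^ 2 := rfl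
        _ ≤ R / l := h4.trans h2
        _ ≤ K := Int.le_ceil _
    exact_mod_cast h5
  refine ⟨fun i => ?_, fun i => ?_⟩
  · have := h3 i
    show -K ≤ z i
    nlinarith [Int.le_self_sq (-(z i))]
  · have := h3 i
    show z i ≤ K
    nlinarith [Int.le_self_sq (z i)]

theorem finite_cols {n : ℕ} {P : Matrix (Fin n) (Fin n) ℝ} (hP : P.PosDef) (k : ℕ) (R : ℝ) :
    {A : Matrix (Fin n) (Fin k) ℤ | ∀ i, gram P A i i ≤ R}.Finite := by
  have h1 := Set.Finite.pi' (fun _ : Fin k => finite_qf hP R)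
  refine Set.Finite.of_finite_image (f := fun A : Matrix (Fin n) (Fin k) ℤ => Aᵀ) ?_
    (fun A _ B _ h => Matrix.transpose_injective h)
  refine h1.subset ?_
  rintro _ ⟨A, hA, rfl⟩
  intro i
  have := hA i
  rw [gram_diag] at this
  exact this

/-- the gap: Gram determinants do not accumulate at `det P`. -/
theorem gap (h1 : Stmt_LA1) {n : ℕ} {P : Matrix (Fin n) (Fin n) ℝ} (hP : P.PosDef) (hD : Dense P)
    {k : ℕ} (hkn : k < n)
    (hne : ∀ A : Matrix (Fin n) (Fin k) ℤ, (gram P A).det ≠ P.det) :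
    ∃ η : ℝ, 0 < η ∧ η ≤ 1 ∧ ∀ A : Matrix (Fin n) (Fin k) ℤ,
      (gram P A).det = 0 ∨ (1 + η) * P.det ≤ (gram P A).det := by
  classical
  have hPdet := hP.det_pos
  set F := (finite_cols hP k (2 * (k : ℝ) ^ 2)).toFinset with hF
  -- a gap on the finite set
  obtain ⟨η, hη, hη1, hgap⟩ : ∃ η : ℝ, 0 < η ∧ η ≤ 1 ∧ ∀ A ∈ F,
      (gram P A).det = 0 ∨ (1 + η) * P.det ≤ (gram P A).det := by
    refine Finset.induction_on F ⟨1, one_pos, le_rfl, by simp⟩ ?_
    rintro A F' - ⟨η, hη, hη1, h⟩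
    rcases hD k hkn A with h0 | h0
    · refine ⟨η, hη, hη1, fun B hB => ?_⟩
      rcases Finset.mem_insert.1 hB with rfl | hB
      · exact Or.inl h0
      · exact h B hB
    · have h0' : P.det < (gram P A).det := lt_of_le_of_ne h0 (hne A).symm
      refine ⟨min η ((gram P A).det / P.det - 1), lt_min hη ?_, (min_le_left _ _).trans hη1,
        fun B hB => ?_⟩
      · rw [sub_pos, lt_div_iff₀ hPdet]; linarith
      · rcases Finset.mem_insert.1 hB with rfl | hB
        · right
          calc (1 + min η ((gram P B).det / P.det - 1)) * P.det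
              ≤ (1 + ((gram P B).det / P.det - 1)) * P.det := by
                apply mul_le_mul_of_nonneg_right _ hPdet.le
                linarith [min_le_right η ((gram P B).det / P.det - 1)]
            _ = (gram P B).det := by field_simp; ring
        · rcases h B hB with h | h
          · exact Or.inl h
          · right
            refine le_trans ?_ h
            apply mul_le_mul_of_nonneg_right _ hPdet.le
            linarith [min_le_left η ((gram P A).det / P.det - 1)]
  refine ⟨η, hη, hη1, fun A => ?_⟩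
  by_cases h0 : (gram P A).det = 0
  · exact Or.inl h0
  right
  by_cases h2 : 2 * P.det ≤ (gram P A).det
  · refine le_trans ?_ h2
    apply mul_le_mul_of_nonneg_right _ hPdet.le
    linarith
  push Not at h2
  -- reduce
  have hG : (gram P A).PosDef := gram_posDef hP (inj_of_det h0)
  have hGdet := hG.det_pos
  have hG2 : ((1 / 2 : ℝ) • gram P A).PosDef := hG.smul (by norm_num)
  have hDense : Dense ((1 / 2 : ℝ) • gram P A) := by
    intro j hj B
    rw [gram_smul, gram_gram, det_smul, det_smul]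
    simp only [Fintype.card_fin]
    rcases hD j (hj.trans hkn) (A * B) with h | h
    · left; rw [h, mul_zero]
    · right
      calc (1 / 2 : ℝ) ^ k * (gram P A).det ≤ (1 / 2 : ℝ) ^ (j + 1) * (gram P A).det := by
            apply mul_le_mul_of_nonneg_right _ hGdet.le
            exact pow_le_pow_of_le_one (by norm_num) (by norm_num) hj
        _ = (1 / 2 : ℝ) ^ j * ((gram P A).det / 2) := by ring
        _ ≤ (1 / 2 : ℝ) ^ j * (gram P (A * B)).det := by
            apply mul_le_mul_of_nonneg_left _ (by positivity)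
            linarith
  obtain ⟨U, hU, hUd⟩ := h1 k _ hG2 hDense
  have hmem : A * U ∈ F := by
    rw [hF, Set.Finite.mem_toFinset]
    intro i
    have h3 := hUd i
    rw [gram_smul, gram_gram, Matrix.smul_apply, smul_eq_mul] at h3
    linarith
  have hdet : (gram P (A * U)).det = (gram P A).det := by
    rw [← gram_gram, det_gram_unit _ hU]
  rcases hgap _ hmem with h | h
  · exact absurd (hdet ▸ h) h0
  · rw [hdet] at h; exact h

end LA3Aux

open LA3Aux

theorem la3 (h1 : Stmt_LA1) : Stmt_LA3 := by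
  intro n P₁ hP₁ hD hne
  have hdet₁ := hP₁.det_pos
  -- uniform gap
  obtain ⟨η, hη, hη1, hgap⟩ : ∃ η : ℝ, 0 < η ∧ η ≤ 1 ∧ ∀ k : ℕ, 0 < k → k < n →
      ∀ A : Matrix (Fin n) (Fin k) ℤ,
      (gram P₁ A).det = 0 ∨ (1 + η) * P₁.det ≤ (gram P₁ A).det := by
    have key : ∀ m : ℕ, m ≤ n → ∃ η : ℝ, 0 < η ∧ η ≤ 1 ∧ ∀ k : ℕ, 0 < k → k < m →
        ∀ A : Matrix (Fin n) (Fin k) ℤ,
        (gram P₁ A).det = 0 ∨ (1 + η) * P₁.det ≤ (gram P₁ A).det := by
      intro m
      induction m with
      | zero => intro _; exact ⟨1, one_pos, le_rfl, fun k _ h => absurd h (Nat.not_lt_zero _)⟩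
      | succ m ih =>
        intro hm
        obtain ⟨η, hη, hη1, h⟩ := ih (by omega)
        by_cases hm0 : m = 0
        · subst hm0
          exact ⟨1, one_pos, le_rfl, fun k h1 h2 => by omega⟩
        obtain ⟨η', hη', hη1', h'⟩ := gap h1 hP₁ hD (by omega)
          (hne m (Nat.pos_of_ne_zero hm0) (by omega))
        refine ⟨min η η', lt_min hη hη', (min_le_left _ _).trans hη1, fun k hk0 hk A => ?_⟩
        rcases Nat.lt_succ_iff_lt_or_eq.1 hk with hk | rfl
        · rcases h k hk0 hk A with h | h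
          · exact Or.inl h
          · right
            refine le_trans ?_ h
            apply mul_le_mul_of_nonneg_right _ hdet₁.le
            linarith [min_le_left η η']
        · rcases h' A with h | h
          · exact Or.inl h
          · right
            refine le_trans ?_ h
            apply mul_le_mul_of_nonneg_right _ hdet₁.le
            linarith [min_le_right η η']
    exact key n le_rfl
  obtain ⟨l, hl, hlow⟩ := qf_lower hP₁
  -- continuity of the determinant
  have hcont : ContinuousAt (fun P : Matrix (Fin n) (Fin n) ℝ => P.det) P₁ :=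
    (Continuous.matrix_det continuous_id).continuousAt
  obtain ⟨δ₁, hδ₁, hδdet⟩ : ∃ δ₁ : ℝ, 0 < δ₁ ∧ ∀ P : Matrix (Fin n) (Fin n) ℝ,
      (∀ i j, |P i j - P₁ i j| < δ₁) → P.det ≤ (1 + η / 2) * P₁.det := by
    have h2 : ∀ᶠ P in nhds P₁, P.det < (1 + η / 2) * P₁.det := by
      apply hcont.eventually_lt_const
      nlinarith
    have h3 : ∃ ε > 0, ∀ ⦃y : Fin n → Fin n → ℝ⦄, dist y (P₁ : Fin n → Fin n → ℝ) < ε →
        Matrix.det (y : Matrix (Fin n) (Fin n) ℝ) < (1 + η / 2) * P₁.det :=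
      Metric.eventually_nhds_iff.1 h2
    obtain ⟨δ, hδ, h⟩ := h3
    refine ⟨δ, hδ, fun P hP => (h (y := P) ?_).le⟩
    refine (dist_pi_lt_iff (f := (P : Fin n → Fin n → ℝ)) hδ).2 fun i => ?_
    refine (dist_pi_lt_iff hδ).2 fun j => ?_
    rw [Real.dist_eq]
    exact hP i j
  -- choose eps
  obtain ⟨ε, hε, hε1, hεn⟩ : ∃ ε : ℝ, 0 < ε ∧ ε < 1 ∧ (1 + η / 2) ≤ (1 - ε) ^ n * (1 + η) := by
    have hn0 : (0 : ℝ) ≤ n := Nat.cast_nonneg n
    have hε : 0 < η / (8 * (n + 1)) := by positivity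
    have hnε : (n : ℝ) * (η / (8 * (n + 1))) ≤ η / 8 := by
      rw [mul_div_assoc', div_le_div_iff₀ (by positivity) (by norm_num)]
      nlinarith
    have hε8 : η / (8 * (n + 1)) ≤ η / 8 := by
      apply div_le_div_of_nonneg_left hη.le (by norm_num)
      linarith
    refine ⟨η / (8 * (n + 1)), hε, by linarith, ?_⟩
    have hB := one_add_mul_le_pow (a := -(η / (8 * (n + 1)))) (by linarith) n
    have hB' : 1 - η / 8 ≤ (1 - η / (8 * (n + 1))) ^ n := by
      have h1 : (1 : ℝ) + -(η / (8 * (n + 1))) = 1 - η / (8 * (n + 1)) := by ring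
      rw [h1] at hB
      linarith
    calc (1 + η / 2) ≤ (1 - η / 8) * (1 + η) := by nlinarith
      _ ≤ _ := mul_le_mul_of_nonneg_right hB' (by linarith)
  refine ⟨min δ₁ (ε * l / (n + 1)), lt_min hδ₁ (by positivity), fun P hP hPd k hk0 hkn A => ?_⟩
  by_cases h0 : (gram P A).det = 0
  · exact Or.inl h0
  right
  have hinj := inj_of_det h0
  have hG₁ : (gram P₁ A).PosDef := gram_posDef hP₁ hinj
  have hG₁det := hG₁.det_pos
  have hpsd : (gram P A - (1 - ε) • gram P₁ A).PosSemidef := by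
    rw [← gram_smul, ← gram_sub]
    have h3 : (P - (1 - ε) • P₁).PosSemidef := by
      refine Matrix.PosSemidef.of_dotProduct_mulVec_nonneg ?_ fun x => ?_
      · exact hP.isHermitian.sub (by
          have := hP₁.isHermitian
          unfold Matrix.IsHermitian at this ⊢
          rw [conjTranspose_smul, this]
          simp)
      · rw [star_trivial]
        have hS0 : 0 ≤ ∑ i, x i ^ 2 := Finset.sum_nonneg fun i _ => sq_nonneg _
        have e1 : x ⬝ᵥ ((P - (1 - ε) • P₁) *ᵥ x) = x ⬝ᵥ ((P - P₁) *ᵥ x) + ε * qf P₁ x := by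
          unfold qf
          rw [sub_mulVec, sub_mulVec, smul_mulVec, dotProduct_sub, dotProduct_sub,
            dotProduct_smul, smul_eq_mul]
          ring
        have e2 : |x ⬝ᵥ ((P - P₁) *ᵥ x)| ≤ (ε * l / (n + 1)) * (n * ∑ i, x i ^ 2) := by
          have e3 : |x ⬝ᵥ ((P - P₁) *ᵥ x)| ≤ ∑ i, ∑ j, |x i| * ((ε * l / (n + 1)) * |x j|) := by
            refine (Finset.abs_sum_le_sum_abs _ _).trans ?_
            refine Finset.sum_le_sum fun i _ => ?_
            rw [abs_mul, ← Finset.mul_sum]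
            refine mul_le_mul_of_nonneg_left ?_ (abs_nonneg _)
            have e10 : ((P - P₁) *ᵥ x) i = ∑ j, (P - P₁) i j * x j := rfl
            rw [e10]
            refine (Finset.abs_sum_le_sum_abs _ _).trans ?_
            refine Finset.sum_le_sum fun j _ => ?_
            rw [abs_mul]
            refine mul_le_mul_of_nonneg_right ?_ (abs_nonneg _)
            exact ((hPd i j).trans_le (min_le_right _ _)).le
          refine e3.trans ?_
          have e4 : ∑ i, ∑ j, |x i| * ((ε * l / (n + 1)) * |x j|)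
              = (ε * l / (n + 1)) * (∑ i, |x i|) ^ 2 := by
            rw [sq, Finset.sum_mul_sum, Finset.mul_sum]
            refine Finset.sum_congr rfl fun i _ => ?_
            rw [Finset.mul_sum]
            refine Finset.sum_congr rfl fun j _ => ?_
            ring
          rw [e4]
          refine mul_le_mul_of_nonneg_left ?_ (by positivity)
          have e5 := sq_sum_le_card_mul_sum_sq (s := (Finset.univ : Finset (Fin n)))
            (f := fun i => |x i|)
          simpa using e5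
        have e6 := hlow x
        have e7 : (ε * l / (n + 1)) * (n * ∑ i, x i ^ 2) ≤ ε * (l * ∑ i, x i ^ 2) := by
          rw [div_mul_eq_mul_div, div_le_iff₀ (by positivity)]
          have hn0 : (0 : ℝ) ≤ n := Nat.cast_nonneg n
          have : 0 ≤ ε * l * ∑ i, x i ^ 2 := by positivity
          nlinarith
        rw [e1]
        have e8 := neg_le_of_abs_le e2
        have e9 : ε * (l * ∑ i, x i ^ 2) ≤ ε * qf P₁ x := mul_le_mul_of_nonneg_left e6 hε.le
        linarith
    have := h3.conjTranspose_mul_mul_same (zm A)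
    simpa [gram] using this
  have h4 : ((1 - ε) • gram P₁ A).PosDef := hG₁.smul (by linarith)
  have h5 := det_mono h4 hpsd
  rw [det_smul, Fintype.card_fin] at h5
  have h6 : P.det ≤ (1 + η / 2) * P₁.det :=
    hδdet P fun i j => (hPd i j).trans_le (min_le_left _ _)
  have h7 : (1 + η) * P₁.det ≤ (gram P₁ A).det := by
    rcases hgap k hk0 hkn A with h | h
    · exact absurd h hG₁det.ne'
    · exact h
  have h8 : (1 - ε) ^ n ≤ (1 - ε) ^ k := pow_le_pow_of_le_one (by linarith) (by linarith) hkn.le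
  have h9 : 0 ≤ (1 - ε) ^ n := by
    apply pow_nonneg; linarith
  calc P.det ≤ (1 + η / 2) * P₁.det := h6
    _ ≤ ((1 - ε) ^ n * (1 + η)) * P₁.det := mul_le_mul_of_nonneg_right hεn hdet₁.le
    _ = (1 - ε) ^ n * ((1 + η) * P₁.det) := by ring
    _ ≤ (1 - ε) ^ n * (gram P₁ A).det := mul_le_mul_of_nonneg_left h7 h9
    _ ≤ (1 - ε) ^ k * (gram P₁ A).det := mul_le_mul_of_nonneg_right h8 hG₁det.le
    _ ≤ _ := h5

end Pool.Agent.RevMink
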