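import Pool.Agent.RevMink.Defs

/-!
Auxiliary facts for module LA6 (helper91): Gaussian measure versus volume, integrals over the torus,
volume of sets with disjoint integer translates.
-/

set_option autoImplicit false

open MeasureTheory ProbabilityTheory Matrix Set
open scoped RealInnerProductSpace ENNReal Pointwise

namespace Pool.Agent.RevMink.LA6Aux

lemma gaussianReal_le (s : Set ℝ) : gaussianReal 0 1 s ≤ ENNReal.ofReal (2 / 5) * volume s := by
  rw [gaussianReal_apply 0 one_ne_zero]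
  have h1 : ∀ x : ℝ, gaussianPDF 0 1 x ≤ ENNReal.ofReal (2 / 5) := by
    intro x
    rw [gaussianPDF]
    apply ENNReal.ofReal_le_ofReal
    rw [gaussianPDFReal]
    have h2 : Real.exp (-(x - 0) ^ 2 / (2 * ((1 : NNReal) : ℝ))) ≤ 1 := by
      rw [Real.exp_le_one_iff]
      simp only [NNReal.coe_one]
      nlinarith [sq_nonneg (x - 0)]
    have h3 : (√(2 * Real.pi * ((1 : NNReal) : ℝ)))⁻¹ ≤ 2 / 5 := by
      rw [inv_le_comm₀ (by positivity) (by norm_num)]
      apply Real.le_sqrt_of_sq_le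
      have := Real.pi_gt_d2
      simp only [NNReal.coe_one]
      norm_num
      linarith
    have h4 : 0 ≤ (√(2 * Real.pi * ((1 : NNReal) : ℝ)))⁻¹ := by positivity
    calc _ ≤ (2 / 5 : ℝ) * 1 := by
          apply mul_le_mul h3 h2 (Real.exp_pos _).le (by norm_num)
      _ = _ := mul_one _
  calc ∫⁻ x in s, gaussianPDF 0 1 x ≤ ∫⁻ x in s, ENNReal.ofReal (2 / 5) :=
        lintegral_mono fun x => h1 x
    _ = _ := by rw [setLIntegral_const]

lemma pi_gauss_le (n : ℕ) (T : Set (Fin n → ℝ)) (hT : MeasurableSet T) :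
    (Measure.pi fun _ : Fin n => gaussianReal 0 1) T ≤ ENNReal.ofReal (2 / 5) ^ n * volume T := by
  set C := ENNReal.ofReal (2 / 5) with hC
  have hC0 : C ≠ 0 := by rw [hC]; simp
  have hCt : C ≠ ⊤ := ENNReal.ofReal_ne_top
  have hCn0 : C ^ n ≠ 0 := pow_ne_zero n hC0
  have hCnt : C ^ n ≠ ⊤ := ENNReal.pow_ne_top hCt
  have h : (C ^ n)⁻¹ • (Measure.pi fun _ : Fin n => gaussianReal 0 1).toOuterMeasure ≤
      OuterMeasure.pi (fun _ : Fin n => (volume : Measure ℝ).toOuterMeasure) := by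
    rw [OuterMeasure.le_pi]
    intro s _
    change (C ^ n)⁻¹ * (Measure.pi fun _ : Fin n => gaussianReal 0 1) (pi univ s) ≤
      ∏ i, (volume : Measure ℝ) (s i)
    rw [Measure.pi_pi]
    calc (C ^ n)⁻¹ * ∏ i, gaussianReal 0 1 (s i) ≤ (C ^ n)⁻¹ * ∏ i, (C * volume (s i)) := by
          gcongr with i
          exact gaussianReal_le (s i)
      _ = (C ^ n)⁻¹ * (C ^ n * ∏ i, volume (s i)) := by
          rw [Finset.prod_mul_distrib, Finset.prod_const, Finset.card_univ, Fintype.card_fin]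
      _ = ∏ i, volume (s i) := by
          rw [← mul_assoc, ENNReal.inv_mul_cancel hCn0 hCnt, one_mul]
  have h2 := h T
  have h3 : (volume : Measure (Fin n → ℝ)) T =
      OuterMeasure.pi (fun _ : Fin n => (volume : Measure ℝ).toOuterMeasure) T := by
    rw [volume_pi, Measure.pi_def]
    exact toMeasure_apply _ _ hT
  rw [← h3] at h2
  change (C ^ n)⁻¹ * (Measure.pi fun _ : Fin n => gaussianReal 0 1) T ≤ volume T at h2
  calc (Measure.pi fun _ : Fin n => gaussianReal 0 1) T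
      = C ^ n * ((C ^ n)⁻¹ * (Measure.pi fun _ : Fin n => gaussianReal 0 1) T) := by
        rw [← mul_assoc, ENNReal.mul_inv_cancel hCn0 hCnt, one_mul]
    _ ≤ _ := by gcongr

/-- the lattice `ℤ^n` in `ℝ^n` -/
abbrev ZL (n : ℕ) : Submodule ℤ (Fin n → ℝ) := Submodule.span ℤ (range (Pi.basisFun ℝ (Fin n)))

lemma mem_ZL {n : ℕ} (l : Fin n → ℝ) (hl : l ∈ ZL n) : ∃ z : Fin n → ℤ, l = zc z := by
  have h := ((Pi.basisFun ℝ (Fin n)).mem_span_iff_repr_mem ℤ l).mp hl
  choose z hz using h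
  refine ⟨z, ?_⟩
  ext i
  have := hz i
  simp only [Pi.basisFun_repr] at this
  simp [zc, ← this]

instance countable_ZL (n : ℕ) : Countable (ZL n).toAddSubgroup := by
  have h : ∀ l : (ZL n).toAddSubgroup, ∃ z : Fin n → ℤ, l.1 = zc z := fun l => mem_ZL l.1 l.2
  choose F hF using h
  apply Function.Injective.countable (f := F)
  intro a b hab
  apply Subtype.ext
  rw [hF a, hF b, hab]

lemma fd_eq (n : ℕ) : ZSpan.fundamentalDomain (Pi.basisFun ℝ (Fin n)) =
    pi univ fun _ : Fin n => Ico (0 : ℝ) 1 := ZSpan.fundamentalDomain_pi_basisFun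

lemma fd_ae (n : ℕ) : ((pi univ fun _ : Fin n => Ico (0 : ℝ) 1) : Set (Fin n → ℝ)) =ᵐ[volume]
    Icc (0 : Fin n → ℝ) 1 := by
  have := Measure.univ_pi_Ico_ae_eq_Icc (μ := fun _ : Fin n => (volume : Measure ℝ))
    (f := (0 : Fin n → ℝ)) (g := (1 : Fin n → ℝ))
  exact this

lemma torus_shift {n : ℕ} (f : (Fin n → ℝ) → ℝ) (hf : ∀ u (z : Fin n → ℤ), f (u + zc z) = f u)
    (k : Fin n → ℝ) : ∫ u in Icc (0 : Fin n → ℝ) 1, f (u + k) = ∫ u in Icc (0 : Fin n → ℝ) 1, f u := by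
  rw [← setIntegral_congr_set (fd_ae n), ← setIntegral_congr_set (fd_ae n), ← fd_eq]
  have fund := ZSpan.isAddFundamentalDomain' (Pi.basisFun ℝ (Fin n)) volume
  have fund2 := fund.vadd_of_comm k
  have hfL : ∀ (l : (ZL n).toAddSubgroup) (u : Fin n → ℝ), f (l +ᵥ u) = f u := by
    intro l u
    obtain ⟨z, hz⟩ := mem_ZL l.1 l.2
    change f (l.1 + u) = f u
    rw [hz, add_comm]; exact hf u z
  rw [fund.setIntegral_eq fund2 hfL]
  have h1 : k +ᵥ ZSpan.fundamentalDomain (Pi.basisFun ℝ (Fin n)) =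
      (fun u => u + k) '' ZSpan.fundamentalDomain (Pi.basisFun ℝ (Fin n)) := by
    ext u
    simp only [mem_vadd_set, mem_image, vadd_eq_add]
    constructor
    · rintro ⟨v, hv, rfl⟩; exact ⟨v, hv, add_comm _ _⟩
    · rintro ⟨v, hv, rfl⟩; exact ⟨v, hv, add_comm _ _⟩
  rw [h1, (measurePreserving_add_right volume k).setIntegral_image_emb
    (measurableEmbedding_addRight k)]

lemma vol_le_one {n : ℕ} (W : Set (Fin n → ℝ)) (hW : MeasurableSet W)
    (h : ∀ z : Fin n → ℤ, z ≠ 0 → ∀ u ∈ W, u + zc z ∉ W) : volume W ≤ 1 := by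
  by_contra hcon
  push Not at hcon
  have fund := ZSpan.isAddFundamentalDomain' (Pi.basisFun ℝ (Fin n)) volume
  have hF : (volume : Measure (Fin n → ℝ)) (ZSpan.fundamentalDomain (Pi.basisFun ℝ (Fin n))) = 1 := by
    rw [fd_eq, Real.volume_pi_Ico]
    simp
  obtain ⟨x, y, hxy, hd⟩ := exists_pair_mem_lattice_not_disjoint_vadd fund hW.nullMeasurableSet
    (by rw [hF]; exact hcon)
  rw [Set.not_disjoint_iff] at hd
  obtain ⟨t, ⟨w1, hw1, e1⟩, ⟨w2, hw2, e2⟩⟩ := hd
  obtain ⟨z, hz⟩ := mem_ZL (x.1 - y.1) ((ZL n).sub_mem x.2 y.2)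
  have e1' : x.1 + w1 = t := e1
  have e2' : y.1 + w2 = t := e2
  refine h z ?_ w1 hw1 ?_
  · intro h0
    apply hxy
    apply Subtype.ext
    rw [h0] at hz
    have : x.1 - y.1 = 0 := by rw [hz]; ext i; simp [zc]
    exact sub_eq_zero.mp this
  · rw [← hz]
    have : w1 + (x.1 - y.1) = w2 := by
      have h5 : x.1 + w1 = y.1 + w2 := e1'.trans e2'.symm
      calc w1 + (x.1 - y.1) = (x.1 + w1) - y.1 := by abel
        _ = (y.1 + w2) - y.1 := by rw [h5]
        _ = w2 := by abel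
    rw [this]; exact hw2

end Pool.Agent.RevMink.LA6Aux
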