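import Pool.Agent.RevMink.LA5
import Pool.Agent.RevMink.LA6A

/-!
# LA4: basic properties of `Zf`  (helper84)
-/

set_option autoImplicit false

open MeasureTheory Matrix Filter Topology

namespace Pool.Agent.RevMink

namespace LA4Aux

open LA5Aux

variable {n : ℕ}

/-! ### Integer matrices and vectors -/

lemma zm_mul {n k l : ℕ} (A : Matrix (Fin n) (Fin k) ℤ) (B : Matrix (Fin k) (Fin l) ℤ) :
    zm (A * B) = zm A * zm B := by
  unfold zm
  exact Matrix.map_mul (f := Int.castRingHom ℝ)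

lemma zm_one : zm (1 : Matrix (Fin n) (Fin n) ℤ) = 1 := by
  unfold zm
  exact Matrix.map_one _ (by simp) (by simp)

lemma zm_det (U : Matrix (Fin n) (Fin n) ℤ) : (zm U).det = (U.det : ℝ) := by
  unfold zm
  exact ((Int.castRingHom ℝ).map_det U).symm

lemma zm_mulVec {n k : ℕ} (A : Matrix (Fin n) (Fin k) ℤ) (z : Fin k → ℤ) :
    zm A *ᵥ zc z = zc (A *ᵥ z) := by
  funext i
  exact ((Int.castRingHom ℝ).map_mulVec A z i).symm

lemma det_sq {U : Matrix (Fin n) (Fin n) ℤ} (hU : GLZ U) : ((U.det : ℤ) : ℝ) ^ 2 = 1 := by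
  rcases Int.isUnit_iff.1 hU with h | h <;> rw [h] <;> norm_num

lemma abs_det {U : Matrix (Fin n) (Fin n) ℤ} (hU : GLZ U) : |(zm U).det| = 1 := by
  rw [zm_det]
  rcases Int.isUnit_iff.1 hU with h | h <;> rw [h] <;> norm_num

lemma mul_inv' {U : Matrix (Fin n) (Fin n) ℤ} (hU : GLZ U) : U * U⁻¹ = 1 :=
  Matrix.mul_nonsing_inv U hU

lemma inv_mul' {U : Matrix (Fin n) (Fin n) ℤ} (hU : GLZ U) : U⁻¹ * U = 1 :=
  Matrix.nonsing_inv_mul U hU

lemma qf_gram {n k : ℕ} (P : Matrix (Fin n) (Fin n) ℝ) (A : Matrix (Fin n) (Fin k) ℤ)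
    (x : Fin k → ℝ) : qf (gram P A) x = qf P (zm A *ᵥ x) := by
  unfold qf gram
  rw [← Matrix.mulVec_mulVec, ← Matrix.mulVec_mulVec, Matrix.dotProduct_mulVec,
    Matrix.vecMul_transpose]

lemma dsq_gram (P : Matrix (Fin n) (Fin n) ℝ) {U : Matrix (Fin n) (Fin n) ℤ} (hU : GLZ U)
    (u : Fin n → ℝ) : dsq (gram P U) u = dsq P (zm U *ᵥ u) := by
  unfold dsq
  let e : (Fin n → ℤ) ≃ (Fin n → ℤ) :=
    { toFun := fun z => U *ᵥ z
      invFun := fun z => U⁻¹ *ᵥ z
      left_inv := fun z => by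
        show U⁻¹ *ᵥ (U *ᵥ z) = z
        rw [Matrix.mulVec_mulVec, inv_mul' hU, Matrix.one_mulVec]
      right_inv := fun z => by
        show U *ᵥ (U⁻¹ *ᵥ z) = z
        rw [Matrix.mulVec_mulVec, mul_inv' hU, Matrix.one_mulVec] }
  refine Equiv.iInf_congr e fun z => ?_
  show qf P (zm U *ᵥ u + zc (U *ᵥ z)) = qf (gram P U) (u + zc z)
  rw [qf_gram, Matrix.mulVec_add, zm_mulVec]

lemma dsq_add (P : Matrix (Fin n) (Fin n) ℝ) (u : Fin n → ℝ) (w : Fin n → ℤ) :
    dsq P (u + zc w) = dsq P u := by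
  unfold dsq
  refine Equiv.iInf_congr (Equiv.addLeft w) fun z => ?_
  have : zc ((Equiv.addLeft w) z) = zc w + zc z := by
    funext i
    simp [zc]
  rw [this, add_assoc]

/-- the linear automorphism of `ℝ^n` given by `U` -/
noncomputable def TU {U : Matrix (Fin n) (Fin n) ℤ} (hU : GLZ U) : (Fin n → ℝ) ≃ₗ[ℝ] (Fin n → ℝ) where
  toFun x := zm U *ᵥ x
  invFun x := zm U⁻¹ *ᵥ x
  map_add' x y := Matrix.mulVec_add _ x y
  map_smul' c x := Matrix.mulVec_smul _ c x
  left_inv x := by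
    show zm U⁻¹ *ᵥ (zm U *ᵥ x) = x
    rw [Matrix.mulVec_mulVec, ← zm_mul, inv_mul' hU, zm_one, Matrix.one_mulVec]
  right_inv x := by
    show zm U *ᵥ (zm U⁻¹ *ᵥ x) = x
    rw [Matrix.mulVec_mulVec, ← zm_mul, mul_inv' hU, zm_one, Matrix.one_mulVec]

lemma TU_apply {U : Matrix (Fin n) (Fin n) ℤ} (hU : GLZ U) (x : Fin n → ℝ) :
    TU hU x = zm U *ᵥ x := rfl

lemma zc_mem (z : Fin n → ℤ) : zc z ∈ LA6Aux.ZL n := by
  have h : zc z = ∑ i, z i • (Pi.basisFun ℝ (Fin n)) i := by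
    funext j
    simp [zc, Finset.sum_apply, Pi.single_apply]
  rw [h]
  exact Submodule.sum_mem _ fun i _ => Submodule.smul_mem _ _ (Submodule.subset_span ⟨i, rfl⟩)

lemma map_ZL {U : Matrix (Fin n) (Fin n) ℤ} (hU : GLZ U) :
    Submodule.span ℤ (Set.range ((Pi.basisFun ℝ (Fin n)).map (TU hU))) = LA6Aux.ZL n := by
  rw [← ZSpan.map]
  apply le_antisymm
  · rintro x ⟨y, hy, rfl⟩
    obtain ⟨z, rfl⟩ := LA6Aux.mem_ZL y hy
    show TU hU (zc z) ∈ _
    rw [TU_apply, zm_mulVec]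
    exact zc_mem _
  · intro x hx
    obtain ⟨z, rfl⟩ := LA6Aux.mem_ZL x hx
    refine ⟨zc (U⁻¹ *ᵥ z), zc_mem _, ?_⟩
    show TU hU (zc (U⁻¹ *ᵥ z)) = _
    rw [TU_apply, zm_mulVec, Matrix.mulVec_mulVec, mul_inv' hU, Matrix.one_mulVec]

lemma mp_TU {U : Matrix (Fin n) (Fin n) ℤ} (hU : GLZ U) :
    MeasurePreserving (fun x : Fin n → ℝ => zm U *ᵥ x) volume volume := by
  have hdet : (zm U).det ≠ 0 := by
    intro h
    have := abs_det hU
    rw [h] at this
    simp at this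
  have hc : Continuous (fun x : Fin n → ℝ => zm U *ᵥ x) :=
    (Matrix.toLin' (zm U)).continuous_of_finiteDimensional
  refine ⟨hc.measurable, ?_⟩
  have h := Real.map_matrix_volume_pi_eq_smul_volume_pi hdet
  have h2 : |((zm U).det)⁻¹| = 1 := by rw [abs_inv, abs_det hU, inv_one]
  rw [h2, ENNReal.ofReal_one, one_smul] at h
  exact h

lemma torus_linear {U : Matrix (Fin n) (Fin n) ℤ} (hU : GLZ U) (f : (Fin n → ℝ) → ℝ)
    (hf : ∀ u (z : Fin n → ℤ), f (u + zc z) = f u) :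
    ∫ u in Set.Icc (0 : Fin n → ℝ) 1, f (zm U *ᵥ u) = ∫ u in Set.Icc (0 : Fin n → ℝ) 1, f u := by
  rw [← setIntegral_congr_set (LA6Aux.fd_ae n), ← setIntegral_congr_set (LA6Aux.fd_ae n),
    ← LA6Aux.fd_eq]
  have fund := ZSpan.isAddFundamentalDomain' (Pi.basisFun ℝ (Fin n)) volume
  have fund2 := ZSpan.isAddFundamentalDomain' ((Pi.basisFun ℝ (Fin n)).map (TU hU)) volume
  rw [map_ZL hU] at fund2
  have hfL : ∀ (l : (LA6Aux.ZL n).toAddSubgroup) (u : Fin n → ℝ), f (l +ᵥ u) = f u := by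
    intro l u
    obtain ⟨z, hz⟩ := LA6Aux.mem_ZL l.1 l.2
    change f (l.1 + u) = f u
    rw [hz, add_comm]; exact hf u z
  rw [fund.setIntegral_eq fund2 hfL, ← ZSpan.map_fundamentalDomain]
  have hme : MeasurableEmbedding (fun x : Fin n → ℝ => zm U *ᵥ x) :=
    (TU hU).toContinuousLinearEquiv.toHomeomorph.measurableEmbedding
  have h := (mp_TU hU).setIntegral_image_emb hme f (ZSpan.fundamentalDomain (Pi.basisFun ℝ (Fin n)))
  exact h.symm

lemma posDef_gram {P : Matrix (Fin n) (Fin n) ℝ} (hP : P.PosDef) {U : Matrix (Fin n) (Fin n) ℤ}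
    (hU : GLZ U) : (gram P U).PosDef := by
  have hinj : Function.Injective (zm U).mulVec := by
    intro x y h
    exact (TU hU).injective h
  have := hP.conjTranspose_mul_mul_same (B := zm U) hinj
  rwa [Matrix.conjTranspose_eq_transpose_of_trivial] at this

lemma gram_gram {n k l : ℕ} (P : Matrix (Fin n) (Fin n) ℝ) (U : Matrix (Fin n) (Fin k) ℤ)
    (A : Matrix (Fin k) (Fin l) ℤ) : gram (gram P U) A = gram P (U * A) := by
  unfold gram
  rw [zm_mul, Matrix.transpose_mul]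
  simp only [Matrix.mul_assoc]

lemma det_gram (P : Matrix (Fin n) (Fin n) ℝ) {U : Matrix (Fin n) (Fin n) ℤ} (hU : GLZ U) :
    (gram P U).det = P.det := by
  unfold gram
  rw [Matrix.det_mul, Matrix.det_mul, Matrix.det_transpose, zm_det]
  have := det_sq hU
  calc ((U.det : ℤ) : ℝ) * P.det * ((U.det : ℤ) : ℝ) = ((U.det : ℤ) : ℝ) ^ 2 * P.det := by ring
    _ = P.det := by rw [this, one_mul]

lemma dense_gram {P : Matrix (Fin n) (Fin n) ℝ} {U : Matrix (Fin n) (Fin n) ℤ}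
    (hU : GLZ U) (hD : Dense P) : Dense (gram P U) := by
  intro k hk A
  rw [gram_gram, det_gram P hU]
  exact hD k hk (U * A)

/-! ### integrals -/

lemma Zf_gram (P : Matrix (Fin n) (Fin n) ℝ) {U : Matrix (Fin n) (Fin n) ℤ} (hU : GLZ U) :
    Zf (gram P U) = Zf P := by
  unfold Zf
  rw [← torus_linear hU (fun u => Real.exp (-Real.pi * dsq P u)) (fun u z => by rw [dsq_add])]
  refine setIntegral_congr_fun measurableSet_Icc fun u _ => ?_
  simp only [dsq_gram P hU]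

lemma vol_cube : (volume : Measure (Fin n → ℝ)) (Set.Icc (0 : Fin n → ℝ) 1) = 1 := by
  rw [Real.volume_Icc_pi]
  simp

lemma meas_exp (P : Matrix (Fin n) (Fin n) ℝ) :
    Measurable fun u => Real.exp (-Real.pi * dsq P u) :=
  Real.measurable_exp.comp ((dsq_measurable _).const_mul _)

lemma exp_le_one' {P : Matrix (Fin n) (Fin n) ℝ} {m : ℝ} (hm : 0 < m)
    (hP : ∀ x : Fin n → ℝ, m * ‖x‖ ^ 2 ≤ qf P x) (u : Fin n → ℝ) :
    Real.exp (-Real.pi * dsq P u) ≤ 1 := by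
  apply Real.exp_le_one_iff.2
  have := dsq_nonneg hm hP u
  nlinarith [Real.pi_pos]

lemma integrable_exp {P : Matrix (Fin n) (Fin n) ℝ} {m : ℝ} (hm : 0 < m)
    (hP : ∀ x : Fin n → ℝ, m * ‖x‖ ^ 2 ≤ qf P x) :
    IntegrableOn (fun u => Real.exp (-Real.pi * dsq P u)) (Set.Icc (0 : Fin n → ℝ) 1) := by
  refine Measure.integrableOn_of_bounded (M := 1) (by rw [vol_cube]; simp)
    (meas_exp P).aestronglyMeasurable (Filter.Eventually.of_forall fun u => ?_)
  rw [Real.norm_eq_abs, abs_of_pos (Real.exp_pos _)]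
  exact exp_le_one' hm hP u

lemma integral_const_cube (c : ℝ) : ∫ _u in Set.Icc (0 : Fin n → ℝ) 1, c = c := by
  rw [setIntegral_const, measureReal_def, vol_cube]
  simp

lemma Zf_le_one {P : Matrix (Fin n) (Fin n) ℝ} (hPD : P.PosDef) : Zf P ≤ 1 := by
  obtain ⟨m, hm, hP⟩ := exists_LB hPD
  have h := setIntegral_mono (integrable_exp hm hP)
    (integrableOn_const (by rw [vol_cube]; simp)) (exp_le_one' hm hP)
  rw [integral_const_cube] at h
  exact h

lemma Zf_pos {P : Matrix (Fin n) (Fin n) ℝ} (hPD : P.PosDef) : 0 < Zf P := by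
  obtain ⟨m, hm, hP⟩ := exists_LB hPD
  have h := setIntegral_mono (f := fun _ => Real.exp (-Real.pi * sz P))
    (integrableOn_const (by rw [vol_cube]; simp)) (integrable_exp hm hP)
    (fun u => Real.exp_le_exp.2 (by
      have := dsq_le_sz hm hP u
      nlinarith [Real.pi_pos]))
  rw [integral_const_cube] at h
  exact lt_of_lt_of_le (Real.exp_pos _) h

lemma Zf_mono {P : Matrix (Fin n) (Fin n) ℝ} (hPD : P.PosDef) {t : ℝ} (ht : 1 ≤ t) :
    Zf (t • P) ≤ Zf P := by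
  obtain ⟨m, hm, hP⟩ := exists_LB hPD
  have hq : ∀ x, qf (t • P) x = t * qf P x := by
    intro x
    unfold qf
    rw [Matrix.smul_mulVec, dotProduct_smul, smul_eq_mul]
  have h0 : ∀ x, 0 ≤ qf P x := fun x => le_trans (by positivity) (hP x)
  have hP' : ∀ x : Fin n → ℝ, m * ‖x‖ ^ 2 ≤ qf (t • P) x := fun x => by
    rw [hq]
    nlinarith [hP x, h0 x]
  refine setIntegral_mono (integrable_exp hm hP') (integrable_exp hm hP) fun u => ?_
  apply Real.exp_le_exp.2
  have h1 : dsq P u ≤ dsq (t • P) u := by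
    refine le_ciInf fun z => (dsq_le hm hP u z).trans ?_
    rw [hq]
    nlinarith [h0 (u + zc z)]
  nlinarith [Real.pi_pos]

lemma Zf_lip {P : Matrix (Fin n) (Fin n) ℝ} {m : ℝ} (hm : 0 < m)
    (hP : ∀ x : Fin n → ℝ, m * ‖x‖ ^ 2 ≤ qf P x) (H : Matrix (Fin n) (Fin n) ℝ)
    (hH : sz H ≤ m / 2) :
    |Zf (P + H) - Zf P| ≤ Real.pi * (sz H * ((sz P + sz H) / (m / 2))) := by
  have hm2 : 0 < m / 2 := by linarith
  have h1 : |(1 : ℝ)| * sz H ≤ m / 2 := by simpa using hH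
  have h0 : |(0 : ℝ)| * sz H ≤ m / 2 := by simpa using hm2.le
  have hL1 := LB_path H hm hP h1
  rw [one_smul] at hL1
  have hd : ∀ u, |Real.exp (-Real.pi * dsq (P + H) u) - Real.exp (-Real.pi * dsq P u)|
      ≤ Real.pi * (sz H * ((sz P + sz H) / (m / 2))) := by
    intro u
    refine (exp_lip (dsq_nonneg hm2 hL1 u) (dsq_nonneg hm hP u)).trans ?_
    have := abs_dsq_path_le H hm hP h0 (by simp) h1 (by simp) u
    rw [one_smul, zero_smul, add_zero, sub_zero, abs_one, one_mul] at this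
    gcongr
  unfold Zf
  rw [← integral_sub (integrable_exp hm2 hL1) (integrable_exp hm hP), ← Real.norm_eq_abs]
  have := norm_setIntegral_le_of_norm_le_const (μ := (volume : Measure (Fin n → ℝ)))
    (s := Set.Icc (0 : Fin n → ℝ) 1) (by rw [vol_cube]; simp)
    (f := fun u => Real.exp (-Real.pi * dsq (P + H) u) - Real.exp (-Real.pi * dsq P u))
    (C := Real.pi * (sz H * ((sz P + sz H) / (m / 2)))) (fun u _ => hd u)
  rwa [measureReal_def, vol_cube, ENNReal.toReal_one, mul_one] at this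

lemma sz_continuous : Continuous (sz : Matrix (Fin n) (Fin n) ℝ → ℝ) := by
  unfold sz
  refine continuous_finsetSum _ fun i _ => continuous_finsetSum _ fun j _ => ?_
  exact continuous_abs.comp (continuous_apply_apply i j)

lemma Zf_cont : ContinuousOn (fun P : Matrix (Fin n) (Fin n) ℝ => Zf P) {P | P.PosDef} := by
  intro P hPD
  obtain ⟨m, hm, hP⟩ := exists_LB hPD
  apply ContinuousAt.continuousWithinAt
  rw [ContinuousAt, tendsto_iff_dist_tendsto_zero]
  have hc : Tendsto (fun Q : Matrix (Fin n) (Fin n) ℝ => sz (Q - P)) (𝓝 P) (𝓝 0) := by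
    have h : Continuous (fun Q : Matrix (Fin n) (Fin n) ℝ => sz (Q - P)) :=
      sz_continuous.comp (continuous_id.sub continuous_const)
    have h2 := h.tendsto P
    have h3 : sz (P - P) = 0 := by simp [sz]
    rwa [h3] at h2
  have hb : Tendsto (fun Q : Matrix (Fin n) (Fin n) ℝ =>
      Real.pi * (sz (Q - P) * ((sz P + sz (Q - P)) / (m / 2)))) (𝓝 P) (𝓝 0) := by
    have := (hc.mul ((hc.const_add (sz P)).div_const (m / 2))).const_mul Real.pi
    simpa using this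
  refine squeeze_zero' (Filter.Eventually.of_forall fun _ => dist_nonneg) ?_ hb
  have hev : ∀ᶠ Q in 𝓝 P, sz (Q - P) < m / 2 :=
    hc.eventually (gt_mem_nhds (by linarith))
  filter_upwards [hev] with Q hQ
  have := Zf_lip hm hP (Q - P) hQ.le
  rw [add_sub_cancel] at this
  rwa [Real.dist_eq]

end LA4Aux

open LA4Aux in
theorem la4 : Stmt_LA4 := by
  refine ⟨fun n => Zf_cont, fun n P hP => ⟨Zf_pos hP, Zf_le_one hP⟩, fun n P hP U hU => ?_,
    fun n P hP t ht => Zf_mono hP ht⟩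
  exact ⟨Zf_gram P hU, posDef_gram hP hU, dense_gram hU, det_gram P hU⟩

end Pool.Agent.RevMink
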