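import Pool.Agent.RevMink.Defs

/-!
# LA5: measurable selection of nearest lattice points, first variation of `Zf`  (helper84)
-/

set_option autoImplicit false

open MeasureTheory Matrix Filter Topology

namespace Pool.Agent.RevMink

namespace LA5Aux

variable {n : ℕ}

/-- crude size of a matrix -/
noncomputable def sz (Q : Matrix (Fin n) (Fin n) ℝ) : ℝ := ∑ i, ∑ j, |Q i j|

lemma sz_nonneg (Q : Matrix (Fin n) (Fin n) ℝ) : 0 ≤ sz Q :=
  Finset.sum_nonneg fun _ _ => Finset.sum_nonneg fun _ _ => abs_nonneg _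

lemma qf_eq_sum (Q : Matrix (Fin n) (Fin n) ℝ) (x : Fin n → ℝ) :
    qf Q x = ∑ i, ∑ j, x i * Q i j * x j := by
  unfold qf dotProduct Matrix.mulVec dotProduct
  refine Finset.sum_congr rfl fun i _ => ?_
  rw [Finset.mul_sum]
  refine Finset.sum_congr rfl fun j _ => ?_
  ring

lemma abs_qf_le (Q : Matrix (Fin n) (Fin n) ℝ) (x : Fin n → ℝ) :
    |qf Q x| ≤ sz Q * ‖x‖ ^ 2 := by
  rw [qf_eq_sum, sz, Finset.sum_mul]
  refine (Finset.abs_sum_le_sum_abs _ _).trans (Finset.sum_le_sum fun i _ => ?_)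
  rw [Finset.sum_mul]
  refine (Finset.abs_sum_le_sum_abs _ _).trans (Finset.sum_le_sum fun j _ => ?_)
  have h1 : |x i| ≤ ‖x‖ := norm_le_pi_norm x i
  have h2 : |x j| ≤ ‖x‖ := norm_le_pi_norm x j
  rw [abs_mul, abs_mul]
  calc |x i| * |Q i j| * |x j| = |Q i j| * (|x i| * |x j|) := by ring
    _ ≤ |Q i j| * (‖x‖ * ‖x‖) := by gcongr
    _ = |Q i j| * ‖x‖ ^ 2 := by ring

lemma qf_continuous (Q : Matrix (Fin n) (Fin n) ℝ) : Continuous (fun x => qf Q x) := by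
  have : (fun x => qf Q x) = fun x : Fin n → ℝ => ∑ i, ∑ j, x i * Q i j * x j := by
    funext x; exact qf_eq_sum Q x
  rw [this]
  fun_prop

lemma qf_smul (Q : Matrix (Fin n) (Fin n) ℝ) (c : ℝ) (x : Fin n → ℝ) :
    qf Q (c • x) = c ^ 2 * qf Q x := by
  rw [qf_eq_sum, qf_eq_sum, Finset.mul_sum]
  refine Finset.sum_congr rfl fun i _ => ?_
  rw [Finset.mul_sum]
  refine Finset.sum_congr rfl fun j _ => ?_
  simp only [Pi.smul_apply, smul_eq_mul]
  ring

lemma qf_add_smul (P H : Matrix (Fin n) (Fin n) ℝ) (t : ℝ) (x : Fin n → ℝ) :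
    qf (P + t • H) x = qf P x + t * qf H x := by
  rw [qf_eq_sum, qf_eq_sum, qf_eq_sum, Finset.mul_sum, ← Finset.sum_add_distrib]
  refine Finset.sum_congr rfl fun i _ => ?_
  rw [Finset.mul_sum, ← Finset.sum_add_distrib]
  refine Finset.sum_congr rfl fun j _ => ?_
  simp only [Matrix.add_apply, Matrix.smul_apply, smul_eq_mul]
  ring

lemma exists_LB {P : Matrix (Fin n) (Fin n) ℝ} (hP : P.PosDef) :
    ∃ m : ℝ, 0 < m ∧ ∀ x : Fin n → ℝ, m * ‖x‖ ^ 2 ≤ qf P x := by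
  have hpos : ∀ x : Fin n → ℝ, x ≠ 0 → 0 < qf P x := by
    intro x hx
    have := hP.dotProduct_mulVec_pos hx
    simpa [qf] using this
  by_cases hne : (Metric.sphere (0 : Fin n → ℝ) 1).Nonempty
  · obtain ⟨y, hy, hmin⟩ := (isCompact_sphere (0 : Fin n → ℝ) 1).exists_isMinOn hne
      (qf_continuous P).continuousOn
    have hy0 : y ≠ 0 := by
      rintro rfl
      simp at hy
    refine ⟨qf P y, hpos y hy0, fun x => ?_⟩
    by_cases hx : x = 0
    · subst hx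
      simp [qf]
    · have hxn : 0 < ‖x‖ := norm_pos_iff.2 hx
      have hs : (‖x‖⁻¹ • x) ∈ Metric.sphere (0 : Fin n → ℝ) 1 := by
        rw [mem_sphere_zero_iff_norm, norm_smul, norm_inv, norm_norm, inv_mul_cancel₀ hxn.ne']
      have h1 : qf P y ≤ qf P (‖x‖⁻¹ • x) := hmin hs
      rw [qf_smul] at h1
      have h2 : qf P y * ‖x‖ ^ 2 ≤ ((‖x‖⁻¹) ^ 2 * qf P x) * ‖x‖ ^ 2 := by gcongr
      have h3 : ((‖x‖⁻¹) ^ 2 * qf P x) * ‖x‖ ^ 2 = qf P x := by
        field_simp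
      linarith
  · refine ⟨1, one_pos, fun x => ?_⟩
    have hx : x = 0 := by
      by_contra hx
      apply hne
      have hxn : 0 < ‖x‖ := norm_pos_iff.2 hx
      exact ⟨‖x‖⁻¹ • x, by
        rw [mem_sphere_zero_iff_norm, norm_smul, norm_inv, norm_norm, inv_mul_cancel₀ hxn.ne']⟩
    subst hx
    simp [qf]

lemma finite_near (u : Fin n → ℝ) (c : ℝ) :
    {z : Fin n → ℤ | ‖u + zc z‖ ≤ c}.Finite := by
  refine (Set.finite_Icc (fun i => ⌈-c - u i⌉) (fun i => ⌊c - u i⌋)).subset ?_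
  intro z hz
  have h : ∀ i, |u i + (z i : ℝ)| ≤ c := fun i => (norm_le_pi_norm (u + zc z) i).trans hz
  refine ⟨fun i => ?_, fun i => ?_⟩
  · have := (abs_le.1 (h i)).1
    exact Int.ceil_le.2 (by linarith)
  · have := (abs_le.1 (h i)).2
    exact Int.le_floor.2 (by linarith)

/-- `z` is a nearest point. -/
def IsMin (Q : Matrix (Fin n) (Fin n) ℝ) (u : Fin n → ℝ) (z : Fin n → ℤ) : Prop :=
  ∀ z', qf Q (u + zc z) ≤ qf Q (u + zc z')

lemma exists_min {Q : Matrix (Fin n) (Fin n) ℝ} {m : ℝ} (hm : 0 < m)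
    (hQ : ∀ x : Fin n → ℝ, m * ‖x‖ ^ 2 ≤ qf Q x) (u : Fin n → ℝ) : ∃ z, IsMin Q u z := by
  have hfin : {z : Fin n → ℤ | m * ‖u + zc z‖ ^ 2 ≤ qf Q (u + zc 0)}.Finite := by
    refine (finite_near u (Real.sqrt (qf Q (u + zc 0) / m))).subset ?_
    intro z hz
    have hz' : m * ‖u + zc z‖ ^ 2 ≤ qf Q (u + zc 0) := hz
    refine Real.le_sqrt_of_sq_le ?_
    rw [le_div_iff₀ hm]
    linarith
  have h0 : (0 : Fin n → ℤ) ∈ {z : Fin n → ℤ | m * ‖u + zc z‖ ^ 2 ≤ qf Q (u + zc 0)} := hQ _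
  obtain ⟨z, hz, hmin⟩ := Set.exists_min_image _ (fun z => qf Q (u + zc z)) hfin ⟨0, h0⟩
  refine ⟨z, fun z' => ?_⟩
  by_cases hz' : m * ‖u + zc z'‖ ^ 2 ≤ qf Q (u + zc 0)
  · exact hmin z' hz'
  · push Not at hz'
    have h1 : qf Q (u + zc z) ≤ qf Q (u + zc 0) := hmin 0 h0
    have h2 := hQ (u + zc z')
    linarith

lemma bddBelow {Q : Matrix (Fin n) (Fin n) ℝ} {m : ℝ} (hm : 0 < m)
    (hQ : ∀ x : Fin n → ℝ, m * ‖x‖ ^ 2 ≤ qf Q x) (u : Fin n → ℝ) :
    BddBelow (Set.range fun z : Fin n → ℤ => qf Q (u + zc z)) := by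
  refine ⟨0, ?_⟩
  rintro _ ⟨z, rfl⟩
  exact le_trans (by positivity) (hQ _)

lemma dsq_le {Q : Matrix (Fin n) (Fin n) ℝ} {m : ℝ} (hm : 0 < m)
    (hQ : ∀ x : Fin n → ℝ, m * ‖x‖ ^ 2 ≤ qf Q x) (u : Fin n → ℝ) (z : Fin n → ℤ) :
    dsq Q u ≤ qf Q (u + zc z) := ciInf_le (bddBelow hm hQ u) z

lemma dsq_eq {Q : Matrix (Fin n) (Fin n) ℝ} {m : ℝ} (hm : 0 < m)
    (hQ : ∀ x : Fin n → ℝ, m * ‖x‖ ^ 2 ≤ qf Q x) {u : Fin n → ℝ} {z : Fin n → ℤ}
    (hz : IsMin Q u z) : dsq Q u = qf Q (u + zc z) :=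
  le_antisymm (dsq_le hm hQ u z) (le_ciInf hz)

lemma isMin_of_eq {Q : Matrix (Fin n) (Fin n) ℝ} {m : ℝ} (hm : 0 < m)
    (hQ : ∀ x : Fin n → ℝ, m * ‖x‖ ^ 2 ≤ qf Q x) {u : Fin n → ℝ} {z : Fin n → ℤ}
    (hz : qf Q (u + zc z) = dsq Q u) : IsMin Q u z := fun z' => by
  rw [hz]; exact dsq_le hm hQ u z'

lemma dsq_nonneg {Q : Matrix (Fin n) (Fin n) ℝ} {m : ℝ} (hm : 0 < m)
    (hQ : ∀ x : Fin n → ℝ, m * ‖x‖ ^ 2 ≤ qf Q x) (u : Fin n → ℝ) : 0 ≤ dsq Q u :=
  le_ciInf fun z => le_trans (by positivity) (hQ _)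

lemma dsq_le_sz {Q : Matrix (Fin n) (Fin n) ℝ} {m : ℝ} (hm : 0 < m)
    (hQ : ∀ x : Fin n → ℝ, m * ‖x‖ ^ 2 ≤ qf Q x) (u : Fin n → ℝ) : dsq Q u ≤ sz Q := by
  refine (dsq_le hm hQ u (fun i => -⌊u i⌋)).trans ?_
  refine (le_abs_self _).trans ((abs_qf_le Q _).trans ?_)
  have h1 : ‖u + zc (fun i => -⌊u i⌋)‖ ≤ 1 := by
    refine (pi_norm_le_iff_of_nonneg zero_le_one).2 fun i => ?_
    have h2 : (u + zc (fun i => -⌊u i⌋)) i = Int.fract (u i) := by
      have h3 : (u + zc (fun i => -⌊u i⌋)) i = u i + ((-⌊u i⌋ : ℤ) : ℝ) := rfl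
      rw [h3, Int.cast_neg, ← sub_eq_add_neg, Int.self_sub_floor]
    rw [h2, Real.norm_eq_abs, abs_of_nonneg (Int.fract_nonneg _)]
    exact (Int.fract_lt_one _).le
  have h3 : ‖u + zc (fun i => -⌊u i⌋)‖ ^ 2 ≤ 1 := by
    have := norm_nonneg (u + zc (fun i => -⌊u i⌋))
    nlinarith
  nlinarith [sz_nonneg Q]

lemma norm_sq_le {Q : Matrix (Fin n) (Fin n) ℝ} {m : ℝ} (hm : 0 < m)
    (hQ : ∀ x : Fin n → ℝ, m * ‖x‖ ^ 2 ≤ qf Q x) {u : Fin n → ℝ} {z : Fin n → ℤ}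
    (hz : IsMin Q u z) : ‖u + zc z‖ ^ 2 ≤ sz Q / m := by
  rw [le_div_iff₀ hm]
  have h1 := hQ (u + zc z)
  have h2 := dsq_le_sz hm hQ u
  rw [dsq_eq hm hQ hz] at h2
  linarith

lemma dsq_measurable (Q : Matrix (Fin n) (Fin n) ℝ) : Measurable (dsq Q) := by
  unfold dsq
  refine Measurable.iInf fun z => ?_
  exact ((qf_continuous Q).comp (continuous_id.add continuous_const)).measurable

/-! ### The path `P + t H` -/

lemma sz_add_smul_le (P H : Matrix (Fin n) (Fin n) ℝ) {t : ℝ} (ht : |t| ≤ 1) :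
    sz (P + t • H) ≤ sz P + sz H := by
  unfold sz
  rw [← Finset.sum_add_distrib]
  refine Finset.sum_le_sum fun i _ => ?_
  rw [← Finset.sum_add_distrib]
  refine Finset.sum_le_sum fun j _ => ?_
  simp only [Matrix.add_apply, Matrix.smul_apply, smul_eq_mul]
  refine (abs_add_le _ _).trans ?_
  rw [abs_mul]
  nlinarith [abs_nonneg (H i j)]

lemma LB_path {P : Matrix (Fin n) (Fin n) ℝ} (H : Matrix (Fin n) (Fin n) ℝ) {m : ℝ} (_hm : 0 < m)
    (hP : ∀ x : Fin n → ℝ, m * ‖x‖ ^ 2 ≤ qf P x) {t : ℝ} (ht : |t| * sz H ≤ m / 2)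
    (x : Fin n → ℝ) : m / 2 * ‖x‖ ^ 2 ≤ qf (P + t • H) x := by
  rw [qf_add_smul]
  have h1 := hP x
  have h2 : |t * qf H x| ≤ m / 2 * ‖x‖ ^ 2 := by
    rw [abs_mul]
    calc |t| * |qf H x| ≤ |t| * (sz H * ‖x‖ ^ 2) := by gcongr; exact abs_qf_le H x
      _ = (|t| * sz H) * ‖x‖ ^ 2 := by ring
      _ ≤ m / 2 * ‖x‖ ^ 2 := by gcongr
  have h3 := (abs_le.1 h2).1
  linarith

lemma dsq_path_le {P : Matrix (Fin n) (Fin n) ℝ} (H : Matrix (Fin n) (Fin n) ℝ) {m : ℝ} (hm : 0 < m)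
    (hP : ∀ x : Fin n → ℝ, m * ‖x‖ ^ 2 ≤ qf P x) {t s : ℝ} (ht : |t| * sz H ≤ m / 2)
    (ht1 : |t| ≤ 1) (hs : |s| * sz H ≤ m / 2) (u : Fin n → ℝ) :
    dsq (P + s • H) u ≤ dsq (P + t • H) u + |s - t| * (sz H * ((sz P + sz H) / (m / 2))) := by
  have hm2 : 0 < m / 2 := by linarith
  obtain ⟨z, hz⟩ := exists_min hm2 (LB_path H hm hP ht) u
  have h1 := dsq_le hm2 (LB_path H hm hP hs) u z
  rw [dsq_eq hm2 (LB_path H hm hP ht) hz]
  have h2 : qf (P + s • H) (u + zc z) = qf (P + t • H) (u + zc z) + (s - t) * qf H (u + zc z) := by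
    rw [qf_add_smul, qf_add_smul]; ring
  have h3 := norm_sq_le hm2 (LB_path H hm hP ht) hz
  have h4 : ‖u + zc z‖ ^ 2 ≤ (sz P + sz H) / (m / 2) := h3.trans (by
    have := sz_add_smul_le P H ht1
    gcongr)
  have h5 : (s - t) * qf H (u + zc z) ≤ |s - t| * (sz H * ((sz P + sz H) / (m / 2))) := by
    refine (le_abs_self _).trans ?_
    rw [abs_mul]
    have h6 := abs_qf_le H (u + zc z)
    have h7 := sz_nonneg H
    calc |s - t| * |qf H (u + zc z)| ≤ |s - t| * (sz H * ‖u + zc z‖ ^ 2) := by gcongr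
      _ ≤ _ := by gcongr
  linarith

lemma abs_dsq_path_le {P : Matrix (Fin n) (Fin n) ℝ} (H : Matrix (Fin n) (Fin n) ℝ) {m : ℝ}
    (hm : 0 < m)
    (hP : ∀ x : Fin n → ℝ, m * ‖x‖ ^ 2 ≤ qf P x) {t s : ℝ} (ht : |t| * sz H ≤ m / 2)
    (ht1 : |t| ≤ 1) (hs : |s| * sz H ≤ m / 2) (hs1 : |s| ≤ 1) (u : Fin n → ℝ) :
    |dsq (P + s • H) u - dsq (P + t • H) u| ≤ |s - t| * (sz H * ((sz P + sz H) / (m / 2))) := by
  have h1 := dsq_path_le H hm hP ht ht1 hs u
  have h2 := dsq_path_le H hm hP hs hs1 ht u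
  rw [abs_sub_comm t s] at h2
  rw [abs_le]
  constructor <;> linarith

lemma hasDerivAt_dsq {P : Matrix (Fin n) (Fin n) ℝ} (H : Matrix (Fin n) (Fin n) ℝ) {m : ℝ}
    (hm : 0 < m) (hP : ∀ x : Fin n → ℝ, m * ‖x‖ ^ 2 ≤ qf P x) {u : Fin n → ℝ} {z₀ : Fin n → ℤ}
    (hz : ∀ z, z ≠ z₀ → qf P (u + zc z₀) < qf P (u + zc z)) :
    HasDerivAt (fun t : ℝ => dsq (P + t • H) u) (qf H (u + zc z₀)) 0 := by
  have hm2 : 0 < m / 2 := by linarith
  have hev : (fun t : ℝ => dsq (P + t • H) u) =ᶠ[𝓝 0]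
      fun t => qf P (u + zc z₀) + t * qf H (u + zc z₀) := by
    set B : ℝ := (sz P + sz H) / (m / 2) with hB
    have hB0 : 0 ≤ B := div_nonneg (add_nonneg (sz_nonneg _) (sz_nonneg _)) hm2.le
    have hfin := finite_near u (Real.sqrt B)
    have h1 : ∀ᶠ t : ℝ in 𝓝 0, |t| * sz H ≤ m / 2 := by
      have hc : ContinuousAt (fun t : ℝ => |t| * sz H) 0 := by fun_prop
      have : (fun t : ℝ => |t| * sz H) 0 < m / 2 := by simpa using hm2
      exact (hc.eventually_lt continuousAt_const this).mono fun t ht => ht.le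
    have h2 : ∀ᶠ t : ℝ in 𝓝 0, |t| ≤ 1 := by
      have hc : ContinuousAt (fun t : ℝ => |t|) 0 := by fun_prop
      have : (fun t : ℝ => |t|) 0 < 1 := by simp
      exact (hc.eventually_lt continuousAt_const this).mono fun t ht => ht.le
    have h3 : ∀ᶠ t : ℝ in 𝓝 0, ∀ z ∈ {z : Fin n → ℤ | ‖u + zc z‖ ≤ Real.sqrt B}, z ≠ z₀ →
        qf (P + t • H) (u + zc z₀) < qf (P + t • H) (u + zc z) := by
      rw [Filter.eventually_all_finite hfin]
      intro z _
      by_cases hzz : z = z₀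
      · exact Filter.Eventually.of_forall fun t h => absurd hzz h
      · have h4 : ∀ᶠ t : ℝ in 𝓝 0, qf P (u + zc z₀) + t * qf H (u + zc z₀)
            < qf P (u + zc z) + t * qf H (u + zc z) := by
          apply ContinuousAt.eventually_lt
          · fun_prop
          · fun_prop
          · simpa using hz z hzz
        refine h4.mono fun t ht _ => ?_
        rw [qf_add_smul, qf_add_smul]
        exact ht
    filter_upwards [h1, h2, h3] with t ht1 ht2 ht3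
    obtain ⟨z, hzm⟩ := exists_min hm2 (LB_path H hm hP ht1) u
    have h5 : ‖u + zc z‖ ≤ Real.sqrt B := by
      refine Real.le_sqrt_of_sq_le ((norm_sq_le hm2 (LB_path H hm hP ht1) hzm).trans ?_)
      have := sz_add_smul_le P H ht2
      rw [hB]
      gcongr
    have h6 : z = z₀ := by
      by_contra hne
      exact absurd (hzm z₀) (not_le.2 (ht3 z h5 hne))
    rw [dsq_eq hm2 (LB_path H hm hP ht1) hzm, h6, qf_add_smul]
  have hd : HasDerivAt (fun t : ℝ => qf P (u + zc z₀) + t * qf H (u + zc z₀))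
      (qf H (u + zc z₀)) 0 := by
    simpa using ((hasDerivAt_id (0 : ℝ)).mul_const (qf H (u + zc z₀))).const_add
      (qf P (u + zc z₀))
  exact hd.congr_of_eventuallyEq hev

/-! ### Uniqueness a.e. -/

lemma qf_sub {P : Matrix (Fin n) (Fin n) ℝ} (hP : P.IsSymm) (u : Fin n → ℝ) (a b : Fin n → ℝ) :
    qf P (u + a) - qf P (u + b) = 2 * ((P *ᵥ (a - b)) ⬝ᵥ u) + (qf P a - qf P b) := by
  have hs : ∀ x y : Fin n → ℝ, x ⬝ᵥ (P *ᵥ y) = (P *ᵥ x) ⬝ᵥ y := by
    intro x y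
    rw [Matrix.dotProduct_mulVec, ← Matrix.mulVec_transpose, hP.eq]
  unfold qf
  simp only [Matrix.mulVec_add, Matrix.mulVec_sub, dotProduct_add, add_dotProduct, sub_dotProduct]
  have h1 : u ⬝ᵥ (P *ᵥ a) = (P *ᵥ a) ⬝ᵥ u := dotProduct_comm _ _
  have h2 : a ⬝ᵥ (P *ᵥ u) = (P *ᵥ a) ⬝ᵥ u := hs a u
  have h3 : u ⬝ᵥ (P *ᵥ b) = (P *ᵥ b) ⬝ᵥ u := dotProduct_comm _ _
  have h4 : b ⬝ᵥ (P *ᵥ u) = (P *ᵥ b) ⬝ᵥ u := hs b u
  rw [h1, h2, h3, h4]
  ring

lemma volume_hyperplane (v : Fin n → ℝ) (hv : v ≠ 0) (c : ℝ) :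
    volume {u : Fin n → ℝ | v ⬝ᵥ u = c} = 0 := by
  classical
  have hvv : 0 < v ⬝ᵥ v := by
    rcases lt_or_eq_of_le (show 0 ≤ v ⬝ᵥ v by
      unfold dotProduct
      exact Finset.sum_nonneg fun i _ => mul_self_nonneg _) with h | h
    · exact h
    · exact absurd (dotProduct_self_eq_zero.1 h.symm) hv
  let L : (Fin n → ℝ) →ₗ[ℝ] ℝ :=
    { toFun := fun u => v ⬝ᵥ u
      map_add' := fun x y => dotProduct_add _ _ _
      map_smul' := fun a x => by simp [dotProduct_smul] }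
  let S : AffineSubspace ℝ (Fin n → ℝ) := AffineSubspace.mk' ((c / (v ⬝ᵥ v)) • v) (LinearMap.ker L)
  have hmem : ∀ u, u ∈ S ↔ v ⬝ᵥ u = c := by
    intro u
    rw [AffineSubspace.mem_mk', vsub_eq_sub, LinearMap.mem_ker]
    change v ⬝ᵥ (u - (c / (v ⬝ᵥ v)) • v) = 0 ↔ _
    rw [dotProduct_sub, dotProduct_smul, smul_eq_mul, div_mul_cancel₀ _ hvv.ne', sub_eq_zero]
  have hS : S ≠ ⊤ := by
    intro h
    have h1 : v ⬝ᵥ (((c + 1) / (v ⬝ᵥ v)) • v) = c := (hmem _).1 (by rw [h]; trivial)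
    rw [dotProduct_smul, smul_eq_mul, div_mul_cancel₀ _ hvv.ne'] at h1
    linarith
  have h := Measure.addHaar_affineSubspace (volume : Measure (Fin n → ℝ)) S hS
  have hset : {u : Fin n → ℝ | v ⬝ᵥ u = c} = (S : Set (Fin n → ℝ)) := by
    ext u
    exact (hmem u).symm
  rw [hset]
  exact h

lemma mulVec_ne_zero {P : Matrix (Fin n) (Fin n) ℝ} (hP : P.PosDef) {a : Fin n → ℝ} (ha : a ≠ 0) :
    P *ᵥ a ≠ 0 := by
  intro h
  have := hP.dotProduct_mulVec_pos ha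
  rw [h] at this
  simp at this

lemma ae_unique {P : Matrix (Fin n) (Fin n) ℝ} (hP : P.PosDef) :
    ∀ᵐ u : Fin n → ℝ, ∀ z z' : Fin n → ℤ, z ≠ z' → qf P (u + zc z) ≠ qf P (u + zc z') := by
  rw [ae_all_iff]
  intro z
  rw [ae_all_iff]
  intro z'
  by_cases hzz : z = z'
  · exact Filter.Eventually.of_forall fun u h => absurd hzz h
  have hne : zc z - zc z' ≠ 0 := by
    intro h
    apply hzz
    funext i
    have := congrFun h i
    simp only [zc, Pi.sub_apply, Pi.zero_apply, sub_eq_zero, Int.cast_inj] at this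
    exact this
  have hsymm : P.IsSymm := by
    have := hP.isHermitian
    rwa [Matrix.IsHermitian, Matrix.conjTranspose_eq_transpose_of_trivial] at this
  have h0 := volume_hyperplane (P *ᵥ (zc z - zc z')) (mulVec_ne_zero hP hne)
    (-(qf P (zc z) - qf P (zc z')) / 2)
  have h1 : ∀ᵐ u : Fin n → ℝ, u ∉ {u : Fin n → ℝ | (P *ᵥ (zc z - zc z')) ⬝ᵥ u
      = -(qf P (zc z) - qf P (zc z')) / 2} := measure_eq_zero_iff_ae_notMem.1 h0
  filter_upwards [h1] with u hu _ heq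
  apply hu
  have h2 := qf_sub hsymm u (zc z) (zc z')
  rw [heq, sub_self] at h2
  show _ = _
  linarith

/-! ### Selection -/

lemma exists_sel {P : Matrix (Fin n) (Fin n) ℝ} {m : ℝ} (hm : 0 < m)
    (hP : ∀ x : Fin n → ℝ, m * ‖x‖ ^ 2 ≤ qf P x) :
    ∃ z : (Fin n → ℝ) → (Fin n → ℤ), Measurable z ∧ ∀ u, IsMin P u (z u) := by
  classical
  let e : ℕ → (Fin n → ℤ) := fun k => (Encodable.decode (α := Fin n → ℤ) k).getD 0
  have he : ∀ z, ∃ k, e k = z := fun z => ⟨Encodable.encode z, by simp [e]⟩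
  let p : (Fin n → ℝ) → ℕ → Prop := fun u k => qf P (u + zc (e k)) = dsq P u
  have hp : ∀ u, ∃ k, p u k := by
    intro u
    obtain ⟨z, hz⟩ := exists_min hm hP u
    obtain ⟨k, hk⟩ := he z
    exact ⟨k, by simp only [p]; rw [hk, dsq_eq hm hP hz]⟩
  have hmeas : ∀ k, MeasurableSet {u | p u k} := by
    intro k
    refine measurableSet_eq_fun ?_ (dsq_measurable P)
    exact ((qf_continuous P).comp (continuous_id.add continuous_const)).measurable
  have hfind := measurable_find hp hmeas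
  refine ⟨fun u => e (Nat.find (hp u)), (measurable_from_nat (f := e)).comp hfind, fun u => ?_⟩
  exact isMin_of_eq hm hP (Nat.find_spec (hp u))

lemma exp_lip {a b : ℝ} (ha : 0 ≤ a) (hb : 0 ≤ b) :
    |Real.exp (-Real.pi * a) - Real.exp (-Real.pi * b)| ≤ Real.pi * |a - b| := by
  wlog hab : a ≤ b with H
  · rw [abs_sub_comm, abs_sub_comm a b]
    exact H hb ha (le_of_not_ge hab)
  have h1 : Real.exp (-Real.pi * b) ≤ Real.exp (-Real.pi * a) :=
    Real.exp_le_exp.2 (by nlinarith [Real.pi_pos])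
  rw [abs_of_nonneg (by linarith), abs_sub_comm, abs_of_nonneg (by linarith)]
  have h2 : Real.exp (-Real.pi * b) = Real.exp (-Real.pi * a) * Real.exp (-(Real.pi * (b - a))) := by
    rw [← Real.exp_add]; ring_nf
  have h3 : 1 - Real.pi * (b - a) ≤ Real.exp (-(Real.pi * (b - a))) := by
    have := Real.add_one_le_exp (-(Real.pi * (b - a)))
    linarith
  have h4 : Real.exp (-Real.pi * a) ≤ 1 := Real.exp_le_one_iff.2 (by nlinarith [Real.pi_pos])
  have h5 : 0 ≤ Real.pi * (b - a) := mul_nonneg Real.pi_pos.le (by linarith)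
  have h6 := Real.exp_pos (-Real.pi * a)
  rw [h2]
  nlinarith

end LA5Aux

open LA5Aux in
theorem la5 : Stmt_LA5 := by
  intro n P hPD
  obtain ⟨m, hm, hP⟩ := exists_LB hPD
  obtain ⟨z, hzm, hz⟩ := exists_sel hm hP
  have hzc : Measurable (zc : (Fin n → ℤ) → (Fin n → ℝ)) := by
    refine measurable_pi_lambda _ fun i => ?_
    exact (measurable_from_top (f := fun k : ℤ => (k : ℝ))).comp (measurable_pi_apply i)
  have hxm : Measurable (fun u => u + zc (z u)) := measurable_id.add (hzc.comp hzm)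
  refine ⟨fun u => u + zc (z u), ⟨hxm, fun u => ⟨z u, rfl⟩, fun u => (dsq_eq hm hP (hz u)).symm⟩,
    ⟨Real.sqrt (sz P / m), fun u i => ?_⟩, ?_⟩
  · refine (norm_le_pi_norm (u + zc (z u)) i).trans ?_
    exact Real.le_sqrt_of_sq_le (norm_sq_le hm hP (hz u))
  intro H _
  have hm2 : 0 < m / 2 := by linarith
  set μ : Measure (Fin n → ℝ) := volume.restrict (Set.Icc (0 : Fin n → ℝ) 1) with hμ
  have hfm : IsFiniteMeasure μ := ⟨by
    rw [hμ, Measure.restrict_apply_univ]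
    exact isCompact_Icc.measure_lt_top⟩
  set F : ℝ → (Fin n → ℝ) → ℝ := fun t u => Real.exp (-Real.pi * dsq (P + t • H) u) with hF
  set F' : (Fin n → ℝ) → ℝ := fun u =>
    Real.exp (-Real.pi * qf P (u + zc (z u))) * (-Real.pi * qf H (u + zc (z u))) with hF'
  set S : Set ℝ := {t | |t| * sz H < m / 2 ∧ |t| < 1} with hS
  have hSn : S ∈ 𝓝 (0 : ℝ) := by
    have hopen : IsOpen S := by
      have o1 : IsOpen {t : ℝ | |t| * sz H < m / 2} :=
        isOpen_lt (continuous_abs.mul continuous_const) continuous_const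
      have o2 : IsOpen {t : ℝ | |t| < 1} := isOpen_lt continuous_abs continuous_const
      exact o1.inter o2
    exact hopen.mem_nhds (by simp [hS]; linarith)
  set Bd : ℝ := Real.pi * (sz H * ((sz P + sz H) / (m / 2))) with hBd
  have hBd0 : 0 ≤ Bd := mul_nonneg Real.pi_pos.le (mul_nonneg (sz_nonneg _)
    (div_nonneg (add_nonneg (sz_nonneg _) (sz_nonneg _)) hm2.le))
  have hFm : ∀ t, Measurable (F t) := fun t =>
    Real.measurable_exp.comp ((dsq_measurable _).const_mul _)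
  have key := hasDerivAt_integral_of_dominated_loc_of_lip (μ := μ) (F := F) (F' := F')
    (x₀ := (0 : ℝ)) (s := S) (bound := fun _ => Bd) hSn
    (Filter.Eventually.of_forall fun t => (hFm t).aestronglyMeasurable)
    ?_ ?_ ?_ (integrable_const _) ?_
  · have h2 := key.2
    have h3 : ∫ u, F' u ∂μ = -Real.pi * ∫ u in Set.Icc (0 : Fin n → ℝ) 1,
        qf H (u + zc (z u)) * Real.exp (-Real.pi * qf P (u + zc (z u))) := by
      rw [← integral_const_mul]
      refine integral_congr_ae (Filter.Eventually.of_forall fun u => ?_)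
      simp only [hF']
      ring
    rw [h3] at h2
    exact h2
  · -- integrable F 0
    refine Integrable.of_bound (C := 1) (hFm 0).aestronglyMeasurable
      (Filter.Eventually.of_forall fun u => ?_)
    rw [Real.norm_eq_abs, abs_of_pos (Real.exp_pos _)]
    apply Real.exp_le_one_iff.2
    have : 0 ≤ dsq (P + (0 : ℝ) • H) u := by
      rw [zero_smul, add_zero]; exact dsq_nonneg hm hP u
    nlinarith [Real.pi_pos]
  · refine Measurable.aestronglyMeasurable ?_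
    have h1 : Measurable fun u => qf P (u + zc (z u)) := (qf_continuous P).measurable.comp hxm
    have h2 : Measurable fun u => qf H (u + zc (z u)) := (qf_continuous H).measurable.comp hxm
    exact (Real.measurable_exp.comp (h1.const_mul _)).mul (h2.const_mul _)
  · refine Filter.Eventually.of_forall fun u => ?_
    rw [lipschitzOnWith_iff_dist_le_mul]
    intro s hs t ht
    have hn : ((Real.nnabs Bd : NNReal) : ℝ) = Bd := by
      rw [Real.coe_nnabs, abs_of_nonneg hBd0]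
    rw [hn, Real.dist_eq, Real.dist_eq]
    simp only [hF]
    refine (exp_lip (dsq_nonneg hm2 (LB_path H hm hP hs.1.le) u)
      (dsq_nonneg hm2 (LB_path H hm hP ht.1.le) u)).trans ?_
    have h1 := abs_dsq_path_le H hm hP ht.1.le ht.2.le hs.1.le hs.2.le u
    calc Real.pi * |dsq (P + s • H) u - dsq (P + t • H) u|
        ≤ Real.pi * (|s - t| * (sz H * ((sz P + sz H) / (m / 2)))) := by
          gcongr
      _ = Bd * |s - t| := by rw [hBd]; ring
  · refine ae_restrict_of_ae ?_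
    filter_upwards [ae_unique hPD] with u hu
    have hz' : ∀ w, w ≠ z u → qf P (u + zc (z u)) < qf P (u + zc w) := fun w hw =>
      lt_of_le_of_ne (hz u w) (hu _ _ (Ne.symm hw))
    have hd := hasDerivAt_dsq H hm hP hz'
    have hd2 := (hd.const_mul (-Real.pi)).exp
    simp only [hF, hF']
    have h0 : dsq (P + (0 : ℝ) • H) u = qf P (u + zc (z u)) := by
      rw [zero_smul, add_zero, dsq_eq hm hP (hz u)]
    rw [h0] at hd2
    exact hd2

end Pool.Agent.RevMink
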