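import Pool.Agent.RevMink.LA6C

/-!
Module LA6 (helper91): a critical point has small covariance.
-/

set_option autoImplicit false

open MeasureTheory ProbabilityTheory Matrix Set
open scoped RealInnerProductSpace ENNReal

namespace Pool.Agent.RevMink.LA6Aux

variable {n : ℕ} (g : Matrix (Fin n) (Fin n) ℝ) (hg : g.det ≠ 0)

/-- the density weight -/
noncomputable def wt (s : ℝ) (x : (Fin n → ℝ) → (Fin n → ℝ)) (u : Fin n → ℝ) : ℝ :=
  Real.exp (-Real.pi * qf (gᵀ * g) (x u) / s ^ 2)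

/-- the total weight -/
noncomputable def Zt (s : ℝ) (x : (Fin n → ℝ) → (Fin n → ℝ)) : ℝ :=
  ∫ u in Icc (0 : Fin n → ℝ) 1, wt g s x u

/-- the probability measure on the Voronoi cell -/
noncomputable def mu (s : ℝ) (x : (Fin n → ℝ) → (Fin n → ℝ)) : Measure (E n) :=
  ((volume.restrict (Icc (0 : Fin n → ℝ) 1)).withDensity
    (fun u => ENNReal.ofReal (wt g s x u / Zt g s x))).map (fun u => G g (x u))

section facts

variable (s : ℝ) (x : (Fin n → ℝ) → (Fin n → ℝ)) (hx : IsSel (gᵀ * g) x) (hs : 1 ≤ s)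
variable (hcovs : ∀ u, dsq (gᵀ * g) u ≤ (n : ℝ) ^ 2 / 4)

lemma vol_box : volume (Icc (0 : Fin n → ℝ) 1) = 1 := by
  rw [Real.volume_Icc_pi]; simp

include hx in
lemma meas_wt : Measurable (wt g s x) := by
  unfold wt
  have h1 : Measurable (fun u => qf (gᵀ * g) (x u)) := by
    have h2 : (fun u => qf (gᵀ * g) (x u)) = fun u => ‖G g (x u)‖ ^ 2 := by
      ext u; rw [norm_G_sq]
    rw [h2]
    exact (((continuous_G g).measurable.comp hx.1).norm).pow_const 2
  fun_prop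

lemma wt_pos (u : Fin n → ℝ) : 0 < wt g s x u := Real.exp_pos _

lemma wt_le (u : Fin n → ℝ) : wt g s x u ≤ 1 := by
  unfold wt
  rw [Real.exp_le_one_iff]
  have h1 := qf_nonneg g (x u)
  have h2 : 0 ≤ Real.pi * qf (gᵀ * g) (x u) / s ^ 2 := by positivity
  have h3 : -Real.pi * qf (gᵀ * g) (x u) / s ^ 2 = -(Real.pi * qf (gᵀ * g) (x u) / s ^ 2) := by ring
  rw [h3]; linarith

include hx in
lemma int_wt : IntegrableOn (wt g s x) (Icc (0 : Fin n → ℝ) 1) := by
  refine Measure.integrableOn_of_bounded (M := 1) ?_ (meas_wt g s x hx).aestronglyMeasurable ?_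
  · rw [vol_box]; exact ENNReal.one_ne_top
  · filter_upwards with u
    rw [Real.norm_eq_abs, abs_of_pos (wt_pos g s x u)]
    exact wt_le g s x u

include hx hcovs hs in
lemma Zt_pos : 0 < Zt g s x := by
  have h1 : ∫ u in Icc (0 : Fin n → ℝ) 1, Real.exp (-Real.pi * ((n : ℝ) ^ 2 / 4) / s ^ 2) ≤ Zt g s x := by
    apply setIntegral_mono (by
      rw [integrableOn_const_iff]
      right
      rw [vol_box]; exact ENNReal.one_lt_top) (int_wt g s x hx)
    intro u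
    unfold wt
    simp only
    apply Real.exp_le_exp.mpr
    have h2 : qf (gᵀ * g) (x u) ≤ (n : ℝ) ^ 2 / 4 := by rw [hx.2.2 u]; exact hcovs u
    have h3 : 0 < s ^ 2 := by positivity
    apply div_le_div_of_nonneg_right _ h3.le
    have := Real.pi_pos
    nlinarith
  refine lt_of_lt_of_le ?_ h1
  rw [setIntegral_const]
  simp only [Measure.real, vol_box, ENNReal.toReal_one, one_smul]
  exact Real.exp_pos _

include hx hs hcovs in
lemma mu_prob : IsProbabilityMeasure (mu g s x) := by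
  have hZ := Zt_pos g s x hx hs hcovs
  have hm : Measurable (fun u => G g (x u)) := (continuous_G g).measurable.comp hx.1
  constructor
  rw [mu, Measure.map_apply hm MeasurableSet.univ, preimage_univ,
    withDensity_apply _ MeasurableSet.univ, Measure.restrict_univ,
    ← ofReal_integral_eq_lintegral_ofReal]
  · rw [integral_div]
    change ENNReal.ofReal (Zt g s x / Zt g s x) = 1
    rw [div_self hZ.ne']; simp
  · exact (int_wt g s x hx).div_const _
  · filter_upwards with u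
    exact div_nonneg (wt_pos g s x u).le hZ.le

include hx hs hcovs in
lemma mu_integral (f : E n → ℝ) (hf : Measurable f) :
    ∫ y, f y ∂(mu g s x) = (∫ u in Icc (0 : Fin n → ℝ) 1, f (G g (x u)) * wt g s x u) / Zt g s x := by
  have hZ := Zt_pos g s x hx hs hcovs
  have hm : Measurable (fun u => G g (x u)) := (continuous_G g).measurable.comp hx.1
  rw [mu, integral_map hm.aemeasurable hf.aestronglyMeasurable,
    integral_withDensity_eq_integral_toReal_smul]
  · rw [← integral_div]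
    apply integral_congr_ae
    filter_upwards with u
    rw [ENNReal.toReal_ofReal (div_nonneg (wt_pos g s x u).le hZ.le), smul_eq_mul]
    ring
  · exact ((meas_wt g s x hx).div_const _).ennreal_ofReal
  · filter_upwards with u
    exact ENNReal.ofReal_lt_top

include hx in
lemma sel_mem (hlam : ∀ z : Fin n → ℤ, z ≠ 0 → 1 ≤ ‖G g (zc z)‖) (u : Fin n → ℝ) :
    G g (x u) ∈ pol (NN g hg) := by
  rw [mem_polN g hg hlam]
  intro z _ _
  obtain ⟨z0, hz0⟩ := hx.2.1 u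
  have h1 : qf (gᵀ * g) (x u) ≤ qf (gᵀ * g) (u + zc (z0 - z)) := by
    rw [hx.2.2 u]; exact dsq_le g u _
  have h2 : u + zc (z0 - z) = x u - zc z := by
    rw [zc_sub, hz0]; abel
  rw [h2, ← norm_G_sq, ← norm_G_sq, G_sub, norm_sub_sq_real, real_inner_comm] at h1
  linarith

include hx hs hcovs in
lemma mu_supp (hlam : ∀ z : Fin n → ℤ, z ≠ 0 → 1 ≤ ‖G g (zc z)‖) :
    mu g s x (pol (NN g hg))ᶜ = 0 := by
  have hm : Measurable (fun u => G g (x u)) := (continuous_G g).measurable.comp hx.1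
  rw [mu, Measure.map_apply hm (polN_measurable _).compl]
  have : (fun u => G g (x u)) ⁻¹' (pol (NN g hg))ᶜ = ∅ := by
    ext u
    simp only [mem_preimage, mem_compl_iff, mem_empty_iff_false, iff_false, not_not]
    exact sel_mem g hg x hx hlam u
  rw [this, measure_empty]

include hx hs hcovs hg in
/-- the measure is subgaussian -/
lemma mu_subg (θ : E n) : ∫ y, Real.exp ⟪y, θ⟫ ∂(mu g s x) ≤ Real.exp (s ^ 2 * ‖θ‖ ^ 2 / 2) := by
  have hZ := Zt_pos g s x hx hs hcovs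
  have hs0 : 0 < s := by linarith
  have hpi := Real.pi_pos
  rw [mu_integral g s x hx hs hcovs _ (by fun_prop), div_le_iff₀ hZ]
  set h : E n := (s ^ 2 / (2 * Real.pi)) • θ with hh
  set k : Fin n → ℝ := g⁻¹ *ᵥ h.ofLp with hk
  have hGk : G g k = h := G_inv g hg h
  set K : ℝ := Real.exp (s ^ 2 * ‖θ‖ ^ 2 / (4 * Real.pi)) with hK
  have hdm : Measurable (fun u => dsq (gᵀ * g) u) := by
    have h2 : (fun u => dsq (gᵀ * g) u) = fun u => ‖G g (x u)‖ ^ 2 := by
      ext u; rw [norm_G_sq, hx.2.2]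
    rw [h2]
    exact (((continuous_G g).measurable.comp hx.1).norm).pow_const 2
  have hdnn : ∀ u, 0 ≤ dsq (gᵀ * g) u := fun u => by rw [← hx.2.2]; exact qf_nonneg g _
  -- pointwise bound
  have hpt : ∀ u, Real.exp ⟪G g (x u), θ⟫ * wt g s x u ≤
      K * Real.exp (-Real.pi * dsq (gᵀ * g) (u + -k) / s ^ 2) := by
    intro u
    rw [wt, hK, ← Real.exp_add, ← Real.exp_add]
    apply Real.exp_le_exp.mpr
    obtain ⟨z0, hz0⟩ := hx.2.1 u
    have h1 : dsq (gᵀ * g) (u + -k) ≤ ‖G g (x u) - h‖ ^ 2 := by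
      refine (dsq_le g (u + -k) z0).trans_eq ?_
      rw [← norm_G_sq, ← hGk, ← G_sub, hz0]
      congr 3; abel
    rw [norm_sub_sq_real, norm_G_sq] at h1
    have h2 : ⟪G g (x u), h⟫ = s ^ 2 / (2 * Real.pi) * ⟪G g (x u), θ⟫ := by
      rw [hh, inner_smul_right]
    have h3 : ‖h‖ ^ 2 = (s ^ 2 / (2 * Real.pi)) ^ 2 * ‖θ‖ ^ 2 := by
      rw [hh, norm_smul, mul_pow, Real.norm_eq_abs, sq_abs]
    rw [h2, h3] at h1
    have h4 : Real.pi / s ^ 2 * dsq (gᵀ * g) (u + -k) ≤ Real.pi / s ^ 2 *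
        (qf (gᵀ * g) (x u) - 2 * (s ^ 2 / (2 * Real.pi) * ⟪G g (x u), θ⟫) +
          (s ^ 2 / (2 * Real.pi)) ^ 2 * ‖θ‖ ^ 2) := mul_le_mul_of_nonneg_left h1 (by positivity)
    have h5 : Real.pi / s ^ 2 *
        (qf (gᵀ * g) (x u) - 2 * (s ^ 2 / (2 * Real.pi) * ⟪G g (x u), θ⟫) +
          (s ^ 2 / (2 * Real.pi)) ^ 2 * ‖θ‖ ^ 2) =
        Real.pi * qf (gᵀ * g) (x u) / s ^ 2 - ⟪G g (x u), θ⟫ + s ^ 2 * ‖θ‖ ^ 2 / (4 * Real.pi) := by
      field_simp
      ring
    have h6 : -Real.pi * dsq (gᵀ * g) (u + -k) / s ^ 2 = -(Real.pi / s ^ 2 * dsq (gᵀ * g) (u + -k)) := by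
      ring
    have h7 : -Real.pi * qf (gᵀ * g) (x u) / s ^ 2 = -(Real.pi * qf (gᵀ * g) (x u) / s ^ 2) := by ring
    rw [h6, h7]
    linarith
  have hint : IntegrableOn (fun u => K * Real.exp (-Real.pi * dsq (gᵀ * g) (u + -k) / s ^ 2))
      (Icc (0 : Fin n → ℝ) 1) := by
    refine Measure.integrableOn_of_bounded (M := K) ?_ ?_ ?_
    · rw [vol_box]; exact ENNReal.one_ne_top
    · have : Measurable (fun u => dsq (gᵀ * g) (u + -k)) := hdm.comp (measurable_add_const (-k))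
      exact Measurable.aestronglyMeasurable (by fun_prop)
    · filter_upwards with u
      rw [Real.norm_eq_abs, abs_of_pos (by positivity)]
      have h1 : Real.exp (-Real.pi * dsq (gᵀ * g) (u + -k) / s ^ 2) ≤ 1 := by
        rw [Real.exp_le_one_iff]
        have h2 := hdnn (u + -k)
        have h3 : 0 ≤ Real.pi * dsq (gᵀ * g) (u + -k) / s ^ 2 := by positivity
        have h4 : -Real.pi * dsq (gᵀ * g) (u + -k) / s ^ 2 =
          -(Real.pi * dsq (gᵀ * g) (u + -k) / s ^ 2) := by ring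
        rw [h4]; linarith
      have h2 : 0 < K := Real.exp_pos _
      nlinarith
  have h1 : ∫ u in Icc (0 : Fin n → ℝ) 1, Real.exp ⟪G g (x u), θ⟫ * wt g s x u ≤
      ∫ u in Icc (0 : Fin n → ℝ) 1, K * Real.exp (-Real.pi * dsq (gᵀ * g) (u + -k) / s ^ 2) := by
    apply integral_mono_of_nonneg
    · filter_upwards with u
      exact mul_nonneg (Real.exp_pos _).le (wt_pos g s x u).le
    · exact hint
    · filter_upwards with u
      exact hpt u
  have h2 : ∫ u in Icc (0 : Fin n → ℝ) 1, K * Real.exp (-Real.pi * dsq (gᵀ * g) (u + -k) / s ^ 2) =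
      K * Zt g s x := by
    rw [integral_const_mul]
    congr 1
    rw [torus_shift (fun u => Real.exp (-Real.pi * dsq (gᵀ * g) u / s ^ 2))
      (fun u z => by rw [dsq_periodic]) (-k)]
    unfold Zt wt
    apply integral_congr_ae
    filter_upwards with u
    rw [hx.2.2]
  have h3 : K ≤ Real.exp (s ^ 2 * ‖θ‖ ^ 2 / 2) := by
    rw [hK]
    apply Real.exp_le_exp.mpr
    apply div_le_div_of_nonneg_left (by positivity) (by norm_num)
    have := Real.pi_gt_three
    linarith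
  calc _ ≤ K * Zt g s x := h1.trans_eq h2
    _ ≤ _ := mul_le_mul_of_nonneg_right h3 hZ.le

end facts

open scoped MatrixOrder in
lemma exists_factor (P : Matrix (Fin n) (Fin n) ℝ) (hP : P.PosDef) :
    ∃ g : Matrix (Fin n) (Fin n) ℝ, P = gᵀ * g := by
  obtain ⟨g, hgP⟩ := CStarAlgebra.nonneg_iff_eq_star_mul_self.mp hP.posSemidef.nonneg
  refine ⟨g, ?_⟩
  rw [hgP, star_eq_conjTranspose, conjTranspose_eq_transpose_of_trivial]

include hg in
lemma qf_rank2 (a b : E n) (y : Fin n → ℝ) :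
    qf ((1 / 2 : ℝ) • (vecMulVec (gᵀ *ᵥ a.ofLp) (gᵀ *ᵥ b.ofLp) + vecMulVec (gᵀ *ᵥ b.ofLp) (gᵀ *ᵥ a.ofLp))) y
      = ⟪G g y, a⟫ * ⟪G g y, b⟫ := by
  rw [inner_G, inner_G, qf, smul_mulVec, add_mulVec, vecMulVec_mulVec, vecMulVec_mulVec]
  simp only [dotProduct_smul, dotProduct_add, smul_eq_mul, op_smul_eq_smul]
  rw [dotProduct_comm y (gᵀ *ᵥ a.ofLp), dotProduct_comm y (gᵀ *ᵥ b.ofLp)]
  ring

include hg in
lemma trace_rank2 (a b : E n) :
    ((gᵀ * g)⁻¹ * ((1 / 2 : ℝ) • (vecMulVec (gᵀ *ᵥ a.ofLp) (gᵀ *ᵥ b.ofLp) +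
      vecMulVec (gᵀ *ᵥ b.ofLp) (gᵀ *ᵥ a.ofLp)))).trace = ⟪a, b⟫ := by
  have hu : IsUnit g.det := isUnit_iff_ne_zero.mpr hg
  have hut : IsUnit gᵀ.det := by rw [det_transpose]; exact hu
  have h1 : ∀ c : Fin n → ℝ, (gᵀ * g)⁻¹ *ᵥ (gᵀ *ᵥ c) = g⁻¹ *ᵥ c := by
    intro c
    rw [Matrix.mul_inv_rev, mulVec_mulVec, Matrix.mul_assoc, nonsing_inv_mul _ hut, Matrix.mul_one]
  have h2 : ∀ c d : Fin n → ℝ, ((gᵀ * g)⁻¹ * vecMulVec (gᵀ *ᵥ c) (gᵀ *ᵥ d)).trace = c ⬝ᵥ d := by
    intro c d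
    rw [mul_vecMulVec, h1, trace_vecMulVec, dotProduct_comm, mulVec_transpose, ← dotProduct_mulVec,
      mulVec_mulVec, mul_nonsing_inv _ hu, one_mulVec, dotProduct_comm]
  rw [Matrix.mul_smul, Matrix.mul_add, trace_smul, trace_add, h2, h2, inner_E, smul_eq_mul,
    dotProduct_comm b.ofLp a.ofLp]
  ring

end Pool.Agent.RevMink.LA6Aux

namespace Pool.Agent.RevMink

open LA6Aux

theorem la6 (hKP : Stmt_KP) : Stmt_LA6 := by
  intro c' hc'
  obtain ⟨C, hC, hmain⟩ := hKP c' hc'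
  refine ⟨C, hC, ?_⟩
  intro n hn P hP hdet hlamP hcovP x hx s c hs hiso
  obtain ⟨g, hgP⟩ := exists_factor P hP
  subst hgP
  have hdg : g.det * g.det = 1 := by
    rw [det_mul, det_transpose] at hdet; exact hdet
  have hg : g.det ≠ 0 := by
    intro h; rw [h] at hdg; simp at hdg
  have habs : |g.det| = 1 := by
    rcases mul_self_eq_one_iff.mp hdg with h | h <;> rw [h] <;> simp
  have hlam : ∀ z : Fin n → ℤ, z ≠ 0 → 1 ≤ ‖G g (zc z)‖ := by
    intro z hz
    have h1 := hlamP z hz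
    rw [← norm_G_sq] at h1
    by_contra hcon
    push Not at hcon
    have := norm_nonneg (G g (zc z))
    nlinarith
  have hcov : ∀ u : Fin n → ℝ, ∃ z : Fin n → ℤ, ‖G g (u + zc z)‖ < (n : ℝ) / 2 + 1 / 4 := by
    intro u
    have h1 : dsq (gᵀ * g) u < ((n : ℝ) / 2 + 1 / 4) ^ 2 := by
      have h2 := hcovP u
      have hn0 : (0 : ℝ) ≤ n := Nat.cast_nonneg n
      nlinarith
    obtain ⟨z, hz⟩ := exists_lt_of_ciInf_lt h1
    refine ⟨z, ?_⟩
    rw [← norm_G_sq] at hz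
    exact lt_of_pow_lt_pow_left₀ 2 (by positivity) hz
  have hnr : (1 : ℝ) ≤ n := by exact_mod_cast hn
  have hprob := mu_prob g s x hx hs hcovP
  refine hmain n hn (NN g hg) (NN_nonempty g hg hlam hcov hn) (NN_symm g hg hlam)
    (NN_norm g hg hlam) (fun y hy => ?_) (gam_polN g hg hlam hcov hn habs) (mu g s x)
    (mu_supp g hg s x hx hs hcovP hlam) c s hs ?_ (mu_subg g hg s x hx hs hcovP)
  · have := polN_bound g hg hlam hcov hn y hy
    linarith
  · intro a b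
    have hZ := Zt_pos g s x hx hs hcovP
    rw [mu_integral g s x hx hs hcovP _ (by fun_prop)]
    rw [div_eq_iff hZ.ne']
    set H := (1 / 2 : ℝ) • (vecMulVec (gᵀ *ᵥ a.ofLp) (gᵀ *ᵥ b.ofLp) +
      vecMulVec (gᵀ *ᵥ b.ofLp) (gᵀ *ᵥ a.ofLp)) with hH
    have hsymm : H.IsSymm := by
      rw [hH, IsSymm, transpose_smul, transpose_add, transpose_vecMulVec, transpose_vecMulVec, add_comm]
    have h1 := hiso H hsymm
    rw [hH, trace_rank2 g hg a b] at h1
    have h2 : ∫ u in Icc (0 : Fin n → ℝ) 1, ⟪G g (x u), a⟫ * ⟪G g (x u), b⟫ * wt g s x u =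
        ∫ u in Icc (0 : Fin n → ℝ) 1, qf ((1 / 2 : ℝ) • (vecMulVec (gᵀ *ᵥ a.ofLp) (gᵀ *ᵥ b.ofLp) +
      vecMulVec (gᵀ *ᵥ b.ofLp) (gᵀ *ᵥ a.ofLp))) (x u) *
          Real.exp (-Real.pi * qf (gᵀ * g) (x u) / s ^ 2) := by
      apply integral_congr_ae
      filter_upwards with u
      rw [qf_rank2 g hg, wt]
    rw [h2, h1]
    rfl

end Pool.Agent.RevMink
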