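import Pool.Agent.RevMink.Defs

/-!
# LA7: the main minimisation argument (helper5)
-/

set_option autoImplicit false

open MeasureTheory ProbabilityTheory Matrix Set Filter Topology

namespace Pool.Agent.RevMink

namespace LA7Aux

variable {n : ℕ}

/-- determinant bound `det G ≤ exp (tr G - n)` for positive definite `G`. -/
lemma det_le_exp_trace (G : Matrix (Fin n) (Fin n) ℝ) (hG : G.PosDef) :
    G.det ≤ Real.exp (G.trace - n) := by
  have h1 := hG.isHermitian.det_eq_prod_eigenvalues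
  have h2 := hG.isHermitian.trace_eq_sum_eigenvalues
  simp only [RCLike.ofReal_real_eq_id, id_eq] at h1 h2
  rw [h1, h2]
  have h3 : ((∑ i, hG.isHermitian.eigenvalues i) - n : ℝ) =
      ∑ i, (hG.isHermitian.eigenvalues i - 1) := by
    rw [Finset.sum_sub_distrib]; simp
  rw [h3, Real.exp_sum]
  apply Finset.prod_le_prod
  · intro i _
    exact (hG.eigenvalues_pos i).le
  · intro i _
    have := Real.add_one_le_exp (hG.isHermitian.eigenvalues i - 1)
    linarith

lemma qf_add (P H : Matrix (Fin n) (Fin n) ℝ) (x : Fin n → ℝ) :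
    qf (P + H) x = qf P x + qf H x := by
  unfold qf; rw [add_mulVec, dotProduct_add]

lemma qf_smul (t : ℝ) (P : Matrix (Fin n) (Fin n) ℝ) (x : Fin n → ℝ) :
    qf (t • P) x = t * qf P x := by
  unfold qf; rw [smul_mulVec, dotProduct_smul, smul_eq_mul]

lemma qf_nonneg {P : Matrix (Fin n) (Fin n) ℝ} (hP : P.PosSemidef) (x : Fin n → ℝ) :
    0 ≤ qf P x := by
  have := hP.dotProduct_mulVec_nonneg x
  simpa [qf] using this

lemma bdd_qf {P : Matrix (Fin n) (Fin n) ℝ} (hP : P.PosDef) (u : Fin n → ℝ) :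
    BddBelow (Set.range fun z : Fin n → ℤ => qf P (u + zc z)) :=
  ⟨0, by rintro _ ⟨z, rfl⟩; exact qf_nonneg hP.posSemidef _⟩

lemma dsq_nonneg {P : Matrix (Fin n) (Fin n) ℝ} (hP : P.PosDef) (u : Fin n → ℝ) :
    0 ≤ dsq P u := Real.iInf_nonneg fun _ => qf_nonneg hP.posSemidef _

lemma dsq_smul {t : ℝ} (ht : 0 ≤ t) (P : Matrix (Fin n) (Fin n) ℝ) (u : Fin n → ℝ) :
    dsq (t • P) u = t * dsq P u := by
  unfold dsq
  rw [Real.mul_iInf_of_nonneg ht]
  simp only [qf_smul]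

/-! ### gram matrices -/

lemma gram_smul {k : ℕ} (t : ℝ) (P : Matrix (Fin n) (Fin n) ℝ) (A : Matrix (Fin n) (Fin k) ℤ) :
    gram (t • P) A = t • gram P A := by
  simp [gram, Matrix.mul_smul, Matrix.smul_mul]

lemma det_gram_smul {k : ℕ} (t : ℝ) (P : Matrix (Fin n) (Fin n) ℝ)
    (A : Matrix (Fin n) (Fin k) ℤ) : (gram (t • P) A).det = t ^ k * (gram P A).det := by
  rw [gram_smul, det_smul]; simp

lemma gram_posSemidef {k : ℕ} {P : Matrix (Fin n) (Fin n) ℝ} (hP : P.PosSemidef)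
    (A : Matrix (Fin n) (Fin k) ℤ) : (gram P A).PosSemidef := by
  have := hP.conjTranspose_mul_mul_same (zm A)
  simpa [gram, conjTranspose_eq_transpose_of_trivial] using this

lemma det_gram_eq_zero_iff {k : ℕ} {P : Matrix (Fin n) (Fin n) ℝ} (hP : P.PosDef)
    (A : Matrix (Fin n) (Fin k) ℤ) :
    (gram P A).det = 0 ↔ ¬ Function.Injective (zm A).mulVec := by
  constructor
  · intro h hinj
    have := hP.conjTranspose_mul_mul_same hinj
    have h2 : (gram P A).PosDef := by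
      simpa [gram, conjTranspose_eq_transpose_of_trivial] using this
    exact h2.det_pos.ne' h
  · intro h
    have hker : ∃ v : Fin k → ℝ, v ≠ 0 ∧ zm A *ᵥ v = 0 := by
      by_contra hcon
      push Not at hcon
      apply h
      intro v w hvw
      by_contra hne
      exact hcon (v - w) (sub_ne_zero.mpr hne) (by rw [mulVec_sub, sub_eq_zero]; exact hvw)
    obtain ⟨v, hv, hv0⟩ := hker
    apply Matrix.exists_mulVec_eq_zero_iff.mp
    refine ⟨v, hv, ?_⟩
    unfold gram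
    rw [← mulVec_mulVec, hv0, mulVec_zero]

lemma det_gram_iff {k : ℕ} {P P' : Matrix (Fin n) (Fin n) ℝ} (hP : P.PosDef) (hP' : P'.PosDef)
    (A : Matrix (Fin n) (Fin k) ℤ) : (gram P A).det = 0 ↔ (gram P' A).det = 0 := by
  rw [det_gram_eq_zero_iff hP, det_gram_eq_zero_iff hP']

lemma continuous_det_gram {k : ℕ} (A : Matrix (Fin n) (Fin k) ℤ) :
    Continuous fun P : Matrix (Fin n) (Fin n) ℝ => (gram P A).det := by
  unfold gram
  fun_prop

lemma dense_iff {P : Matrix (Fin n) (Fin n) ℝ} (hP : P.PosDef) :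
    Dense P ↔ ∀ k : ℕ, k < n → ∀ A : Matrix (Fin n) (Fin k) ℤ,
      (gram (1 : Matrix (Fin n) (Fin n) ℝ) A).det ≠ 0 → P.det ≤ (gram P A).det := by
  unfold Dense
  constructor
  · intro h k hk A hA
    rcases h k hk A with h0 | h0
    · exact absurd ((det_gram_iff hP PosDef.one A).mp h0) hA
    · exact h0
  · intro h k hk A
    by_cases h0 : (gram P A).det = 0
    · exact Or.inl h0
    · exact Or.inr (h k hk A fun h1 => h0 ((det_gram_iff hP PosDef.one A).mpr h1))

lemma dense_det_le {P : Matrix (Fin n) (Fin n) ℝ} (hn : 1 ≤ n) (hD : Dense P) : P.det ≤ 1 := by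
  have := hD 0 (by omega) (fun _ j => j.elim0)
  simpa using this

/-- undecomposable -/
def Indec (P : Matrix (Fin n) (Fin n) ℝ) : Prop :=
  ∀ k : ℕ, 0 < k → k < n → ∀ A : Matrix (Fin n) (Fin k) ℤ, (gram P A).det ≠ P.det

/-- Step 1: scaling up. -/
lemma scale_up (h3 : Stmt_LA3) (hn : 1 ≤ n) {P : Matrix (Fin n) (Fin n) ℝ} (hP : P.PosDef)
    (hD : Dense P) :
    ∃ t : ℝ, 1 ≤ t ∧ Dense (t • P) ∧ ((t • P).det = 1 ∨ ¬ Indec (t • P)) := by
  classical
  set T : ℝ := 1 / P.det with hT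
  have hdet : 0 < P.det := hP.det_pos
  set S : Set ℝ := Icc 1 T ∩ ⋂ (k : ℕ) (_ : k < n) (A : Matrix (Fin n) (Fin k) ℤ)
    (_ : (gram P A).det ≠ 0), {t : ℝ | t ^ n * P.det ≤ t ^ k * (gram P A).det} with hS
  have hclosed : IsClosed S := by
    refine isClosed_Icc.inter ?_
    refine isClosed_iInter fun k => isClosed_iInter fun _ => isClosed_iInter fun A =>
      isClosed_iInter fun _ => isClosed_le (by fun_prop) (by fun_prop)
  have hcomp : IsCompact S := isCompact_Icc.of_isClosed_subset hclosed inter_subset_left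
  have hmem : ∀ t : ℝ, 1 ≤ t → (t ∈ S ↔ Dense (t • P)) := by
    intro t ht
    have htpos : 0 < t := by linarith
    constructor
    · rintro ⟨_, h2⟩ k hk A
      simp only [mem_iInter, mem_ofPred_eq] at h2
      by_cases h0 : (gram P A).det = 0
      · left; rw [det_gram_smul, h0, mul_zero]
      · right
        rw [det_gram_smul, det_smul]
        simpa using h2 k hk A h0
    · intro h
      refine ⟨⟨ht, ?_⟩, ?_⟩
      · have h1 := dense_det_le hn h
        rw [det_smul, Fintype.card_fin] at h1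
        rw [hT, le_div_iff₀ hdet]
        have : t ≤ t ^ n := le_self_pow₀ ht (by omega)
        nlinarith
      · simp only [mem_iInter, mem_ofPred_eq]
        intro k hk A hA
        rcases h k hk A with h0 | h0
        · rw [det_gram_smul] at h0
          exact absurd h0 (mul_ne_zero (pow_pos htpos k).ne' hA)
        · rw [det_gram_smul, det_smul] at h0
          simpa using h0
  have hne : S.Nonempty := ⟨1, (hmem 1 le_rfl).mpr (by rwa [one_smul])⟩
  obtain ⟨t, htS, htmax⟩ := hcomp.exists_isMaxOn hne continuous_id.continuousOn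
  have ht1 : 1 ≤ t := htS.1.1
  have htD : Dense (t • P) := (hmem t ht1).mp htS
  refine ⟨t, ht1, htD, ?_⟩
  by_contra hcon
  push Not at hcon
  obtain ⟨hd1, hind⟩ := hcon
  have htpos : 0 < t := by linarith
  have htP : (t • P).PosDef := hP.smul htpos
  obtain ⟨δ, hδ, hopen⟩ := h3 n (t • P) htP htD hind
  have hdlt : (t • P).det < 1 := lt_of_le_of_ne (dense_det_le hn htD) hd1
  -- choose t' slightly larger
  have hcont : ContinuousAt (fun t' : ℝ => (t' • P).det) t := by fun_prop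
  have hev1 : ∀ᶠ t' in 𝓝[>] t, (t' • P).det < 1 :=
    (hcont.eventually (gt_mem_nhds hdlt)).filter_mono nhdsWithin_le_nhds
  have hev2 : ∀ᶠ t' in 𝓝[>] t, ∀ i j, |(t' • P) i j - (t • P) i j| < δ := by
    rw [Filter.eventually_all]
    intro i
    rw [Filter.eventually_all]
    intro j
    have hc : ContinuousAt (fun t' : ℝ => |(t' • P) i j - (t • P) i j|) t := by
      simp only [Matrix.smul_apply]
      fun_prop
    have h0 : |(t • P) i j - (t • P) i j| < δ := by simpa using hδ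
    exact (hc.eventually (gt_mem_nhds h0)).filter_mono nhdsWithin_le_nhds
  have hev3 : ∀ᶠ t' in 𝓝[>] t, t < t' := self_mem_nhdsWithin
  obtain ⟨t', h1, h2, h3'⟩ := (hev1.and (hev2.and hev3)).exists
  have ht'1 : 1 ≤ t' := by linarith
  have ht'P : (t' • P).PosDef := hP.smul (by linarith)
  have hD' : Dense (t' • P) := by
    intro k hk A
    rcases Nat.eq_zero_or_pos k with rfl | hk0
    · right; simpa using h1.le
    · exact hopen (t' • P) ht'P h2 k hk0 hk A
  have := htmax ((hmem t' ht'1).mpr hD')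
  simp only [mem_ofPred_eq, id] at this
  linarith

/-- log-energy -/
noncomputable def Psi (b : ℝ) (s : ℝ) (P : Matrix (Fin n) (Fin n) ℝ) : ℝ :=
  Real.log (Zf ((s ^ 2)⁻¹ • P)) + b / s

lemma inv_sq_pos {s : ℝ} (hs : 0 < s) : 0 < (s ^ 2)⁻¹ := by positivity

/-- lower bound from the covering radius. -/
lemma Zf_lower (h5 : Stmt_LA5) {P : Matrix (Fin n) (Fin n) ℝ} (hP : P.PosDef) {M : ℝ}
    (hM : ∀ u, dsq P u ≤ M) : Real.exp (-Real.pi * M) ≤ Zf P := by
  obtain ⟨x, ⟨hxm, _, hx⟩, _, _⟩ := h5 n P hP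
  have hvol : volume (Icc (0 : Fin n → ℝ) 1) = 1 := by
    rw [Real.volume_Icc_pi]; simp
  have hcont : Continuous fun y : Fin n → ℝ => qf P y := by
    unfold qf; fun_prop
  have hint : IntegrableOn (fun u => Real.exp (-Real.pi * dsq P u)) (Icc (0 : Fin n → ℝ) 1) := by
    have hmeas : Measurable fun u => Real.exp (-Real.pi * dsq P u) := by
      have : (fun u => Real.exp (-Real.pi * dsq P u)) =
          fun u => Real.exp (-Real.pi * qf P (x u)) := by
        funext u; rw [hx u]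
      rw [this]
      exact Real.measurable_exp.comp ((hcont.measurable.comp hxm).const_mul _)
    refine Measure.integrableOn_of_bounded (M := 1) (by rw [hvol]; simp)
      hmeas.aestronglyMeasurable ?_
    filter_upwards with u
    rw [Real.norm_eq_abs, abs_of_pos (Real.exp_pos _), Real.exp_le_one_iff]
    have := dsq_nonneg hP u
    have := Real.pi_pos
    nlinarith
  have h1 : ∫ _ in Icc (0 : Fin n → ℝ) 1, Real.exp (-Real.pi * M) = Real.exp (-Real.pi * M) := by
    rw [setIntegral_const]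
    simp [Measure.real, hvol]
  rw [← h1]
  unfold Zf
  apply setIntegral_mono_on
  · exact integrableOn_const (by rw [hvol]; simp)
  · exact hint
  · exact measurableSet_Icc
  · intro u _
    apply Real.exp_le_exp.mpr
    have := hM u
    have := Real.pi_pos
    nlinarith

lemma posDef_of_psd_det {P : Matrix (Fin n) (Fin n) ℝ} (hP : P.PosSemidef) (hd : P.det = 1) :
    P.PosDef := hP.posDef_iff_det_ne_zero.mpr (by rw [hd]; exact one_ne_zero)

/-- the compact set of reduced unimodular dense matrices -/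
def KK (n : ℕ) : Set (Matrix (Fin n) (Fin n) ℝ) :=
  {P | P.PosSemidef ∧ P.det = 1 ∧ Dense P ∧ ∀ i j, |P i j| ≤ (n : ℝ) ^ 2}

lemma isClosed_posSemidef : IsClosed {P : Matrix (Fin n) (Fin n) ℝ | P.PosSemidef} := by
  have : {P : Matrix (Fin n) (Fin n) ℝ | P.PosSemidef} =
      {P | Pᴴ = P} ∩ ⋂ x : Fin n → ℝ, {P | 0 ≤ star x ⬝ᵥ (P *ᵥ x)} := by
    ext P
    simp only [mem_ofPred_eq, mem_inter_iff, mem_iInter]
    rw [posSemidef_iff_dotProduct_mulVec]
    rfl
  rw [this]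
  refine (isClosed_eq (by fun_prop) continuous_id).inter (isClosed_iInter fun x => ?_)
  exact isClosed_le continuous_const (by fun_prop)

lemma isCompact_KK : IsCompact (KK n) := by
  have hb : IsCompact {P : Matrix (Fin n) (Fin n) ℝ | ∀ i j, P i j ∈ Icc (-(n : ℝ) ^ 2) (n ^ 2)} := by
    have h1 := isCompact_univ_pi (X := fun _ : Fin n => Fin n → ℝ)
      (s := fun _ => Set.pi univ fun _ => Icc (-(n : ℝ) ^ 2) (n ^ 2))
      (fun _ => isCompact_univ_pi fun _ => isCompact_Icc)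
    change IsCompact ({P : Fin n → Fin n → ℝ | ∀ i j, P i j ∈ Icc (-(n : ℝ) ^ 2) (n ^ 2)} :
      Set (Fin n → Fin n → ℝ))
    have h2 : ({P : Fin n → Fin n → ℝ | ∀ i j, P i j ∈ Icc (-(n : ℝ) ^ 2) (n ^ 2)} :
      Set (Fin n → Fin n → ℝ)) =
        Set.pi univ fun _ => Set.pi univ fun _ => Icc (-(n : ℝ) ^ 2) (n ^ 2) := by
      ext P
      simp only [mem_ofPred_eq, Set.mem_pi, mem_univ, forall_true_left]
    rw [h2]
    exact h1
  have heq : KK n = {P : Matrix (Fin n) (Fin n) ℝ | ∀ i j, P i j ∈ Icc (-(n : ℝ) ^ 2) (n ^ 2)} ∩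
      ({P | P.PosSemidef} ∩ {P | P.det = 1} ∩ ⋂ (k : ℕ) (_ : k < n) (A : Matrix (Fin n) (Fin k) ℤ)
      (_ : (gram (1 : Matrix (Fin n) (Fin n) ℝ) A).det ≠ 0), {P | P.det ≤ (gram P A).det}) := by
    ext P
    simp only [KK, mem_ofPred_eq, mem_inter_iff, mem_iInter, abs_le, mem_Icc]
    constructor
    · rintro ⟨h1, h2, h3, h4⟩
      exact ⟨h4, ⟨h1, h2⟩, (dense_iff (posDef_of_psd_det h1 h2)).mp h3⟩
    · rintro ⟨h4, ⟨h1, h2⟩, h3⟩
      exact ⟨h1, h2, (dense_iff (posDef_of_psd_det h1 h2)).mpr h3, h4⟩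
  rw [heq]
  refine hb.inter_right ?_
  refine (isClosed_posSemidef.inter (isClosed_eq (by fun_prop) continuous_const)).inter ?_
  refine isClosed_iInter fun k => isClosed_iInter fun _ => isClosed_iInter fun A =>
      isClosed_iInter fun _ => isClosed_le (by fun_prop) (continuous_det_gram A)

lemma entry_le {P : Matrix (Fin n) (Fin n) ℝ} (hP : P.PosSemidef) {M : ℝ}
    (hM : ∀ i, P i i ≤ M) (i j : Fin n) : |P i j| ≤ M := by
  have hsym : P j i = P i j := by
    have := hP.isHermitian.apply i j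
    simpa using this
  have key : ∀ e : ℝ, e ^ 2 = 1 → 0 ≤ P i i + 2 * e * P i j + P j j := by
    intro e he
    have h := hP.dotProduct_mulVec_nonneg (Pi.single i 1 + Pi.single j e)
    simp only [star_trivial, mulVec_add, mulVec_single, dotProduct_add, add_dotProduct,
      single_dotProduct, one_mul] at h
    simp only [Pi.smul_apply, MulOpposite.smul_eq_mul_unop, col_apply, MulOpposite.unop_op,
      mul_one] at h
    rw [hsym] at h
    have h5 : e * (P j j * e) = P j j * e ^ 2 := by ring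
    rw [he] at h5
    linarith
  rw [abs_le]
  have h1 := key 1 (by norm_num)
  have h2 := key (-1) (by norm_num)
  have h3 := hM i
  have h4 := hM j
  constructor <;> linarith

/-! ### openness of positive definiteness along a line -/

lemma qf_smul_vec (P : Matrix (Fin n) (Fin n) ℝ) (r : ℝ) (x : Fin n → ℝ) :
    qf P (r • x) = r ^ 2 * qf P x := by
  unfold qf
  rw [mulVec_smul, smul_dotProduct, dotProduct_smul, smul_eq_mul, smul_eq_mul]
  ring

lemma qf_lower {P : Matrix (Fin n) (Fin n) ℝ} (hP : P.PosDef) :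
    ∃ m : ℝ, 0 < m ∧ ∀ x : Fin n → ℝ, m * ‖x‖ ^ 2 ≤ qf P x := by
  rcases Nat.eq_zero_or_pos n with rfl | hn
  · refine ⟨1, one_pos, fun x => ?_⟩
    have : x = 0 := Subsingleton.elim _ _
    subst this
    simp [qf]
  have : Nonempty (Fin n) := ⟨⟨0, hn⟩⟩
  have hc : IsCompact (Metric.sphere (0 : Fin n → ℝ) 1) := isCompact_sphere _ _
  have hne : (Metric.sphere (0 : Fin n → ℝ) 1).Nonempty :=
    (NormedSpace.sphere_nonempty (E := Fin n → ℝ)).mpr zero_le_one
  have hcont : Continuous fun y : Fin n → ℝ => qf P y := by unfold qf; fun_prop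
  obtain ⟨x0, hx0, hmin⟩ := hc.exists_isMinOn hne hcont.continuousOn
  have hx0' : x0 ≠ 0 := by
    rintro rfl
    simp at hx0
  refine ⟨qf P x0, ?_, fun x => ?_⟩
  · have := hP.dotProduct_mulVec_pos hx0'
    simpa [qf] using this
  · rcases eq_or_ne x 0 with rfl | hx
    · simp [qf]
    · have hnx : 0 < ‖x‖ := norm_pos_iff.mpr hx
      have hmem : (‖x‖⁻¹ • x) ∈ Metric.sphere (0 : Fin n → ℝ) 1 := by
        rw [mem_sphere_zero_iff_norm, norm_smul, norm_inv, norm_norm, inv_mul_cancel₀ hnx.ne']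
      have h := hmin hmem
      simp only [mem_ofPred_eq, qf_smul_vec] at h
      rw [inv_pow, inv_mul_eq_div, le_div_iff₀ (by positivity)] at h
      exact h

lemma qf_upper (H : Matrix (Fin n) (Fin n) ℝ) :
    ∃ M : ℝ, 0 ≤ M ∧ ∀ x : Fin n → ℝ, |qf H x| ≤ M * ‖x‖ ^ 2 := by
  refine ⟨∑ i, ∑ j, |H i j|, by positivity, fun x => ?_⟩
  have h1 : qf H x = ∑ i, ∑ j, x i * (H i j * x j) := by
    unfold qf
    simp only [dotProduct, mulVec, Finset.mul_sum]
  rw [h1, Finset.sum_mul]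
  refine (Finset.abs_sum_le_sum_abs _ _).trans (Finset.sum_le_sum fun i _ => ?_)
  rw [Finset.sum_mul]
  refine (Finset.abs_sum_le_sum_abs _ _).trans (Finset.sum_le_sum fun j _ => ?_)
  rw [abs_mul, abs_mul]
  have hi : |x i| ≤ ‖x‖ := norm_le_pi_norm x i
  have hj : |x j| ≤ ‖x‖ := norm_le_pi_norm x j
  have h3 : |x i| * |x j| ≤ ‖x‖ * ‖x‖ := mul_le_mul hi hj (abs_nonneg _) (norm_nonneg _)
  calc |x i| * (|H i j| * |x j|) = |H i j| * (|x i| * |x j|) := by ring
    _ ≤ |H i j| * (‖x‖ * ‖x‖) := mul_le_mul_of_nonneg_left h3 (abs_nonneg _)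
    _ = |H i j| * ‖x‖ ^ 2 := by ring

lemma posDef_line {P H : Matrix (Fin n) (Fin n) ℝ} (hP : P.PosDef) (hH : H.IsSymm) :
    ∀ᶠ t in 𝓝 (0 : ℝ), (P + t • H).PosDef := by
  obtain ⟨m, hm, hlow⟩ := qf_lower hP
  obtain ⟨M, hM, hup⟩ := qf_upper H
  have h1 : ∀ᶠ t in 𝓝 (0 : ℝ), |t| * M < m := by
    have hc : ContinuousAt (fun t : ℝ => |t| * M) 0 := by fun_prop
    exact hc.eventually (gt_mem_nhds (by simpa using hm))
  filter_upwards [h1] with t ht
  refine PosDef.of_dotProduct_mulVec_pos ?_ fun x hx => ?_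
  · refine hP.isHermitian.add ?_
    have : H.IsHermitian := by
      rw [IsHermitian, conjTranspose_eq_transpose_of_trivial]; exact hH
    rw [IsHermitian, conjTranspose_smul, this]
    simp
  · have h2 : star x ⬝ᵥ ((P + t • H) *ᵥ x) = qf P x + t * qf H x := by
      rw [star_trivial]
      change qf (P + t • H) x = _
      rw [qf_add, qf_smul]
    rw [h2]
    have hnx : 0 < ‖x‖ ^ 2 := by have := norm_pos_iff.mpr hx; positivity
    have h3 := hlow x
    have h4 := hup x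
    have h5 : |t * qf H x| ≤ |t| * M * ‖x‖ ^ 2 := by
      rw [abs_mul]
      have := mul_le_mul_of_nonneg_left h4 (abs_nonneg t)
      linarith
    have h6 := neg_abs_le (t * qf H x)
    nlinarith

lemma det_line {P H : Matrix (Fin n) (Fin n) ℝ} (hP : P.PosDef) (hd : P.det = 1)
    (hH : (P⁻¹ * H).trace < 0) : ∀ᶠ t in 𝓝[>] (0 : ℝ), (P + t • H).det < 1 := by
  have hu : IsUnit P.det := by rw [hd]; exact isUnit_one
  have h1 : ∀ t : ℝ, (P + t • H).det = 1 + (P⁻¹ * H).trace * t +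
      (det (1 + (Polynomial.X : Polynomial ℝ) • (P⁻¹ * H).map Polynomial.C)).divX.divX.eval t
        * t ^ 2 := by
    intro t
    have h2 : P + t • H = P * (1 + t • (P⁻¹ * H)) := by
      rw [Matrix.mul_add, Matrix.mul_one, Matrix.mul_smul, ← Matrix.mul_assoc,
        Matrix.mul_nonsing_inv _ hu, Matrix.one_mul]
    rw [h2, det_mul, hd, one_mul]
    exact det_one_add_smul t (P⁻¹ * H)
  set p := (det (1 + (Polynomial.X : Polynomial ℝ) • (P⁻¹ * H).map Polynomial.C)).divX.divX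
  have hc : ContinuousAt (fun t : ℝ => (P⁻¹ * H).trace + p.eval t * t) 0 := by fun_prop
  have h3 : ∀ᶠ t in 𝓝 (0 : ℝ), (P⁻¹ * H).trace + p.eval t * t < 0 :=
    hc.eventually (gt_mem_nhds (by simpa using hH))
  have h4 : ∀ᶠ t in 𝓝[>] (0 : ℝ), (0 : ℝ) < t := self_mem_nhdsWithin
  filter_upwards [h3.filter_mono nhdsWithin_le_nhds, h4] with t h3 h4
  rw [h1 t]
  nlinarith

lemma isSel_scale {P : Matrix (Fin n) (Fin n) ℝ} {t : ℝ} (ht : 0 < t)
    {x : (Fin n → ℝ) → (Fin n → ℝ)} (h : IsSel (t • P) x) : IsSel P x := by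
  obtain ⟨h1, h2, h3⟩ := h
  refine ⟨h1, h2, fun u => ?_⟩
  have := h3 u
  rw [qf_smul, dsq_smul ht.le] at this
  exact mul_left_cancel₀ ht.ne' this

/-- weight integral -/
noncomputable def aint (P : Matrix (Fin n) (Fin n) ℝ) (x : (Fin n → ℝ) → (Fin n → ℝ)) (s : ℝ)
    (H : Matrix (Fin n) (Fin n) ℝ) : ℝ :=
  ∫ u in Set.Icc (0 : Fin n → ℝ) 1, qf H (x u) * Real.exp (-Real.pi * qf P (x u) / s ^ 2)

lemma aint_integrable {P : Matrix (Fin n) (Fin n) ℝ} (hP : P.PosDef)
    {x : (Fin n → ℝ) → (Fin n → ℝ)} (hxm : Measurable x) {R : ℝ} (hR : ∀ u, ∀ i, |x u i| ≤ R)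
    (s : ℝ) (H : Matrix (Fin n) (Fin n) ℝ) :
    IntegrableOn (fun u => qf H (x u) * Real.exp (-Real.pi * qf P (x u) / s ^ 2))
      (Icc (0 : Fin n → ℝ) 1) := by
  have hvol : volume (Icc (0 : Fin n → ℝ) 1) = 1 := by
    rw [Real.volume_Icc_pi]; simp
  have hcH : Continuous fun y : Fin n → ℝ => qf H y := by unfold qf; fun_prop
  have hcP : Continuous fun y : Fin n → ℝ => qf P y := by unfold qf; fun_prop
  obtain ⟨M, hM, hup⟩ := qf_upper H
  refine Measure.integrableOn_of_bounded (M := M * (max R 0) ^ 2) (by rw [hvol]; simp) ?_ ?_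
  · refine Measurable.aestronglyMeasurable ?_
    refine (hcH.measurable.comp hxm).mul (Real.measurable_exp.comp ?_)
    exact ((hcP.measurable.comp hxm).const_mul _).div_const _
  · filter_upwards with u
    rw [norm_mul, Real.norm_eq_abs, Real.norm_eq_abs, abs_of_pos (Real.exp_pos _)]
    have h1 : Real.exp (-Real.pi * qf P (x u) / s ^ 2) ≤ 1 := by
      rw [Real.exp_le_one_iff]
      have h2 := qf_nonneg hP.posSemidef (x u)
      have h3 : 0 ≤ Real.pi * qf P (x u) / s ^ 2 := by positivity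
      have h4 : -Real.pi * qf P (x u) / s ^ 2 = -(Real.pi * qf P (x u) / s ^ 2) := by ring
      linarith
    have h2 : ‖x u‖ ≤ max R 0 := by
      rw [pi_norm_le_iff_of_nonneg (le_max_right _ _)]
      intro i
      exact (hR u i).trans (le_max_left _ _)
    have h3 : |qf H (x u)| ≤ M * (max R 0) ^ 2 := by
      refine (hup _).trans ?_
      gcongr
    calc |qf H (x u)| * Real.exp _ ≤ |qf H (x u)| * 1 :=
          mul_le_mul_of_nonneg_left h1 (abs_nonneg _)
      _ ≤ _ := by rw [mul_one]; exact h3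

lemma aint_add_smul {P : Matrix (Fin n) (Fin n) ℝ} (hP : P.PosDef)
    {x : (Fin n → ℝ) → (Fin n → ℝ)} (hxm : Measurable x) {R : ℝ} (hR : ∀ u, ∀ i, |x u i| ≤ R)
    (s : ℝ) (H K : Matrix (Fin n) (Fin n) ℝ) (t : ℝ) :
    aint P x s (H + t • K) = aint P x s H + t * aint P x s K := by
  unfold aint
  rw [← integral_const_mul, ← integral_add (aint_integrable hP hxm hR s H)
    ((aint_integrable hP hxm hR s K).const_mul t)]
  refine integral_congr_ae (Filter.Eventually.of_forall fun u => ?_)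
  simp only [qf_add, qf_smul]
  ring

/-- linear algebra: `b < 0 → a ≤ 0` implies proportionality. -/
lemma aint_prop {P : Matrix (Fin n) (Fin n) ℝ} (hn : 1 ≤ n) (hP : P.PosDef) (hd : P.det = 1)
    {x : (Fin n → ℝ) → (Fin n → ℝ)} (hxm : Measurable x) {R : ℝ} (hR : ∀ u, ∀ i, |x u i| ≤ R)
    (s : ℝ)
    (hneg : ∀ H : Matrix (Fin n) (Fin n) ℝ, H.IsSymm → (P⁻¹ * H).trace < 0 → aint P x s H ≤ 0)
    (H : Matrix (Fin n) (Fin n) ℝ) (hH : H.IsSymm) :
    aint P x s H = (P⁻¹ * H).trace / n * aint P x s P := by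
  have hu : IsUnit P.det := by rw [hd]; exact isUnit_one
  have hPs : P.IsSymm := by
    have := hP.isHermitian
    rwa [IsHermitian, conjTranspose_eq_transpose_of_trivial] at this
  have hn0 : (0 : ℝ) < n := by exact_mod_cast hn
  have htP : (P⁻¹ * P).trace = n := by
    rw [nonsing_inv_mul _ hu, trace_one, Fintype.card_fin]
  have key : ∀ K : Matrix (Fin n) (Fin n) ℝ, K.IsSymm →
      aint P x s K ≤ (P⁻¹ * K).trace / n * aint P x s P := by
    intro K hK
    have h1 : ∀ ε : ℝ, 0 < ε →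
        aint P x s K ≤ (((P⁻¹ * K).trace + ε) / n) * aint P x s P := by
      intro ε hε
      have h2 := hneg (K + (-(((P⁻¹ * K).trace + ε) / n)) • P)
        (by
          rw [IsSymm, transpose_add, transpose_smul, hK, hPs])
        (by
          rw [Matrix.mul_add, Matrix.mul_smul, trace_add, trace_smul, htP, smul_eq_mul]
          have : -(((P⁻¹ * K).trace + ε) / n) * n = -((P⁻¹ * K).trace + ε) := by
            field_simp
          rw [this]
          linarith)
      rw [aint_add_smul hP hxm hR] at h2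
      linarith
    have hlim : Tendsto (fun ε : ℝ => (((P⁻¹ * K).trace + ε) / n) * aint P x s P) (𝓝[>] 0)
        (𝓝 ((((P⁻¹ * K).trace + 0) / n) * aint P x s P)) := by
      refine Tendsto.mono_left ?_ nhdsWithin_le_nhds
      exact Continuous.tendsto (by fun_prop) 0
    rw [add_zero] at hlim
    refine ge_of_tendsto hlim ?_
    filter_upwards [self_mem_nhdsWithin] with ε hε
    exact h1 ε hε
  apply le_antisymm (key H hH)
  have h3 := key (-H) (by rw [IsSymm, transpose_neg, hH])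
  have h4 : aint P x s (-H) = - aint P x s H := by
    have h5 := aint_add_smul hP hxm hR s 0 H (-1)
    have h6 : aint P x s (0 : Matrix (Fin n) (Fin n) ℝ) = 0 := by
      unfold aint
      simp [qf]
    rw [h6] at h5
    simpa using h5
  rw [h4, Matrix.mul_neg, trace_neg, neg_div, neg_mul] at h3
  linarith

lemma nonneg_of_right {f : ℝ → ℝ} {f' a : ℝ} (hf : HasDerivAt f f' a)
    (h : ∀ᶠ t in 𝓝[>] (0 : ℝ), f a ≤ f (a + t)) : 0 ≤ f' := by
  have h1 := hf.tendsto_slope_zero_right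
  refine ge_of_tendsto h1 ?_
  filter_upwards [h, self_mem_nhdsWithin] with t ht ht0
  rw [smul_eq_mul]
  exact mul_nonneg (inv_nonneg.mpr (le_of_lt ht0)) (sub_nonneg.mpr ht)

section core

variable (h1 : Stmt_LA1) (h1b : Stmt_LA1b) (h2 : Stmt_LA2) (h3 : Stmt_LA3) (h4 : Stmt_LA4)
  (h5 : Stmt_LA5)

include h4 in
lemma Zf_pos {P : Matrix (Fin n) (Fin n) ℝ} (hP : P.PosDef) : 0 < Zf P := (h4.2.1 n P hP).1

include h4 in
lemma Psi_mono {P : Matrix (Fin n) (Fin n) ℝ} (hP : P.PosDef) {b s t : ℝ} (hs : 0 < s)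
    (ht : 1 ≤ t) : Psi b s (t • P) ≤ Psi b s P := by
  unfold Psi
  have hP' : ((s ^ 2)⁻¹ • P).PosDef := hP.smul (inv_sq_pos hs)
  have h := h4.2.2.2 n _ hP' t ht
  rw [smul_comm] at h
  have hpos : 0 < Zf ((s ^ 2)⁻¹ • t • P) :=
    Zf_pos h4 ((hP.smul (by linarith)).smul (inv_sq_pos hs))
  have := Real.log_le_log hpos h
  linarith

include h2 h4 in
/-- decomposable lattices satisfy the bound by induction -/
lemma decomp {b0 : ℝ} (IH : ∀ k : ℕ, k < n → 1 ≤ k → ∀ P : Matrix (Fin k) (Fin k) ℝ, P.PosDef →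
      Dense P → ∀ s : ℝ, 1 ≤ s → 0 ≤ Psi (b0 * k) s P)
    {P : Matrix (Fin n) (Fin n) ℝ} (hP : P.PosDef) (hD : Dense P) (hI : ¬ Indec P) {s : ℝ}
    (hs : 1 ≤ s) : 0 ≤ Psi (b0 * n) s P := by
  unfold Indec at hI
  push Not at hI
  obtain ⟨k, hk0, hkn, A, hA⟩ := hI
  obtain ⟨P₁, P₂, hP₁, hP₂, hD₁, hD₂, hZ⟩ := h2 n P hP hD k hk0 hkn A hA
  have hs0 : 0 < s := by linarith
  have e1 := IH k hkn hk0 P₁ hP₁ hD₁ s hs
  have e2 := IH (n - k) (by omega) (by omega) P₂ hP₂ hD₂ s hs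
  have e3 := hZ (s ^ 2)⁻¹ (inv_sq_pos hs0)
  unfold Psi at e1 e2 ⊢
  have p1 := Zf_pos h4 (hP₁.smul (inv_sq_pos hs0))
  have p2 := Zf_pos h4 (hP₂.smul (inv_sq_pos hs0))
  have e4 := Real.log_le_log (mul_pos p1 p2) e3
  rw [Real.log_mul p1.ne' p2.ne'] at e4
  have e5 : b0 * (n : ℝ) / s = b0 * k / s + b0 * ((n - k : ℕ) : ℝ) / s := by
    rw [Nat.cast_sub hkn.le]; ring
  rw [e5]
  linarith

include h1b h5 in
/-- large `s` -/
lemma large_s (hn : 1 ≤ n) {b0 : ℝ} (hb0 : 1 ≤ b0)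
    {P : Matrix (Fin n) (Fin n) ℝ} (hP : P.PosDef) (hD : Dense P) {s : ℝ}
    (hs : (n : ℝ) ≤ s) : 0 ≤ Psi (b0 * n) s P := by
  have hn1 : (1 : ℝ) ≤ n := by exact_mod_cast hn
  have hs0 : 0 < s := by linarith
  have e1 : ∀ u, dsq ((s ^ 2)⁻¹ • P) u ≤ (s ^ 2)⁻¹ * ((n : ℝ) ^ 2 / 4) := by
    intro u
    rw [dsq_smul (inv_sq_pos hs0).le]
    exact mul_le_mul_of_nonneg_left (h1b n P hP hD u) (inv_sq_pos hs0).le
  have e2 := Zf_lower h5 (hP.smul (inv_sq_pos hs0)) e1
  have e3 := Real.log_le_log (Real.exp_pos _) e2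
  rw [Real.log_exp] at e3
  unfold Psi
  have e4 : Real.pi * ((s ^ 2)⁻¹ * ((n : ℝ) ^ 2 / 4)) ≤ b0 * n / s := by
    have hpi := Real.pi_lt_d2
    have e5 : Real.pi * ((s ^ 2)⁻¹ * ((n : ℝ) ^ 2 / 4)) = (Real.pi / 4) * ((n : ℝ) / s) * (n / s) := by
      field_simp
    have e6 : (n : ℝ) / s ≤ 1 := by rw [div_le_one hs0]; exact hs
    have e7 : 0 ≤ (n : ℝ) / s := by positivity
    have e8 : Real.pi / 4 ≤ 1 := by linarith
    have e9 : (Real.pi / 4) * ((n : ℝ) / s) ≤ 1 := by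
      have := mul_le_mul e8 e6 e7 zero_le_one
      linarith
    have e10 : (Real.pi / 4) * ((n : ℝ) / s) * (n / s) ≤ 1 * (n / s) :=
      mul_le_mul_of_nonneg_right e9 e7
    have e11 : b0 * n / s = b0 * (n / s) := by ring
    rw [e5, e11]
    have := mul_le_mul_of_nonneg_right hb0 e7
    linarith
  linarith

include h1 h2 h3 h4 in
/-- reduction to `KK`. -/
lemma reduce (hn : 1 ≤ n) {b0 : ℝ}
    (IH : ∀ k : ℕ, k < n → 1 ≤ k → ∀ P : Matrix (Fin k) (Fin k) ℝ, P.PosDef →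
      Dense P → ∀ s : ℝ, 1 ≤ s → 0 ≤ Psi (b0 * k) s P)
    {P : Matrix (Fin n) (Fin n) ℝ} (hP : P.PosDef) (hD : Dense P) {s : ℝ} (hs : 1 ≤ s)
    (hneg : Psi (b0 * n) s P < 0) : ∃ P' ∈ KK n, Psi (b0 * n) s P' ≤ Psi (b0 * n) s P := by
  have hs0 : 0 < s := by linarith
  obtain ⟨t, ht, htD, hor⟩ := scale_up h3 hn hP hD
  have htP : (t • P).PosDef := hP.smul (by linarith)
  have hle := Psi_mono h4 hP (b := b0 * n) hs0 ht
  rcases hor with hdet | hdec
  · obtain ⟨U, hU, hUd⟩ := h1 n (t • P) htP htD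
    obtain ⟨_, g2, g3, g4⟩ := h4.2.2.1 n (t • P) htP U hU
    refine ⟨gram (t • P) U, ⟨g2.posSemidef, by rw [g4, hdet], g3 htD,
      entry_le g2.posSemidef hUd⟩, ?_⟩
    have e1 : Psi (b0 * n) s (gram (t • P) U) = Psi (b0 * n) s (t • P) := by
      unfold Psi
      have := (h4.2.2.1 n ((s ^ 2)⁻¹ • (t • P)) (htP.smul (inv_sq_pos hs0)) U hU).1
      rw [gram_smul] at this
      rw [this]
    rw [e1]
    exact hle
  · have := decomp h2 h4 IH htP htD hdec hs
    linarith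

include h4 in
lemma Psi_contOn (b : ℝ) :
    ContinuousOn (fun p : ℝ × Matrix (Fin n) (Fin n) ℝ => Psi b p.1 p.2)
      {p | 0 < p.1 ∧ p.2.PosDef} := by
  unfold Psi
  have hc1 : ContinuousOn (fun p : ℝ × Matrix (Fin n) (Fin n) ℝ => (p.1 ^ 2)⁻¹ • p.2)
      {p | 0 < p.1 ∧ p.2.PosDef} := by
    have hc0 : ContinuousOn (fun p : ℝ × Matrix (Fin n) (Fin n) ℝ => (p.1 ^ 2)⁻¹)
        {p | 0 < p.1 ∧ p.2.PosDef} := by
      refine ContinuousOn.inv₀ (by fun_prop) ?_
      rintro ⟨a, Q⟩ ⟨ha, _⟩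
      exact pow_ne_zero 2 (ne_of_gt ha)
    exact hc0.smul continuous_snd.continuousOn
  have hmaps : MapsTo (fun p : ℝ × Matrix (Fin n) (Fin n) ℝ => (p.1 ^ 2)⁻¹ • p.2)
      {p | 0 < p.1 ∧ p.2.PosDef} {P | P.PosDef} := by
    rintro ⟨a, Q⟩ ⟨ha, hQ⟩
    exact hQ.smul (inv_sq_pos ha)
  have hA : ContinuousOn (fun p : ℝ × Matrix (Fin n) (Fin n) ℝ => Zf ((p.1 ^ 2)⁻¹ • p.2))
      {p | 0 < p.1 ∧ p.2.PosDef} := (h4.1 n).comp hc1 hmaps
  refine (hA.log ?_).add ?_
  · rintro ⟨a, Q⟩ ⟨ha, hQ⟩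
    exact (Zf_pos h4 (hQ.smul (inv_sq_pos ha))).ne'
  · refine ContinuousOn.div continuousOn_const continuousOn_fst ?_
    rintro ⟨a, Q⟩ ⟨ha, _⟩
    exact ne_of_gt ha

include h1 h1b h2 h3 h4 h5 in
lemma main_step (h6c : ∃ C : ℝ, 0 < C)
    {c' C6 : ℝ} (hC6 : 0 < C6)
    (h6 : ∀ n : ℕ, 1 ≤ n → ∀ P : Matrix (Fin n) (Fin n) ℝ, P.PosDef →
      P.det = 1 → (∀ z : Fin n → ℤ, z ≠ 0 → 1 ≤ qf P (zc z)) → (∀ u, dsq P u ≤ (n : ℝ) ^ 2 / 4) →
      ∀ x : (Fin n → ℝ) → (Fin n → ℝ), IsSel P x → ∀ s c : ℝ, 1 ≤ s →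
      (∀ H : Matrix (Fin n) (Fin n) ℝ, H.IsSymm →
        ∫ u in Set.Icc (0 : Fin n → ℝ) 1, qf H (x u) * Real.exp (-Real.pi * qf P (x u) / s ^ 2)
          = c * (P⁻¹ * H).trace *
            ∫ u in Set.Icc (0 : Fin n → ℝ) 1, Real.exp (-Real.pi * qf P (x u) / s ^ 2)) →
        c ≤ C6 * (n : ℝ) ^ c' * s)
    (hn : 1 ≤ n) {b0 : ℝ} (hb1 : 1 ≤ b0) (hb0 : 2 * Real.pi * (C6 * (n : ℝ) ^ c') < b0)
    (IH : ∀ k : ℕ, k < n → 1 ≤ k → ∀ P : Matrix (Fin k) (Fin k) ℝ, P.PosDef →
      Dense P → ∀ s : ℝ, 1 ≤ s → 0 ≤ Psi (b0 * k) s P)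
    (P : Matrix (Fin n) (Fin n) ℝ) (hP : P.PosDef) (hD : Dense P) (s : ℝ) (hs : 1 ≤ s) :
    0 ≤ Psi (b0 * n) s P := by
  clear h6c
  by_contra hcon
  push Not at hcon
  have hn0 : (0 : ℝ) < n := by exact_mod_cast hn
  have hsn : s < n := by
    by_contra h
    push Not at h
    have := large_s h1b h5 hn hb1 hP hD h
    linarith
  obtain ⟨P0, hP0, hP0le⟩ := reduce h1 h2 h3 h4 hn IH hP hD hs hcon
  -- minimiser
  have hcomp : IsCompact (Icc s (n : ℝ) ×ˢ KK n) := isCompact_Icc.prod isCompact_KK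
  have hsub : (Icc s (n : ℝ) ×ˢ KK n) ⊆ {p : ℝ × Matrix (Fin n) (Fin n) ℝ | 0 < p.1 ∧ p.2.PosDef} := by
    rintro ⟨a, Q⟩ ⟨ha, hQ⟩
    exact ⟨by have := ha.1; simp only at this ⊢; linarith, posDef_of_psd_det hQ.1 hQ.2.1⟩
  obtain ⟨⟨s1, P1⟩, ⟨hs1, hP1K⟩, hmin⟩ := hcomp.exists_isMinOn
    ⟨(s, P0), ⟨left_mem_Icc.mpr hsn.le, hP0⟩⟩ ((Psi_contOn h4 (b0 * n)).mono hsub)
  simp only at hs1 hP1K
  have hP1 : P1.PosDef := posDef_of_psd_det hP1K.1 hP1K.2.1
  have hdet : P1.det = 1 := hP1K.2.1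
  have hD1 : Dense P1 := hP1K.2.2.1
  have hs11 : 1 ≤ s1 := hs.trans hs1.1
  have hs10 : 0 < s1 := by linarith
  have hneg : Psi (b0 * n) s1 P1 < 0 := by
    have : Psi (b0 * n) s1 P1 ≤ Psi (b0 * n) s P0 :=
      hmin (a := (s, P0)) ⟨left_mem_Icc.mpr hsn.le, hP0⟩
    linarith
  -- global minimality
  have hglob : ∀ s' ∈ Icc s (n : ℝ), ∀ P' : Matrix (Fin n) (Fin n) ℝ, P'.PosDef → Dense P' →
      Psi (b0 * n) s1 P1 ≤ Psi (b0 * n) s' P' := by
    intro s' hs' P' hP' hD'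
    rcases lt_or_ge (Psi (b0 * n) s' P') 0 with h | h
    · obtain ⟨P'', hP'', hle⟩ := reduce h1 h2 h3 h4 hn IH hP' hD' (hs.trans hs'.1) h
      have : Psi (b0 * n) s1 P1 ≤ Psi (b0 * n) s' P'' := hmin (a := (s', P'')) ⟨hs', hP''⟩
      linarith
    · linarith
  have hs1n : s1 < n := by
    by_contra h
    push Not at h
    have := large_s h1b h5 hn hb1 hP1 hD1 h
    linarith
  have hInd : Indec P1 := by
    by_contra h
    have := decomp h2 h4 IH hP1 hD1 h hs11
    linarith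
  -- selection
  set a1 : ℝ := (s1 ^ 2)⁻¹ with ha1
  have ha1pos : 0 < a1 := inv_sq_pos hs10
  have hPa : (a1 • P1).PosDef := hP1.smul ha1pos
  obtain ⟨x, hxsel, ⟨R, hR⟩, hder⟩ := h5 n (a1 • P1) hPa
  have hxsel1 : IsSel P1 x := isSel_scale ha1pos hxsel
  have hxm : Measurable x := hxsel.1
  -- rewriting the derivative
  have hder' : ∀ H : Matrix (Fin n) (Fin n) ℝ, H.IsSymm →
      HasDerivAt (fun t : ℝ => Zf (a1 • (P1 + t • H))) (-Real.pi * (a1 * aint P1 x s1 H)) 0 := by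
    intro H hH
    have h := hder (a1 • H) (by rw [IsSymm, transpose_smul, hH])
    have e1 : (fun t : ℝ => Zf (a1 • P1 + t • a1 • H)) = fun t : ℝ => Zf (a1 • (P1 + t • H)) := by
      funext t
      rw [smul_add, smul_comm t a1 H]
    rw [e1] at h
    have e2 : (∫ u in Set.Icc (0 : Fin n → ℝ) 1, qf (a1 • H) (x u) *
        Real.exp (-Real.pi * qf (a1 • P1) (x u))) = a1 * aint P1 x s1 H := by
      unfold aint
      rw [← integral_const_mul]
      refine integral_congr_ae (Filter.Eventually.of_forall fun u => ?_)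
      simp only [qf_smul]
      have : -Real.pi * (a1 * qf P1 (x u)) = -Real.pi * qf P1 (x u) / s1 ^ 2 := by
        rw [ha1]; field_simp
      rw [this]; ring
    rw [e2] at h
    exact h
  -- first variation
  have hvar : ∀ H : Matrix (Fin n) (Fin n) ℝ, H.IsSymm → (P1⁻¹ * H).trace < 0 →
      aint P1 x s1 H ≤ 0 := by
    intro H hH htr
    obtain ⟨δ, hδ, hopen⟩ := h3 n P1 hP1 hD1 hInd
    have ev1 : ∀ᶠ t in 𝓝[>] (0 : ℝ), (P1 + t • H).PosDef :=
      (posDef_line hP1 hH).filter_mono nhdsWithin_le_nhds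
    have ev2 := det_line hP1 hdet htr
    have ev3 : ∀ᶠ t in 𝓝[>] (0 : ℝ), ∀ i j, |(P1 + t • H) i j - P1 i j| < δ := by
      rw [Filter.eventually_all]
      intro i
      rw [Filter.eventually_all]
      intro j
      have hc : ContinuousAt (fun t : ℝ => |(P1 + t • H) i j - P1 i j|) 0 := by
        simp only [Matrix.add_apply, Matrix.smul_apply]
        fun_prop
      have h0 : |(P1 + (0 : ℝ) • H) i j - P1 i j| < δ := by simpa using hδ
      exact (hc.eventually (gt_mem_nhds h0)).filter_mono nhdsWithin_le_nhds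
    have hev : ∀ᶠ t in 𝓝[>] (0 : ℝ), Zf (a1 • (P1 + (0 : ℝ) • H)) ≤ Zf (a1 • (P1 + (0 + t) • H)) := by
      filter_upwards [ev1, ev2, ev3] with t g1 g2 g3
      have hDt : Dense (P1 + t • H) := by
        intro k hk A
        rcases Nat.eq_zero_or_pos k with rfl | hk0
        · right; simpa using g2.le
        · exact hopen _ g1 g3 k hk0 hk A
      have hm := hglob s1 hs1 _ g1 hDt
      unfold Psi at hm
      have hm2 : Real.log (Zf (a1 • P1)) ≤ Real.log (Zf (a1 • (P1 + t • H))) := by linarith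
      have hm3 := (Real.log_le_log_iff (Zf_pos h4 hPa) (Zf_pos h4 (g1.smul ha1pos))).mp hm2
      simpa using hm3
    have hnn := nonneg_of_right (hder' H hH) hev
    have hpi := Real.pi_pos
    by_contra hpos
    push Not at hpos
    have : 0 < Real.pi * (a1 * aint P1 x s1 H) := by positivity
    linarith
  have hprop := aint_prop hn hP1 hdet hxm hR s1 hvar
  -- total mass
  set Z0 : ℝ := ∫ u in Set.Icc (0 : Fin n → ℝ) 1, Real.exp (-Real.pi * qf P1 (x u) / s1 ^ 2) with hZ0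
  have hZ0eq : Z0 = Zf (a1 • P1) := by
    rw [hZ0]
    unfold Zf
    refine integral_congr_ae (Filter.Eventually.of_forall fun u => ?_)
    simp only
    rw [dsq_smul ha1pos.le, ← hxsel1.2.2 u]
    congr 1
    rw [ha1]; field_simp
  have hZpos : 0 < Z0 := by rw [hZ0eq]; exact Zf_pos h4 hPa
  set c : ℝ := aint P1 x s1 P1 / (n * Z0) with hc
  have hPs : P1.IsSymm := by
    have := hP1.isHermitian
    rwa [IsHermitian, conjTranspose_eq_transpose_of_trivial] at this
  -- upper bound from LA6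
  have hup : c ≤ C6 * (n : ℝ) ^ c' * s1 := by
    refine h6 n hn P1 hP1 hdet ?_ (h1b n P1 hP1 hD1) x hxsel1 s1 c hs11 ?_
    · intro z hz
      rcases Nat.lt_or_ge 1 n with hn1 | hn1
      · have h := hD1 1 hn1 (fun i _ => z i)
        have e : (gram P1 (fun i (_ : Fin 1) => z i)).det = qf P1 (zc z) := by
          rw [det_unique]
          unfold gram qf zm zc
          simp only [Matrix.mul_apply, transpose_apply, dotProduct, mulVec]
          rw [Finset.sum_congr rfl fun j _ => Finset.sum_mul _ _ _]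
          rw [Finset.sum_comm]
          refine Finset.sum_congr rfl fun i _ => ?_
          rw [Finset.mul_sum]
          refine Finset.sum_congr rfl fun j _ => ?_
          change (z i : ℝ) * P1 i j * (z j : ℝ) = (z i : ℝ) * (P1 i j * (z j : ℝ))
          ring
        rw [e, hdet] at h
        rcases h with h | h
        · exfalso
          have hz' : zc z ≠ 0 := by
            intro h0
            apply hz
            funext i
            have := congrFun h0 i
            simpa [zc] using this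
          have := hP1.dotProduct_mulVec_pos hz'
          rw [star_trivial] at this
          change 0 < qf P1 (zc z) at this
          linarith
        · exact h
      · have hn1' : n = 1 := by omega
        subst hn1'
        have e1 : P1 0 0 = 1 := by rw [← hdet, det_unique]; rfl
        have e2 : qf P1 (zc z) = (z 0 : ℝ) ^ 2 := by
          unfold qf zc
          simp only [dotProduct, mulVec, Finset.univ_unique, Fin.default_eq_zero, Fin.isValue,
            Finset.sum_singleton, e1]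
          ring
        rw [e2]
        have hz0 : z 0 ≠ 0 := by
          intro h0
          apply hz
          funext i
          rw [Subsingleton.elim i 0]; exact h0
        have : 1 ≤ (z 0) ^ 2 := by
          have := Int.one_le_abs hz0
          rw [← sq_abs]
          nlinarith
        exact_mod_cast this
    · intro H hH
      have h := hprop H hH
      unfold aint at h
      rw [h]
      have : (P1⁻¹ * H).trace / n * ∫ u in Set.Icc (0 : Fin n → ℝ) 1, qf P1 (x u) *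
          Real.exp (-Real.pi * qf P1 (x u) / s1 ^ 2) = (P1⁻¹ * H).trace / n * (c * (n * Z0)) := by
        congr 1
        rw [hc, div_mul_cancel₀]
        · rfl
        · exact mul_ne_zero hn0.ne' hZpos.ne'
      rw [this]
      change _ = c * (P1⁻¹ * H).trace * Z0
      field_simp
  -- s-derivative
  have hlow : b0 * s1 / (2 * Real.pi) ≤ c := by
    have hd1 := hder' P1 hPs
    -- f(σ) = Zf ((σ^2)⁻¹ • P1) near s1
    have hg : HasDerivAt (fun σ : ℝ => s1 ^ 2 / σ ^ 2 - 1) (-2 / s1) s1 := by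
      have hσ : HasDerivAt (fun σ : ℝ => σ ^ 2) (2 * s1) s1 := by
        simpa using hasDerivAt_pow 2 s1
      have h := ((hσ.inv (pow_ne_zero 2 hs10.ne')).const_mul (s1 ^ 2)).sub_const 1
      have e : (fun σ : ℝ => s1 ^ 2 / σ ^ 2 - 1) = fun σ : ℝ => s1 ^ 2 * (σ ^ 2)⁻¹ - 1 := by
        funext σ; rw [div_eq_mul_inv]
      rw [e]
      have e2 : -2 / s1 = s1 ^ 2 * (-(2 * s1) / (s1 ^ 2) ^ 2) := by
        field_simp
      rw [e2]
      exact h
    have hg0 : s1 ^ 2 / s1 ^ 2 - 1 = (0 : ℝ) := by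
      rw [div_self (pow_ne_zero 2 hs10.ne'), sub_self]
    have hcomp2 : HasDerivAt (fun σ : ℝ => Zf (a1 • (P1 + (s1 ^ 2 / σ ^ 2 - 1) • P1)))
        (-Real.pi * (a1 * aint P1 x s1 P1) * (-2 / s1)) s1 := by
      have hd2 : HasDerivAt (fun t : ℝ => Zf (a1 • (P1 + t • P1)))
        (-Real.pi * (a1 * aint P1 x s1 P1)) (s1 ^ 2 / s1 ^ 2 - 1) := by rw [hg0]; exact hd1
      exact HasDerivAt.comp s1 hd2 hg
    have heqf : ∀ σ : ℝ, 0 < σ → Zf (a1 • (P1 + (s1 ^ 2 / σ ^ 2 - 1) • P1)) = Zf ((σ ^ 2)⁻¹ • P1) := by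
      intro σ hσ
      congr 1
      have : P1 + (s1 ^ 2 / σ ^ 2 - 1) • P1 = (s1 ^ 2 / σ ^ 2) • P1 := by
        rw [sub_smul, one_smul]; abel
      rw [this, smul_smul, ha1]
      congr 1
      field_simp
    have hval : Zf (a1 • (P1 + (s1 ^ 2 / s1 ^ 2 - 1) • P1)) = Z0 := by
      rw [heqf s1 hs10, hZ0eq]
    have hlog := (hcomp2.log (by rw [hval]; exact hZpos.ne')).add
      ((hasDerivAt_inv hs10.ne').const_mul (b0 * n))
    have hnn := nonneg_of_right hlog (by
      have ev1 : ∀ᶠ t in 𝓝[>] (0 : ℝ), 0 < t := self_mem_nhdsWithin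
      have ev2 : ∀ᶠ t in 𝓝[>] (0 : ℝ), t < n - s1 :=
        (gt_mem_nhds (by linarith)).filter_mono nhdsWithin_le_nhds
      filter_upwards [ev1, ev2] with t ht1 ht2
      have hm := hglob (s1 + t) ⟨by linarith [hs1.1], by linarith⟩ P1 hP1 hD1
      unfold Psi at hm
      simp only [Pi.add_apply]
      rw [heqf s1 hs10, heqf (s1 + t) (by linarith), ← div_eq_mul_inv, ← div_eq_mul_inv]
      exact hm)
    rw [hval] at hnn
    -- 0 ≤ (2π a1 A / s1)/Z0 - b0 n / s1²
    have hA : aint P1 x s1 P1 = c * (n * Z0) := by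
      rw [hc, div_mul_cancel₀]
      exact mul_ne_zero hn0.ne' hZpos.ne'
    rw [hA, ha1] at hnn
    have e3 : -Real.pi * ((s1 ^ 2)⁻¹ * (c * (n * Z0))) * (-2 / s1) / Z0 + b0 * n * -(s1 ^ 2)⁻¹
        = (n / s1 ^ 3) * (2 * Real.pi * c - b0 * s1) := by
      field_simp
      ring
    rw [e3] at hnn
    have hpi := Real.pi_pos
    have hpos3 : 0 < (n : ℝ) / s1 ^ 3 := by positivity
    have e4 : 0 ≤ 2 * Real.pi * c - b0 * s1 := by
      by_contra hlt
      push Not at hlt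
      have := mul_neg_of_pos_of_neg hpos3 hlt
      linarith
    rw [div_le_iff₀ (by positivity)]
    linarith
  have hpi := Real.pi_pos
  have hfin : b0 * s1 / (2 * Real.pi) ≤ C6 * (n : ℝ) ^ c' * s1 := hlow.trans hup
  rw [div_le_iff₀ (by positivity)] at hfin
  have : b0 ≤ 2 * Real.pi * (C6 * (n : ℝ) ^ c') := by
    have h := hfin
    have e5 : C6 * (n : ℝ) ^ c' * s1 * (2 * Real.pi) = 2 * Real.pi * (C6 * (n : ℝ) ^ c') * s1 := by
      ring
    rw [e5] at h
    exact le_of_mul_le_mul_right h hs10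
  linarith

end core

end LA7Aux

open LA7Aux in
/-- LA7: the main theorem for dense lattices, from the other modules. -/
theorem la7 (h1 : Stmt_LA1) (h1b : Stmt_LA1b) (h2 : Stmt_LA2) (h3 : Stmt_LA3) (h4 : Stmt_LA4)
    (h5 : Stmt_LA5) (h6 : Stmt_LA6) : Stmt_LA7 := by
  intro c' hc'
  obtain ⟨C6, hC6, h6'⟩ := h6 c' hc'
  refine ⟨2 * Real.pi * C6 + 1, by positivity, ?_⟩
  intro n0 hn0
  set b0 : ℝ := (2 * Real.pi * C6 + 1) * (n0 : ℝ) ^ c' with hb0
  have hpi := Real.pi_pos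
  have hn01 : (1 : ℝ) ≤ n0 := by exact_mod_cast hn0
  have hpow1 : (1 : ℝ) ≤ (n0 : ℝ) ^ c' := Real.one_le_rpow hn01 hc'.le
  have hb1 : 1 ≤ b0 := by
    have : (1 : ℝ) ≤ 2 * Real.pi * C6 + 1 := by
      have : 0 < 2 * Real.pi * C6 := by positivity
      linarith
    calc (1 : ℝ) = 1 * 1 := by ring
      _ ≤ b0 := mul_le_mul this hpow1 zero_le_one (by linarith)
  have key : ∀ n : ℕ, n ≤ n0 → 1 ≤ n → ∀ P : Matrix (Fin n) (Fin n) ℝ, P.PosDef → Dense P →
      ∀ s : ℝ, 1 ≤ s → 0 ≤ Psi (b0 * n) s P := by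
    intro n
    induction n using Nat.strong_induction_on with
    | _ n ih =>
      intro hnn hn
      refine main_step h1 h1b h2 h3 h4 h5 ⟨1, one_pos⟩ hC6 h6' hn hb1 ?_ ?_
      · have hle : (n : ℝ) ^ c' ≤ (n0 : ℝ) ^ c' :=
          Real.rpow_le_rpow (by positivity) (by exact_mod_cast hnn) hc'.le
        have e1 : 2 * Real.pi * (C6 * (n : ℝ) ^ c') ≤ 2 * Real.pi * C6 * (n0 : ℝ) ^ c' := by
          have : 2 * Real.pi * (C6 * (n : ℝ) ^ c') = 2 * Real.pi * C6 * (n : ℝ) ^ c' := by ring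
          rw [this]
          exact mul_le_mul_of_nonneg_left hle (by positivity)
        have e2 : b0 = 2 * Real.pi * C6 * (n0 : ℝ) ^ c' + (n0 : ℝ) ^ c' := by rw [hb0]; ring
        linarith
      · intro k hk hk1 P hP hD s hs
        exact ih k hk (by omega) hk1 P hP hD s hs
  intro P hP hD s hs
  have h := key n0 le_rfl hn0 P hP hD s hs
  have hs0 : 0 < s := by linarith
  have hZ := Zf_pos h4 (hP.smul (inv_sq_pos hs0))
  unfold Psi at h
  rw [← Real.exp_log hZ]
  apply Real.exp_le_exp.mpr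
  have e : (2 * Real.pi * C6 + 1) * (n0 : ℝ) ^ (1 + c') = b0 * n0 := by
    rw [Real.rpow_add (by linarith), Real.rpow_one, hb0]; ring
  rw [e]
  linarith

end Pool.Agent.RevMink
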