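import Pool.Agent.RevMink.Defs

/-!
# LA8: duality between sparse and dense lattices (helper74)
-/

set_option autoImplicit false

open Matrix

namespace Pool.Agent.RevMink

namespace LA8Aux

/-- complementary minors. -/
theorem compl_minor {m l : Type*} [Fintype m] [Fintype l] [DecidableEq m] [DecidableEq l]
    (A : Matrix m m ℝ) (B : Matrix m l ℝ) (C : Matrix l m ℝ) (D : Matrix l l ℝ)
    (A' : Matrix m m ℝ) (B' : Matrix m l ℝ) (C' : Matrix l m ℝ) (D' : Matrix l l ℝ)
    (h : fromBlocks A B C D * fromBlocks A' B' C' D' = 1) :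
    A.det = (fromBlocks A B C D).det * D'.det := by
  rw [fromBlocks_multiply, ← fromBlocks_one, fromBlocks_inj] at h
  obtain ⟨-, h12, -, h22⟩ := h
  have h1 : fromBlocks A B C D * fromBlocks (1 : Matrix m m ℝ) B' (0 : Matrix l m ℝ) D'
      = fromBlocks A 0 C 1 := by
    rw [fromBlocks_multiply]
    simp [h12, h22]
  have h2 := congrArg Matrix.det h1
  rw [det_mul, det_fromBlocks_zero₂₁, det_fromBlocks_zero₁₂] at h2
  simpa using h2.symm

theorem zm_mul {n k l : ℕ} (A : Matrix (Fin n) (Fin k) ℤ) (B : Matrix (Fin k) (Fin l) ℤ) :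
    zm (A * B) = zm A * zm B := by
  unfold zm
  exact (Matrix.map_mul (f := Int.castRingHom ℝ))

theorem zm_mulVec {n k : ℕ} (A : Matrix (Fin n) (Fin k) ℤ) (v : Fin k → ℤ) :
    zm A *ᵥ zc v = zc (A *ᵥ v) := by
  funext i
  simp [zm, zc, mulVec, dotProduct]

end LA8Aux

open LA8Aux

theorem la8 : Stmt_LA8 := by
  intro n Q hQ hS k hk A
  by_cases hdet : (gram Q⁻¹ A).det = 0
  · exact Or.inl hdet
  right
  set P : Matrix (Fin n) (Fin n) ℝ := Q⁻¹ with hP
  have hQdet : IsUnit Q.det := (hQ.det_pos).ne'.isUnit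
  have hPpd : P.PosDef := hQ.inv
  have hPQ : P * Q = 1 := Matrix.nonsing_inv_mul Q hQdet
  -- `A` is injective
  have hinj : Function.Injective (Matrix.mulVecLin A) := by
    rw [← LinearMap.ker_eq_bot, LinearMap.ker_eq_bot']
    intro v hv
    have hv' : A *ᵥ v = 0 := hv
    have h1 : (gram P A) *ᵥ zc v = 0 := by
      unfold gram
      rw [← mulVec_mulVec, zm_mulVec, hv']
      have : zc (0 : Fin n → ℤ) = 0 := by funext i; simp [zc]
      rw [this, mulVec_zero]
    have h2 : zc v = 0 := Matrix.eq_zero_of_mulVec_eq_zero hdet h1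
    funext i
    have := congrFun h2 i
    simpa [zc] using this
  obtain ⟨k', snf⟩ := Submodule.smithNormalForm (Pi.basisFun ℤ (Fin n)) (LinearMap.range (Matrix.mulVecLin A))
  have hkk : k = k' := by
    let b1 : Module.Basis (Fin k) ℤ (LinearMap.range (Matrix.mulVecLin A)) :=
      (Pi.basisFun ℤ (Fin k)).map (LinearEquiv.ofInjective _ hinj)
    have h1 := Module.finrank_eq_card_basis b1
    have h2 := Module.finrank_eq_card_basis snf.bN
    rw [h1] at h2
    simpa using h2
  subst hkk
  obtain ⟨bM, bN, f, a, hsnf⟩ := snf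
  -- the unimodular matrix
  set V0 : Matrix (Fin n) (Fin n) ℤ := (Pi.basisFun ℤ (Fin n)).toMatrix bM with hV0
  set W0 : Matrix (Fin n) (Fin n) ℤ := bM.toMatrix (Pi.basisFun ℤ (Fin n)) with hW0
  have hWV : W0 * V0 = 1 := by
    rw [hW0, hV0]; exact Module.Basis.toMatrix_mul_toMatrix_flip _ _
  have hVW : V0 * W0 = 1 := by
    rw [hW0, hV0]; exact Module.Basis.toMatrix_mul_toMatrix_flip _ _
  have hV0c : ∀ i j, V0 i j = bM j i := by
    intro i j
    simp [hV0, Module.Basis.toMatrix_apply]
  -- `A = V1 * T`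
  have hmem : ∀ j : Fin k, (fun i => A i j) ∈ LinearMap.range (Matrix.mulVecLin A) := by
    intro j
    refine ⟨Pi.single j 1, ?_⟩
    rw [Matrix.mulVecLin_apply, Matrix.mulVec_single_one]
    rfl
  let cA : Fin k → LinearMap.range (Matrix.mulVecLin A) := fun j => ⟨fun i => A i j, hmem j⟩
  let T : Matrix (Fin k) (Fin k) ℤ := fun i j => a i * bN.repr (cA j) i
  let V1 : Matrix (Fin n) (Fin k) ℤ := fun i j => V0 i (f j)
  have hAT : A = V1 * T := by
    ext i j
    have h1 := bN.sum_repr (cA j)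
    have h2 : ((∑ l, (bN.repr (cA j)) l • bN l : LinearMap.range (Matrix.mulVecLin A)) :
        Fin n → ℤ) i = A i j := by
      rw [h1]
    rw [Submodule.coe_sum, Finset.sum_apply] at h2
    rw [Matrix.mul_apply, ← h2]
    refine Finset.sum_congr rfl fun l _ => ?_
    rw [Submodule.coe_smul, Pi.smul_apply, hsnf l, Pi.smul_apply]
    simp only [V1, T, hV0c, smul_eq_mul]
    ring
  -- complementary index set
  have hcard : Fintype.card ((Set.range f)ᶜ : Set (Fin n)) = n - k := by
    rw [Fintype.card_compl_set, Set.card_range_of_injective f.injective]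
    simp
  let e1 : Fin k ≃ Set.range f := Equiv.ofInjective f f.injective
  let e2 : Fin (n - k) ≃ ((Set.range f)ᶜ : Set (Fin n)) := (Fintype.equivFinOfCardEq hcard).symm
  let e : Fin k ⊕ Fin (n - k) ≃ Fin n :=
    (Equiv.sumCongr e1 e2).trans (Equiv.Set.sumCompl (Set.range f))
  have he1 : ∀ j, e (Sum.inl j) = f j := by
    intro j
    simp [e, e1]
  -- real matrices
  set X : Matrix (Fin n) (Fin n) ℝ := zm W0 * Q * (zm W0)ᵀ with hX
  set M : Matrix (Fin n) (Fin n) ℝ := (zm V0)ᵀ * P * zm V0 with hM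
  have hVWr : zm V0 * zm W0 = 1 := by
    rw [← zm_mul, hVW]; simp [zm]
  have hWVr : zm W0 * zm V0 = 1 := by
    rw [← zm_mul, hWV]; simp [zm]
  have hMX : M * X = 1 := by
    calc M * X = (zm V0)ᵀ * P * (zm V0 * zm W0) * Q * (zm W0)ᵀ := by
          rw [hM, hX]; simp only [Matrix.mul_assoc]
      _ = (zm V0)ᵀ * (P * Q) * (zm W0)ᵀ := by
          rw [hVWr]; simp only [Matrix.mul_assoc, Matrix.mul_one]
      _ = (zm V0)ᵀ * (zm W0)ᵀ := by rw [hPQ, Matrix.mul_one]
      _ = 1 := by rw [← Matrix.transpose_mul, hWVr, Matrix.transpose_one]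
  have hMdet : M.det = P.det := by
    have h1 : (V0.det : ℝ) ^ 2 = 1 := by
      have h2 : IsUnit V0.det := by
        have := congrArg Matrix.det hVW
        rw [det_mul, det_one] at this
        exact IsUnit.of_mul_eq_one _ this
      rcases Int.isUnit_iff.1 h2 with h | h <;> rw [h] <;> norm_num
    have h3 : (zm V0).det = (V0.det : ℝ) := by
      have := (Int.castRingHom ℝ).map_det V0
      simpa [zm] using this.symm
    rw [hM, det_mul, det_mul, det_transpose, h3]
    calc (V0.det : ℝ) * P.det * (V0.det : ℝ) = (V0.det : ℝ) ^ 2 * P.det := by ring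
      _ = P.det := by rw [h1, one_mul]
  -- blocks
  have hblocks : fromBlocks (M.submatrix e e).toBlocks₁₁ (M.submatrix e e).toBlocks₁₂
      (M.submatrix e e).toBlocks₂₁ (M.submatrix e e).toBlocks₂₂
      * fromBlocks (X.submatrix e e).toBlocks₁₁ (X.submatrix e e).toBlocks₁₂
      (X.submatrix e e).toBlocks₂₁ (X.submatrix e e).toBlocks₂₂ = 1 := by
    rw [fromBlocks_toBlocks, fromBlocks_toBlocks, Matrix.submatrix_mul_equiv, hMX,
      Matrix.submatrix_one_equiv]
  have hcm := compl_minor _ _ _ _ _ _ _ _ hblocks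
  rw [fromBlocks_toBlocks, Matrix.det_submatrix_equiv_self, hMdet] at hcm
  -- identify the blocks
  have hM11 : (M.submatrix e e).toBlocks₁₁ = gram P V1 := by
    ext i j
    simp only [toBlocks₁₁, submatrix_apply, of_apply, he1, hM, gram, Matrix.mul_apply,
      transpose_apply, zm, map_apply, V1]
    all_goals rfl
  let C : Matrix (Fin n) (Fin (n - k)) ℤ := fun i j => W0 (e (Sum.inr j)) i
  have hX22 : (X.submatrix e e).toBlocks₂₂ = gram Q C := by
    ext i j
    simp only [toBlocks₂₂, submatrix_apply, of_apply, hX, gram, Matrix.mul_apply,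
      transpose_apply, zm, map_apply, C]
    all_goals rfl
  rw [hM11, hX22] at hcm
  have hT : (gram P A).det = (T.det : ℝ) ^ 2 * (gram P V1).det := by
    have h3 : (zm T).det = (T.det : ℝ) := by
      have := (Int.castRingHom ℝ).map_det T
      simpa [zm] using this.symm
    have h4 : gram P A = (zm T)ᵀ * gram P V1 * zm T := by
      unfold gram
      rw [hAT, zm_mul, Matrix.transpose_mul]
      simp only [Matrix.mul_assoc]
    rw [h4, det_mul, det_mul, det_transpose, h3]
    ring
  rw [hT, hcm] at hdet ⊢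
  have hTne : T.det ≠ 0 := by
    rintro h
    apply hdet
    rw [h]
    simp
  have hTsq : (1 : ℝ) ≤ (T.det : ℝ) ^ 2 := by
    have h1 : (1 : ℤ) ≤ T.det ^ 2 := by
      have : 0 < T.det ^ 2 := by positivity
      omega
    exact_mod_cast h1
  have hQC : 1 ≤ (gram Q C).det := by
    rcases hS (n - k) (by omega) (by omega) C with h | h
    · exfalso
      apply hdet
      rw [h]
      simp
    · exact h
  have hPdet : 0 < P.det := hPpd.det_pos
  calc P.det = 1 * (P.det * 1) := by ring
    _ ≤ (T.det : ℝ) ^ 2 * (P.det * (gram Q C).det) := by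
      apply mul_le_mul hTsq _ (by positivity) (by positivity)
      exact mul_le_mul_of_nonneg_left hQC hPdet.le

end Pool.Agent.RevMink
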