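import Pool.Agent.RevMink.Defs

set_option autoImplicit false

open MeasureTheory ProbabilityTheory Matrix Function
open scoped RealInnerProductSpace ENNReal

namespace Pool.Agent.RevMink
namespace LA9Aux

variable {n : ℕ}

/-- half open unit cube at an integral point -/
def cub (v : Fin n → ℤ) : Set (Fin n → ℝ) := Set.univ.pi (fun i => Set.Ico (v i : ℝ) (v i + 1))

lemma measurableSet_cub (v : Fin n → ℤ) : MeasurableSet (cub v) :=
  MeasurableSet.univ_pi (fun _ => measurableSet_Ico)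

lemma mem_cub {v : Fin n → ℤ} {x : Fin n → ℝ} : x ∈ cub v ↔ ∀ i, ⌊x i⌋ = v i := by
  unfold cub
  simp only [Set.mem_univ_pi, Set.mem_Ico, Int.floor_eq_iff]

lemma cub_disj : Pairwise (Disjoint on (cub (n := n))) := by
  intro v w hvw
  rw [onFun, Set.disjoint_left]
  intro x hx hy
  rw [mem_cub] at hx hy
  exact hvw (funext fun i => (hx i).symm.trans (hy i))

lemma cub_iUnion : (⋃ v : Fin n → ℤ, cub v) = Set.univ := by
  rw [Set.eq_univ_iff_forall]
  intro x
  rw [Set.mem_iUnion]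
  exact ⟨fun i => ⌊x i⌋, mem_cub.2 fun i => rfl⟩

lemma cub_preimage (v : Fin n → ℤ) : (fun x => x + zc v) ⁻¹' cub v = cub 0 := by
  ext x
  simp only [Set.mem_preimage, mem_cub, Pi.add_apply, zc, Int.floor_add_intCast]
  simp

lemma setIntegral_cub {E : Type*} [NormedAddCommGroup E] [NormedSpace ℝ E]
    (f : (Fin n → ℝ) → E) (v : Fin n → ℤ) :
    ∫ x in cub v, f x = ∫ x in cub 0, f (x + zc v) := by
  have := (measurePreserving_add_right (volume : Measure (Fin n → ℝ)) (zc v)).setIntegral_preimage_emb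
    (MeasurableEquiv.addRight (zc v)).measurableEmbedding f (cub v)
  rw [← this, cub_preimage]

lemma setLIntegral_cub (f : (Fin n → ℝ) → ℝ≥0∞) (v : Fin n → ℤ) :
    ∫⁻ x in cub v, f x = ∫⁻ x in cub 0, f (x + zc v) := by
  have := (measurePreserving_add_right (volume : Measure (Fin n → ℝ)) (zc v)).setLIntegral_comp_preimage_emb
    (MeasurableEquiv.addRight (zc v)).measurableEmbedding f (cub v)
  rw [← this, cub_preimage]

lemma hasSum_cub {E : Type*} [NormedAddCommGroup E] [NormedSpace ℝ E]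
    (f : (Fin n → ℝ) → E) (hf : Integrable f) :
    HasSum (fun v : Fin n → ℤ => ∫ x in cub 0, f (x + zc v)) (∫ x, f x) := by
  have h := hasSum_integral_iUnion (μ := volume) (f := f) (fun v : Fin n → ℤ => measurableSet_cub v) cub_disj
    (by rw [cub_iUnion]; exact hf.integrableOn)
  rw [cub_iUnion, setIntegral_univ] at h
  have e : (fun v : Fin n → ℤ => ∫ x in cub v, f x) = fun v => ∫ x in cub 0, f (x + zc v) :=
    funext fun v => setIntegral_cub f v
  rwa [e] at h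

lemma lintegral_cub (f : (Fin n → ℝ) → ℝ≥0∞) :
    ∫⁻ x, f x = ∑' v : Fin n → ℤ, ∫⁻ x in cub 0, f (x + zc v) := by
  have h := lintegral_iUnion (μ := volume) (fun v : Fin n → ℤ => measurableSet_cub v) cub_disj f
  rw [cub_iUnion, setLIntegral_univ] at h
  rw [h]
  exact tsum_congr fun v => setLIntegral_cub f v

lemma integrableOn_shift {f : (Fin n → ℝ) → ℝ} (hf : Integrable f) (v : Fin n → ℤ) (s : Set (Fin n → ℝ)) :
    IntegrableOn (fun x => f (x + zc v)) s :=
  (hf.comp_add_right (zc v)).integrableOn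

/-- inner product of an integral vector and a real vector -/
noncomputable def ip (z : Fin n → ℤ) (x : Fin n → ℝ) : ℝ := ∑ i, (z i : ℝ) * x i

lemma ip_add (z : Fin n → ℤ) (x y : Fin n → ℝ) : ip z (x + y) = ip z x + ip z y := by
  simp [ip, mul_add, Finset.sum_add_distrib]

lemma ip_zc (z v : Fin n → ℤ) : ip z (zc v) = ((∑ i, z i * v i : ℤ) : ℝ) := by
  simp [ip, zc]

lemma cos_shift (z v : Fin n → ℤ) (x : Fin n → ℝ) :
    Real.cos (2 * Real.pi * ip z (x + zc v)) = Real.cos (2 * Real.pi * ip z x) := by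
  rw [ip_add, ip_zc]
  have : 2 * Real.pi * (ip z x + ((∑ i, z i * v i : ℤ) : ℝ)) = 2 * Real.pi * ip z x + ((∑ i, z i * v i : ℤ) : ℝ) * (2 * Real.pi) := by ring
  rw [this, Real.cos_add_int_mul_two_pi]

lemma continuous_ip (z : Fin n → ℤ) : Continuous (ip z) := by
  unfold ip
  fun_prop

lemma volume_cub : volume (cub (0 : Fin n → ℤ)) = 1 := by
  unfold cub
  rw [volume_pi_pi]
  simp

/-- orthogonality of characters on the cube -/
lemma integral_char (z : Fin n → ℤ) :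
    ∫ x in cub (0 : Fin n → ℤ), Complex.exp ((2 * Real.pi * ip z x : ℝ) * Complex.I) = if z = 0 then 1 else 0 := by
  have h1 : ∀ x : Fin n → ℝ, Complex.exp ((2 * Real.pi * ip z x : ℝ) * Complex.I)
      = ∏ i, Complex.exp (((2 * Real.pi * (z i : ℝ)) * x i : ℝ) * Complex.I) := by
    intro x
    rw [← Complex.exp_sum]
    congr 1
    unfold ip
    push_cast
    rw [Finset.mul_sum, Finset.sum_mul]
    refine Finset.sum_congr rfl fun i _ => ?_
    ring
  simp_rw [h1]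
  have h2 : (volume : Measure (Fin n → ℝ)).restrict (cub (0 : Fin n → ℤ))
      = Measure.pi (fun i : Fin n => (volume : Measure ℝ).restrict (Set.Ico (((0 : Fin n → ℤ) i : ℤ) : ℝ) ((((0 : Fin n → ℤ) i : ℤ) : ℝ) + 1))) := by
    unfold cub
    rw [volume_pi, Measure.restrict_pi_pi]
  rw [h2, integral_fintype_prod_eq_prod (f := fun i (t : ℝ) => Complex.exp (((2 * Real.pi * (z i : ℝ)) * t : ℝ) * Complex.I))]
  have h3 : ∀ i : Fin n, ∫ t in Set.Ico (((0 : Fin n → ℤ) i : ℤ) : ℝ) ((((0 : Fin n → ℤ) i : ℤ) : ℝ) + 1), Complex.exp (((2 * Real.pi * (z i : ℝ)) * t : ℝ) * Complex.I) = if z i = 0 then 1 else 0 := by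
    intro i
    simp only [Pi.zero_apply, Int.cast_zero, zero_add]
    rw [integral_Ico_eq_integral_Ioc, ← intervalIntegral.integral_of_le zero_le_one]
    split_ifs with h
    · simp [h]
    · have hc : (2 * Real.pi * (z i : ℝ) : ℂ) * Complex.I ≠ 0 := by
        simp [Real.pi_ne_zero, Complex.I_ne_zero, h]
      have : ∀ t : ℝ, Complex.exp (((2 * Real.pi * (z i : ℝ)) * t : ℝ) * Complex.I) = Complex.exp (((2 * Real.pi * (z i : ℝ) : ℂ) * Complex.I) * (t : ℂ)) := by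
        intro t
        congr 1
        push_cast
        ring
      simp_rw [this]
      rw [integral_exp_mul_complex hc]
      have h4 : Complex.exp (((2 * Real.pi * (z i : ℝ) : ℂ) * Complex.I) * ((1 : ℝ) : ℂ)) = 1 := by
        rw [Complex.exp_eq_one_iff]
        exact ⟨z i, by push_cast; ring⟩
      rw [h4]
      simp
  rw [Finset.prod_congr rfl (fun i _ => h3 i)]
  split_ifs with h
  · simp [h]
  · have : ∃ i, z i ≠ 0 := by
      by_contra hcon
      push Not at hcon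
      exact h (funext hcon)
    obtain ⟨i, hi⟩ := this
    exact Finset.prod_eq_zero (Finset.mem_univ i) (by simp [hi])

lemma integral_cos (z : Fin n → ℤ) :
    ∫ x in cub (0 : Fin n → ℤ), Real.cos (2 * Real.pi * ip z x) = if z = 0 then 1 else 0 := by
  have h := congrArg Complex.re (integral_char z)
  have hint : Integrable (fun x : Fin n → ℝ => Complex.exp ((2 * Real.pi * ip z x : ℝ) * Complex.I)) (volume.restrict (cub (0 : Fin n → ℤ))) := by
    have : IsFiniteMeasure (volume.restrict (cub (0 : Fin n → ℤ))) := ⟨by simp [volume_cub]⟩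
    refine Integrable.of_bound (C := 1) ?_ ?_
    · refine Continuous.aestronglyMeasurable ?_
      have := continuous_ip z
      fun_prop
    · refine Filter.Eventually.of_forall fun x => ?_
      rw [Complex.norm_exp_ofReal_mul_I]
  have h2 : (∫ x in cub (0 : Fin n → ℤ), Complex.exp ((2 * Real.pi * ip z x : ℝ) * Complex.I)).re
      = ∫ x in cub (0 : Fin n → ℤ), (Complex.exp ((2 * Real.pi * ip z x : ℝ) * Complex.I)).re := by
    have := integral_re hint
    exact this.symm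
  rw [h2] at h
  simp_rw [Complex.exp_ofReal_mul_I_re] at h
  rw [h]
  split_ifs <;> simp

/-! ### quadratic form -/

open scoped MatrixOrder in
lemma exists_factor {P : Matrix (Fin n) (Fin n) ℝ} (hP : P.PosDef) :
    ∃ g : Matrix (Fin n) (Fin n) ℝ, g.det ≠ 0 ∧ P = gᵀ * g := by
  obtain ⟨g, hg⟩ := CStarAlgebra.nonneg_iff_eq_star_mul_self.mp hP.posSemidef.nonneg
  have hg : P = gᵀ * g := by
    rw [hg, Matrix.star_eq_conjTranspose, Matrix.conjTranspose_eq_transpose_of_trivial]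
  refine ⟨g, ?_, hg⟩
  intro h0
  have := hP.det_pos
  rw [hg, Matrix.det_mul, h0] at this
  simp at this

lemma qf_factor (g : Matrix (Fin n) (Fin n) ℝ) (x : Fin n → ℝ) : qf (gᵀ * g) x = ∑ i, ((g *ᵥ x) i) ^ 2 := by
  unfold qf
  rw [← Matrix.mulVec_mulVec, Matrix.dotProduct_mulVec, Matrix.vecMul_transpose]
  simp [dotProduct, sq]

lemma qf_inv_factor (g : Matrix (Fin n) (Fin n) ℝ) (x : Fin n → ℝ) :
    qf ((gᵀ * g)⁻¹) x = ∑ i, (((g⁻¹)ᵀ *ᵥ x) i) ^ 2 := by
  have : (gᵀ * g)⁻¹ = ((g⁻¹)ᵀ)ᵀ * (g⁻¹)ᵀ := by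
    rw [Matrix.mul_inv_rev, Matrix.transpose_transpose, Matrix.transpose_nonsing_inv]
  rw [this, qf_factor]

/-- change of variables -/
lemma integral_comp_mulVec (g : Matrix (Fin n) (Fin n) ℝ) (hg : g.det ≠ 0) (φ : (Fin n → ℝ) → ℂ) :
    ∫ x, φ (g *ᵥ x) = (|g.det⁻¹| : ℝ) • ∫ y, φ y := by
  have h := Real.map_matrix_volume_pi_eq_smul_volume_pi hg
  have h2 : ∫ y, φ y ∂(Measure.map (Matrix.toLin' g) volume) = ∫ x, φ (g *ᵥ x) := by
    have hemb : MeasurableEmbedding (Matrix.toLin' g) := by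
      have hinj : Function.Injective (Matrix.toLin' g) := by
        intro x y hxy
        simp only [Matrix.toLin'_apply] at hxy
        have := congrArg (fun v => g⁻¹ *ᵥ v) hxy
        simpa [Matrix.mulVec_mulVec, Matrix.nonsing_inv_mul _ (isUnit_iff_ne_zero.2 hg)] using this
      exact (LinearMap.isClosedEmbedding_of_injective (LinearMap.ker_eq_bot.2 hinj)).measurableEmbedding
    rw [hemb.integral_map]
    simp only [Matrix.toLin'_apply]
  rw [← h2, h, integral_smul_measure, ENNReal.toReal_ofReal (abs_nonneg _)]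

lemma gaussC (g : Matrix (Fin n) (Fin n) ℝ) (hg : g.det ≠ 0) (t : ℝ) (ht : 0 < t) (z : Fin n → ℤ) :
    ∫ x : Fin n → ℝ, Complex.exp (((-t * qf (gᵀ * g) x : ℝ) : ℂ) + ((2 * Real.pi * ip z x : ℝ) : ℂ) * Complex.I)
      = ((|g.det⁻¹| * (Real.pi / t) ^ ((n : ℝ) / 2) * Real.exp (-(Real.pi ^ 2 / t) * qf ((gᵀ * g)⁻¹) (zc z)) : ℝ) : ℂ) := by
  have hinv : g * g⁻¹ = 1 := Matrix.mul_nonsing_inv _ (isUnit_iff_ne_zero.2 hg)
  have hinv' : g⁻¹ * g = 1 := Matrix.nonsing_inv_mul _ (isUnit_iff_ne_zero.2 hg)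
  set c : Fin n → ℝ := (g⁻¹)ᵀ *ᵥ zc z with hc
  have hip : ∀ x, ip z x = ∑ i, c i * (g *ᵥ x) i := by
    intro x
    have : ∑ i, c i * (g *ᵥ x) i = c ⬝ᵥ (g *ᵥ x) := rfl
    rw [this, hc, Matrix.dotProduct_mulVec, Matrix.mulVec_transpose, Matrix.vecMul_vecMul, hinv', Matrix.vecMul_one]
    rfl
  have h1 : ∀ x, Complex.exp (((-t * qf (gᵀ * g) x : ℝ) : ℂ) + ((2 * Real.pi * ip z x : ℝ) : ℂ) * Complex.I)
      = (fun y : Fin n → ℝ => Complex.exp (-(t : ℂ) * ∑ i, (y i : ℂ) ^ 2 + ∑ i, (2 * Real.pi * Complex.I * (c i : ℂ)) * y i)) (g *ᵥ x) := by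
    intro x
    rw [qf_factor, hip]
    simp only
    congr 1
    push_cast
    rw [Finset.mul_sum, Finset.mul_sum, Finset.sum_mul]
    congr 1
    refine Finset.sum_congr rfl fun i _ => ?_
    ring
  simp_rw [h1]
  rw [integral_comp_mulVec g hg (fun y : Fin n → ℝ => Complex.exp (-(t : ℂ) * ∑ i, (y i : ℂ) ^ 2 + ∑ i, (2 * Real.pi * Complex.I * (c i : ℂ)) * y i))]
  rw [GaussianFourier.integral_cexp_neg_mul_sum_add (by simpa using ht)]
  rw [qf_inv_factor g, ← hc]
  rw [Complex.real_smul]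
  have e1 : ((Real.pi : ℂ) / (t : ℂ)) ^ ((Fintype.card (Fin n) : ℂ) / 2) = (((Real.pi / t) ^ ((n : ℝ) / 2) : ℝ) : ℂ) := by
    rw [Complex.ofReal_cpow (by positivity)]
    push_cast
    rw [Fintype.card_fin]
  have e2 : (∑ i, (2 * Real.pi * Complex.I * (c i : ℂ)) ^ 2) / (4 * (t : ℂ)) = ((-(Real.pi ^ 2 / t) * ∑ i, c i ^ 2 : ℝ) : ℂ) := by
    push_cast
    rw [Finset.mul_sum, Finset.sum_div]
    refine Finset.sum_congr rfl fun i _ => ?_
    have ht' : (t : ℂ) ≠ 0 := by exact_mod_cast ht.ne'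
    have : (2 * Real.pi * Complex.I * (c i : ℂ)) ^ 2 = - (4 * Real.pi ^ 2 * c i ^ 2) := by
      rw [mul_pow, mul_pow, Complex.I_sq]; ring
    rw [this]
    field_simp
  rw [e1, e2]
  push_cast
  ring

lemma gaussC_integrable (g : Matrix (Fin n) (Fin n) ℝ) (hg : g.det ≠ 0) (t : ℝ) (ht : 0 < t) (z : Fin n → ℤ) :
    Integrable (fun x : Fin n → ℝ => Complex.exp (((-t * qf (gᵀ * g) x : ℝ) : ℂ) + ((2 * Real.pi * ip z x : ℝ) : ℂ) * Complex.I)) := by
  apply Integrable.of_integral_ne_zero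
  rw [gaussC g hg t ht z]
  have : 0 < |g.det⁻¹| := abs_pos.2 (inv_ne_zero hg)
  have h2 : 0 < |g.det⁻¹| * (Real.pi / t) ^ ((n : ℝ) / 2) * Real.exp (-(Real.pi ^ 2 / t) * qf ((gᵀ * g)⁻¹) (zc z)) := by positivity
  exact_mod_cast h2.ne'

lemma gauss_integrable (g : Matrix (Fin n) (Fin n) ℝ) (hg : g.det ≠ 0) (t : ℝ) (ht : 0 < t) (z : Fin n → ℤ) :
    Integrable (fun x : Fin n → ℝ => Real.exp (-t * qf (gᵀ * g) x) * Real.cos (2 * Real.pi * ip z x)) := by
  have h := (gaussC_integrable g hg t ht z).re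
  refine h.congr (Filter.Eventually.of_forall fun x => ?_)
  simp only [RCLike.re_to_complex, Complex.exp_add, Complex.exp_ofReal_mul_I_re, ← Complex.ofReal_exp, Complex.re_ofReal_mul]

lemma gauss_integral (g : Matrix (Fin n) (Fin n) ℝ) (hg : g.det ≠ 0) (t : ℝ) (ht : 0 < t) (z : Fin n → ℤ) :
    ∫ x : Fin n → ℝ, Real.exp (-t * qf (gᵀ * g) x) * Real.cos (2 * Real.pi * ip z x)
      = |g.det⁻¹| * (Real.pi / t) ^ ((n : ℝ) / 2) * Real.exp (-(Real.pi ^ 2 / t) * qf ((gᵀ * g)⁻¹) (zc z)) := by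
  have h := congrArg Complex.re (gaussC g hg t ht z)
  rw [Complex.ofReal_re] at h
  rw [← h]
  have h2 := integral_re (gaussC_integrable g hg t ht z)
  simp only [RCLike.re_to_complex] at h2
  rw [← h2]
  refine integral_congr_ae (Filter.Eventually.of_forall fun x => ?_)
  simp only [Complex.exp_add, Complex.exp_ofReal_mul_I_re, ← Complex.ofReal_exp, Complex.re_ofReal_mul]

/-! ### polarity -/

lemma qf_nonneg {P : Matrix (Fin n) (Fin n) ℝ} (hP : P.PosDef) (x : Fin n → ℝ) : 0 ≤ qf P x := by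
  have := hP.posSemidef.dotProduct_mulVec_nonneg x
  simpa [qf] using this

lemma continuous_qf (P : Matrix (Fin n) (Fin n) ℝ) : Continuous (qf P) := by
  unfold qf
  fun_prop

lemma zc_add (v w : Fin n → ℤ) : zc (v + w) = zc v + zc w := by
  ext i; simp [zc]

lemma zc_neg (v : Fin n → ℤ) : zc (-v) = - zc v := by
  ext i; simp [zc]

lemma zc_sub (v w : Fin n → ℤ) : zc (v - w) = zc v - zc w := by
  ext i; simp [zc]

/-- bilinear form -/
noncomputable def bl (P : Matrix (Fin n) (Fin n) ℝ) (x y : Fin n → ℝ) : ℝ := x ⬝ᵥ (P *ᵥ y) + y ⬝ᵥ (P *ᵥ x)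

lemma qf_add (P : Matrix (Fin n) (Fin n) ℝ) (x y : Fin n → ℝ) : qf P (x + y) = qf P x + qf P y + bl P x y := by
  simp only [qf, bl, Matrix.mulVec_add, add_dotProduct, dotProduct_add]
  ring

lemma bl_neg (P : Matrix (Fin n) (Fin n) ℝ) (x y : Fin n → ℝ) : bl P x (-y) = - bl P x y := by
  simp only [bl, Matrix.mulVec_neg, neg_dotProduct, dotProduct_neg]
  ring

lemma qf_neg (P : Matrix (Fin n) (Fin n) ℝ) (x : Fin n → ℝ) : qf P (-x) = qf P x := by
  simp [qf, Matrix.mulVec_neg]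

lemma qf_par (P : Matrix (Fin n) (Fin n) ℝ) (x w : Fin n → ℝ) :
    2 * qf P x + 2 * qf P (x + w) = qf P w + 4 * qf P (x + (2 : ℝ)⁻¹ • w) := by
  simp only [qf, Matrix.mulVec_add, add_dotProduct, dotProduct_add, Matrix.mulVec_smul, smul_dotProduct, dotProduct_smul, smul_eq_mul]
  ring

/-- theta lower bound for a symmetric finite set -/
lemma cosh_trick (P : Matrix (Fin n) (Fin n) ℝ) (V : Finset (Fin n → ℤ)) (hV : ∀ v ∈ V, -v ∈ V) (x : Fin n → ℝ) :
    Real.exp (-Real.pi * qf P x) * ∑ v ∈ V, Real.exp (-Real.pi * qf P (zc v)) ≤ ∑ v ∈ V, Real.exp (-Real.pi * qf P (x + zc v)) := by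
  have h1 : ∑ v ∈ V, Real.exp (-Real.pi * qf P (x + zc v)) = ∑ v ∈ V, Real.exp (-Real.pi * qf P (x + zc (-v))) := by
    refine Finset.sum_nbij' (fun v => -v) (fun v => -v) hV hV (by simp) (by simp) ?_
    intro v _
    simp
  have h2 : (2 : ℝ) * (Real.exp (-Real.pi * qf P x) * ∑ v ∈ V, Real.exp (-Real.pi * qf P (zc v)))
      ≤ ∑ v ∈ V, Real.exp (-Real.pi * qf P (x + zc v)) + ∑ v ∈ V, Real.exp (-Real.pi * qf P (x + zc (-v))) := by
    rw [← Finset.sum_add_distrib, Finset.mul_sum, Finset.mul_sum]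
    refine Finset.sum_le_sum fun v _ => ?_
    rw [qf_add, qf_add, zc_neg, qf_neg, bl_neg]
    have e1 : Real.exp (-Real.pi * (qf P x + qf P (zc v) + bl P x (zc v))) = Real.exp (-Real.pi * qf P x) * Real.exp (-Real.pi * qf P (zc v)) * Real.exp (-(Real.pi * bl P x (zc v))) := by
      rw [← Real.exp_add, ← Real.exp_add]; ring_nf
    have e2 : Real.exp (-Real.pi * (qf P x + qf P (zc v) + -bl P x (zc v))) = Real.exp (-Real.pi * qf P x) * Real.exp (-Real.pi * qf P (zc v)) * Real.exp ((Real.pi * bl P x (zc v))) := by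
      rw [← Real.exp_add, ← Real.exp_add]; ring_nf
    rw [e1, e2, ← mul_add]
    have e3 : 2 ≤ Real.exp (-(Real.pi * bl P x (zc v))) + Real.exp (Real.pi * bl P x (zc v)) := by
      have := Real.one_le_cosh (Real.pi * bl P x (zc v))
      rw [Real.cosh_eq] at this
      linarith
    have e4 : 0 ≤ Real.exp (-Real.pi * qf P x) * Real.exp (-Real.pi * qf P (zc v)) := by positivity
    nlinarith
  rw [← h1] at h2
  linarith

lemma dsq_bdd {P : Matrix (Fin n) (Fin n) ℝ} (hP : P.PosDef) (u : Fin n → ℝ) :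
    BddBelow (Set.range fun z : Fin n → ℤ => qf P (u + zc z)) :=
  ⟨0, by rintro _ ⟨z, rfl⟩; exact qf_nonneg hP _⟩

lemma dsq_nonneg {P : Matrix (Fin n) (Fin n) ℝ} (hP : P.PosDef) (u : Fin n → ℝ) : 0 ≤ dsq P u :=
  le_ciInf fun _ => qf_nonneg hP _

lemma measurable_dsq (P : Matrix (Fin n) (Fin n) ℝ) : Measurable (dsq P) := by
  unfold dsq
  refine Measurable.iInf fun z => ?_
  exact ((continuous_qf P).comp (continuous_id.add continuous_const)).measurable

lemma theta_lower (P : Matrix (Fin n) (Fin n) ℝ) (V : Finset (Fin n → ℤ)) (hV : ∀ v ∈ V, -v ∈ V) (u : Fin n → ℝ) :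
    ENNReal.ofReal (Real.exp (-Real.pi * dsq P u) * ∑ v ∈ V, Real.exp (-Real.pi * qf P (zc v)))
      ≤ ∑' v : Fin n → ℤ, ENNReal.ofReal (Real.exp (-Real.pi * qf P (u + zc v))) := by
  set K := ∑' v : Fin n → ℤ, ENNReal.ofReal (Real.exp (-Real.pi * qf P (u + zc v))) with hK
  by_cases hKt : K = ⊤
  · rw [hKt]; exact le_top
  rw [← ENNReal.ofReal_toReal hKt]
  apply ENNReal.ofReal_le_ofReal
  set k := K.toReal with hk
  set f := ∑ v ∈ V, Real.exp (-Real.pi * qf P (zc v)) with hf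
  have hf0 : 0 ≤ f := Finset.sum_nonneg fun v _ => (Real.exp_pos _).le
  have hz : ∀ z : Fin n → ℤ, Real.exp (-Real.pi * qf P (u + zc z)) * f ≤ k := by
    intro z
    refine (cosh_trick P V hV (u + zc z)).trans ?_
    rw [hk, ← ENNReal.ofReal_le_iff_le_toReal hKt, ENNReal.ofReal_sum_of_nonneg (fun v _ => (Real.exp_pos _).le)]
    have : ∑ v ∈ V, ENNReal.ofReal (Real.exp (-Real.pi * qf P (u + zc z + zc v)))
        = ∑ v ∈ V.map ⟨fun v => z + v, add_right_injective z⟩, ENNReal.ofReal (Real.exp (-Real.pi * qf P (u + zc v))) := by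
      rw [Finset.sum_map]
      refine Finset.sum_congr rfl fun v _ => ?_
      simp only [Embedding.coeFn_mk, zc_add, add_assoc]
    rw [this]
    exact ENNReal.sum_le_tsum _
  rcases hf0.eq_or_lt with h0 | hpos
  · rw [← h0, mul_zero]; exact ENNReal.toReal_nonneg
  have hkf : 0 < k / f := lt_of_lt_of_le (Real.exp_pos _) ((le_div_iff₀ hpos).2 (hz 0))
  rw [← le_div_iff₀ hpos, ← Real.le_log_iff_exp_le hkf]
  have h3 : - (Real.log (k / f)) / Real.pi ≤ dsq P u := by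
    refine le_ciInf fun z => ?_
    rw [div_le_iff₀ Real.pi_pos]
    have := (le_div_iff₀ hpos).2 (hz z)
    rw [← Real.le_log_iff_exp_le hkf] at this
    linarith
  rw [div_le_iff₀ Real.pi_pos] at h3
  linarith

lemma isFinite_cub : IsFiniteMeasure ((volume : Measure (Fin n → ℝ)).restrict (cub (0 : Fin n → ℤ))) :=
  ⟨by simp [volume_cub]⟩

lemma Icc_ae_cub : (Set.Icc (0 : Fin n → ℝ) 1 : Set (Fin n → ℝ)) =ᵐ[volume] cub (0 : Fin n → ℤ) := by
  have h := Measure.univ_pi_Ico_ae_eq_Icc (μ := fun _ : Fin n => (volume : Measure ℝ)) (f := (0 : Fin n → ℝ)) (g := 1)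
  have e : cub (0 : Fin n → ℤ) = Set.univ.pi (fun i => Set.Ico ((0 : Fin n → ℝ) i) ((1 : Fin n → ℝ) i)) := by
    unfold cub
    simp
  rw [e]
  exact h.symm

lemma Zf_eq (P : Matrix (Fin n) (Fin n) ℝ) : Zf P = ∫ u in cub (0 : Fin n → ℤ), Real.exp (-Real.pi * dsq P u) := by
  unfold Zf
  exact setIntegral_congr_set Icc_ae_cub

lemma Zf_nonneg (P : Matrix (Fin n) (Fin n) ℝ) : 0 ≤ Zf P :=
  integral_nonneg fun _ => (Real.exp_pos _).le

lemma cos_zero_ip (x : Fin n → ℝ) : Real.cos (2 * Real.pi * ip 0 x) = 1 := by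
  simp [ip]

lemma gauss_integrable0 (g : Matrix (Fin n) (Fin n) ℝ) (hg : g.det ≠ 0) (t : ℝ) (ht : 0 < t) :
    Integrable (fun x : Fin n → ℝ => Real.exp (-t * qf (gᵀ * g) x)) := by
  have := gauss_integrable g hg t ht 0
  simpa [cos_zero_ip] using this

lemma gauss_integral0 (g : Matrix (Fin n) (Fin n) ℝ) (hg : g.det ≠ 0) (t : ℝ) (ht : 0 < t) :
    ∫ x : Fin n → ℝ, Real.exp (-t * qf (gᵀ * g) x) = |g.det⁻¹| * (Real.pi / t) ^ ((n : ℝ) / 2) := by
  have := gauss_integral g hg t ht 0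
  have e : qf (gᵀ * g)⁻¹ (zc (0 : Fin n → ℤ)) = 0 := by
    have : zc (0 : Fin n → ℤ) = 0 := by ext i; simp [zc]
    rw [this]; simp [qf]
  rw [e] at this
  simpa [cos_zero_ip] using this

/-- first half: `Zf P * f_V ≤ C₃`. -/
lemma half1 (g : Matrix (Fin n) (Fin n) ℝ) (hg : g.det ≠ 0) (V : Finset (Fin n → ℤ)) (hV : ∀ v ∈ V, -v ∈ V) :
    Zf (gᵀ * g) * ∑ v ∈ V, Real.exp (-Real.pi * qf (gᵀ * g) (zc v)) ≤ |g.det⁻¹| := by
  set P := gᵀ * g with hPdef
  have hI : Integrable (fun x : Fin n → ℝ => Real.exp (-Real.pi * qf P x)) := gauss_integrable0 g hg Real.pi Real.pi_pos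
  have hv : ∫ x : Fin n → ℝ, Real.exp (-Real.pi * qf P x) = |g.det⁻¹| := by
    rw [hPdef, gauss_integral0 g hg Real.pi Real.pi_pos, div_self Real.pi_ne_zero, Real.one_rpow, mul_one]
  set f := ∑ v ∈ V, Real.exp (-Real.pi * qf P (zc v)) with hf
  rw [Zf_eq, ← integral_mul_const, ← hv]
  have hcont : ∀ v : Fin n → ℤ, Continuous fun u => Real.exp (-Real.pi * qf P (u + zc v)) := by
    intro v
    have := continuous_qf P
    fun_prop
  rw [integral_eq_lintegral_of_nonneg_ae (Filter.Eventually.of_forall fun x => by positivity)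
    (((measurable_dsq P).const_mul _).exp.mul_const _).aestronglyMeasurable]
  rw [integral_eq_lintegral_of_nonneg_ae (Filter.Eventually.of_forall fun x => by positivity) hI.aestronglyMeasurable]
  apply ENNReal.toReal_mono
  · exact hI.lintegral_lt_top.ne
  rw [lintegral_cub, ← lintegral_tsum (fun v => ((hcont v).measurable.ennreal_ofReal).aemeasurable)]
  refine lintegral_mono fun u => ?_
  exact theta_lower P V hV u

lemma intOn_bdd {f : (Fin n → ℝ) → ℝ} (hf : Continuous f) (C : ℝ) (hC : ∀ x, |f x| ≤ C) :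
    Integrable f ((volume : Measure (Fin n → ℝ)).restrict (cub (0 : Fin n → ℤ))) := by
  have := isFinite_cub (n := n)
  exact Integrable.of_bound hf.aestronglyMeasurable C (Filter.Eventually.of_forall hC)

/-- `∫_cub k_V² ≤ C₂ f_{V-V}` -/
lemma sq_bound (g : Matrix (Fin n) (Fin n) ℝ) (hg : g.det ≠ 0) (V W : Finset (Fin n → ℤ))
    (hW : ∀ v ∈ V, ∀ w ∈ V, w - v ∈ W) :
    ∑ v ∈ V, ∑ w ∈ V, ∫ u in cub (0 : Fin n → ℤ), Real.exp (-(2 * Real.pi) * qf (gᵀ * g) (u + zc v)) * Real.exp (-(2 * Real.pi) * qf (gᵀ * g) (u + zc w))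
      ≤ (|g.det⁻¹| * (1 / 4 : ℝ) ^ ((n : ℝ) / 2)) * ∑ d ∈ W, Real.exp (-Real.pi * qf (gᵀ * g) (zc d)) := by
  set P := gᵀ * g with hPdef
  have hI : Integrable (fun x : Fin n → ℝ => Real.exp (-(4 * Real.pi) * qf P x)) := gauss_integrable0 g hg _ (by positivity)
  have hv : ∫ x : Fin n → ℝ, Real.exp (-(4 * Real.pi) * qf P x) = |g.det⁻¹| * (1 / 4 : ℝ) ^ ((n : ℝ) / 2) := by
    rw [hPdef, gauss_integral0 g hg _ (by positivity)]
    congr 2
    field_simp
  -- the two-parameter quantity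
  let T : (Fin n → ℤ) → (Fin n → ℤ) → ℝ := fun v d =>
    Real.exp (-Real.pi * qf P (zc d)) * ∫ u in cub (0 : Fin n → ℤ), Real.exp (-(4 * Real.pi) * qf P ((u + zc v) + (2 : ℝ)⁻¹ • zc d))
  have hT0 : ∀ v d, 0 ≤ T v d := fun v d => mul_nonneg (Real.exp_pos _).le (integral_nonneg fun _ => (Real.exp_pos _).le)
  have hterm : ∀ v w, ∫ u in cub (0 : Fin n → ℤ), Real.exp (-(2 * Real.pi) * qf P (u + zc v)) * Real.exp (-(2 * Real.pi) * qf P (u + zc w)) = T v (w - v) := by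
    intro v w
    simp only [T]
    rw [← integral_const_mul]
    refine integral_congr_ae (Filter.Eventually.of_forall fun u => ?_)
    simp only
    rw [← Real.exp_add, ← Real.exp_add]
    congr 1
    have e : u + zc w = (u + zc v) + zc (w - v) := by rw [zc_sub]; abel
    rw [e]
    have := qf_par P (u + zc v) (zc (w - v))
    linear_combination (-Real.pi) * this
  have h1 : ∀ v ∈ V, ∑ w ∈ V, T v (w - v) ≤ ∑ d ∈ W, T v d := by
    intro v hvV
    have : ∑ w ∈ V, T v (w - v) = ∑ d ∈ V.image (fun w => w - v), T v d := by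
      rw [Finset.sum_image]
      intro a _ b _ hab
      exact sub_left_injective hab
    rw [this]
    refine Finset.sum_le_sum_of_subset_of_nonneg ?_ (fun d _ _ => hT0 v d)
    intro d hd
    rw [Finset.mem_image] at hd
    obtain ⟨w, hw, rfl⟩ := hd
    exact hW v hvV w hw
  calc ∑ v ∈ V, ∑ w ∈ V, ∫ u in cub (0 : Fin n → ℤ), Real.exp (-(2 * Real.pi) * qf P (u + zc v)) * Real.exp (-(2 * Real.pi) * qf P (u + zc w))
      = ∑ v ∈ V, ∑ w ∈ V, T v (w - v) := Finset.sum_congr rfl fun v _ => Finset.sum_congr rfl fun w _ => hterm v w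
    _ ≤ ∑ v ∈ V, ∑ d ∈ W, T v d := Finset.sum_le_sum h1
    _ = ∑ d ∈ W, ∑ v ∈ V, T v d := Finset.sum_comm
    _ ≤ ∑ d ∈ W, (|g.det⁻¹| * (1 / 4 : ℝ) ^ ((n : ℝ) / 2)) * Real.exp (-Real.pi * qf P (zc d)) := by
        refine Finset.sum_le_sum fun d _ => ?_
        simp only [T]
        rw [← Finset.mul_sum, mul_comm]
        refine mul_le_mul_of_nonneg_right ?_ (Real.exp_pos _).le
        rw [← hv, ← integral_add_right_eq_self (fun x : Fin n → ℝ => Real.exp (-(4 * Real.pi) * qf P x)) ((2 : ℝ)⁻¹ • zc d)]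
        exact sum_le_hasSum V (fun v _ => integral_nonneg fun _ => (Real.exp_pos _).le)
          (hasSum_cub (fun x : Fin n → ℝ => Real.exp (-(4 * Real.pi) * qf P (x + (2 : ℝ)⁻¹ • zc d))) (hI.comp_add_right _))
    _ = _ := by rw [Finset.mul_sum]

/-- Bessel's inequality in explicit form. -/
lemma bessel (F : (Fin n → ℝ) → ℝ) (hF : Continuous F) (hF1 : ∀ x, |F x| ≤ 1) (V S : Finset (Fin n → ℤ)) (a : (Fin n → ℤ) → ℝ) :
    ∑ z ∈ S, a z * (2 * (∑ v ∈ V, ∫ u in cub (0 : Fin n → ℤ), F (u + zc v) * Real.cos (2 * Real.pi * ip z u)) - a z)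
      ≤ ∑ v ∈ V, ∑ w ∈ V, ∫ u in cub (0 : Fin n → ℤ), F (u + zc v) * F (u + zc w) := by
  set μ := (volume : Measure (Fin n → ℝ)).restrict (cub (0 : Fin n → ℤ)) with hμ
  have hcos : ∀ z : Fin n → ℤ, Continuous fun u => Real.cos (2 * Real.pi * ip z u) := fun z => by
    have := continuous_ip z
    fun_prop
  have hFs : ∀ v : Fin n → ℤ, Continuous fun u => F (u + zc v) := fun v => by fun_prop
  have i1 : ∀ v w : Fin n → ℤ, Integrable (fun u => F (u + zc v) * F (u + zc w)) μ := fun v w =>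
    intOn_bdd ((hFs v).mul (hFs w)) 1 fun x => by
      rw [abs_mul]; exact mul_le_one₀ (hF1 _) (abs_nonneg _) (hF1 _)
  have i2 : ∀ v z : Fin n → ℤ, Integrable (fun u => F (u + zc v) * Real.cos (2 * Real.pi * ip z u)) μ := fun v z =>
    intOn_bdd ((hFs v).mul (hcos z)) 1 fun x => by
      rw [abs_mul]; exact mul_le_one₀ (hF1 _) (abs_nonneg _) (Real.abs_cos_le_one _)
  have i3 : ∀ z : Fin n → ℤ, Integrable (fun u => Real.cos (2 * Real.pi * ip z u)) μ := fun z =>
    intOn_bdd (hcos z) 1 fun x => Real.abs_cos_le_one _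
  -- pointwise nonnegativity
  have hpt : ∀ u : Fin n → ℝ, 0 ≤ (∑ v ∈ V, ∑ w ∈ V, F (u + zc v) * F (u + zc w))
      - 2 * (∑ z ∈ S, a z * ∑ v ∈ V, F (u + zc v) * Real.cos (2 * Real.pi * ip z u))
      + ∑ z ∈ S, ∑ z' ∈ S, (a z * a z') * Real.cos (2 * Real.pi * ip (z - z') u) := by
    intro u
    have e1 : ∑ v ∈ V, ∑ w ∈ V, F (u + zc v) * F (u + zc w) = (∑ v ∈ V, F (u + zc v)) ^ 2 := by
      rw [sq, Finset.sum_mul_sum]
    have e2 : ∑ z ∈ S, a z * ∑ v ∈ V, F (u + zc v) * Real.cos (2 * Real.pi * ip z u)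
        = (∑ v ∈ V, F (u + zc v)) * ∑ z ∈ S, a z * Real.cos (2 * Real.pi * ip z u) := by
      rw [Finset.mul_sum]
      refine Finset.sum_congr rfl fun z _ => ?_
      rw [← Finset.sum_mul]
      ring
    have e3 : ∑ z ∈ S, ∑ z' ∈ S, (a z * a z') * Real.cos (2 * Real.pi * ip (z - z') u)
        = (∑ z ∈ S, a z * Real.cos (2 * Real.pi * ip z u)) ^ 2 + (∑ z ∈ S, a z * Real.sin (2 * Real.pi * ip z u)) ^ 2 := by
      rw [sq, sq, Finset.sum_mul_sum, Finset.sum_mul_sum, ← Finset.sum_add_distrib]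
      refine Finset.sum_congr rfl fun z _ => ?_
      rw [← Finset.sum_add_distrib]
      refine Finset.sum_congr rfl fun z' _ => ?_
      have : 2 * Real.pi * ip (z - z') u = 2 * Real.pi * ip z u - 2 * Real.pi * ip z' u := by
        simp only [ip, Pi.sub_apply, Int.cast_sub, sub_mul, Finset.sum_sub_distrib]
        ring
      rw [this, Real.cos_sub]
      ring
    rw [e1, e2, e3]
    nlinarith [sq_nonneg ((∑ v ∈ V, F (u + zc v)) - ∑ z ∈ S, a z * Real.cos (2 * Real.pi * ip z u)), sq_nonneg (∑ z ∈ S, a z * Real.sin (2 * Real.pi * ip z u))]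
  have hint := integral_nonneg_of_ae (μ := μ) (Filter.Eventually.of_forall hpt)
  have j1 : Integrable (fun u => ∑ v ∈ V, ∑ w ∈ V, F (u + zc v) * F (u + zc w)) μ :=
    integrable_finsetSum _ fun v _ => integrable_finsetSum _ fun w _ => i1 v w
  have j2 : Integrable (fun u => 2 * (∑ z ∈ S, a z * ∑ v ∈ V, F (u + zc v) * Real.cos (2 * Real.pi * ip z u))) μ :=
    (integrable_finsetSum _ fun z _ => (integrable_finsetSum _ fun v _ => i2 v z).const_mul _).const_mul _
  have j3 : Integrable (fun u => ∑ z ∈ S, ∑ z' ∈ S, (a z * a z') * Real.cos (2 * Real.pi * ip (z - z') u)) μ :=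
    integrable_finsetSum _ fun z _ => integrable_finsetSum _ fun z' _ => (i3 _).const_mul _
  have j12 : Integrable (fun u => (∑ v ∈ V, ∑ w ∈ V, F (u + zc v) * F (u + zc w))
      - 2 * (∑ z ∈ S, a z * ∑ v ∈ V, F (u + zc v) * Real.cos (2 * Real.pi * ip z u))) μ := j1.sub j2
  have s1 : ∫ u, ((∑ v ∈ V, ∑ w ∈ V, F (u + zc v) * F (u + zc w))
      - 2 * (∑ z ∈ S, a z * ∑ v ∈ V, F (u + zc v) * Real.cos (2 * Real.pi * ip z u))
      + ∑ z ∈ S, ∑ z' ∈ S, (a z * a z') * Real.cos (2 * Real.pi * ip (z - z') u)) ∂μ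
      = (∑ v ∈ V, ∑ w ∈ V, ∫ u, F (u + zc v) * F (u + zc w) ∂μ)
        - 2 * (∑ z ∈ S, a z * ∑ v ∈ V, ∫ u, F (u + zc v) * Real.cos (2 * Real.pi * ip z u) ∂μ)
        + ∑ z ∈ S, a z * a z := by
    rw [integral_add j12 j3, integral_sub j1 j2]
    congr 1
    · congr 1
      · rw [integral_finsetSum _ fun v _ => integrable_finsetSum _ fun w _ => i1 v w]
        refine Finset.sum_congr rfl fun v _ => ?_
        rw [integral_finsetSum _ fun w _ => i1 v w]
      · rw [integral_const_mul, integral_finsetSum _ fun z _ => (integrable_finsetSum _ fun v _ => i2 v z).const_mul _]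
        congr 1
        refine Finset.sum_congr rfl fun z _ => ?_
        rw [integral_const_mul, integral_finsetSum _ fun v _ => i2 v z]
    · rw [integral_finsetSum _ fun z _ => integrable_finsetSum _ fun z' _ => (i3 _).const_mul _]
      refine Finset.sum_congr rfl fun z hz => ?_
      rw [integral_finsetSum _ fun z' _ => (i3 _).const_mul _]
      have : ∀ z' ∈ S, ∫ u, (a z * a z') * Real.cos (2 * Real.pi * ip (z - z') u) ∂μ = if z = z' then a z * a z' else 0 := by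
        intro z' _
        rw [integral_const_mul, integral_cos]
        by_cases h : z = z'
        · simp [h]
        · simp [h, sub_eq_zero]
      rw [Finset.sum_congr rfl this, Finset.sum_ite_eq]
      simp [hz]
  rw [s1] at hint
  have s2 : ∑ z ∈ S, a z * (2 * (∑ v ∈ V, ∫ u, F (u + zc v) * Real.cos (2 * Real.pi * ip z u) ∂μ) - a z)
      = 2 * (∑ z ∈ S, a z * ∑ v ∈ V, ∫ u, F (u + zc v) * Real.cos (2 * Real.pi * ip z u) ∂μ) - ∑ z ∈ S, a z * a z := by
    rw [Finset.mul_sum, ← Finset.sum_sub_distrib]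
    refine Finset.sum_congr rfl fun z _ => ?_
    ring
  rw [s2]
  linarith

theorem main (g : Matrix (Fin n) (Fin n) ℝ) (hg : g.det ≠ 0) (hP : (gᵀ * g).PosDef) (S : Finset (Fin n → ℤ)) :
    (∑ z ∈ S, Real.exp (-Real.pi * qf (gᵀ * g)⁻¹ (zc z))) * Zf (gᵀ * g) ≤ 1 := by
  set P := gᵀ * g with hPdef
  set F : (Fin n → ℝ) → ℝ := fun x => Real.exp (-(2 * Real.pi) * qf P x) with hF
  have hFc : Continuous F := by
    have := continuous_qf P
    simp only [hF]
    fun_prop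
  have hF1 : ∀ x, |F x| ≤ 1 := by
    intro x
    simp only [hF]
    rw [abs_of_pos (Real.exp_pos _), Real.exp_le_one_iff]
    have := qf_nonneg hP x
    have := Real.pi_pos
    nlinarith
  set C₁ : ℝ := |g.det⁻¹| * (1 / 2 : ℝ) ^ ((n : ℝ) / 2) with hC₁
  have hdet : 0 < |g.det⁻¹| := abs_pos.2 (inv_ne_zero hg)
  have hC₁0 : 0 < C₁ := by positivity
  have hCC : (|g.det⁻¹| * (1 / 4 : ℝ) ^ ((n : ℝ) / 2)) * |g.det⁻¹| = C₁ ^ 2 := by
    rw [hC₁, mul_pow, ← Real.rpow_natCast ((1 / 2 : ℝ) ^ ((n : ℝ) / 2)) 2, ← Real.rpow_mul (by norm_num)]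
    have : (1 / 4 : ℝ) = (1 / 2 : ℝ) ^ (2 : ℝ) := by norm_num
    rw [this, ← Real.rpow_mul (by norm_num)]
    have e : (2 : ℝ) * ((n : ℝ) / 2) = (n : ℝ) / 2 * ((2 : ℕ) : ℝ) := by push_cast; ring
    rw [e]
    ring
  set a : (Fin n → ℤ) → ℝ := fun z => C₁ * Real.exp (-(Real.pi / 2) * qf P⁻¹ (zc z)) with ha
  have haint : ∀ z : Fin n → ℤ, ∫ x : Fin n → ℝ, F x * Real.cos (2 * Real.pi * ip z x) = a z := by
    intro z
    have := gauss_integral g hg (2 * Real.pi) (by positivity) z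
    simp only [hF, ha, hC₁, hPdef]
    rw [this]
    congr 1
    · congr 2
      field_simp
    · congr 2
      field_simp
  have hhs : ∀ z : Fin n → ℤ, HasSum (fun v : Fin n → ℤ => ∫ u in cub (0 : Fin n → ℤ), F (u + zc v) * Real.cos (2 * Real.pi * ip z u)) (a z) := by
    intro z
    have h := hasSum_cub (fun x : Fin n → ℝ => F x * Real.cos (2 * Real.pi * ip z x)) (gauss_integrable g hg (2 * Real.pi) (by positivity) z)
    rw [haint z] at h
    simp only [cos_shift] at h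
    exact h
  have hZ0 := Zf_nonneg P
  -- inequality for every finite V
  have hV : ∀ V : Finset (Fin n → ℤ),
      Zf P * ∑ z ∈ S, a z * (2 * (∑ v ∈ V, ∫ u in cub (0 : Fin n → ℤ), F (u + zc v) * Real.cos (2 * Real.pi * ip z u)) - a z) ≤ C₁ ^ 2 := by
    intro V
    classical
    set W : Finset (Fin n → ℤ) := (V ×ˢ V).image (fun p => p.2 - p.1) with hW
    have hWs : ∀ v ∈ W, -v ∈ W := by
      intro v hv
      rw [hW, Finset.mem_image] at hv ⊢
      obtain ⟨p, hp, rfl⟩ := hv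
      rw [Finset.mem_product] at hp
      exact ⟨(p.2, p.1), by rw [Finset.mem_product]; exact ⟨hp.2, hp.1⟩, by simp⟩
    have hWV : ∀ v ∈ V, ∀ w ∈ V, w - v ∈ W := fun v hv w hw => by
      rw [hW, Finset.mem_image]
      exact ⟨(v, w), by rw [Finset.mem_product]; exact ⟨hv, hw⟩, rfl⟩
    have b1 := bessel F hFc hF1 V S a
    have b2 := sq_bound g hg V W hWV
    have b3 := half1 g hg W hWs
    calc Zf P * ∑ z ∈ S, a z * (2 * (∑ v ∈ V, ∫ u in cub (0 : Fin n → ℤ), F (u + zc v) * Real.cos (2 * Real.pi * ip z u)) - a z)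
        ≤ Zf P * ((|g.det⁻¹| * (1 / 4 : ℝ) ^ ((n : ℝ) / 2)) * ∑ d ∈ W, Real.exp (-Real.pi * qf P (zc d))) :=
          mul_le_mul_of_nonneg_left (b1.trans b2) hZ0
      _ = (|g.det⁻¹| * (1 / 4 : ℝ) ^ ((n : ℝ) / 2)) * (Zf P * ∑ d ∈ W, Real.exp (-Real.pi * qf P (zc d))) := by ring
      _ ≤ (|g.det⁻¹| * (1 / 4 : ℝ) ^ ((n : ℝ) / 2)) * |g.det⁻¹| := mul_le_mul_of_nonneg_left b3 (by positivity)
      _ = C₁ ^ 2 := hCC
  have hlim : Filter.Tendsto (fun V : Finset (Fin n → ℤ) => Zf P * ∑ z ∈ S, a z * (2 * (∑ v ∈ V, ∫ u in cub (0 : Fin n → ℤ), F (u + zc v) * Real.cos (2 * Real.pi * ip z u)) - a z)) Filter.atTop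
      (nhds (Zf P * ∑ z ∈ S, a z * (2 * a z - a z))) := by
    refine Filter.Tendsto.const_mul _ (tendsto_finsetSum _ fun z _ => ?_)
    exact Filter.Tendsto.const_mul _ (((hhs z).const_mul 2).sub_const _)
  have hfin := le_of_tendsto' hlim hV
  have hsum : ∑ z ∈ S, a z * (2 * a z - a z) = C₁ ^ 2 * ∑ z ∈ S, Real.exp (-Real.pi * qf P⁻¹ (zc z)) := by
    rw [Finset.mul_sum]
    refine Finset.sum_congr rfl fun z _ => ?_
    simp only [ha]
    have : Real.exp (-Real.pi * qf P⁻¹ (zc z)) = Real.exp (-(Real.pi / 2) * qf P⁻¹ (zc z)) * Real.exp (-(Real.pi / 2) * qf P⁻¹ (zc z)) := by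
      rw [← Real.exp_add]; ring_nf
    rw [this]
    ring
  rw [hsum] at hfin
  have hC2 : 0 < C₁ ^ 2 := by positivity
  have : C₁ ^ 2 * ((∑ z ∈ S, Real.exp (-Real.pi * qf P⁻¹ (zc z))) * Zf P) ≤ C₁ ^ 2 * 1 := by
    rw [mul_one]
    refine le_trans (le_of_eq ?_) hfin
    ring
  exact le_of_mul_le_mul_left this hC2

end LA9Aux

/-- LA9: Poisson summation consequence. -/
theorem LA9 : Stmt_LA9 := by
  intro n Q hQ s hs S
  have hs2 : 0 < (s ^ 2)⁻¹ := by positivity
  have hP : ((s ^ 2)⁻¹ • Q⁻¹).PosDef := hQ.inv.smul hs2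
  obtain ⟨g, hg, hPg⟩ := LA9Aux.exists_factor hP
  have hPg' : (gᵀ * g).PosDef := hPg ▸ hP
  have h := LA9Aux.main g hg hPg' S
  rw [← hPg] at h
  refine le_trans (le_of_eq ?_) h
  congr 1
  refine Finset.sum_congr rfl fun z _ => ?_
  have hinv : ((s ^ 2)⁻¹ • Q⁻¹)⁻¹ = (s ^ 2) • Q := by
    apply Matrix.inv_eq_left_inv
    rw [Matrix.smul_mul, Matrix.mul_smul, smul_smul, mul_inv_cancel₀ (by positivity), one_smul]
    exact Matrix.mul_nonsing_inv _ (isUnit_iff_ne_zero.2 hQ.det_pos.ne')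
  rw [hinv]
  congr 1
  simp only [qf, Matrix.smul_mulVec, dotProduct_smul, smul_eq_mul]
  ring

end Pool.Agent.RevMink
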