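import Pool.Agent.RevMink.Defs

/-!
Module RM (helper91): final assembly of the reverse Minkowski theorem with polynomial slack.
-/

set_option autoImplicit false

open MeasureTheory ProbabilityTheory Matrix

namespace Pool.Agent.RevMink

theorem rm_of (h7 : Stmt_LA7) (h8 : Stmt_LA8) (h9 : Stmt_LA9) : Stmt_RM := by
  intro c' hc'
  obtain ⟨C, hC, hmain⟩ := h7 c' hc'
  refine ⟨C, hC, ?_⟩
  intro n hn Q hQ hsp s hs r S hS
  have hs0 : 0 < s := by linarith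
  have h1 := hmain n hn Q⁻¹ hQ.inv (h8 n Q hQ hsp) s hs
  have h2 := h9 n Q hQ s hs0 S
  set Z := Zf ((s ^ 2)⁻¹ • Q⁻¹) with hZ
  have hZ0 : 0 < Z := lt_of_lt_of_le (Real.exp_pos _) h1
  have h3 : (S.card : ℝ) * Real.exp (-Real.pi * s ^ 2 * r ^ 2) ≤
      ∑ z ∈ S, Real.exp (-Real.pi * s ^ 2 * qf Q (zc z)) := by
    rw [← nsmul_eq_mul, ← Finset.sum_const]
    apply Finset.sum_le_sum
    intro z hz
    apply Real.exp_le_exp.mpr
    have := hS z hz
    have h4 : 0 ≤ Real.pi * s ^ 2 := by positivity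
    nlinarith
  have h4 : (S.card : ℝ) * Real.exp (-Real.pi * s ^ 2 * r ^ 2) * Z ≤ 1 :=
    (mul_le_mul_of_nonneg_right h3 hZ0.le).trans h2
  have h5 : (S.card : ℝ) * Real.exp (-Real.pi * s ^ 2 * r ^ 2) *
      Real.exp (-(C * (n : ℝ) ^ (1 + c') / s)) ≤ 1 :=
    le_trans (mul_le_mul_of_nonneg_left h1 (by positivity)) h4
  rw [mul_assoc, ← Real.exp_add] at h5
  have h6 : Real.exp (-Real.pi * s ^ 2 * r ^ 2 + -(C * (n : ℝ) ^ (1 + c') / s)) =
      (Real.exp (Real.pi * s ^ 2 * r ^ 2 + C * (n : ℝ) ^ (1 + c') / s))⁻¹ := by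
    rw [← Real.exp_neg]; congr 1; ring
  rw [h6] at h5
  rwa [← div_eq_mul_inv, div_le_one (Real.exp_pos _)] at h5

end Pool.Agent.RevMink
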