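import Pool.Agent.RevMink.KP
import Pool.Agent.RevMink.KP2
import Pool.Agent.RevMink.KP5
import Pool.Agent.RevMink.LA1
import Pool.Agent.RevMink.LA2
import Pool.Agent.RevMink.LA3
import Pool.Agent.RevMink.LA4
import Pool.Agent.RevMink.LA5
import Pool.Agent.RevMink.LA6
import Pool.Agent.RevMink.LA7
import Pool.Agent.RevMink.LA8
import Pool.Agent.RevMink.LA9
import Pool.Agent.RevMink.RM

/-!
# Reverse Minkowski with polynomial slack: final theorem
-/

set_option autoImplicit false

namespace Pool.Agent.RevMink

/-- Reverse Minkowski theorem with polynomial slack. -/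
theorem rm : Stmt_RM :=
  rm_of (la7 la1 la1b (la2 la4) (la3 la1) la4 la5 (la6 (kp kp2 kp5))) la8 LA9

end Pool.Agent.RevMink
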