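import Pool.Agent.RevMink.Defs

/-!
# Density, symmetry, shifts and moments of the standard Gaussian measure on `E n`
-/

set_option autoImplicit false

open MeasureTheory ProbabilityTheory
open scoped RealInnerProductSpace ENNReal

namespace Pool.Agent.RevMink.Gauss

/-- the Gaussian density -/
noncomputable def rho (n : ℕ) (x : E n) : ℝ :=
  (2 * Real.pi) ^ (-((n : ℝ) / 2)) * Real.exp (-(1 / 2) * ‖x‖ ^ 2)

lemma rho_pos (n : ℕ) (x : E n) : 0 < rho n x := by
  unfold rho
  positivity

lemma rho_nonneg (n : ℕ) (x : E n) : 0 ≤ rho n x := (rho_pos n x).le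

lemma continuous_rho (n : ℕ) : Continuous (rho n) := by
  unfold rho
  fun_prop

lemma rho_neg (n : ℕ) (x : E n) : rho n (-x) = rho n x := by
  unfold rho
  rw [norm_neg]

/-- the density is at most `(2π)^{-n/2}` -/
lemma rho_le (n : ℕ) (x : E n) : rho n x ≤ (2 * Real.pi) ^ (-((n : ℝ) / 2)) := by
  unfold rho
  have h1 : Real.exp (-(1 / 2) * ‖x‖ ^ 2) ≤ 1 := by
    rw [Real.exp_le_one_iff]
    nlinarith [sq_nonneg ‖x‖]
  exact mul_le_of_le_one_right (by positivity) h1

lemma integrable_rho (n : ℕ) : Integrable (rho n) := by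
  have h := GaussianFourier.integrable_cexp_neg_mul_sq_norm_add (V := E n) (b := (1 / 2 : ℂ))
    (by norm_num) 0 0
  have h2 := h.re
  have h3 : (fun v : E n => RCLike.re (Complex.exp (-(1 / 2) * ‖v‖ ^ 2 + 0 * ⟪(0 : E n), v⟫))) =
      fun v : E n => Real.exp (-(1 / 2) * ‖v‖ ^ 2) := by
    ext v
    have : (-(1 / 2) * (‖v‖ : ℂ) ^ 2 + 0 * ((⟪(0 : E n), v⟫ : ℝ) : ℂ)) =
        ((-(1 / 2) * ‖v‖ ^ 2 : ℝ) : ℂ) := by
      push_cast; ring
    rw [this, ← Complex.ofReal_exp]
    exact Complex.ofReal_re _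
  rw [h3] at h2
  exact h2.const_mul _

/-- **density of the standard Gaussian measure** -/
theorem gam_eq (n : ℕ) : gam n = volume.withDensity (fun x => ENNReal.ofReal (rho n x)) := by
  have hfin : IsFiniteMeasure (volume.withDensity (fun x : E n => ENNReal.ofReal (rho n x))) :=
    isFiniteMeasure_withDensity_ofReal (integrable_rho n).2
  apply Measure.ext_of_charFun
  ext t
  rw [charFun_stdGaussian, charFun_apply,
    integral_withDensity_eq_integral_toReal_smul
      (continuous_rho n).measurable.ennreal_ofReal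
      (Filter.Eventually.of_forall fun x => ENNReal.ofReal_lt_top)]
  have h1 : ∀ x : E n, (ENNReal.ofReal (rho n x)).toReal • Complex.exp (⟪x, t⟫ * Complex.I) =
      ((2 * Real.pi) ^ (-((n : ℝ) / 2)) : ℝ) *
        Complex.exp (-(1 / 2) * ‖x‖ ^ 2 + Complex.I * ⟪t, x⟫) := by
    intro x
    rw [ENNReal.toReal_ofReal (rho_nonneg n x), Complex.real_smul]
    unfold rho
    rw [Complex.ofReal_mul, mul_assoc, Complex.ofReal_exp, ← Complex.exp_add, real_inner_comm]
    congr 2
    push_cast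
    ring
  simp only [h1]
  rw [integral_const_mul, GaussianFourier.integral_cexp_neg_mul_sq_norm_add (by norm_num)]
  rw [finrank_euclideanSpace_fin]
  have h2 : (Real.pi / (1 / 2 : ℂ)) ^ ((n : ℂ) / 2) =
      (((2 * Real.pi) ^ ((n : ℝ) / 2) : ℝ) : ℂ) := by
    rw [Complex.ofReal_cpow (by positivity)]
    push_cast
    congr 1
    ring
  rw [h2, ← mul_assoc, ← Complex.ofReal_mul, ← Real.rpow_add (by positivity)]
  simp only [neg_add_cancel, Real.rpow_zero, Complex.ofReal_one, one_mul]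
  congr 1
  rw [Complex.I_sq]
  ring

lemma gam_apply (n : ℕ) {s : Set (E n)} (hs : MeasurableSet s) :
    gam n s = ∫⁻ x in s, ENNReal.ofReal (rho n x) := by
  rw [gam_eq, withDensity_apply _ hs]

/-- shift lower bound for symmetric sets -/
theorem gam_shift (n : ℕ) (u : E n) {s : Set (E n)} (hs : MeasurableSet s)
    (hsym : ∀ x ∈ s, -x ∈ s) :
    ENNReal.ofReal (Real.exp (-(1 / 2) * ‖u‖ ^ 2)) * gam n s ≤ gam n ((fun x => x - u) ⁻¹' s) := by
  have hmeas : MeasurableSet ((fun x : E n => x - u) ⁻¹' s) := by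
    exact (measurable_id.sub_const u) hs
  have e1 : gam n ((fun x => x - u) ⁻¹' s) = ∫⁻ y in s, ENNReal.ofReal (rho n (y + u)) := by
    rw [gam_apply n hmeas, ← lintegral_indicator hmeas, ← lintegral_indicator hs]
    rw [← lintegral_add_right_eq_self (μ := (volume : Measure (E n))) _ u]
    refine lintegral_congr fun y => ?_
    by_cases hy : y ∈ s
    · rw [Set.indicator_of_mem, Set.indicator_of_mem hy]
      simpa using hy
    · rw [Set.indicator_of_notMem, Set.indicator_of_notMem hy]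
      simpa using hy
  have hneg : (fun x : E n => -x) ⁻¹' s = s := by
    ext x
    constructor
    · intro hx
      have := hsym _ hx
      simpa using this
    · intro hx
      exact hsym _ hx
  have e2 : ∫⁻ y in s, ENNReal.ofReal (rho n (y + u)) = ∫⁻ y in s, ENNReal.ofReal (rho n (y - u)) := by
    rw [← lintegral_indicator hs, ← lintegral_indicator hs]
    rw [← lintegral_neg_eq_self (μ := (volume : Measure (E n)))]
    refine lintegral_congr fun y => ?_
    by_cases hy : y ∈ s
    · rw [Set.indicator_of_mem (hsym y hy), Set.indicator_of_mem hy, ← rho_neg]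
      congr 2
      abel
    · have hy' : -y ∉ s := fun h => hy (by simpa using hsym _ h)
      rw [Set.indicator_of_notMem hy', Set.indicator_of_notMem hy]
  have e3 : ∀ y : E n, 2 * (Real.exp (-(1 / 2) * ‖u‖ ^ 2) * rho n y) ≤
      rho n (y + u) + rho n (y - u) := by
    intro y
    unfold rho
    rw [← mul_add]
    have h1 : ‖y + u‖ ^ 2 = ‖y‖ ^ 2 + 2 * ⟪y, u⟫ + ‖u‖ ^ 2 := norm_add_sq_real y u
    have h2 : ‖y - u‖ ^ 2 = ‖y‖ ^ 2 - 2 * ⟪y, u⟫ + ‖u‖ ^ 2 := norm_sub_sq_real y u
    have h3 : Real.exp (-(1 / 2) * ‖y + u‖ ^ 2) =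
        Real.exp (-(1 / 2) * ‖u‖ ^ 2) * Real.exp (-(1 / 2) * ‖y‖ ^ 2) * Real.exp (-⟪y, u⟫) := by
      rw [← Real.exp_add, ← Real.exp_add, h1]; congr 1; ring
    have h4 : Real.exp (-(1 / 2) * ‖y - u‖ ^ 2) =
        Real.exp (-(1 / 2) * ‖u‖ ^ 2) * Real.exp (-(1 / 2) * ‖y‖ ^ 2) * Real.exp ⟪y, u⟫ := by
      rw [← Real.exp_add, ← Real.exp_add, h2]; congr 1; ring
    rw [h3, h4]
    have h5 : 2 ≤ Real.exp (-⟪y, u⟫) + Real.exp ⟪y, u⟫ := by
      have ha := Real.add_one_le_exp (-⟪y, u⟫)
      have hb := Real.add_one_le_exp ⟪y, u⟫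
      linarith
    have h6 : 0 ≤ (2 * Real.pi) ^ (-((n : ℝ) / 2)) *
        (Real.exp (-(1 / 2) * ‖u‖ ^ 2) * Real.exp (-(1 / 2) * ‖y‖ ^ 2)) := by positivity
    nlinarith [mul_le_mul_of_nonneg_left h5 h6]
  have e4 : 2 * (ENNReal.ofReal (Real.exp (-(1 / 2) * ‖u‖ ^ 2)) * gam n s) ≤
      2 * gam n ((fun x => x - u) ⁻¹' s) := by
    calc 2 * (ENNReal.ofReal (Real.exp (-(1 / 2) * ‖u‖ ^ 2)) * gam n s)
        = ∫⁻ y in s, ENNReal.ofReal (2 * (Real.exp (-(1 / 2) * ‖u‖ ^ 2) * rho n y)) := by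
          rw [gam_apply n hs, ← lintegral_const_mul _ (continuous_rho n).measurable.ennreal_ofReal,
            ← lintegral_const_mul _ (by
              exact ((continuous_rho n).measurable.ennreal_ofReal).const_mul _)]
          refine lintegral_congr fun y => ?_
          rw [ENNReal.ofReal_mul (by norm_num), ENNReal.ofReal_mul (by positivity)]
          simp
      _ ≤ ∫⁻ y in s, ENNReal.ofReal (rho n (y + u) + rho n (y - u)) :=
          lintegral_mono fun y => ENNReal.ofReal_le_ofReal (e3 y)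
      _ = ∫⁻ y in s, (ENNReal.ofReal (rho n (y + u)) + ENNReal.ofReal (rho n (y - u))) := by
          refine lintegral_congr fun y => ?_
          rw [ENNReal.ofReal_add (rho_nonneg _ _) (rho_nonneg _ _)]
      _ = 2 * gam n ((fun x => x - u) ⁻¹' s) := by
          rw [lintegral_add_left (by
            exact ((continuous_rho n).comp (continuous_id.add continuous_const)).measurable.ennreal_ofReal)]
          rw [← e2, ← e1, two_mul]
  exact (ENNReal.mul_le_mul_iff_right (by norm_num) (by norm_num)).mp e4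

lemma integrable_norm (n : ℕ) : Integrable (fun x : E n => ‖x‖) (gam n) :=
  (IsGaussian.integrable_id (μ := gam n)).norm

lemma seminorm_sum_le {ι : Type*} (n : ℕ) (h : Seminorm ℝ (E n)) (s : Finset ι) (f : ι → E n) :
    h (∑ i ∈ s, f i) ≤ ∑ i ∈ s, h (f i) := by
  classical
  induction s using Finset.induction_on with
  | empty => simp
  | insert a s ha ih =>
    rw [Finset.sum_insert ha, Finset.sum_insert ha]
    exact (map_add_le_add h _ _).trans (add_le_add le_rfl ih)

lemma seminorm_le (n : ℕ) (h : Seminorm ℝ (E n)) :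
    ∃ C : ℝ, 0 < C ∧ ∀ x, h x ≤ C * ‖x‖ := by
  set b := EuclideanSpace.basisFun (Fin n) ℝ with hb
  refine ⟨(∑ i, h (b i)) + 1, ?_, fun x => ?_⟩
  · have : 0 ≤ ∑ i, h (b i) := Finset.sum_nonneg fun i _ => apply_nonneg h _
    linarith
  · have h1 : x = ∑ i, x i • b i := by
      have := (b.sum_repr x).symm
      simpa [hb] using this
    have h2 : h x ≤ ∑ i, |x i| * h (b i) := by
      conv_lhs => rw [h1]
      refine (seminorm_sum_le n h _ _).trans (le_of_eq ?_)
      refine Finset.sum_congr rfl fun i _ => ?_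
      rw [map_smul_eq_mul, Real.norm_eq_abs]
    refine h2.trans ?_
    have h3 : ∀ i, |x i| ≤ ‖x‖ := fun i => by
      have := EuclideanSpace.norm_eq x
      have h4 : |x i| ^ 2 ≤ ‖x‖ ^ 2 := by
        rw [EuclideanSpace.real_norm_sq_eq, sq_abs]
        exact Finset.single_le_sum (f := fun j => x j ^ 2) (fun j _ => sq_nonneg _)
          (Finset.mem_univ i)
      exact abs_le_of_sq_le_sq' h4 (norm_nonneg _)
    calc ∑ i, |x i| * h (b i) ≤ ∑ i, ‖x‖ * h (b i) :=
          Finset.sum_le_sum fun i _ => mul_le_mul_of_nonneg_right (h3 i) (apply_nonneg h _)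
      _ = (∑ i, h (b i)) * ‖x‖ := by rw [← Finset.mul_sum, mul_comm]
      _ ≤ ((∑ i, h (b i)) + 1) * ‖x‖ := by
          refine mul_le_mul_of_nonneg_right ?_ (norm_nonneg _)
          linarith
where
  abs_le_of_sq_le_sq' {a b : ℝ} (h : |a| ^ 2 ≤ b ^ 2) (hb : 0 ≤ b) : |a| ≤ b :=
    (sq_le_sq₀ (abs_nonneg a) hb).mp h

lemma continuous_seminorm (n : ℕ) (h : Seminorm ℝ (E n)) : Continuous h := by
  obtain ⟨C, hC, hle⟩ := seminorm_le n h
  have hL : ∀ x y, |h x - h y| ≤ C * ‖x - y‖ := by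
    intro x y
    exact (abs_sub_map_le_sub h x y).trans (hle _)
  refine (LipschitzWith.of_dist_le_mul (K := ⟨C, hC.le⟩) fun x y => ?_).continuous
  rw [Real.dist_eq, dist_eq_norm]
  exact hL x y

lemma integrable_seminorm (n : ℕ) (h : Seminorm ℝ (E n)) : Integrable h (gam n) := by
  obtain ⟨C, hC, hle⟩ := seminorm_le n h
  refine ((integrable_norm n).const_mul C).mono'
    (continuous_seminorm n h).aestronglyMeasurable ?_
  refine Filter.Eventually.of_forall fun x => ?_
  rw [Real.norm_of_nonneg (apply_nonneg h x)]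
  exact hle x

end Pool.Agent.RevMink.Gauss
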