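import Pool.Agent.RevMink.KP4

/-!
# KP: assembly of the key proposition
-/

set_option autoImplicit false

open MeasureTheory ProbabilityTheory
open scoped RealInnerProductSpace ENNReal

namespace Pool.Agent.RevMink

namespace KPAux

open KP1Aux

variable {n : ℕ}

/-- the standard basis -/
noncomputable abbrev e (n : ℕ) : OrthonormalBasis (Fin n) ℝ (E n) := EuclideanSpace.basisFun (Fin n) ℝ

/-- the transpose of `Amap` -/
noncomputable def Bm (F : (Fin n → Bool) → E n) (x : E n) : E n :=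
  ((2 : ℝ) ^ n)⁻¹ • ∑ w, ⟪F w, x⟫ • sv w

lemma Bm_inner (F : (Fin n → Bool) → E n) (x z : E n) : ⟪Bm F x, z⟫ = ⟪x, Amap F z⟫ := by
  unfold Bm Amap
  rw [real_inner_smul_left, real_inner_smul_right, sum_inner, inner_sum]
  congr 1
  refine Finset.sum_congr rfl fun w _ => ?_
  rw [real_inner_smul_left, real_inner_smul_right, real_inner_comm x (F w)]
  ring

lemma Bm_add (F : (Fin n → Bool) → E n) (x y : E n) : Bm F (x + y) = Bm F x + Bm F y := by
  unfold Bm
  rw [← smul_add, ← Finset.sum_add_distrib]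
  congr 1
  refine Finset.sum_congr rfl fun w _ => ?_
  rw [inner_add_right, add_smul]

lemma Bm_smul (F : (Fin n → Bool) → E n) (a : ℝ) (x : E n) : Bm F (a • x) = a • Bm F x := by
  unfold Bm
  rw [smul_comm a, Finset.smul_sum (r := a)]
  congr 1
  refine Finset.sum_congr rfl fun w _ => ?_
  rw [inner_smul_right, smul_smul]

/-- second moment on the cube -/
lemma cube_second_moment (y : E n) :
    ((2 : ℝ) ^ n)⁻¹ * ∑ w : Fin n → Bool, ⟪sv w, y⟫ ^ 2 = ‖y‖ ^ 2 := by
  have h1 : ∀ w : Fin n → Bool, ⟪sv w, y⟫ = ∑ j, chi ({j} : Finset (Fin n)) w * y j := by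
    intro w
    rw [PiLp.inner_apply]
    refine Finset.sum_congr rfl fun j _ => ?_
    simp [sv, chi, sg, mul_comm]
  have h2 : ∀ w : Fin n → Bool, ⟪sv w, y⟫ ^ 2 = ∑ i, ∑ j,
      (chi ({i} : Finset (Fin n)) w * chi ({j} : Finset (Fin n)) w) * (y i * y j) := by
    intro w
    rw [h1 w, sq, Finset.sum_mul_sum]
    refine Finset.sum_congr rfl fun i _ => Finset.sum_congr rfl fun j _ => ?_
    ring
  simp only [h2]
  rw [Finset.sum_comm]
  have h3 : ∀ i : Fin n, ∑ w : Fin n → Bool, ∑ j,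
      (chi ({i} : Finset (Fin n)) w * chi ({j} : Finset (Fin n)) w) * (y i * y j) =
      (2 : ℝ) ^ n * (y i) ^ 2 := by
    intro i
    rw [Finset.sum_comm]
    have : ∀ j : Fin n, ∑ w : Fin n → Bool,
        (chi ({i} : Finset (Fin n)) w * chi ({j} : Finset (Fin n)) w) * (y i * y j) =
        if i = j then (2 : ℝ) ^ n * (y i * y j) else 0 := by
      intro j
      rw [← Finset.sum_mul, sum_chi]
      by_cases hij : i = j
      · subst hij; simp
      · have : ({i} : Finset (Fin n)) ≠ {j} := fun h => hij (Finset.singleton_injective h)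
        simp [hij]
    simp only [this]
    rw [Finset.sum_ite_eq]
    simp only [Finset.mem_univ, if_true]
    ring
  simp only [h3]
  rw [← Finset.mul_sum, ← mul_assoc, inv_mul_cancel₀ (by positivity), one_mul,
    EuclideanSpace.real_norm_sq_eq]

lemma Bm_norm_le (F : (Fin n → Bool) → E n) (x : E n) (hx : ∀ w, |⟪F w, x⟫| ≤ 1) :
    ‖Bm F x‖ ≤ 1 := by
  set y := Bm F x with hy
  have hgen : ∀ z : E n, ⟪Bm F x, z⟫ = ((2 : ℝ) ^ n)⁻¹ * ∑ w, ⟪F w, x⟫ * ⟪sv w, z⟫ := by
    intro z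
    unfold Bm
    rw [real_inner_smul_left, sum_inner]
    congr 1
    refine Finset.sum_congr rfl fun w _ => ?_
    rw [real_inner_smul_left]
  have h1 : ‖y‖ ^ 2 = ((2 : ℝ) ^ n)⁻¹ * ∑ w, ⟪F w, x⟫ * ⟪sv w, y⟫ := by
    rw [← real_inner_self_eq_norm_sq]
    exact hgen y
  have h2 : (∑ w, ⟪F w, x⟫ * ⟪sv w, y⟫) ^ 2 ≤ (∑ w, ⟪F w, x⟫ ^ 2) * (∑ w, ⟪sv w, y⟫ ^ 2) :=
    Finset.sum_mul_sq_le_sq_mul_sq _ _ _
  have h3 : ∑ w, ⟪F w, x⟫ ^ 2 ≤ (2 : ℝ) ^ n := by
    calc ∑ w, ⟪F w, x⟫ ^ 2 ≤ ∑ _w : Fin n → Bool, (1 : ℝ) := by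
          refine Finset.sum_le_sum fun w _ => ?_
          have := hx w
          rw [← sq_abs]
          nlinarith [abs_nonneg ⟪F w, x⟫]
      _ = (2 : ℝ) ^ n := by simp [Finset.card_univ]
  have h4 : ∑ w : Fin n → Bool, ⟪sv w, y⟫ ^ 2 = (2 : ℝ) ^ n * ‖y‖ ^ 2 := by
    rw [← cube_second_moment y, ← mul_assoc, mul_inv_cancel₀ (by positivity), one_mul]
  have h5 : (‖y‖ ^ 2) ^ 2 ≤ ‖y‖ ^ 2 := by
    rw [h4] at h2
    have hp : (0 : ℝ) < (2 : ℝ) ^ n := by positivity
    calc (‖y‖ ^ 2) ^ 2 = (((2 : ℝ) ^ n)⁻¹) ^ 2 * (∑ w, ⟪F w, x⟫ * ⟪sv w, y⟫) ^ 2 := by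
          rw [h1]; ring
      _ ≤ (((2 : ℝ) ^ n)⁻¹) ^ 2 * ((∑ w, ⟪F w, x⟫ ^ 2) * ((2 : ℝ) ^ n * ‖y‖ ^ 2)) := by
          gcongr
      _ ≤ (((2 : ℝ) ^ n)⁻¹) ^ 2 * ((2 : ℝ) ^ n * ((2 : ℝ) ^ n * ‖y‖ ^ 2)) := by
          gcongr
      _ = ‖y‖ ^ 2 := by field_simp
  have h6 := norm_nonneg y
  by_contra hc
  push Not at hc
  have h7 : 1 < ‖y‖ ^ 2 := by nlinarith
  nlinarith

lemma trace_eq (F : (Fin n → Bool) → E n) :
    ∑ j, ⟪e n j, Amap F (e n j)⟫ = cubeE (fun w => ⟪F w, sv w⟫) := by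
  unfold Amap cubeE
  rw [div_eq_inv_mul]
  have h1 : ∀ j, ⟪e n j, ((2 : ℝ) ^ n)⁻¹ • ∑ w, ⟪sv w, e n j⟫ • F w⟫ =
      ((2 : ℝ) ^ n)⁻¹ * ∑ w, ⟪sv w, e n j⟫ * ⟪e n j, F w⟫ := by
    intro j
    rw [real_inner_smul_right, inner_sum]
    congr 1
    refine Finset.sum_congr rfl fun w _ => ?_
    rw [real_inner_smul_right]
  simp only [h1]
  rw [← Finset.mul_sum, Finset.sum_comm]
  congr 1
  refine Finset.sum_congr rfl fun w _ => ?_
  rw [OrthonormalBasis.sum_inner_mul_inner, real_inner_comm]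

lemma pow_bound (a : ℝ) (ha : 0 < a) : ∃ C : ℝ, 0 < C ∧ ∀ n : ℕ, 1 ≤ n →
    ∃ J : ℕ, (n : ℝ) ≤ 2 ^ J ∧ (J : ℝ) ≤ C * (n : ℝ) ^ a := by
  refine ⟨1 / (a * Real.log 2) + 1, ?_, fun n hn => ⟨Nat.clog 2 n, ?_, ?_⟩⟩
  · have := Real.log_pos (by norm_num : (1 : ℝ) < 2)
    positivity
  · exact_mod_cast Nat.le_pow_clog (by norm_num) n
  · have hn1 : (1 : ℝ) ≤ n := by exact_mod_cast hn
    have hlog2 := Real.log_pos (by norm_num : (1 : ℝ) < 2)
    have h1 : ((Nat.clog 2 n : ℕ) : ℝ) ≤ Real.log n / Real.log 2 + 1 := by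
      rcases Nat.lt_or_ge 1 n with h | h
      · have h2 : 2 ^ (Nat.clog 2 n - 1) < n := Nat.pow_pred_clog_lt_self (by norm_num) h
        have hc : 1 ≤ Nat.clog 2 n := Nat.clog_pos (by norm_num) h
        have h3 : ((2 : ℝ)) ^ (Nat.clog 2 n - 1) < n := by exact_mod_cast h2
        have h4 := Real.log_lt_log (by positivity) h3
        rw [Real.log_pow, Nat.cast_sub hc, Nat.cast_one] at h4
        rw [← sub_le_iff_le_add, le_div_iff₀ hlog2]
        exact h4.le
      · have : n = 1 := by omega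
        subst this
        simp
    have h2 : Real.log n ≤ (n : ℝ) ^ a / a := Real.log_le_rpow_div (by positivity) ha
    have h3 : (1 : ℝ) ≤ (n : ℝ) ^ a := Real.one_le_rpow hn1 ha.le
    calc ((Nat.clog 2 n : ℕ) : ℝ) ≤ Real.log n / Real.log 2 + 1 := h1
      _ ≤ ((n : ℝ) ^ a / a) / Real.log 2 + (n : ℝ) ^ a := by gcongr
      _ = (1 / (a * Real.log 2) + 1) * (n : ℝ) ^ a := by
          field_simp

end KPAux

set_option maxHeartbeats 4000000 in
open KPAux KP1Aux in
theorem kp (h2 : Stmt_KP2) (h5 : Stmt_KP5) : Stmt_KP := by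
  intro c' hc'
  classical
  -- parameters
  obtain ⟨m0, hm0⟩ := exists_nat_gt (4 / c')
  set m : ℕ := m0 + 1 with hm
  have hmpos : (0 : ℝ) < m := by rw [hm]; positivity
  have hm1 : 1 ≤ m := by omega
  have hmc : (1 : ℝ) / m ≤ c' / 4 := by
    rw [div_le_iff₀ hmpos]
    have h1 : 4 / c' < m := hm0.trans (by rw [hm]; push_cast; linarith)
    rw [div_lt_iff₀ hc'] at h1
    nlinarith
  have hmc1 : (1 : ℝ) / (m + 1) ≤ c' / 4 := by
    refine le_trans ?_ hmc
    exact one_div_le_one_div_of_le hmpos (by linarith)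
  obtain ⟨C1, hC1, hk1⟩ := kp1 m hm1
  obtain ⟨C2, hC2, hk2⟩ := h2 m hm1
  obtain ⟨C5, hC5, hk5⟩ := h5
  obtain ⟨CJ, hCJ, hJ⟩ := pow_bound (c' / 4) (by positivity)
  refine ⟨2 * C2 * (C5 * (1 + C1 * C2) * CJ + 1), by positivity, ?_⟩
  intro n hn N hN hNsym hN2 hNn hgam μ _ hμ c s hs hiso hsub
  have hn1 : (1 : ℝ) ≤ n := by exact_mod_cast hn
  have hn0 : (0 : ℝ) < n := by linarith
  set K : Set (E n) := pol N with hK
  -- basic facts on `K`
  have hK0 : (0 : E n) ∈ K := by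
    intro f _; simp
  have hKne : K.Nonempty := ⟨0, hK0⟩
  have hKsym : ∀ x ∈ K, -x ∈ K := by
    intro x hx f hf
    have := hx (-f) (hNsym f hf)
    rw [inner_neg_left] at this
    rw [inner_neg_right]; exact this
  have hKconv : Convex ℝ K := by
    intro x hx y hy a b ha hb hab f hf
    rw [inner_add_right, inner_smul_right, inner_smul_right]
    have h1 := hx f hf
    have h2 := hy f hf
    nlinarith
  have hKn : ∀ x ∈ K, ‖x‖ ≤ n := hNn
  -- the gauge
  have hNne : ((N : Set (E n))).Nonempty := hN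
  have hNsym' : ∀ x ∈ (N : Set (E n)), -x ∈ (N : Set (E n)) := fun x hx => by
    exact_mod_cast hNsym x (by exact_mod_cast hx)
  have hNb : ∃ R : ℝ, ∀ x ∈ (N : Set (E n)), ‖x‖ ≤ R := ⟨2, fun x hx => hN2 x (by exact_mod_cast hx)⟩
  set g : Seminorm ℝ (E n) := suppSem (N : Set (E n)) hNne hNsym' hNb with hg
  have hmaxN : ∀ z : E n, ∃ f ∈ N, (∀ f' ∈ N, ⟪f', z⟫ ≤ ⟪f, z⟫) := by
    intro z
    obtain ⟨f, hf, hmax⟩ := Finset.exists_max_image N (fun f => ⟪f, z⟫) hN
    exact ⟨f, hf, hmax⟩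
  have hgmax : ∀ z f, f ∈ N → (∀ f' ∈ N, ⟪f', z⟫ ≤ ⟪f, z⟫) → g z = ⟪f, z⟫ := by
    intro z f hf hmax
    rw [hg, suppSem_apply]
    apply le_antisymm
    · refine csSup_le (hNne.image _) ?_
      rintro _ ⟨f', hf', rfl⟩
      exact hmax f' (by exact_mod_cast hf')
    · refine le_csSup ⟨⟪f, z⟫, ?_⟩ ⟨f, by exact_mod_cast hf, rfl⟩
      rintro _ ⟨f', hf', rfl⟩
      exact hmax f' (by exact_mod_cast hf')
  have hchoice : ∀ w : Fin n → Bool, ∃ f ∈ N, (∀ f' ∈ N, ⟪f', sv w⟫ ≤ ⟪f, sv w⟫) :=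
    fun w => hmaxN (sv w)
  choose F hFN hFmax using hchoice
  have hF2 : ∀ w, ‖F w‖ ≤ 2 := fun w => hN2 _ (hFN w)
  have hFK : ∀ w, ∀ x ∈ K, ⟪x, F w⟫ ≤ 1 := by
    intro w x hx
    rw [real_inner_comm]
    exact hx _ (hFN w)
  have hKP1 := hk1 n hn K hKne hKsym hKn F hF2 hFK
  -- the body `T`
  set T : Set (E n) := Bm F '' K with hT
  have hTne : T.Nonempty := hKne.image _
  have hTsym : ∀ x ∈ T, -x ∈ T := by
    rintro _ ⟨x, hx, rfl⟩
    refine ⟨-x, hKsym x hx, ?_⟩
    have := Bm_smul F (-1) x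
    simpa using this
  have hTconv : Convex ℝ T := by
    rintro _ ⟨x, hx, rfl⟩ _ ⟨y, hy, rfl⟩ a b ha hb hab
    refine ⟨a • x + b • y, hKconv hx hy ha hb hab, ?_⟩
    rw [Bm_add, Bm_smul, Bm_smul]
  have hTb : ∀ x ∈ T, ‖x‖ ≤ 1 := by
    rintro _ ⟨x, hx, rfl⟩
    refine Bm_norm_le F x fun w => ?_
    rw [abs_le]
    constructor
    · have := hFK w (-x) (hKsym x hx)
      rw [inner_neg_left, real_inner_comm] at this
      linarith
    · have := hFK w x hx
      rw [real_inner_comm] at this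
      exact this
  have hTsupp : ∀ z, supp T z = supp K (Amap F z) := by
    intro z
    unfold supp
    rw [hT, Set.image_image]
    congr 1
    refine Set.image_congr fun x _ => ?_
    exact Bm_inner F x z
  have hTbd : ∃ R : ℝ, ∀ x ∈ T, ‖x‖ ≤ R := ⟨1, hTb⟩
  set hTs : Seminorm ℝ (E n) := suppSem T hTne hTsym hTbd with hhTs
  -- Gaussian width of `T`
  set p : ℝ := (n : ℝ) ^ ((1 : ℝ) / m) with hp
  set p1 : ℝ := (n : ℝ) ^ ((1 : ℝ) / (m + 1)) with hp1
  have hp_one : 1 ≤ p := Real.one_le_rpow hn1 (by positivity)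
  have hp1_one : 1 ≤ p1 := Real.one_le_rpow hn1 (by positivity)
  set q : ℝ := (n : ℝ) ^ (c' / 4) with hq
  have hq_one : 1 ≤ q := Real.one_le_rpow hn1 (by positivity)
  have hpq : p ≤ q := Real.rpow_le_rpow_of_exponent_le hn1 hmc
  have hp1q : p1 ≤ q := Real.rpow_le_rpow_of_exponent_le hn1 hmc1
  set W : ℝ := (1 + C1 * C2) * (q * q) with hW
  have hqq : 1 ≤ q * q := by nlinarith
  have hW1 : 1 ≤ W := by
    rw [hW]
    have : 0 < C1 * C2 := by positivity
    nlinarith
  have hwidth : ∫ z, supp T z ∂(gam n) ≤ W := by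
    obtain ⟨-, h1⟩ := hk2 n hn hTs
    have e1 : ∫ z, supp T z ∂(gam n) = ∫ z, hTs z ∂(gam n) := rfl
    rw [e1]
    refine h1.trans ?_
    have e2 : cubeE (fun w => hTs (sv w)) = cubeE (fun w => supp K (Amap F (sv w))) := by
      unfold cubeE
      congr 1
      refine Finset.sum_congr rfl fun w _ => ?_
      exact hTsupp (sv w)
    rw [e2]
    calc C2 * p * cubeE (fun w => supp K (Amap F (sv w))) ≤ C2 * p * (C1 * p1) := by
          gcongr
      _ ≤ C2 * q * (C1 * q) := by gcongr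
      _ ≤ W := by
          rw [hW]; nlinarith
  have hcov := kp4 n T W hW1 hTconv hTne hTsym hTb hwidth
  -- moments of `μ`
  have hμae : ∀ᵐ x ∂μ, x ∈ K := by
    rw [ae_iff]
    exact hμ
  have hint_of : ∀ f : E n → ℝ, Continuous f → ∀ R : ℝ, (∀ x ∈ K, |f x| ≤ R) → Integrable f μ := by
    intro f hf R hR
    refine Integrable.of_bound hf.aestronglyMeasurable R ?_
    filter_upwards [hμae] with x hx
    rw [Real.norm_eq_abs]
    exact hR x hx
  have hint_norm : Integrable (fun x : E n => ‖x‖) μ :=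
    hint_of _ continuous_norm n (fun x hx => by rw [abs_of_nonneg (norm_nonneg _)]; exact hKn x hx)
  have hmean : ∫ x, ‖x‖ ∂μ ≤ n := by
    calc ∫ x, ‖x‖ ∂μ ≤ ∫ _x : E n, (n : ℝ) ∂μ := by
          refine integral_mono_ae hint_norm (integrable_const _) ?_
          filter_upwards [hμae] with x hx
          exact hKn x hx
      _ = n := by simp
  obtain ⟨J, hJ1, hJ2⟩ := hJ n hn
  have hchain := hk5 n T W hW1 hTne hTb hcov μ s n (by linarith) hint_norm hmean
    (fun θ => ⟨hint_of _ (by fun_prop) (Real.exp (n * ‖θ‖)) (fun x hx => by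
      rw [abs_of_pos (Real.exp_pos _)]
      apply Real.exp_le_exp.mpr
      exact (real_inner_le_norm _ _).trans
        (mul_le_mul_of_nonneg_right (hKn x hx) (norm_nonneg _))), hsub θ⟩) J
  -- lower bound for the trace
  set l : ℝ := cubeE (fun w => g (sv w)) with hl
  have hl_eq : cubeE (fun w => ⟪F w, sv w⟫) = l := by
    rw [hl]
    unfold cubeE
    congr 1
    refine Finset.sum_congr rfl fun w _ => ?_
    exact (hgmax (sv w) (F w) (hFN w) (hFmax w)).symm
  have hl_low : 1 / 2 ≤ C2 * p * l := by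
    obtain ⟨hgi, h1⟩ := hk2 n hn g
    refine le_trans ?_ h1
    have h3 := mul_meas_ge_le_integral_of_nonneg (μ := gam n) (f := fun z => g z)
      (Filter.Eventually.of_forall fun z => apply_nonneg g z) hgi 1
    have h4 : (1 / 2 : ℝ) ≤ (gam n).real {x | 1 ≤ g x} := by
      have hcontg := Gauss.continuous_seminorm n g
      have hKm : MeasurableSet {x : E n | g x ≤ 1} :=
        (isClosed_le hcontg continuous_const).measurableSet
      have hKeq : {x : E n | g x ≤ 1} = K := by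
        ext x
        constructor
        · intro hx f hf
          obtain ⟨f0, hf0, hmax⟩ := hmaxN x
          have : g x = ⟪f0, x⟫ := hgmax x f0 hf0 hmax
          have h5 : g x ≤ 1 := hx
          rw [this] at h5
          exact (hmax f hf).trans h5
        · intro hx
          obtain ⟨f0, hf0, hmax⟩ := hmaxN x
          have : g x = ⟪f0, x⟫ := hgmax x f0 hf0 hmax
          show g x ≤ 1
          rw [this]
          exact hx f0 hf0
      rw [hKeq] at hKm
      have h5 := probReal_add_probReal_compl (μ := gam n) hKm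
      have h6 : (gam n).real K ≤ 1 / 2 := by
        have := ENNReal.toReal_mono (by norm_num) hgam
        simpa [Measure.real] using this
      have h7 : (gam n).real Kᶜ ≤ (gam n).real {x | 1 ≤ g x} := by
        refine measureReal_mono ?_
        rw [← hKeq]
        intro x hx
        simp only [Set.mem_compl_iff, Set.mem_ofPred_eq, not_le] at hx
        exact hx.le
      linarith
    linarith
  -- `c * l ≤ ∫ supp T`
  have hcl : c * l ≤ ∫ x, supp T x ∂μ := by
    have e1 : c * l = ∑ j, c * ⟪e n j, Amap F (e n j)⟫ := by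
      rw [← Finset.mul_sum, trace_eq, hl_eq]
    rw [e1]
    have e2 : ∀ j, c * ⟪e n j, Amap F (e n j)⟫ =
        ∫ x, ⟪x, e n j⟫ * ⟪x, Amap F (e n j)⟫ ∂μ := fun j => (hiso _ _).symm
    simp only [e2]
    rw [← integral_finsetSum]
    · refine integral_mono_ae ?_ ?_ ?_
      · refine integrable_finsetSum _ fun j _ => ?_
        refine hint_of _ (by fun_prop) (n * ‖e n j‖ * (n * ‖Amap F (e n j)‖)) fun x hx => ?_
        rw [abs_mul]
        refine mul_le_mul ?_ ?_ (abs_nonneg _) (by positivity)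
        · exact (abs_real_inner_le_norm _ _).trans
            (mul_le_mul_of_nonneg_right (hKn x hx) (norm_nonneg _))
        · exact (abs_real_inner_le_norm _ _).trans
            (mul_le_mul_of_nonneg_right (hKn x hx) (norm_nonneg _))
      · refine hint_of _ (Gauss.continuous_seminorm n hTs) (n : ℝ) fun x hx => ?_
        have h0 : 0 ≤ hTs x := apply_nonneg hTs x
        have h1 : hTs x ≤ ‖x‖ := by
          rw [hhTs, suppSem_apply]
          refine csSup_le (hTne.image _) ?_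
          rintro _ ⟨t, ht, rfl⟩
          calc ⟪t, x⟫ ≤ ‖t‖ * ‖x‖ := real_inner_le_norm _ _
            _ ≤ 1 * ‖x‖ := mul_le_mul_of_nonneg_right (hTb t ht) (norm_nonneg _)
            _ = ‖x‖ := one_mul _
        show |hTs x| ≤ n
        rw [abs_of_nonneg h0]
        exact h1.trans (hKn x hx)
      · filter_upwards [hμae] with x hx
        have h1 : ∑ j, ⟪x, e n j⟫ * ⟪x, Amap F (e n j)⟫ = ⟪x, Bm F x⟫ := by
          rw [← OrthonormalBasis.sum_inner_mul_inner (e n) x (Bm F x)]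
          refine Finset.sum_congr rfl fun j _ => ?_
          rw [← Bm_inner, real_inner_comm (e n j) (Bm F x)]
        rw [h1, real_inner_comm]
        refine le_csSup ?_ ⟨Bm F x, ⟨x, hx, rfl⟩, rfl⟩
        refine ⟨‖x‖, ?_⟩
        rintro _ ⟨t, ht, rfl⟩
        calc ⟪t, x⟫ ≤ ‖t‖ * ‖x‖ := real_inner_le_norm _ _
          _ ≤ 1 * ‖x‖ := mul_le_mul_of_nonneg_right (hTb t ht) (norm_nonneg _)
          _ = ‖x‖ := one_mul _
    · intro j _
      refine hint_of _ (by fun_prop) (n * ‖e n j‖ * (n * ‖Amap F (e n j)‖)) fun x hx => ?_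
      rw [abs_mul]
      refine mul_le_mul ?_ ?_ (abs_nonneg _) (by positivity)
      · exact (abs_real_inner_le_norm _ _).trans
          (mul_le_mul_of_nonneg_right (hKn x hx) (norm_nonneg _))
      · exact (abs_real_inner_le_norm _ _).trans
          (mul_le_mul_of_nonneg_right (hKn x hx) (norm_nonneg _))
  -- `c ≥ 0`
  have hc0 : 0 ≤ c := by
    have := hiso (e n ⟨0, hn⟩) (e n ⟨0, hn⟩)
    rw [real_inner_self_eq_norm_sq, OrthonormalBasis.norm_eq_one] at this
    have h1 : 0 ≤ ∫ x, ⟪x, e n ⟨0, hn⟩⟫ * ⟪x, e n ⟨0, hn⟩⟫ ∂μ :=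
      integral_nonneg fun x => mul_self_nonneg _
    rw [this] at h1
    linarith
  -- conclusion
  have hlast : ((2 : ℝ) ^ J)⁻¹ * n ≤ 1 := by
    rw [inv_mul_le_iff₀ (by positivity), mul_one]
    exact hJ1
  have hfin : c * l ≤ C5 * W * s * (CJ * q) + 1 := by
    refine hcl.trans (hchain.trans ?_)
    refine add_le_add ?_ hlast
    have h0 : 0 ≤ C5 * W * s := by
      have : 0 ≤ W := by linarith
      positivity
    exact mul_le_mul_of_nonneg_left hJ2 h0
  have h1 : c ≤ 2 * (C2 * p) * (c * l) := by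
    have : c * 1 ≤ c * (2 * (C2 * p * l)) := mul_le_mul_of_nonneg_left (by linarith) hc0
    calc c = c * 1 := (mul_one c).symm
      _ ≤ c * (2 * (C2 * p * l)) := this
      _ = 2 * (C2 * p) * (c * l) := by ring
  have hq4 : (n : ℝ) ^ c' = q * q * (q * q) := by
    rw [hq, ← Real.rpow_add hn0, ← Real.rpow_add hn0]
    congr 1; ring
  rw [hq4]
  have hs0 : 0 < s := by linarith
  calc c ≤ 2 * (C2 * p) * (c * l) := h1
    _ ≤ 2 * (C2 * q) * (C5 * W * s * (CJ * q) + 1) := by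
        have hWpos : 0 ≤ W := by linarith
        have hp0 : 0 ≤ p := by linarith
        have hq0 : 0 ≤ q := by linarith
        have : 0 ≤ C5 * W * s * (CJ * q) + 1 := by positivity
        calc 2 * (C2 * p) * (c * l) ≤ 2 * (C2 * p) * (C5 * W * s * (CJ * q) + 1) :=
              mul_le_mul_of_nonneg_left hfin (by positivity)
          _ ≤ 2 * (C2 * q) * (C5 * W * s * (CJ * q) + 1) := by
              refine mul_le_mul_of_nonneg_right ?_ this
              exact mul_le_mul_of_nonneg_left (mul_le_mul_of_nonneg_left hpq hC2.le) (by norm_num)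
    _ ≤ 2 * C2 * (C5 * (1 + C1 * C2) * CJ + 1) * (q * q * (q * q)) * s := by
        rw [hW]
        have e1 : 2 * (C2 * q) * (C5 * ((1 + C1 * C2) * (q * q)) * s * (CJ * q) + 1) =
            2 * C2 * (C5 * (1 + C1 * C2) * CJ) * (q * q * (q * q)) * s + 2 * C2 * q := by ring
        rw [e1]
        have hq0 : 0 ≤ q := by linarith
        have h3 : q ≤ q * q * (q * q) := by
          calc q = q * 1 := (mul_one q).symm
            _ ≤ q * (q * (q * q)) := by
                refine mul_le_mul_of_nonneg_left ?_ hq0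
                nlinarith
            _ = q * q * (q * q) := by ring
        have h4 : q ≤ q * q * (q * q) * s := by
          calc q ≤ q * q * (q * q) := h3
            _ = q * q * (q * q) * 1 := (mul_one _).symm
            _ ≤ q * q * (q * q) * s := mul_le_mul_of_nonneg_left hs (by positivity)
        have h5 := mul_le_mul_of_nonneg_left h4 (by positivity : 0 ≤ 2 * C2)
        have e2 : 2 * C2 * (C5 * (1 + C1 * C2) * CJ + 1) * (q * q * (q * q)) * s =
            2 * C2 * (C5 * (1 + C1 * C2) * CJ) * (q * q * (q * q)) * s +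
              2 * C2 * (q * q * (q * q) * s) := by ring
        rw [e2]
        exact add_le_add le_rfl h5

end Pool.Agent.RevMink
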