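import Pool.Agent.RevMink.Defs

/-!
# K-convexity on the discrete cube by finite differences (step 2d of the elementary
reverse Minkowski theorem)
-/

open Finset

namespace Pool.Agent.RevMink.KP1Aux

variable {n : ℕ}

/-- sign of a bit -/
noncomputable def sg (b : Bool) : ℝ := if b then 1 else -1

lemma sg_sq (b : Bool) : sg b * sg b = 1 := by cases b <;> simp [sg]

lemma abs_sg (b : Bool) : |sg b| = 1 := by cases b <;> simp [sg]

/-- Walsh function -/
noncomputable def chi (S : Finset (Fin n)) (w : Fin n → Bool) : ℝ := ∏ j ∈ S, sg (w j)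

lemma sum_chi_mul (w w' : Fin n → Bool) :
    ∑ S : Finset (Fin n), chi S w * chi S w' = if w = w' then (2 : ℝ) ^ n else 0 := by
  have h1 : ∑ S : Finset (Fin n), chi S w * chi S w' =
      ∏ j : Fin n, (1 + sg (w j) * sg (w' j)) := by
    rw [Finset.prod_one_add]
    simp only [Finset.powerset_univ]
    refine Finset.sum_congr rfl fun S _ => ?_
    unfold chi
    rw [← Finset.prod_mul_distrib]
  rw [h1]
  split_ifs with h
  · subst h
    simp only [sg_sq]
    simp
    norm_num
  · have : ∃ j, w j ≠ w' j := by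
      by_contra hc
      push Not at hc
      exact h (funext hc)
    obtain ⟨j, hj⟩ := this
    apply Finset.prod_eq_zero (Finset.mem_univ j)
    revert hj
    cases w j <;> cases w' j <;> simp [sg]

lemma sum_chi_prod (f : Fin n → Bool → ℝ) :
    ∑ w : Fin n → Bool, ∏ j, f j (w j) = ∏ j, (f j true + f j false) := by
  have := (Finset.prod_univ_sum (fun _ : Fin n => (Finset.univ : Finset Bool))
    (fun j b => f j b)).symm
  simp only [Fintype.piFinset_univ, Fintype.sum_bool] at this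
  exact this

lemma sum_chi (S T : Finset (Fin n)) :
    ∑ w : Fin n → Bool, chi S w * chi T w = if S = T then (2 : ℝ) ^ n else 0 := by
  classical
  have h1 : ∀ w : Fin n → Bool, chi S w * chi T w =
      ∏ j, ((if j ∈ S then sg (w j) else 1) * (if j ∈ T then sg (w j) else 1)) := by
    intro w
    unfold chi
    rw [Finset.prod_mul_distrib, Finset.prod_ite_mem, Finset.prod_ite_mem]
    simp
  simp only [h1]
  rw [sum_chi_prod (fun j b => (if j ∈ S then sg b else 1) * (if j ∈ T then sg b else 1))]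
  split_ifs with h
  · subst h
    have : ∀ j : Fin n, ((if j ∈ S then sg true else 1) * (if j ∈ S then sg true else 1) +
        (if j ∈ S then sg false else 1) * (if j ∈ S then sg false else 1)) = (2 : ℝ) := by
      intro j
      by_cases hj : j ∈ S
      · simp [hj, sg]; norm_num
      · simp [hj]; norm_num
    rw [Finset.prod_congr rfl (fun j _ => this j)]
    simp
  · have : ∃ j, ¬ (j ∈ S ↔ j ∈ T) := by
      by_contra hc
      push Not at hc
      apply h
      ext j
      exact hc j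
    obtain ⟨j, hj⟩ := this
    apply Finset.prod_eq_zero (Finset.mem_univ j)
    by_cases h1 : j ∈ S <;> by_cases h2 : j ∈ T
    · exact absurd (iff_of_true h1 h2) hj
    · simp [h1, h2, sg]
    · simp [h1, h2, sg]
    · exact absurd (iff_of_false h1 h2) hj

variable {E : Type*} [NormedAddCommGroup E] [InnerProductSpace ℝ E]

/-- Walsh coefficient -/
noncomputable def coeff (F : (Fin n → Bool) → E) (S : Finset (Fin n)) : E :=
  ((2 : ℝ) ^ n)⁻¹ • ∑ w, chi S w • F w

lemma two_pow_ne : ((2 : ℝ) ^ n) ≠ 0 := by positivity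

lemma inversion (F : (Fin n → Bool) → E) (w : Fin n → Bool) :
    ∑ S : Finset (Fin n), chi S w • coeff F S = F w := by
  unfold coeff
  simp only [smul_comm _ ((2 : ℝ) ^ n)⁻¹]
  rw [← Finset.smul_sum]
  simp only [Finset.smul_sum, smul_smul]
  rw [Finset.sum_comm]
  have : ∀ w' : Fin n → Bool, ∑ S : Finset (Fin n), ((2 : ℝ) ^ n)⁻¹ •
      (chi S w * chi S w') • F w' = if w = w' then F w' else 0 := by
    intro w'
    rw [← Finset.smul_sum, ← Finset.sum_smul, sum_chi_mul, smul_smul]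
    split_ifs with h
    · rw [inv_mul_cancel₀ two_pow_ne, one_smul]
    · simp
  have h2 : ∀ w' : Fin n → Bool, ∑ S : Finset (Fin n), ((2 : ℝ) ^ n)⁻¹ •
      ((chi S w * chi S w') • F w') = if w = w' then F w' else 0 := this
  calc _ = ∑ w' : Fin n → Bool, ∑ S : Finset (Fin n), ((2 : ℝ) ^ n)⁻¹ •
      ((chi S w * chi S w') • F w') := by
        refine Finset.sum_congr rfl fun w' _ => Finset.sum_congr rfl fun S _ => ?_
        rw [smul_smul]
    _ = _ := by
        simp only [h2]
        simp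

/-- a multiplier operator -/
noncomputable def mult (c : Finset (Fin n) → ℝ) (F : (Fin n → Bool) → E) (w : Fin n → Bool) : E :=
  ∑ S : Finset (Fin n), c S • (chi S w • coeff F S)

lemma sum_norm_sq_mult (c : Finset (Fin n) → ℝ) (F : (Fin n → Bool) → E) :
    ∑ w, ‖mult c F w‖ ^ 2 = (2 : ℝ) ^ n * ∑ S, c S ^ 2 * ‖coeff F S‖ ^ 2 := by
  have h1 : ∀ w, ‖mult c F w‖ ^ 2 = ∑ S, ∑ T, (chi S w * chi T w) *
      (c S * c T * inner ℝ (coeff F S) (coeff F T)) := by
    intro w
    rw [← real_inner_self_eq_norm_sq]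
    unfold mult
    rw [sum_inner]
    refine Finset.sum_congr rfl fun S _ => ?_
    rw [inner_sum]
    refine Finset.sum_congr rfl fun T _ => ?_
    simp only [inner_smul_left, inner_smul_right, conj_trivial]
    ring
  simp only [h1]
  rw [Finset.sum_comm]
  rw [Finset.mul_sum]
  refine Finset.sum_congr rfl fun S _ => ?_
  rw [Finset.sum_comm]
  have : ∀ T : Finset (Fin n), ∑ w : Fin n → Bool, chi S w * chi T w *
      (c S * c T * inner ℝ (coeff F S) (coeff F T)) =
      if S = T then (2 : ℝ) ^ n * (c S * c T * inner ℝ (coeff F S) (coeff F T)) else 0 := by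
    intro T
    rw [← Finset.sum_mul, sum_chi]
    split_ifs <;> simp
  simp only [this]
  rw [Finset.sum_ite_eq]
  simp only [Finset.mem_univ, if_true]
  rw [real_inner_self_eq_norm_sq]
  ring

lemma sum_coeff_sq (F : (Fin n → Bool) → E) :
    (2 : ℝ) ^ n * ∑ S, ‖coeff F S‖ ^ 2 = ∑ w, ‖F w‖ ^ 2 := by
  have := sum_norm_sq_mult (fun _ => (1 : ℝ)) F
  simp only [one_pow, one_mul] at this
  rw [← this]
  refine Finset.sum_congr rfl fun w _ => ?_
  congr 2
  unfold mult
  simp only [one_smul]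
  exact inversion F w

/-- L1 bound for a multiplier with small coefficients -/
lemma avg_norm_mult_le (c : Finset (Fin n) → ℝ) (F : (Fin n → Bool) → E) {β R : ℝ} (hβ : 0 ≤ β)
    (hR : 0 ≤ R)
    (hc : ∀ S, |c S| ≤ β) (hF : ∀ w, ‖F w‖ ≤ R) :
    ((2 : ℝ) ^ n)⁻¹ * ∑ w, ‖mult c F w‖ ≤ β * R := by
  have h2 : ∑ w, ‖mult c F w‖ ^ 2 ≤ (2 : ℝ) ^ n * (β * R) ^ 2 := by
    rw [sum_norm_sq_mult]
    calc (2 : ℝ) ^ n * ∑ S, c S ^ 2 * ‖coeff F S‖ ^ 2
        ≤ (2 : ℝ) ^ n * ∑ S, β ^ 2 * ‖coeff F S‖ ^ 2 := by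
          refine mul_le_mul_of_nonneg_left ?_ (by positivity)
          refine Finset.sum_le_sum fun S _ => ?_
          refine mul_le_mul_of_nonneg_right ?_ (by positivity)
          rw [← sq_abs]
          exact pow_le_pow_left₀ (abs_nonneg _) (hc S) 2
      _ = β ^ 2 * ∑ w, ‖F w‖ ^ 2 := by
          rw [← Finset.mul_sum, ← sum_coeff_sq]; ring
      _ ≤ β ^ 2 * ∑ w : Fin n → Bool, R ^ 2 := by
          refine mul_le_mul_of_nonneg_left ?_ (by positivity)
          exact Finset.sum_le_sum fun w _ => pow_le_pow_left₀ (norm_nonneg _) (hF w) 2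
      _ = (2 : ℝ) ^ n * (β * R) ^ 2 := by
          simp [Finset.sum_const, Finset.card_univ]
          ring
  have h3 : (∑ w, ‖mult c F w‖) ^ 2 ≤ ((2 : ℝ) ^ n * (β * R)) ^ 2 := by
    calc (∑ w, ‖mult c F w‖) ^ 2 ≤ (Finset.univ : Finset (Fin n → Bool)).card *
          ∑ w, ‖mult c F w‖ ^ 2 := sq_sum_le_card_mul_sum_sq
      _ ≤ (2 : ℝ) ^ n * ((2 : ℝ) ^ n * (β * R) ^ 2) := by
          have hcard : (((Finset.univ : Finset (Fin n → Bool)).card : ℕ) : ℝ) = (2 : ℝ) ^ n := by
            simp [Finset.card_univ]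
          rw [hcard]
          exact mul_le_mul_of_nonneg_left h2 (by positivity)
      _ = _ := by ring
  have h4 : ∑ w, ‖mult c F w‖ ≤ (2 : ℝ) ^ n * (β * R) :=
    le_of_sq_le_sq' h3 (by positivity)
  rw [inv_mul_le_iff₀ (by positivity)]
  exact h4
where
  le_of_sq_le_sq' {a b : ℝ} (h : a ^ 2 ≤ b ^ 2) (hb : 0 ≤ b) : a ≤ b := by
    exact le_of_abs_le ((sq_le_sq₀ (abs_nonneg a) hb).mp (by rwa [sq_abs]))

/-- the noise operator as a kernel -/
lemma mult_pow (t : ℝ) (F : (Fin n → Bool) → E) (w : Fin n → Bool) :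
    mult (fun S => t ^ S.card) F w =
      ((2 : ℝ) ^ n)⁻¹ • ∑ w', (∏ j, (1 + t * (sg (w j) * sg (w' j)))) • F w' := by
  have h1 : ∀ w' : Fin n → Bool, ∏ j, (1 + t * (sg (w j) * sg (w' j))) =
      ∑ S : Finset (Fin n), t ^ S.card * (chi S w * chi S w') := by
    intro w'
    rw [Finset.prod_one_add]
    simp only [Finset.powerset_univ]
    refine Finset.sum_congr rfl fun S _ => ?_
    unfold chi
    rw [← Finset.prod_mul_distrib, Finset.prod_mul_distrib, Finset.prod_const]
  simp only [h1, Finset.sum_smul]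
  rw [Finset.sum_comm, Finset.smul_sum]
  unfold mult coeff
  refine Finset.sum_congr rfl fun S _ => ?_
  rw [smul_comm (chi S w), smul_comm (t ^ S.card)]
  congr 1
  rw [Finset.smul_sum, Finset.smul_sum]
  refine Finset.sum_congr rfl fun w' _ => ?_
  rw [smul_smul, smul_smul, mul_assoc]

lemma kernel_nonneg {t : ℝ} (ht : |t| ≤ 1) (w w' : Fin n → Bool) :
    0 ≤ ∏ j, (1 + t * (sg (w j) * sg (w' j))) := by
  refine Finset.prod_nonneg fun j _ => ?_
  have : |t * (sg (w j) * sg (w' j))| ≤ 1 := by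
    rw [abs_mul, abs_mul, abs_sg, abs_sg]; simpa using ht
  linarith [neg_le_of_abs_le this]

lemma kernel_sum (t : ℝ) (w : Fin n → Bool) :
    ∑ w' : Fin n → Bool, ∏ j, (1 + t * (sg (w j) * sg (w' j))) = (2 : ℝ) ^ n := by
  rw [sum_chi_prod (fun j b => 1 + t * (sg (w j) * sg b))]
  have : ∀ j : Fin n, (1 + t * (sg (w j) * sg true) + (1 + t * (sg (w j) * sg false))) = 2 := by
    intro j; simp [sg]; ring
  simp [this]

lemma seminorm_mult_pow_le (h : Seminorm ℝ E) {t : ℝ} (ht : |t| ≤ 1) (F : (Fin n → Bool) → E)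
    (hF : ∀ w, h (F w) ≤ 1) (w : Fin n → Bool) :
    h (mult (fun S => t ^ S.card) F w) ≤ 1 := by
  rw [mult_pow, map_smul_eq_mul, Real.norm_of_nonneg (by positivity),
    inv_mul_le_iff₀ (by positivity), mul_one]
  calc h (∑ w', (∏ j, (1 + t * (sg (w j) * sg (w' j)))) • F w')
      ≤ ∑ w', h ((∏ j, (1 + t * (sg (w j) * sg (w' j)))) • F w') := map_sum_le h _ _
    _ ≤ ∑ w' : Fin n → Bool, ∏ j, (1 + t * (sg (w j) * sg (w' j))) := by
        refine Finset.sum_le_sum fun w' _ => ?_
        rw [map_smul_eq_mul, Real.norm_of_nonneg (kernel_nonneg ht w w')]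
        calc _ ≤ (∏ j, (1 + t * (sg (w j) * sg (w' j)))) * 1 :=
              mul_le_mul_of_nonneg_left (hF w') (kernel_nonneg ht w w')
          _ = _ := mul_one _
    _ = _ := kernel_sum t w
where
  map_sum_le (h : Seminorm ℝ E) (s : Finset (Fin n → Bool)) (f : (Fin n → Bool) → E) :
      h (∑ i ∈ s, f i) ≤ ∑ i ∈ s, h (f i) := by
    classical
    induction s using Finset.induction_on with
    | empty => simp
    | insert a s ha ih =>
      rw [Finset.sum_insert ha, Finset.sum_insert ha]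
      exact (map_add_le_add h _ _).trans (by gcongr)

/-- finite difference coefficients -/
lemma exists_fd (m : ℕ) : ∃ c : Fin (m + 1) → ℝ,
    ∀ k : ℕ, k ≤ m → ∑ i : Fin (m + 1), c i * ((i : ℕ) : ℝ) ^ k = if k = 1 then 1 else 0 := by
  classical
  set v : Fin (m + 1) → ℝ := fun i => ((i : ℕ) : ℝ) with hv
  have hinj : Function.Injective v := by
    intro i j hij
    simp only [hv, Nat.cast_inj] at hij
    exact Fin.ext hij
  have hdet : (Matrix.vandermonde v).det ≠ 0 := Matrix.det_vandermonde_ne_zero_iff.mpr hinj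
  have hunit : IsUnit (Matrix.vandermonde v).det := isUnit_iff_ne_zero.mpr hdet
  set e : Fin (m + 1) → ℝ := fun k => if (k : ℕ) = 1 then 1 else 0 with he
  refine ⟨Matrix.vecMul e (Matrix.vandermonde v)⁻¹, fun k hk => ?_⟩
  have h1 : Matrix.vecMul (Matrix.vecMul e (Matrix.vandermonde v)⁻¹) (Matrix.vandermonde v) = e := by
    rw [Matrix.vecMul_vecMul, Matrix.nonsing_inv_mul _ hunit, Matrix.vecMul_one]
  have h2 := congrFun h1 ⟨k, Nat.lt_succ_of_le hk⟩
  exact h2

/-- **K-convexity by finite differences.** -/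
theorem kconvexity (m : ℕ) (hm : 1 ≤ m) : ∃ C : ℝ, 0 < C ∧
    ∀ (n : ℕ) (E : Type) [NormedAddCommGroup E] [InnerProductSpace ℝ E]
      (h : Seminorm ℝ E) (b : ℝ), 0 ≤ b → (∀ x, h x ≤ b * ‖x‖) →
      ∀ F : (Fin n → Bool) → E, (∀ w, h (F w) ≤ 1) → (∀ w, ‖F w‖ ≤ 2) →
      ∀ θ : ℝ, 0 < θ → θ ≤ 1 / m →
      ((2 : ℝ) ^ n)⁻¹ * ∑ w : Fin n → Bool,
          h (∑ j, sg (w j) • (((2 : ℝ) ^ n)⁻¹ • ∑ w', sg (w' j) • F w'))
        ≤ C / θ * (1 + b * θ ^ (m + 1)) := by
  classical
  obtain ⟨c, hc⟩ := exists_fd m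
  set A : ℝ := ∑ i, |c i| with hA
  have hA0 : 0 ≤ A := Finset.sum_nonneg fun i _ => abs_nonneg _
  refine ⟨(A + 1) * (1 + 2 * (m : ℝ) ^ (m + 1)), by positivity, ?_⟩
  intro n E _ _ h b hb hhb F hF1 hF2 θ hθ hθm
  have hm0 : (0 : ℝ) < m := by exact_mod_cast (lt_of_lt_of_le Nat.zero_lt_one hm)
  have hmθ : (m : ℝ) * θ ≤ 1 := by
    rw [le_div_iff₀ hm0] at hθm
    linarith [mul_comm θ (m : ℝ)]
  -- multiplier
  set cc : Finset (Fin n) → ℝ := fun S =>
    (∑ i : Fin (m + 1), (c i / θ) * ((i : ℕ) * θ : ℝ) ^ S.card) - if S.card = 1 then 1 else 0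
    with hcc
  set β : ℝ := A / θ * ((m : ℝ) * θ) ^ (m + 1) with hβ
  have hβ0 : 0 ≤ β := by positivity
  have hccb : ∀ S : Finset (Fin n), |cc S| ≤ β := by
    intro S
    by_cases hS : S.card ≤ m
    · have h1 : (∑ i : Fin (m + 1), (c i / θ) * ((i : ℕ) * θ : ℝ) ^ S.card) =
          θ ^ S.card / θ * ∑ i : Fin (m + 1), c i * ((i : ℕ) : ℝ) ^ S.card := by
        rw [Finset.mul_sum]
        refine Finset.sum_congr rfl fun i _ => ?_
        rw [mul_pow]; ring
      have h2 : cc S = 0 := by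
        simp only [hcc]
        rw [h1, hc _ hS]
        by_cases h1' : S.card = 1
        · simp [h1', hθ.ne']
        · simp [h1']
      rw [h2, abs_zero]; exact hβ0
    · push Not at hS
      have hne : S.card ≠ 1 := by omega
      have h2 : cc S = ∑ i : Fin (m + 1), (c i / θ) * ((i : ℕ) * θ : ℝ) ^ S.card := by
        simp only [hcc, if_neg hne, sub_zero]
      rw [h2]
      calc |∑ i : Fin (m + 1), (c i / θ) * ((i : ℕ) * θ : ℝ) ^ S.card|
          ≤ ∑ i : Fin (m + 1), |(c i / θ) * ((i : ℕ) * θ : ℝ) ^ S.card| :=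
            Finset.abs_sum_le_sum_abs _ _
        _ ≤ ∑ i : Fin (m + 1), |c i| / θ * ((m : ℝ) * θ) ^ (m + 1) := by
            refine Finset.sum_le_sum fun i _ => ?_
            rw [abs_mul, abs_div, abs_of_pos hθ, abs_pow]
            refine mul_le_mul_of_nonneg_left ?_ (by positivity)
            rw [abs_of_nonneg (by positivity)]
            have hi : ((i : ℕ) : ℝ) ≤ m := by exact_mod_cast Nat.lt_succ_iff.mp i.2
            calc (((i : ℕ) : ℝ) * θ) ^ S.card ≤ ((m : ℝ) * θ) ^ S.card :=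
                  pow_le_pow_left₀ (by positivity) (by gcongr) _
              _ ≤ ((m : ℝ) * θ) ^ (m + 1) :=
                  pow_le_pow_of_le_one (by positivity) hmθ hS
        _ = β := by
            rw [← Finset.sum_mul, ← Finset.sum_div]
  -- decomposition
  have hdec : ∀ w : Fin n → Bool,
      (∑ j, sg (w j) • (((2 : ℝ) ^ n)⁻¹ • ∑ w', sg (w' j) • F w')) =
        (∑ i : Fin (m + 1), (c i / θ) • mult (fun S => (((i : ℕ) : ℝ) * θ) ^ S.card) F w)
          - mult cc F w := by
    intro w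
    have h1 : (∑ j, sg (w j) • (((2 : ℝ) ^ n)⁻¹ • ∑ w', sg (w' j) • F w')) =
        mult (fun S => if S.card = 1 then 1 else 0) F w := by
      unfold mult
      have h2 : ∀ S : Finset (Fin n), (if S.card = 1 then (1 : ℝ) else 0) • (chi S w • coeff F S) =
          if S.card = 1 then chi S w • coeff F S else 0 := by
        intro S; split_ifs <;> simp
      simp only [h2]
      rw [← Finset.sum_filter]
      have h3 : (Finset.univ.filter fun S : Finset (Fin n) => S.card = 1) =
          (Finset.univ : Finset (Fin n)).map ⟨fun j => ({j} : Finset (Fin n)),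
            fun a b hab => Finset.singleton_injective hab⟩ := by
        ext S
        simp only [Finset.mem_filter, Finset.mem_univ, true_and, Finset.mem_map,
          Finset.card_eq_one]
        constructor
        · rintro ⟨a, ha⟩; exact ⟨a, ha.symm⟩
        · rintro ⟨a, ha⟩; exact ⟨a, ha.symm⟩
      rw [h3, Finset.sum_map]
      refine Finset.sum_congr rfl fun j _ => ?_
      change _ = chi ({j} : Finset (Fin n)) w • coeff F {j}
      simp only [chi, coeff, Finset.prod_singleton]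
    rw [h1]
    unfold mult
    simp only [Finset.smul_sum]
    rw [Finset.sum_comm, ← Finset.sum_sub_distrib]
    refine Finset.sum_congr rfl fun S _ => ?_
    simp only [smul_smul]
    rw [← Finset.sum_smul]
    rw [← sub_smul]
    congr 1
    simp only [hcc]
    rw [sub_mul, Finset.sum_mul]
    simp only [mul_assoc]
    ring
  have hpt : ∀ w : Fin n → Bool,
      h (∑ j, sg (w j) • (((2 : ℝ) ^ n)⁻¹ • ∑ w', sg (w' j) • F w')) ≤
        A / θ + b * ‖mult cc F w‖ := by
    intro w
    rw [hdec w]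
    refine (map_sub_le_add h _ _).trans ?_
    refine add_le_add ?_ (hhb _)
    have hsum : ∀ s : Finset (Fin (m + 1)),
        h (∑ i ∈ s, (c i / θ) • mult (fun S => (((i : ℕ) : ℝ) * θ) ^ S.card) F w) ≤
          ∑ i ∈ s, |c i| / θ := by
      intro s
      induction s using Finset.induction_on with
      | empty => simp
      | insert a s ha ih =>
        rw [Finset.sum_insert ha, Finset.sum_insert ha]
        refine (map_add_le_add h _ _).trans (add_le_add ?_ ih)
        rw [map_smul_eq_mul, Real.norm_eq_abs, abs_div, abs_of_pos hθ]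
        have ha1 : |((a : ℕ) : ℝ) * θ| ≤ 1 := by
          rw [abs_of_nonneg (by positivity)]
          have hi : ((a : ℕ) : ℝ) ≤ m := by exact_mod_cast Nat.lt_succ_iff.mp a.2
          calc ((a : ℕ) : ℝ) * θ ≤ m * θ := by gcongr
            _ ≤ 1 := hmθ
        calc |c a| / θ * h (mult (fun S => (((a : ℕ) : ℝ) * θ) ^ S.card) F w)
            ≤ |c a| / θ * 1 := by
              refine mul_le_mul_of_nonneg_left (seminorm_mult_pow_le h ha1 F hF1 w) (by positivity)
          _ = |c a| / θ := mul_one _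
    calc _ ≤ ∑ i : Fin (m + 1), |c i| / θ := hsum Finset.univ
      _ = A / θ := by rw [← Finset.sum_div]
  calc ((2 : ℝ) ^ n)⁻¹ * ∑ w : Fin n → Bool,
          h (∑ j, sg (w j) • (((2 : ℝ) ^ n)⁻¹ • ∑ w', sg (w' j) • F w'))
      ≤ ((2 : ℝ) ^ n)⁻¹ * ∑ w : Fin n → Bool, (A / θ + b * ‖mult cc F w‖) := by
        refine mul_le_mul_of_nonneg_left ?_ (by positivity)
        exact Finset.sum_le_sum fun w _ => hpt w
    _ = A / θ + b * (((2 : ℝ) ^ n)⁻¹ * ∑ w : Fin n → Bool, ‖mult cc F w‖) := by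
        rw [Finset.sum_add_distrib, ← Finset.mul_sum]
        simp only [Finset.sum_const, Finset.card_univ, Fintype.card_pi, Fintype.card_bool,
          Finset.prod_const, Fintype.card_fin, nsmul_eq_mul, Nat.cast_pow, Nat.cast_ofNat]
        field_simp
    _ ≤ A / θ + b * (β * 2) := by
        refine add_le_add le_rfl (mul_le_mul_of_nonneg_left ?_ hb)
        exact avg_norm_mult_le cc F hβ0 (by norm_num) hccb hF2
    _ ≤ (A + 1) * (1 + 2 * (m : ℝ) ^ (m + 1)) / θ * (1 + b * θ ^ (m + 1)) := by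
        have e1 : b * (β * 2) = (A / θ) * (2 * (m : ℝ) ^ (m + 1)) * (b * θ ^ (m + 1)) := by
          rw [hβ, mul_pow]; ring
        rw [e1]
        have hX : 0 ≤ b * θ ^ (m + 1) := by positivity
        have hM : 0 ≤ (m : ℝ) ^ (m + 1) := by positivity
        have hAθ : 0 ≤ A / θ := by positivity
        have e2 : (A + 1) * (1 + 2 * (m : ℝ) ^ (m + 1)) / θ * (1 + b * θ ^ (m + 1)) =
            (A / θ + 1 / θ) * (1 + 2 * (m : ℝ) ^ (m + 1)) * (1 + b * θ ^ (m + 1)) := by
          field_simp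
        rw [e2]
        have h1θ : 0 ≤ 1 / θ := by positivity
        nlinarith [mul_nonneg hAθ hM, mul_nonneg hAθ hX, mul_nonneg (mul_nonneg hAθ hM) hX,
          mul_nonneg h1θ hM, mul_nonneg h1θ hX, mul_nonneg (mul_nonneg h1θ hM) hX]


open scoped RealInnerProductSpace

/-- the support function as a seminorm -/
noncomputable def suppSem {n : ℕ} (K : Set (Pool.Agent.RevMink.E n)) (hne : K.Nonempty)
    (hsym : ∀ x ∈ K, -x ∈ K) (hb : ∃ R : ℝ, ∀ x ∈ K, ‖x‖ ≤ R) :
    Seminorm ℝ (Pool.Agent.RevMink.E n) :=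
  have hbdd : ∀ z, BddAbove ((fun x : Pool.Agent.RevMink.E n => ⟪x, z⟫) '' K) := by
    intro z
    obtain ⟨R, hR⟩ := hb
    refine ⟨R * ‖z‖, ?_⟩
    rintro _ ⟨x, hx, rfl⟩
    exact (real_inner_le_norm _ _).trans
      (mul_le_mul_of_nonneg_right (hR x hx) (norm_nonneg _))
  Seminorm.of (fun z => supp K z)
    (by
      intro x y
      refine csSup_le (hne.image _) ?_
      rintro _ ⟨k, hk, rfl⟩
      simp only [inner_add_right]
      exact add_le_add (le_csSup (hbdd x) ⟨k, hk, rfl⟩) (le_csSup (hbdd y) ⟨k, hk, rfl⟩))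
    (by
      have key : ∀ (a : ℝ) (x : Pool.Agent.RevMink.E n), supp K (a • x) ≤ |a| * supp K x := by
        intro a x
        refine csSup_le (hne.image _) ?_
        rintro _ ⟨k, hk, rfl⟩
        simp only [inner_smul_right]
        rcases le_total 0 a with ha | ha
        · rw [abs_of_nonneg ha]
          exact mul_le_mul_of_nonneg_left (le_csSup (hbdd x) ⟨k, hk, rfl⟩) ha
        · rw [abs_of_nonpos ha]
          have h1 : a * ⟪k, x⟫ = -a * ⟪-k, x⟫ := by
            rw [inner_neg_left]; ring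
          rw [h1]
          exact mul_le_mul_of_nonneg_left (le_csSup (hbdd x) ⟨-k, hsym k hk, rfl⟩)
            (by linarith)
      intro a x
      refine le_antisymm (key a x) ?_
      by_cases ha : a = 0
      · subst ha
        have h0 : supp K ((0 : ℝ) • x) = 0 := by
          unfold supp
          rw [zero_smul]
          have : (fun x : Pool.Agent.RevMink.E n => ⟪x, (0 : Pool.Agent.RevMink.E n)⟫) '' K = {0} := by
            ext y
            constructor
            · rintro ⟨k, hk, rfl⟩; simp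
            · rintro rfl
              obtain ⟨k, hk⟩ := hne
              exact ⟨k, hk, by simp⟩
          rw [this]
          simp
        rw [h0]; simp
      · have h2 := key a⁻¹ (a • x)
        rw [smul_smul, inv_mul_cancel₀ ha, one_smul] at h2
        have h3 : |a| * supp K x ≤ |a| * (|a⁻¹| * supp K (a • x)) :=
          mul_le_mul_of_nonneg_left h2 (abs_nonneg _)
        rw [← mul_assoc, ← abs_mul, mul_inv_cancel₀ ha, abs_one, one_mul] at h3
        simpa using h3)

lemma suppSem_apply {n : ℕ} (K : Set (Pool.Agent.RevMink.E n)) (hne : K.Nonempty)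
    (hsym : ∀ x ∈ K, -x ∈ K) (hb : ∃ R : ℝ, ∀ x ∈ K, ‖x‖ ≤ R) (z : Pool.Agent.RevMink.E n) :
    suppSem K hne hsym hb z = supp K z := rfl

lemma Amap_sv {n : ℕ} (F : (Fin n → Bool) → Pool.Agent.RevMink.E n) (w : Fin n → Bool) :
    Amap F (sv w) = ∑ j, sg (w j) • (((2 : ℝ) ^ n)⁻¹ • ∑ w', sg (w' j) • F w') := by
  unfold Amap
  have h1 : ∀ w' : Fin n → Bool, ⟪sv w', sv w⟫ = ∑ j, sg (w j) * sg (w' j) := by
    intro w'
    rw [PiLp.inner_apply]
    refine Finset.sum_congr rfl fun j _ => ?_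
    simp [sv, sg]
  simp only [h1, Finset.sum_smul]
  rw [Finset.sum_comm, Finset.smul_sum]
  refine Finset.sum_congr rfl fun j _ => ?_
  rw [smul_comm (sg (w j)), Finset.smul_sum (s := Finset.univ) (r := sg (w j))]
  congr 1
  refine Finset.sum_congr rfl fun w' _ => ?_
  rw [smul_smul]

end Pool.Agent.RevMink.KP1Aux

namespace Pool.Agent.RevMink

open KP1Aux

theorem kp1 : Stmt_KP1 := by
  intro m hm
  obtain ⟨C, hC, hmain⟩ := kconvexity m hm
  have hm0 : (0 : ℝ) < m := by exact_mod_cast hm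
  refine ⟨C * m * 2, by positivity, ?_⟩
  intro n hn K hne hsym hK F hF hFK
  have hn0 : (0 : ℝ) < n := by exact_mod_cast hn
  have hn1 : (1 : ℝ) ≤ n := by exact_mod_cast hn
  have hb : ∃ R : ℝ, ∀ x ∈ K, ‖x‖ ≤ R := ⟨n, hK⟩
  set θ : ℝ := (n : ℝ) ^ (-((1 : ℝ) / (m + 1))) / m with hθ
  have hpow_pos : 0 < (n : ℝ) ^ (-((1 : ℝ) / (m + 1))) := Real.rpow_pos_of_pos hn0 _
  have hθ0 : 0 < θ := by positivity
  have hθm : θ ≤ 1 / m := by
    rw [hθ]
    refine div_le_div_of_nonneg_right ?_ hm0.le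
    refine Real.rpow_le_one_of_one_le_of_nonpos hn1 ?_
    have : (0 : ℝ) ≤ 1 / (m + 1) := by positivity
    linarith
  have hle : ∀ x : E n, suppSem K hne hsym hb x ≤ n * ‖x‖ := by
    intro x
    rw [suppSem_apply]
    refine csSup_le (hne.image _) ?_
    rintro _ ⟨k, hk, rfl⟩
    exact (real_inner_le_norm _ _).trans
      (mul_le_mul_of_nonneg_right (hK k hk) (norm_nonneg _))
  have hF1 : ∀ w, suppSem K hne hsym hb (F w) ≤ 1 := by
    intro w
    rw [suppSem_apply]
    refine csSup_le (hne.image _) ?_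
    rintro _ ⟨k, hk, rfl⟩
    exact hFK w k hk
  have h1 := hmain n (E n) (suppSem K hne hsym hb) n hn0.le hle F hF1 hF θ hθ0 hθm
  have h2 : cubeE (fun w => supp K (Amap F (sv w))) =
      ((2 : ℝ) ^ n)⁻¹ * ∑ w : Fin n → Bool,
          suppSem K hne hsym hb (∑ j, sg (w j) • (((2 : ℝ) ^ n)⁻¹ • ∑ w', sg (w' j) • F w')) := by
    unfold cubeE
    rw [div_eq_inv_mul]
    simp only [suppSem_apply, Amap_sv]
  rw [h2]
  refine h1.trans ?_
  have h3 : (n : ℝ) * θ ^ (m + 1) ≤ 1 := by
    rw [hθ, div_pow, ← Real.rpow_natCast, ← Real.rpow_mul hn0.le]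
    have h4 : -((1 : ℝ) / (m + 1)) * ((m + 1 : ℕ) : ℝ) = -1 := by
      push_cast
      field_simp
    rw [h4, Real.rpow_neg_one]
    rw [← mul_div_assoc, mul_inv_cancel₀ hn0.ne']
    rw [div_le_one (by positivity)]
    exact one_le_pow₀ (by exact_mod_cast hm)
  have h5 : C / θ = C * m * (n : ℝ) ^ ((1 : ℝ) / (m + 1)) := by
    rw [hθ, Real.rpow_neg hn0.le]
    field_simp
  rw [h5]
  have h6 : 0 ≤ C * m * (n : ℝ) ^ ((1 : ℝ) / (m + 1)) := by positivity
  nlinarith

end Pool.Agent.RevMink
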