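import Pool.Agent.RevMink.GaussDensity

/-!
# KP3: dual Sudakov inequality
-/

set_option autoImplicit false

open MeasureTheory ProbabilityTheory
open scoped RealInnerProductSpace ENNReal

namespace Pool.Agent.RevMink

theorem kp3 : Stmt_KP3 := by
  intro n h W δ hW hδ hint S hS hsep
  classical
  set B : Set (E n) := {z | h z < 2 * W} with hB
  have hcont := Gauss.continuous_seminorm n h
  have hBm : MeasurableSet B := (isOpen_lt hcont continuous_const).measurableSet
  have hBsym : ∀ x ∈ B, -x ∈ B := by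
    intro x hx
    simpa [hB, map_neg_eq_map] using hx
  have hBprob : (1 / 2 : ℝ) ≤ (gam n).real B := by
    have h1 := mul_meas_ge_le_integral_of_nonneg (μ := gam n) (f := fun z => h z)
      (Filter.Eventually.of_forall fun z => apply_nonneg h z) (Gauss.integrable_seminorm n h) (2 * W)
    have h2 : (gam n).real {x | 2 * W ≤ h x} ≤ 1 / 2 := by
      have h3 : 2 * W * (gam n).real {x | 2 * W ≤ h x} ≤ W := h1.trans hint
      by_contra hc
      push Not at hc
      nlinarith
    have h4 : Bᶜ = {x | 2 * W ≤ h x} := by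
      ext x; simp [hB]
    have h5 := probReal_add_probReal_compl (μ := gam n) hBm
    rw [h4] at h5
    linarith
  set t : ℝ := 4 * W / δ with ht
  have htpos : 0 < t := by positivity
  set A : E n → Set (E n) := fun u => (fun x => x - t • u) ⁻¹' B with hA
  have hAm : ∀ u, MeasurableSet (A u) := fun u => (measurable_id.sub_const (t • u)) hBm
  have hlow : ∀ u ∈ S, Real.exp (-(8 * W ^ 2 / δ ^ 2)) / 2 ≤ (gam n).real (A u) := by
    intro u hu
    have h1 := Gauss.gam_shift n (t • u) hBm hBsym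
    have h2 : Real.exp (-(1 / 2) * ‖t • u‖ ^ 2) * (gam n).real B ≤ (gam n).real (A u) := by
      have h3 := ENNReal.toReal_mono (measure_ne_top (gam n) _) h1
      rw [ENNReal.toReal_mul, ENNReal.toReal_ofReal (Real.exp_pos _).le] at h3
      exact h3
    refine le_trans ?_ h2
    have h4 : Real.exp (-(8 * W ^ 2 / δ ^ 2)) ≤ Real.exp (-(1 / 2) * ‖t • u‖ ^ 2) := by
      apply Real.exp_le_exp.mpr
      rw [norm_smul, Real.norm_of_nonneg htpos.le, mul_pow, ht, div_pow]
      have h5 : ‖u‖ ^ 2 ≤ 1 := by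
        have := hS u hu
        have h0 := norm_nonneg u
        nlinarith
      have h6 : 0 ≤ (4 * W) ^ 2 / δ ^ 2 := by positivity
      have h7 : (4 * W) ^ 2 / δ ^ 2 * ‖u‖ ^ 2 ≤ (4 * W) ^ 2 / δ ^ 2 :=
        mul_le_of_le_one_right h6 h5
      have h8 : (4 * W) ^ 2 / δ ^ 2 = 2 * (8 * W ^ 2 / δ ^ 2) := by ring
      linarith
    have h9 := mul_le_mul h4 hBprob (by norm_num) (Real.exp_pos _).le
    linarith
  have hdisj : (S : Set (E n)).PairwiseDisjoint A := by
    intro u hu v hv huv
    rw [Function.onFun, Set.disjoint_left]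
    intro x hx1 hx2
    have h1 : h (x - t • u) < 2 * W := hx1
    have h2 : h (x - t • v) < 2 * W := hx2
    have h3 : h (t • (u - v)) < 4 * W := by
      have e : t • (u - v) = (x - t • v) - (x - t • u) := by
        rw [smul_sub]; abel
      rw [e]
      calc h ((x - t • v) - (x - t • u)) ≤ h (x - t • v) + h (x - t • u) := map_sub_le_add h _ _
        _ < 4 * W := by linarith
    rw [map_smul_eq_mul, Real.norm_of_nonneg htpos.le] at h3
    have h4 := hsep u hu v hv huv
    have h5 : t * δ ≤ t * h (u - v) := mul_le_mul_of_nonneg_left h4 htpos.le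
    have h6 : t * δ = 4 * W := by
      rw [ht]; field_simp
    linarith
  have hsum : ∑ u ∈ S, (gam n).real (A u) ≤ 1 := by
    rw [← measureReal_biUnion_finset hdisj (fun u _ => hAm u)]
    exact measureReal_le_one
  have hcard : (S.card : ℝ) * (Real.exp (-(8 * W ^ 2 / δ ^ 2)) / 2) ≤ 1 := by
    calc (S.card : ℝ) * (Real.exp (-(8 * W ^ 2 / δ ^ 2)) / 2)
        = ∑ u ∈ S, Real.exp (-(8 * W ^ 2 / δ ^ 2)) / 2 := by
          rw [Finset.sum_const, nsmul_eq_mul]
      _ ≤ ∑ u ∈ S, (gam n).real (A u) := Finset.sum_le_sum hlow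
      _ ≤ 1 := hsum
  rw [Real.exp_neg] at hcard
  have hpos := Real.exp_pos (8 * W ^ 2 / δ ^ 2)
  have : (S.card : ℝ) * ((Real.exp (8 * W ^ 2 / δ ^ 2))⁻¹ / 2) * (2 * Real.exp (8 * W ^ 2 / δ ^ 2)) ≤
      1 * (2 * Real.exp (8 * W ^ 2 / δ ^ 2)) := mul_le_mul_of_nonneg_right hcard (by positivity)
  have e : (S.card : ℝ) * ((Real.exp (8 * W ^ 2 / δ ^ 2))⁻¹ / 2) * (2 * Real.exp (8 * W ^ 2 / δ ^ 2)) =
      S.card := by
    field_simp
  linarith

end Pool.Agent.RevMink
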