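import Pool.Agent.RevMink.KP1
import Pool.Agent.RevMink.KP3

/-!
# KP4: Sudakov covering from dual Sudakov
-/

set_option autoImplicit false

open MeasureTheory ProbabilityTheory
open scoped RealInnerProductSpace ENNReal

namespace Pool.Agent.RevMink

namespace KP4Aux

lemma exists_net (n : ℕ) (h : Seminorm ℝ (E n)) (W δ : ℝ) (hW : 0 < W) (hδ : 0 < δ)
    (hint : ∫ z, h z ∂(gam n) ≤ W) :
    ∃ U : Finset (E n), (U.card : ℝ) ≤ 2 * Real.exp (8 * W ^ 2 / δ ^ 2) ∧
      ∀ x : E n, ‖x‖ ≤ 1 → ∃ u ∈ U, h (x - u) < δ := by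
  classical
  set P : Finset (E n) → Prop := fun S =>
    (∀ u ∈ S, ‖u‖ ≤ 1) ∧ (∀ u ∈ S, ∀ v ∈ S, u ≠ v → δ ≤ h (u - v)) with hP
  have hbound : ∀ S, P S → (S.card : ℝ) ≤ 2 * Real.exp (8 * W ^ 2 / δ ^ 2) :=
    fun S hS => kp3 n h W δ hW hδ hint S hS.1 hS.2
  obtain ⟨N, hN⟩ := exists_nat_ge (2 * Real.exp (8 * W ^ 2 / δ ^ 2))
  set Q : ℕ → Prop := fun m => ∃ S, P S ∧ S.card = m with hQ
  have hQ0 : Q 0 := ⟨∅, ⟨by simp, by simp⟩, by simp⟩
  obtain ⟨S, hPS, hScard⟩ := Nat.findGreatest_spec (P := Q) (Nat.zero_le N) hQ0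
  have hmax : ∀ S', P S' → S'.card ≤ S.card := by
    intro S' hS'
    rw [hScard]
    refine Nat.le_findGreatest ?_ ⟨S', hS', rfl⟩
    have := (hbound S' hS').trans hN
    exact_mod_cast this
  refine ⟨S, hbound S hPS, fun x hx => ?_⟩
  by_contra hc
  push Not at hc
  have hxS : x ∉ S := by
    intro hxS
    have := hc x hxS
    rw [sub_self, map_zero] at this
    linarith
  have hP' : P (insert x S) := by
    refine ⟨fun u hu => ?_, fun u hu v hv huv => ?_⟩
    · rcases Finset.mem_insert.mp hu with rfl | hu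
      · exact hx
      · exact hPS.1 u hu
    · rcases Finset.mem_insert.mp hu with hu' | hu'
      · rcases Finset.mem_insert.mp hv with hv' | hv'
        · exact absurd (hu'.trans hv'.symm) huv
        · rw [hu']; exact hc v hv'
      · rcases Finset.mem_insert.mp hv with hv' | hv'
        · rw [hv', ← map_neg_eq_map h, neg_sub]
          exact hc u hu'
        · exact hPS.2 u hu' v hv' huv
  have := hmax _ hP'
  rw [Finset.card_insert_of_notMem hxS] at this
  omega

end KP4Aux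

open KP4Aux KP1Aux in
theorem kp4 : Stmt_KP4 := by
  intro n T W hW hconv hne hsym hT hint k
  classical
  have hW0 : 0 < W := by linarith
  have hb : ∃ R : ℝ, ∀ x ∈ T, ‖x‖ ≤ R := ⟨1, hT⟩
  set h : Seminorm ℝ (E n) := suppSem T hne hsym hb with hh
  have hint' : ∫ z, h z ∂(gam n) ≤ W := hint
  have hle : ∀ x ∈ T, ∀ z, ⟪x, z⟫ ≤ h z := by
    intro x hx z
    rw [hh, suppSem_apply]
    refine le_csSup ?_ ⟨x, hx, rfl⟩
    refine ⟨‖z‖, ?_⟩
    rintro _ ⟨y, hy, rfl⟩
    calc ⟪y, z⟫ ≤ ‖y‖ * ‖z‖ := real_inner_le_norm _ _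
      _ ≤ 1 * ‖z‖ := mul_le_mul_of_nonneg_right (hT y hy) (norm_nonneg _)
      _ = ‖z‖ := one_mul _
  have h0T : (0 : E n) ∈ T := by
    obtain ⟨x, hx⟩ := hne
    have := hconv hx (hsym x hx) (by norm_num : (0 : ℝ) ≤ 1 / 2) (by norm_num : (0 : ℝ) ≤ 1 / 2)
      (by norm_num)
    simpa using this
  induction k with
  | zero =>
    refine ⟨{0}, ?_, ?_, fun _ => rfl, ?_⟩
    · intro t ht
      rw [Finset.mem_singleton] at ht
      rw [ht]; exact h0T
    · rw [Finset.card_singleton, Nat.cast_one]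
      exact Real.one_le_exp (by positivity)
    · intro y hy
      exact ⟨0, Finset.mem_singleton_self _, by simpa using hT y hy⟩
  | succ k ih =>
    obtain ⟨S, hST, hScard, -, hScov⟩ := ih
    set ε : ℝ := ((2 : ℝ) ^ (k + 1))⁻¹ with hε
    have hε0 : 0 < ε := by positivity
    have h2ε : ((2 : ℝ) ^ k)⁻¹ = 2 * ε := by
      rw [hε, pow_succ]; field_simp
    obtain ⟨U, hUcard, hUcov⟩ := exists_net n h W (ε / 8) hW0 (by positivity) hint'
    -- chosen points
    have hch : ∀ p : E n × E n, ∃ t' ∈ T,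
        (∃ y ∈ T, h (y - p.1 - (2 * ε) • p.2) < ε ^ 2 / 4) → h (t' - p.1 - (2 * ε) • p.2) < ε ^ 2 / 4 := by
      intro p
      by_cases hex : ∃ y ∈ T, h (y - p.1 - (2 * ε) • p.2) < ε ^ 2 / 4
      · obtain ⟨y, hy, hy2⟩ := hex
        exact ⟨y, hy, fun _ => hy2⟩
      · exact ⟨0, h0T, fun hc => absurd hc hex⟩
    choose g hgT hg using hch
    refine ⟨(S ×ˢ U).image g, ?_, ?_, fun hk => by omega, ?_⟩
    · intro t ht
      obtain ⟨p, _, rfl⟩ := Finset.mem_image.mp ht
      exact hgT p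
    · have hc1 : (((S ×ˢ U).image g).card : ℝ) ≤ S.card * U.card := by
        have := (Finset.card_image_le (s := S ×ˢ U) (f := g))
        rw [Finset.card_product] at this
        exact_mod_cast this
      refine hc1.trans ?_
      calc (S.card : ℝ) * U.card ≤ Real.exp (800 * W ^ 2 * 4 ^ k) *
            (2 * Real.exp (8 * W ^ 2 / (ε / 8) ^ 2)) :=
            mul_le_mul hScard hUcard (by positivity) (Real.exp_pos _).le
        _ ≤ Real.exp (800 * W ^ 2 * 4 ^ k) *
            (Real.exp 1 * Real.exp (8 * W ^ 2 / (ε / 8) ^ 2)) := by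
            have : (2 : ℝ) ≤ Real.exp 1 := by
              have := Real.add_one_le_exp (1 : ℝ); linarith
            gcongr
        _ = Real.exp (800 * W ^ 2 * 4 ^ k + (1 + 8 * W ^ 2 / (ε / 8) ^ 2)) := by
            rw [← Real.exp_add, ← Real.exp_add]
        _ ≤ Real.exp (800 * W ^ 2 * 4 ^ (k + 1)) := by
            apply Real.exp_le_exp.mpr
            have e1 : 8 * W ^ 2 / (ε / 8) ^ 2 = 512 * W ^ 2 * 4 ^ (k + 1) := by
              rw [hε]
              have : ((4 : ℝ)) ^ (k + 1) = (2 ^ (k + 1)) ^ 2 := by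
                rw [← pow_mul, mul_comm, pow_mul]; norm_num
              rw [this]
              field_simp
              norm_num
            rw [e1, pow_succ (4 : ℝ) k]
            have h4 : (1 : ℝ) ≤ 4 ^ k := one_le_pow₀ (by norm_num)
            have hW2 : 1 ≤ W ^ 2 := by nlinarith
            have : 1 ≤ W ^ 2 * 4 ^ k := by nlinarith
            nlinarith
    · intro y hy
      obtain ⟨t, htS, hyt⟩ := hScov y hy
      rw [h2ε] at hyt
      obtain ⟨u, huU, hu⟩ := hUcov ((2 * ε)⁻¹ • (y - t)) (by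
        rw [norm_smul, Real.norm_of_nonneg (by positivity), inv_mul_le_iff₀ (by positivity), mul_one]
        exact hyt)
      have h1 : h (y - t - (2 * ε) • u) < ε ^ 2 / 4 := by
        have e : y - t - (2 * ε) • u = (2 * ε) • ((2 * ε)⁻¹ • (y - t) - u) := by
          rw [smul_sub, smul_smul, mul_inv_cancel₀ (by positivity), one_smul]
        rw [e, map_smul_eq_mul, Real.norm_of_nonneg (by positivity)]
        have := mul_lt_mul_of_pos_left hu (by positivity : 0 < 2 * ε)
        calc _ < 2 * ε * (ε / 8) := this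
          _ = ε ^ 2 / 4 := by ring
      have h2 := hg (t, u) ⟨y, hy, h1⟩
      refine ⟨g (t, u), Finset.mem_image.mpr ⟨(t, u), Finset.mk_mem_product htS huU, rfl⟩, ?_⟩
      set t' := g (t, u) with ht'
      have h3 : h (y - t') < ε ^ 2 / 2 := by
        have e : y - t' = (y - t - (2 * ε) • u) - (t' - t - (2 * ε) • u) := by abel
        rw [e]
        calc _ ≤ h (y - t - (2 * ε) • u) + h (t' - t - (2 * ε) • u) := map_sub_le_add h _ _
          _ < ε ^ 2 / 2 := by linarith
      have h4 : ‖y - t'‖ ^ 2 ≤ ε ^ 2 := by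
        rw [← real_inner_self_eq_norm_sq, inner_sub_left]
        have a1 := hle y hy (y - t')
        have a2 := hle (-t') (hsym _ (hgT _)) (y - t')
        rw [inner_neg_left] at a2
        linarith
      exact le_of_sq_le_sq h4 hε0.le
where
  le_of_sq_le_sq {a b : ℝ} (h : a ^ 2 ≤ b ^ 2) (hb : 0 ≤ b) : a ≤ b :=
    le_of_abs_le ((sq_le_sq₀ (abs_nonneg a) hb).mp (by rwa [sq_abs]))

end Pool.Agent.RevMink
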