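import Pool.Agent.RevMink.LA6A

/-!
Module LA6 (helper91), geometry of the Voronoi cell.
-/

set_option autoImplicit false

open MeasureTheory ProbabilityTheory Matrix Set
open scoped RealInnerProductSpace ENNReal

namespace Pool.Agent.RevMink.LA6Aux

variable {n : ℕ} (g : Matrix (Fin n) (Fin n) ℝ)

/-- the linear map of the lattice -/
noncomputable def G (x : Fin n → ℝ) : E n := WithLp.toLp 2 (g *ᵥ x)

lemma G_add (x y : Fin n → ℝ) : G g (x + y) = G g x + G g y := by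
  simp [G, mulVec_add]

lemma G_sub (x y : Fin n → ℝ) : G g (x - y) = G g x - G g y := by
  simp [G, mulVec_sub]

lemma G_smul (t : ℝ) (x : Fin n → ℝ) : G g (t • x) = t • G g x := by
  simp [G, mulVec_smul]

lemma G_neg (x : Fin n → ℝ) : G g (-x) = - G g x := by
  simp [G, mulVec_neg]

lemma inner_E (a b : E n) : ⟪a, b⟫ = a.ofLp ⬝ᵥ b.ofLp := by
  simp only [PiLp.inner_apply, dotProduct]
  apply Finset.sum_congr rfl
  intro i _
  simp [mul_comm]

lemma inner_G (x : Fin n → ℝ) (a : E n) : ⟪G g x, a⟫ = (gᵀ *ᵥ a.ofLp) ⬝ᵥ x := by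
  rw [inner_E, G]
  simp only
  rw [dotProduct_comm, dotProduct_mulVec, ← mulVec_transpose]

lemma norm_G_sq (x : Fin n → ℝ) : ‖G g x‖ ^ 2 = qf (gᵀ * g) x := by
  rw [← real_inner_self_eq_norm_sq, inner_G, qf, G]
  simp only
  rw [mulVec_mulVec, dotProduct_comm]

lemma zc_neg (z : Fin n → ℤ) : zc (-z) = -zc z := by
  ext i; simp [zc]

lemma zc_add (z w : Fin n → ℤ) : zc (z + w) = zc z + zc w := by
  ext i; simp [zc]

lemma zc_sub (z w : Fin n → ℤ) : zc (z - w) = zc z - zc w := by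
  ext i; simp [zc]

lemma qf_nonneg (x : Fin n → ℝ) : 0 ≤ qf (gᵀ * g) x := by
  rw [← norm_G_sq]; positivity

lemma dsq_le (u : Fin n → ℝ) (z : Fin n → ℤ) : dsq (gᵀ * g) u ≤ qf (gᵀ * g) (u + zc z) :=
  ciInf_le ⟨0, by rintro _ ⟨w, rfl⟩; exact qf_nonneg g _⟩ z

lemma dsq_periodic (u : Fin n → ℝ) (z : Fin n → ℤ) : dsq (gᵀ * g) (u + zc z) = dsq (gᵀ * g) u := by
  unfold dsq
  refine (Equiv.addLeft z).iInf_congr ?_
  intro w
  simp only [Equiv.coe_addLeft]
  rw [zc_add, add_assoc]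

variable (hg : g.det ≠ 0)

include hg in
lemma G_inv (y : E n) : G g (g⁻¹ *ᵥ y.ofLp) = y := by
  rw [G, mulVec_mulVec, mul_nonsing_inv _ (isUnit_iff_ne_zero.mpr hg), one_mulVec]

include hg in
lemma inv_G (x : Fin n → ℝ) : g⁻¹ *ᵥ (G g x).ofLp = x := by
  rw [G]
  simp only
  rw [mulVec_mulVec, nonsing_inv_mul _ (isUnit_iff_ne_zero.mpr hg), one_mulVec]

include hg in
lemma finite_ball (R : ℝ) : {z : Fin n → ℤ | ‖G g (zc z)‖ ≤ R}.Finite := by
  set B : ℝ := ∑ i, ∑ j, |g⁻¹ i j| * R with hB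
  have key : ∀ z : Fin n → ℤ, ‖G g (zc z)‖ ≤ R → ∀ i, |(z i : ℝ)| ≤ B := by
    intro z hz i
    have hR : 0 ≤ R := (norm_nonneg _).trans hz
    have h1 : (z i : ℝ) = ∑ j, g⁻¹ i j * (G g (zc z)).ofLp j := by
      have := congrFun (inv_G g hg (zc z)) i
      simpa [mulVec, dotProduct, zc] using this.symm
    rw [h1]
    calc |∑ j, g⁻¹ i j * (G g (zc z)).ofLp j| ≤ ∑ j, |g⁻¹ i j * (G g (zc z)).ofLp j| :=
          Finset.abs_sum_le_sum_abs _ _
      _ ≤ ∑ j, |g⁻¹ i j| * R := by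
          apply Finset.sum_le_sum
          intro j _
          rw [abs_mul]
          apply mul_le_mul_of_nonneg_left _ (abs_nonneg _)
          refine le_trans ?_ hz
          have := PiLp.norm_apply_le (G g (zc z)) j
          simpa using this
      _ ≤ B := by
          rw [hB]
          exact Finset.single_le_sum (f := fun i => ∑ j, |g⁻¹ i j| * R)
            (fun i _ => Finset.sum_nonneg fun j _ => mul_nonneg (abs_nonneg _) hR) (Finset.mem_univ i)
  refine Set.Finite.subset (Set.finite_Icc (fun _ : Fin n => -⌈B⌉) (fun _ => ⌈B⌉)) ?_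
  intro z hz
  rw [mem_Icc, Pi.le_def, Pi.le_def]
  refine ⟨fun i => ?_, fun i => ?_⟩
  · have h1 := (abs_le.mp (key z hz i)).1
    have h2 := Int.le_ceil B
    have : (-⌈B⌉ : ℝ) ≤ z i := by push_cast; linarith
    exact_mod_cast this
  · have h1 := (abs_le.mp (key z hz i)).2
    have h2 := Int.le_ceil B
    have : (z i : ℝ) ≤ ⌈B⌉ := by linarith
    exact_mod_cast this

/-- the relevant lattice vectors -/
def Zset : Set (Fin n → ℤ) := {z | z ≠ 0 ∧ ‖G g (zc z)‖ ≤ n + 1}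

include hg in
lemma Zset_finite : (Zset g).Finite := (finite_ball g hg (n + 1)).subset fun _ hz => hz.2

/-- the normal vectors of the Voronoi cell -/
noncomputable def nv (z : Fin n → ℤ) : E n := (2 / ‖G g (zc z)‖ ^ 2) • G g (zc z)

open Classical in
/-- the polar set -/
noncomputable def NN : Finset (E n) := (Zset_finite g hg).toFinset.image (nv g)

variable (hlam : ∀ z : Fin n → ℤ, z ≠ 0 → 1 ≤ ‖G g (zc z)‖)
variable (hcov : ∀ u : Fin n → ℝ, ∃ z : Fin n → ℤ, ‖G g (u + zc z)‖ < (n : ℝ) / 2 + 1 / 4)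

include hlam in
lemma mem_polN (x : E n) : x ∈ pol (NN g hg) ↔
    ∀ z : Fin n → ℤ, z ≠ 0 → ‖G g (zc z)‖ ≤ n + 1 → 2 * ⟪G g (zc z), x⟫ ≤ ‖G g (zc z)‖ ^ 2 := by
  unfold pol NN
  simp only [Finset.mem_image, Set.Finite.mem_toFinset, Set.mem_ofPred_eq, forall_exists_index, and_imp,
    forall_apply_eq_imp_iff₂]
  constructor
  · intro h z hz hz2
    have h1 := h z ⟨hz, hz2⟩
    have hpos : 0 < ‖G g (zc z)‖ := lt_of_lt_of_le one_pos (hlam z hz)
    rw [nv, inner_smul_left] at h1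
    simp only [conj_trivial] at h1
    have h2 : 0 < ‖G g (zc z)‖ ^ 2 := by positivity
    rw [div_mul_eq_mul_div, div_le_one h2] at h1
    exact h1
  · intro h z hz
    have h1 := h z hz.1 hz.2
    have hpos : 0 < ‖G g (zc z)‖ := lt_of_lt_of_le one_pos (hlam z hz.1)
    rw [nv, inner_smul_left]
    simp only [conj_trivial]
    have h2 : 0 < ‖G g (zc z)‖ ^ 2 := by positivity
    rw [div_mul_eq_mul_div, div_le_one h2]
    exact h1

include hlam hcov hg in
lemma polN_bound (hn : 1 ≤ n) (x : E n) (hx : x ∈ pol (NN g hg)) : ‖x‖ ≤ (n : ℝ) / 2 + 1 / 4 := by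
  by_contra hcon
  push Not at hcon
  set r : ℝ := (n : ℝ) / 2 + 1 / 4 with hr
  have hr0 : 0 < r := by positivity
  have hx0 : 0 < ‖x‖ := hr0.trans hcon
  set τ : ℝ := r / ‖x‖ with hτ
  have hτ0 : 0 ≤ τ := by positivity
  have hτ1 : τ ≤ 1 := by rw [hτ, div_le_one hx0]; exact hcon.le
  rw [mem_polN g hg hlam] at hx
  set y : E n := τ • x with hy
  have hynorm : ‖y‖ = r := by
    rw [hy, norm_smul, Real.norm_eq_abs, abs_of_nonneg hτ0, hτ, div_mul_cancel₀ _ hx0.ne']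
  obtain ⟨z, hz⟩ := hcov (g⁻¹ *ᵥ y.ofLp)
  rw [G_add, G_inv g hg y] at hz
  have hz0 : z ≠ 0 := by
    rintro rfl
    have : G g (zc (0 : Fin n → ℤ)) = 0 := by
      have : zc (0 : Fin n → ℤ) = 0 := by ext i; simp [zc]
      rw [this, G]; simp
    rw [this, add_zero, hynorm] at hz
    exact lt_irrefl _ hz
  have hnr : (1 : ℝ) ≤ n := by exact_mod_cast hn
  have hGz : ‖G g (zc z)‖ ≤ n + 1 := by
    calc ‖G g (zc z)‖ = ‖(y + G g (zc z)) - y‖ := by congr 1; abel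
      _ ≤ ‖y + G g (zc z)‖ + ‖y‖ := norm_sub_le _ _
      _ ≤ r + r := by rw [hynorm]; linarith
      _ ≤ n + 1 := by rw [hr]; linarith
  -- the vector `-z`
  have h1 := hx (-z) (neg_ne_zero.mpr hz0) (by rw [zc_neg, G_neg, norm_neg]; exact hGz)
  rw [zc_neg, G_neg, norm_neg, inner_neg_left] at h1
  have h2 : ‖y + G g (zc z)‖ ^ 2 < ‖y‖ ^ 2 := by
    rw [hynorm]
    exact pow_lt_pow_left₀ hz (norm_nonneg _) two_ne_zero
  rw [norm_add_sq_real] at h2
  have h3 : ⟪y, G g (zc z)⟫ = τ * ⟪G g (zc z), x⟫ := by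
    rw [hy, inner_smul_left, real_inner_comm]; simp
  rw [h3] at h2
  have h4 : τ * (2 * -⟪G g (zc z), x⟫) ≤ τ * ‖G g (zc z)‖ ^ 2 := mul_le_mul_of_nonneg_left h1 hτ0
  have h5 : τ * ‖G g (zc z)‖ ^ 2 ≤ ‖G g (zc z)‖ ^ 2 := by
    have : 0 ≤ ‖G g (zc z)‖ ^ 2 := by positivity
    nlinarith
  nlinarith

include hlam in
lemma NN_symm (f : E n) (hf : f ∈ NN g hg) : -f ∈ NN g hg := by
  unfold NN at hf ⊢
  simp only [Finset.mem_image, Set.Finite.mem_toFinset] at hf ⊢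
  obtain ⟨z, hz, rfl⟩ := hf
  refine ⟨-z, ⟨neg_ne_zero.mpr hz.1, by rw [zc_neg, G_neg, norm_neg]; exact hz.2⟩, ?_⟩
  rw [nv, nv, zc_neg, G_neg, norm_neg, smul_neg]

include hlam in
lemma NN_norm (f : E n) (hf : f ∈ NN g hg) : ‖f‖ ≤ 2 := by
  unfold NN at hf
  simp only [Finset.mem_image, Set.Finite.mem_toFinset] at hf
  obtain ⟨z, hz, rfl⟩ := hf
  have h1 := hlam z hz.1
  have h0 : 0 < ‖G g (zc z)‖ := by linarith
  rw [nv, norm_smul, Real.norm_eq_abs, abs_of_nonneg (by positivity)]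
  have : 2 / ‖G g (zc z)‖ ^ 2 * ‖G g (zc z)‖ = 2 / ‖G g (zc z)‖ := by
    field_simp
  rw [this, div_le_iff₀ h0]
  linarith

include hlam hcov in
lemma NN_nonempty (hn : 1 ≤ n) : (NN g hg).Nonempty := by
  by_contra hcon
  rw [Finset.not_nonempty_iff_eq_empty] at hcon
  have hall : ∀ x : E n, x ∈ pol (NN g hg) := by
    intro x
    rw [hcon]
    intro f hf
    simp at hf
  have := polN_bound g hg hlam hcov hn (((n : ℝ) + 1) • EuclideanSpace.single (⟨0, hn⟩ : Fin n) (1 : ℝ))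
    (hall _)
  rw [norm_smul] at this
  simp only [EuclideanSpace.norm_single, norm_one, mul_one, Real.norm_eq_abs] at this
  rw [abs_of_nonneg (by positivity)] at this
  have hnr : (1 : ℝ) ≤ n := by exact_mod_cast hn
  linarith

end Pool.Agent.RevMink.LA6Aux
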