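import Pool.Agent.RevMink.LA6B

/-!
Module LA6 (helper91), Gaussian measure of the Voronoi cell.
-/

set_option autoImplicit false

open MeasureTheory ProbabilityTheory Matrix Set
open scoped RealInnerProductSpace ENNReal

namespace Pool.Agent.RevMink.LA6Aux

variable {n : ℕ} (g : Matrix (Fin n) (Fin n) ℝ) (hg : g.det ≠ 0)
variable (hlam : ∀ z : Fin n → ℤ, z ≠ 0 → 1 ≤ ‖G g (zc z)‖)
variable (hcov : ∀ u : Fin n → ℝ, ∃ z : Fin n → ℤ, ‖G g (u + zc z)‖ < (n : ℝ) / 2 + 1 / 4)

/-- the open Voronoi cell in coordinates -/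
def WW : Set (Fin n → ℝ) := {u | ∀ z : Fin n → ℤ, z ≠ 0 → 2 * ⟪G g (zc z), G g u⟫ < ‖G g (zc z)‖ ^ 2}

lemma continuous_G : Continuous (G g) := by
  unfold G
  have h1 : Continuous (fun x : Fin n → ℝ => g *ᵥ x) := by
    apply Continuous.matrix_mulVec continuous_const continuous_id
  exact (PiLp.continuous_toLp 2 _).comp h1

lemma measurable_WW : MeasurableSet (WW g) := by
  have : WW g = ⋂ z : Fin n → ℤ, {u | z ≠ 0 → 2 * ⟪G g (zc z), G g u⟫ < ‖G g (zc z)‖ ^ 2} := by
    ext u; simp [WW]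
  rw [this]
  apply MeasurableSet.iInter
  intro z
  by_cases hz : z = 0
  · subst hz; simp
  · have h2 : {u : Fin n → ℝ | z ≠ 0 → 2 * ⟪G g (zc z), G g u⟫ < ‖G g (zc z)‖ ^ 2} =
        {u | 2 * ⟪G g (zc z), G g u⟫ < ‖G g (zc z)‖ ^ 2} := by
      ext u; simp [hz]
    rw [h2]
    apply IsOpen.measurableSet
    apply isOpen_lt _ continuous_const
    exact continuous_const.mul (continuous_const.inner (continuous_G g))

lemma volume_WW : volume (WW g) ≤ 1 := by
  apply vol_le_one _ (measurable_WW g)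
  intro z hz u hu hu2
  have h1 := hu2 z hz
  have h2 := hu (-z) (neg_ne_zero.mpr hz)
  rw [zc_neg, G_neg, norm_neg, inner_neg_left] at h2
  rw [G_add, inner_add_right, real_inner_self_eq_norm_sq] at h1
  linarith

lemma polN_measurable (N : Finset (E n)) : MeasurableSet (pol N) := by
  have : pol N = ⋂ f ∈ N, {x : E n | ⟪f, x⟫ ≤ 1} := by
    ext x; simp [pol]
  rw [this]
  apply Finset.measurableSet_biInter
  intro f _
  apply IsClosed.measurableSet
  exact isClosed_le (continuous_const.inner continuous_id) continuous_const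

include hlam hcov in
lemma polN_subset (hn : 1 ≤ n) (y : Fin n → ℝ) (hy : WithLp.toLp 2 y ∈ pol (NN g hg)) :
    g⁻¹ *ᵥ ((9 / 10 : ℝ) • y) ∈ WW g := by
  have hb := polN_bound g hg hlam hcov hn _ hy
  rw [mem_polN g hg hlam] at hy
  intro z hz
  have h1 : G g (g⁻¹ *ᵥ ((9 / 10 : ℝ) • y)) = (9 / 10 : ℝ) • (WithLp.toLp 2 y : E n) := by
    have := G_inv g hg (WithLp.toLp 2 ((9 / 10 : ℝ) • y))
    rw [← WithLp.toLp_smul] 
    exact this
  rw [h1, inner_smul_right]
  have hpos : 1 ≤ ‖G g (zc z)‖ := hlam z hz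
  by_cases hz2 : ‖G g (zc z)‖ ≤ n + 1
  · have h2 := hy z hz hz2
    nlinarith
  · push Not at hz2
    have h3 : ⟪G g (zc z), (WithLp.toLp 2 y : E n)⟫ ≤ ‖G g (zc z)‖ * ‖(WithLp.toLp 2 y : E n)‖ :=
      real_inner_le_norm _ _
    have h4 : ‖G g (zc z)‖ * ‖(WithLp.toLp 2 y : E n)‖ ≤ ‖G g (zc z)‖ * ((n : ℝ) / 2 + 1 / 4) :=
      mul_le_mul_of_nonneg_left hb (by linarith)
    have hn0 : (0 : ℝ) ≤ n := Nat.cast_nonneg n
    nlinarith

include hlam hcov in
lemma gam_polN (hn : 1 ≤ n) (hdet : |g.det| = 1) : gam n (pol (NN g hg)) ≤ 1 / 2 := by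
  set T : Set (Fin n → ℝ) := {y | (WithLp.toLp 2 y : E n) ∈ pol (NN g hg)} with hT
  have hTm : MeasurableSet T := by
    have h1 : Measurable (fun y : Fin n → ℝ => (WithLp.toLp 2 y : E n)) :=
      (PiLp.continuous_toLp 2 _).measurable
    exact h1 (polN_measurable _)
  have h1 : gam n (pol (NN g hg)) = (Measure.pi fun _ : Fin n => gaussianReal 0 1) T := by
    rw [gam, ← map_pi_eq_stdGaussian, Measure.map_apply
      (PiLp.continuous_toLp 2 _).measurable (polN_measurable _)]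
    rfl
  rw [h1]
  have h2 : volume T ≤ ENNReal.ofReal (10 / 9) ^ n := by
    have hsub : T ⊆ (Matrix.toLin' ((10 / 9 : ℝ) • g)) '' (WW g) := by
      intro y hy
      refine ⟨g⁻¹ *ᵥ ((9 / 10 : ℝ) • y), polN_subset g hg hlam hcov hn y hy, ?_⟩
      rw [Matrix.toLin'_apply, smul_mulVec, mulVec_mulVec,
        mul_nonsing_inv _ (isUnit_iff_ne_zero.mpr hg), one_mulVec, smul_smul]
      norm_num
    calc volume T ≤ volume ((Matrix.toLin' ((10 / 9 : ℝ) • g)) '' (WW g)) := measure_mono hsub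
      _ = ENNReal.ofReal |LinearMap.det (Matrix.toLin' ((10 / 9 : ℝ) • g))| * volume (WW g) :=
          Measure.addHaar_image_linearMap _ _ _
      _ ≤ ENNReal.ofReal |LinearMap.det (Matrix.toLin' ((10 / 9 : ℝ) • g))| * 1 := by
          gcongr
          exact volume_WW g
      _ = ENNReal.ofReal (10 / 9) ^ n := by
          rw [mul_one, LinearMap.det_toLin', det_smul, abs_mul, hdet, mul_one, abs_pow,
            abs_of_pos (by norm_num : (0:ℝ) < 10 / 9), Fintype.card_fin,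
            ENNReal.ofReal_pow (by norm_num)]
  calc (Measure.pi fun _ : Fin n => gaussianReal 0 1) T
      ≤ ENNReal.ofReal (2 / 5) ^ n * volume T := pi_gauss_le n T hTm
    _ ≤ ENNReal.ofReal (2 / 5) ^ n * ENNReal.ofReal (10 / 9) ^ n := by gcongr
    _ = ENNReal.ofReal ((4 / 9) ^ n) := by
        rw [← mul_pow, ← ENNReal.ofReal_mul (by norm_num), ENNReal.ofReal_pow (by norm_num)]
        norm_num
    _ ≤ ENNReal.ofReal (1 / 2) := by
        apply ENNReal.ofReal_le_ofReal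
        calc (4 / 9 : ℝ) ^ n ≤ (4 / 9 : ℝ) ^ 1 :=
              pow_le_pow_of_le_one (by norm_num) (by norm_num) hn
          _ ≤ 1 / 2 := by norm_num
    _ = 1 / 2 := by
        rw [ENNReal.ofReal_div_of_pos (by norm_num)]
        simp

end Pool.Agent.RevMink.LA6Aux
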